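import Mathlib
import Pool.Agent.AbcF.Balanced

/-!
# Weak abc for almost all sets of primes: definitions

`ord v x` (exponent of the finite place `v`), `hgt x` (unnormalised height `[K:ℚ] h(x)`), `cnd x`
(unnormalised conductor) are from `Pool.Agent.H7.Abc.Height`; `ln v = log N v` from
`Pool.Agent.AbcE.Defs`.
-/

namespace Pool.Agent.TMS

open NumberField IsDedekindDomain Pool.Agent.H7.Abc Pool.Agent.AbcE

/-- The support of `x`: the finite places at which `x` or `x - 1` is not a unit. -/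
def supp {K : Type*} [Field K] [NumberField K] (x : K) : Set (HeightOneSpectrum (𝓞 K)) :=
  {v | ord v x ≠ 0 ∨ ord v (x - 1) ≠ 0}

/-- `log N rad(x)`. -/
noncomputable def rad {K : Type*} [Field K] [NumberField K] (x : K) : ℝ :=
  cnd x + cnd x⁻¹ + cnd (x - 1)

/-- `x - 1` is a `T`-unit and the exponents of `x` outside `T` are multiples of `e`. -/
def XX (K : Type*) [Field K] [NumberField K] (e : ℕ)
    (T : Finset (HeightOneSpectrum (𝓞 K))) : Set K :=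
  {x | x ≠ 0 ∧ x ≠ 1 ∧ ∀ v, v ∉ T → ord v (x - 1) = 0 ∧ (e : ℤ) ∣ ord v x}

/-- Coefficients of the Padé numerator. -/
def pa (e n k : ℕ) : ℚ :=
  ((∏ j ∈ Finset.Ioc k n, ((e : ℚ) * j - 1)) / ((n - k).factorial : ℚ)) *
    ((∏ j ∈ Finset.Ioc (n - k) n, ((e : ℚ) * j + 1)) / (k.factorial : ℚ))

/-- Coefficients of the Padé denominator. -/
def pb (e n k : ℕ) : ℚ :=
  ((∏ j ∈ Finset.Ioc k n, ((e : ℚ) * j + 1)) / ((n - k).factorial : ℚ)) *
    ((∏ j ∈ Finset.Ioc (n - k) n, ((e : ℚ) * j - 1)) / (k.factorial : ℚ))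

/-- Integral coefficients (`e ^ n * pa` is an integer, module `PadeInt`). -/
def cA (e n k : ℕ) : ℤ := ((e : ℚ) ^ n * pa e n k).num

/-- Integral coefficients (`e ^ n * pb` is an integer, module `PadeInt`). -/
def cB (e n k : ℕ) : ℤ := ((e : ℚ) ^ n * pb e n k).num

/-- The polynomial `P_n`. With `x = Y ^ e` one has `Y Q_n(x) - P_n(x) = O((Y - 1) ^ (2 n + 1))`. -/
def PP {R : Type*} [CommRing R] (e n : ℕ) (x : R) : R :=
  ∑ k ∈ Finset.range (n + 1), (cA e n k : R) * x ^ k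

/-- The polynomial `Q_n`. -/
def QQ {R : Type*} [CommRing R] (e n : ℕ) (x : R) : R :=
  ∑ k ∈ Finset.range (n + 1), (cB e n k : R) * x ^ k

/-- Two elements in the same class: `x2 = ρ ^ e x1`, and there are sets `Vf`, `Vi` of finite and
infinite places at which both are close to `1` and `ρ` is close to `1`, and which carry `9 / 10` of
the height. -/
def Rel {K : Type*} [Field K] [NumberField K] (e : ℕ) (x1 x2 : K) : Prop :=
  ∃ (ρ : K) (Vf : Finset (HeightOneSpectrum (𝓞 K))) (Vi : Finset (InfinitePlace K)),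
    ρ ≠ 0 ∧ ρ ^ e * x1 = x2 ∧
    (∀ v ∈ Vf, FinitePlace.mk v (x1 - 1) < FinitePlace.mk v (e : K) ^ 2) ∧
    (∀ v ∈ Vf, FinitePlace.mk v (x2 - 1) < FinitePlace.mk v (e : K) ^ 2) ∧
    (∀ v ∈ Vf, FinitePlace.mk v (ρ - 1) < FinitePlace.mk v (e : K)) ∧
    (∀ w ∈ Vi, w (x1 - 1) ≤ 1 / 4) ∧ (∀ w ∈ Vi, w (x2 - 1) ≤ 1 / 4) ∧
    (∀ w ∈ Vi, |Complex.arg (w.embedding ρ)| ≤ Real.pi / (4 * e)) ∧
    ∀ a : ℝ, 1 ≤ a → (9 / 10) * min (a * hgt x1) (hgt x2) ≤
      ∑ v ∈ Vf, min (a * ((ord v (x1 - 1) : ℝ) * ln v)) ((ord v (x2 - 1) : ℝ) * ln v) +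
      ∑ w ∈ Vi, (w.mult : ℝ) * min (a * (-Real.log (w (x1 - 1)))) (-Real.log (w (x2 - 1)))

/-- Some `x` has support exactly `S`. -/
def Cond {K : Type*} [Field K] [NumberField K]
    (S : Finset (HeightOneSpectrum (𝓞 K))) : Prop :=
  ∃ x : K, x ≠ 0 ∧ x ≠ 1 ∧ supp x = (S : Set (HeightOneSpectrum (𝓞 K)))

end Pool.Agent.TMS
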