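import Mathlib
import Pool.Agent.TMS.Defs
import Pool.Agent.AbcE.Selmer
import Pool.Agent.AbcE.Local

/-!
# Mob (size 2)

`supp_finite`: `finite_support` for `x` and `x - 1`. `rad_eq`: at a place `v` exactly one of
`|x|_v < 1`, `|x|_v > 1`, `|x - 1|_v < 1` holds if `v ∈ supp x`, and none otherwise (if `ord v x > 0` then
`ord v (x - 1) = 0`; if `ord v x < 0` then `ord v (x - 1) = ord v x < 0`; if `ord v x = 0` then
`ord v (x - 1) ≥ 0`), so the three finsums `cnd` add up to `∑_{v ∈ S} ln v`.
`mob`: let `x` have support `insert v T`, `v ∉ T`. If `ord v x > 0` take `x`; if `ord v x = 0` then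
`ord v (x - 1) > 0`: take `1 - x`; if `ord v x < 0` take `x⁻¹` (`x⁻¹ - 1 = (1 - x) / x`). The support does
not change, and for `w ∉ T`, `w ≠ v` both exponents are `0`.
-/

namespace Pool.Agent.TMS

open NumberField IsDedekindDomain Pool.Agent.H7.Abc Pool.Agent.AbcE

variable {K : Type*} [Field K] [NumberField K]

private theorem mob_pos_iff (v : HeightOneSpectrum (𝓞 K)) {x : K} (hx : x ≠ 0) :
    0 < ord v x ↔ FinitePlace.mk v x < 1 := by
  rw [mk_eq_zpow v hx, zpow_lt_one_iff_right₀ (one_lt_norm v)]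
  omega

private theorem mob_neg_iff (v : HeightOneSpectrum (𝓞 K)) {x : K} (hx : x ≠ 0) :
    ord v x < 0 ↔ 1 < FinitePlace.mk v x := by
  rw [mk_eq_zpow v hx, one_lt_zpow_iff_right₀ (one_lt_norm v)]
  omega

private theorem mob_a (v : HeightOneSpectrum (𝓞 K)) {x : K} (h : FinitePlace.mk v x < 1) :
    FinitePlace.mk v (x - 1) = 1 := by
  have h1 := fp_sub_le (FinitePlace.mk v) x 1
  have h2 := fp_sub_le (FinitePlace.mk v) x (x - 1)
  rw [sub_sub_cancel, map_one] at h2
  rw [map_one, max_eq_right h.le] at h1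
  rcases le_max_iff.1 h2 with h3 | h3
  · linarith
  · exact le_antisymm h1 h3

private theorem mob_b (v : HeightOneSpectrum (𝓞 K)) {x : K} (h : 1 < FinitePlace.mk v x) :
    FinitePlace.mk v (x - 1) = FinitePlace.mk v x := by
  have h1 := fp_sub_le (FinitePlace.mk v) x 1
  have h2 := FinitePlace.add_le (FinitePlace.mk v) (x - 1) 1
  rw [sub_add_cancel, map_one] at h2
  rw [map_one, max_eq_left h.le] at h1
  rcases le_max_iff.1 h2 with h3 | h3
  · exact le_antisymm h1 h3
  · linarith

private theorem mob_c (v : HeightOneSpectrum (𝓞 K)) {x : K} (h : FinitePlace.mk v x = 1) :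
    FinitePlace.mk v (x - 1) ≤ 1 := by
  have h1 := fp_sub_le (FinitePlace.mk v) x 1
  rwa [map_one, h, max_self] at h1

theorem supp_finite {x : K} (hx : x ≠ 0) (hx1 : x ≠ 1) : (supp x).Finite := by
  refine ((finite_support hx).union (finite_support (sub_ne_zero.2 hx1))).subset ?_
  intro v hv
  rcases hv with h | h
  · exact Or.inl fun h1 => h ((ord_eq_zero_iff v hx).2 h1)
  · exact Or.inr fun h1 => h ((ord_eq_zero_iff v (sub_ne_zero.2 hx1)).2 h1)

theorem rad_eq {x : K} (hx : x ≠ 0) (hx1 : x ≠ 1) (S : Finset (HeightOneSpectrum (𝓞 K)))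
    (hS : supp x = (S : Set (HeightOneSpectrum (𝓞 K)))) : rad x = ∑ v ∈ S, ln v := by
  classical
  have hx1' : x - 1 ≠ 0 := sub_ne_zero.2 hx1
  unfold rad cnd
  rw [← finsum_add_distrib (finite_support_cnd hx) (finite_support_cnd (inv_ne_zero hx)),
    ← finsum_add_distrib _ (finite_support_cnd hx1')]
  · have hpt : ∀ v : HeightOneSpectrum (𝓞 K),
        ((if FinitePlace.mk v x < 1 then Real.log (Ideal.absNorm v.asIdeal : ℝ) else 0) +
        (if FinitePlace.mk v x⁻¹ < 1 then Real.log (Ideal.absNorm v.asIdeal : ℝ) else 0)) +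
        (if FinitePlace.mk v (x - 1) < 1 then Real.log (Ideal.absNorm v.asIdeal : ℝ) else 0) =
        if v ∈ S then ln v else 0 := by
      intro v
      have hmem : v ∈ S ↔ ord v x ≠ 0 ∨ ord v (x - 1) ≠ 0 := by
        rw [← Finset.mem_coe, ← hS]; rfl
      have hpos : 0 < FinitePlace.mk v x := FinitePlace.pos_iff.2 hx
      have hinv : FinitePlace.mk v x⁻¹ < 1 ↔ 1 < FinitePlace.mk v x := by
        rw [mk_inv, inv_lt_one₀ hpos]
      rcases lt_trichotomy (FinitePlace.mk v x) 1 with h | h | h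
      · have h2 := mob_a v h
        have h3 : v ∈ S := hmem.2 (Or.inl ((mob_pos_iff v hx).2 h).ne')
        rw [if_pos h, if_neg (by rw [hinv]; exact not_lt.2 h.le), if_neg (by rw [h2]; exact lt_irrefl _),
          if_pos h3]
        simp [ln]
      · have h2 := mob_c v h
        rw [if_neg (by rw [h]; exact lt_irrefl _), if_neg (by rw [hinv, h]; exact lt_irrefl _)]
        by_cases h3 : FinitePlace.mk v (x - 1) < 1
        · have h4 : v ∈ S := hmem.2 (Or.inr ((mob_pos_iff v hx1').2 h3).ne')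
          rw [if_pos h3, if_pos h4]
          simp [ln]
        · have h4 : v ∉ S := by
            rw [hmem]
            push Not
            exact ⟨(ord_eq_zero_iff v hx).2 h,
              (ord_eq_zero_iff v hx1').2 (le_antisymm h2 (not_lt.1 h3))⟩
          rw [if_neg h3, if_neg h4]
          simp
      · have h2 := mob_b v h
        have h3 : v ∈ S := hmem.2 (Or.inl ((mob_neg_iff v hx).2 h).ne)
        rw [if_neg (not_lt.2 h.le), if_pos (hinv.2 h), if_neg (by rw [h2]; exact not_lt.2 h.le),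
          if_pos h3]
        simp [ln]
    rw [finsum_congr hpt]
    rw [finsum_eq_sum_of_support_subset (s := S)]
    · exact Finset.sum_congr rfl fun v hv => if_pos hv
    · intro v hv
      by_contra h
      apply hv
      exact if_neg h
  · refine ((finite_support_cnd hx).union (finite_support_cnd (inv_ne_zero hx))).subset ?_
    exact Function.support_add _ _

private theorem mob_ord_neg (v : HeightOneSpectrum (𝓞 K)) (x : K) : ord v (-x) = ord v x := by
  unfold ord
  rw [Valuation.map_neg]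

private theorem mob_ord_inv (v : HeightOneSpectrum (𝓞 K)) {x : K} (hx : x ≠ 0) :
    ord v x⁻¹ = -ord v x := by
  rw [← one_div, ord_div v one_ne_zero hx, SelmerAux.ord_one, zero_sub]

open Classical in
theorem mob (T : Finset (HeightOneSpectrum (𝓞 K))) (v : HeightOneSpectrum (𝓞 K)) (hv : v ∉ T)
    (h : Cond (K := K) (insert v T)) :
    ∃ x : K, x ≠ 0 ∧ x ≠ 1 ∧ 0 < ord v x ∧
      ∀ w, w ∉ T → ord w (x - 1) = 0 ∧ (w ≠ v → ord w x = 0) := by
  obtain ⟨x, hx, hx1, hS⟩ := h
  have hx1' : x - 1 ≠ 0 := sub_ne_zero.2 hx1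
  have hmem : ∀ w, w ∈ insert v T ↔ ord w x ≠ 0 ∨ ord w (x - 1) ≠ 0 := by
    intro w
    rw [← Finset.mem_coe, ← hS]; rfl
  have hout : ∀ w, w ∉ T → w ≠ v → ord w x = 0 ∧ ord w (x - 1) = 0 := by
    intro w hw hwv
    have h1 : w ∉ insert v T := by
      rw [Finset.mem_insert]
      push Not
      exact ⟨hwv, hw⟩
    rw [hmem] at h1
    push Not at h1
    exact h1
  have hv1 := (hmem v).1 (Finset.mem_insert_self v T)
  rcases lt_trichotomy (FinitePlace.mk v x) 1 with h | h | h
  · refine ⟨x, hx, hx1, (mob_pos_iff v hx).2 h, fun w hw => ?_⟩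
    by_cases hwv : w = v
    · subst hwv
      exact ⟨(ord_eq_zero_iff w hx1').2 (mob_a w h), fun h => absurd rfl h⟩
    · exact ⟨(hout w hw hwv).2, fun _ => (hout w hw hwv).1⟩
  · have h0 : ord v x = 0 := (ord_eq_zero_iff v hx).2 h
    have h2 := mob_c v h
    have h3 : ord v (x - 1) ≠ 0 := by
      rcases hv1 with h | h
      · exact absurd h0 h
      · exact h
    have h4 : FinitePlace.mk v (x - 1) < 1 :=
      lt_of_le_of_ne h2 fun h => h3 ((ord_eq_zero_iff v hx1').2 h)
    have e1 : (1 - x) = -(x - 1) := by ring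
    have e2 : (1 - x) - 1 = -x := by ring
    refine ⟨1 - x, ?_, ?_, ?_, fun w hw => ?_⟩
    · rw [e1]; exact neg_ne_zero.2 hx1'
    · intro h; apply hx; have : 1 - x - 1 = 0 := by rw [h, sub_self]
      rw [e2] at this; exact neg_eq_zero.1 this
    · rw [e1, mob_ord_neg]; exact (mob_pos_iff v hx1').2 h4
    · rw [e2, mob_ord_neg, e1, mob_ord_neg]
      by_cases hwv : w = v
      · subst hwv
        exact ⟨h0, fun h => absurd rfl h⟩
      · exact ⟨(hout w hw hwv).1, fun _ => (hout w hw hwv).2⟩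
  · have h2 := mob_b v h
    have e2 : x⁻¹ - 1 = -((x - 1) / x) := by field_simp; ring
    have e3 : ∀ w, ord w (x⁻¹ - 1) = ord w (x - 1) - ord w x := by
      intro w
      rw [e2, mob_ord_neg, ord_div w hx1' hx]
    refine ⟨x⁻¹, inv_ne_zero hx, ?_, ?_, fun w hw => ?_⟩
    · intro h; apply hx1; rw [← inv_inv x, h, inv_one]
    · rw [mob_ord_inv v hx]
      have := (mob_neg_iff v hx).2 h
      omega
    · rw [e3, mob_ord_inv w hx]
      by_cases hwv : w = v
      · subst hwv
        refine ⟨?_, fun h => absurd rfl h⟩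
        have hN := one_lt_norm w
        rw [mk_eq_zpow w hx1', mk_eq_zpow w hx] at h2
        have := zpow_right_injective₀ (by linarith) hN.ne' h2
        omega
      · have := hout w hw hwv
        refine ⟨by rw [this.1, this.2, sub_zero], fun _ => by rw [this.1, neg_zero]⟩

end Pool.Agent.TMS
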