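import Mathlib
import Pool.Agent.TMS.Defs

/-!
Finite sets of ideals and of places of bounded norm.
-/

namespace Pool.Agent.TMS

open NumberField IsDedekindDomain Pool.Agent.H7.Abc Pool.Agent.AbcE

open Classical in
/-- The nonzero ideals of norm at most `y`. -/
noncomputable def idl (K : Type*) [Field K] [NumberField K] (y : ℝ) : Finset (Ideal (𝓞 K)) :=
  ((Ideal.finite_setOfPred_absNorm_le (S := 𝓞 K) ⌊y⌋₊).toFinset).filter
    (fun I => I ≠ ⊥ ∧ (Ideal.absNorm I : ℝ) ≤ y)

/-- The places of norm at most `y`. -/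
noncomputable def plc (K : Type*) [Field K] [NumberField K] (y : ℝ) :
    Finset (HeightOneSpectrum (𝓞 K)) := (finite_norm_le K y).toFinset

theorem mem_plc {K : Type*} [Field K] [NumberField K] {y : ℝ} {v : HeightOneSpectrum (𝓞 K)} :
    v ∈ plc K y ↔ (Ideal.absNorm v.asIdeal : ℝ) ≤ y := by
  simp [plc]

theorem mem_idl {K : Type*} [Field K] [NumberField K] {y : ℝ} {I : Ideal (𝓞 K)} :
    I ∈ idl K y ↔ I ≠ ⊥ ∧ (Ideal.absNorm I : ℝ) ≤ y := by
  unfold idl
  rw [Finset.mem_filter, Set.Finite.mem_toFinset]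
  constructor
  · exact fun h => h.2
  · exact fun h => ⟨Nat.le_floor h.2, h⟩

end Pool.Agent.TMS
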