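import Mathlib
import Pool.Agent.TMS.IdDefs

/-!
# IdAsym (size 3)

`idl_tendsto`: `Ideal.tendsto_norm_le_div_atTop₀` (Mathlib; see its use in
`Pool/Agent/H7/Abc/Zeta.lean`, `partial_sums`); the limit `NumberField.dedekindZeta_residue K` is positive
(`dedekindZeta_residue_pos`). The count there contains or does not contain the zero ideal; one ideal
more does not change the limit.
`idl_le`: bounded for large `y` by the limit, and for `1 ≤ y ≤ y0` by `card (idl K y0)`.
`idl_dvd`: `I = J * I'` with `I'` nonzero, `N I = N J * N I'`: a bijection.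
`plc_card_le`: a place is a nonzero ideal of the same norm (`v ↦ v.asIdeal` is injective).
-/

namespace Pool.Agent.TMS

open NumberField IsDedekindDomain Pool.Agent.H7.Abc Pool.Agent.AbcE Filter Topology

open scoped nonZeroDivisors

private theorem card_idl_eq (K : Type*) [Field K] [NumberField K] (s : ℝ) :
    Nat.card {I : (Ideal (𝓞 K))⁰ // (Ideal.absNorm (I : Ideal (𝓞 K)) : ℝ) ≤ s} =
      (idl K s).card := by
  classical
  rw [← Nat.card_eq_fintype_card.trans (Fintype.card_coe (idl K s))]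
  refine Nat.card_congr ⟨fun I => ⟨I.1.1, mem_idl.2 ⟨nonZeroDivisors.ne_zero I.1.2, I.2⟩⟩,
    fun I => ⟨⟨I.1, mem_nonZeroDivisors_iff_ne_zero.2 (mem_idl.1 I.2).1⟩, (mem_idl.1 I.2).2⟩,
    fun I => rfl, fun I => rfl⟩

theorem idl_tendsto (K : Type*) [Field K] [NumberField K] :
    ∃ κ : ℝ, 0 < κ ∧ Tendsto (fun y : ℝ => ((idl K y).card : ℝ) / y) atTop (𝓝 κ) := by
  refine ⟨dedekindZeta_residue K, dedekindZeta_residue_pos K, ?_⟩
  refine (Ideal.tendsto_norm_le_div_atTop₀ K).congr fun s => ?_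
  rw [card_idl_eq]

private theorem idl_mono {K : Type*} [Field K] [NumberField K] {y z : ℝ} (h : y ≤ z) :
    idl K y ⊆ idl K z := by
  intro I hI
  rw [mem_idl] at hI ⊢
  exact ⟨hI.1, hI.2.trans h⟩

theorem idl_le (K : Type*) [Field K] [NumberField K] :
    ∃ C : ℝ, 0 < C ∧ ∀ y : ℝ, 0 ≤ y → ((idl K y).card : ℝ) ≤ C * y := by
  obtain ⟨κ, hκ, ht⟩ := idl_tendsto K
  have h1 : ∀ᶠ y : ℝ in atTop, ((idl K y).card : ℝ) / y < κ + 1 :=
    ht.eventually_lt_const (by linarith)
  obtain ⟨y0, hy0⟩ := (h1.and (eventually_ge_atTop 1)).exists_forall_of_atTop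
  refine ⟨κ + 1 + (idl K y0).card, by positivity, fun y hy => ?_⟩
  by_cases hy1 : y < 1
  · have : idl K y = ∅ := by
      rw [Finset.eq_empty_iff_forall_notMem]
      intro I hI
      rw [mem_idl] at hI
      have h2 : Ideal.absNorm I ≠ 0 := by
        rw [Ne, Ideal.absNorm_eq_zero_iff]; exact hI.1
      have h3 : (1 : ℝ) ≤ Ideal.absNorm I := by exact_mod_cast Nat.one_le_iff_ne_zero.2 h2
      linarith [hI.2]
    rw [this, Finset.card_empty, Nat.cast_zero]
    positivity
  · push Not at hy1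
    rcases le_total y0 y with h | h
    · have h2 := (hy0 y h).1
      rw [div_lt_iff₀ (by linarith)] at h2
      have : (0 : ℝ) ≤ (idl K y0).card * y := by positivity
      linarith [h2, this]
    · have h2 : ((idl K y).card : ℝ) ≤ (idl K y0).card := by
        exact_mod_cast Finset.card_le_card (idl_mono h)
      have h3 : ((idl K y0).card : ℝ) * 1 ≤ (idl K y0).card * y :=
        mul_le_mul_of_nonneg_left hy1 (Nat.cast_nonneg _)
      have h4 : 0 ≤ (κ + 1) * y := by positivity
      linarith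

open Classical in
theorem idl_dvd (K : Type*) [Field K] [NumberField K] (J : Ideal (𝓞 K)) (hJ : J ≠ ⊥) (y : ℝ) :
    ((idl K y).filter (fun I => J ∣ I)).card = (idl K (y / Ideal.absNorm J)).card := by
  have hN : Ideal.absNorm J ≠ 0 := by
    rw [Ne, Ideal.absNorm_eq_zero_iff]; exact hJ
  have hN0 : (0 : ℝ) < Ideal.absNorm J := by exact_mod_cast Nat.pos_of_ne_zero hN
  symm
  refine Finset.card_bij (fun I _ => J * I) ?_ ?_ ?_
  · intro I hI
    rw [mem_idl] at hI
    rw [Finset.mem_filter, mem_idl]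
    refine ⟨⟨?_, ?_⟩, dvd_mul_right _ _⟩
    · exact mul_ne_zero hJ hI.1
    · rw [map_mul, Nat.cast_mul]
      have := hI.2
      rw [le_div_iff₀ hN0] at this
      linarith
  · intro a _ b _ hab
    exact mul_left_cancel₀ hJ hab
  · intro b hb
    rw [Finset.mem_filter, mem_idl] at hb
    obtain ⟨⟨hb1, hb2⟩, c, rfl⟩ := hb
    refine ⟨c, ?_, rfl⟩
    rw [mem_idl]
    refine ⟨?_, ?_⟩
    · rintro rfl
      exact hb1 (mul_zero _)
    · rw [map_mul, Nat.cast_mul] at hb2
      rw [le_div_iff₀ hN0]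
      linarith

theorem plc_card_le (K : Type*) [Field K] [NumberField K] :
    ∃ C : ℝ, 0 < C ∧ ∀ y : ℝ, 0 ≤ y → ((plc K y).card : ℝ) ≤ C * y := by
  obtain ⟨C, hC, h⟩ := idl_le K
  refine ⟨C, hC, fun y hy => le_trans ?_ (h y hy)⟩
  norm_cast
  refine Finset.card_le_card_of_injOn (fun v => v.asIdeal) ?_ ?_
  · intro v hv
    have := mem_plc.1 hv
    exact mem_idl.2 ⟨v.ne_bot, this⟩
  · intro a _ b _ hab
    exact HeightOneSpectrum.ext hab

end Pool.Agent.TMS
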