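import Mathlib
import Pool.Agent.TMS.SelCard

/-!
# PowCol (size 2)

Colour of `x`: the residues `ord v x mod e` for `v ∈ T` (at most `e ^ T.card` values) together with the
colour of `sel_card`. If the colours of `x` and `y` agree and `e ∣ ord v x - ord v y` for all
`v ∉ T`, then this holds for all `v` and `sel_card` applies.
-/

namespace Pool.Agent.TMS

open NumberField IsDedekindDomain Pool.Agent.H7.Abc Pool.Agent.AbcE

theorem pow_col (K : Type*) [Field K] [NumberField K] :
    ∃ C : ℕ, ∀ e : ℕ, 1 ≤ e → ∀ T : Finset (HeightOneSpectrum (𝓞 K)),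
      ∃ (M : ℕ) (f : K → Fin M), M ≤ C * e ^ (T.card + C) ∧
      ∀ x y : K, x ≠ 0 → y ≠ 0 →
        (∀ v : HeightOneSpectrum (𝓞 K), v ∉ T → (e : ℤ) ∣ ord v x - ord v y) → f x = f y →
          ∃ t : K, t ≠ 0 ∧ x = y * t ^ e := by
  obtain ⟨C, hC⟩ := sel_card K
  refine ⟨C, fun e he T => ?_⟩
  obtain ⟨M0, f, hM0, hf⟩ := hC e he
  haveI : NeZero e := ⟨by omega⟩
  classical
  let G : K → ((T → ZMod e) × Fin M0) := fun x => (fun v => ((ord v.1 x : ℤ) : ZMod e), f x)
  refine ⟨Fintype.card ((T → ZMod e) × Fin M0), fun x => Fintype.equivFin _ (G x), ?_, ?_⟩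
  · rw [Fintype.card_prod, Fintype.card_fin, Fintype.card_fun, ZMod.card, Fintype.card_coe]
    calc e ^ T.card * M0 ≤ e ^ T.card * (C * e ^ C) := Nat.mul_le_mul_left _ hM0
      _ = C * e ^ (T.card + C) := by rw [pow_add]; ring
  · intro x y hx hy hv hxy
    have h1 : G x = G y := (Fintype.equivFin _).injective hxy
    have h2 : f x = f y := congrArg Prod.snd h1
    refine hf x y hx hy (fun v => ?_) h2
    by_cases hvT : v ∈ T
    · have h3 := congrFun (congrArg Prod.fst h1) ⟨v, hvT⟩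
      have h4 : ((ord v x : ℤ) : ZMod e) = ((ord v y : ℤ) : ZMod e) := h3
      rw [ZMod.intCast_eq_intCast_iff_dvd_sub] at h4
      have h5 := (dvd_neg (a := (e : ℤ))).2 h4
      rwa [neg_sub] at h5
    · exact hv v hvT

end Pool.Agent.TMS
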