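import Mathlib

/-!
# VecCol (size 2)

The set `A` of vectors `k : ι → ℕ` with sum `≤ S` is finite, and
`|A| 2 ^ (-(S + |ι|)) ≤ ∑_{k ∈ A} ∏_i 2 ^ (-(k i + 1)) ≤ ∏_i ∑_{j ≤ S} 2 ^ (-(j + 1)) ≤ 1`
(`Finset.prod_univ_sum` over `Fintype.piFinset fun _ => range (S + 1)`), so `|A| ≤ 2 ^ (S + |ι|)` and `A`
embeds in `Fin (2 ^ (S + |ι|))`; extend the embedding by any value.
-/

namespace Pool.Agent.TMS

private theorem VecCol_geom (n : ℕ) :
    ∑ j ∈ Finset.range n, ((1 : ℝ) / 2) ^ (j + 1) = 1 - (1 / 2) ^ n := by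
  induction n with
  | zero => simp
  | succ n ih => rw [Finset.sum_range_succ, ih, pow_succ]; ring

open Classical in
private theorem VecCol_card (ι : Type*) [Fintype ι] (S : ℕ) :
    ((Fintype.piFinset fun _ : ι => Finset.range (S + 1)).filter (fun k => ∑ i, k i ≤ S)).card ≤
      2 ^ (S + Fintype.card ι) := by
  set A := (Fintype.piFinset fun _ : ι => Finset.range (S + 1)).filter (fun k => ∑ i, k i ≤ S)
    with hA
  have h1 : ∑ k ∈ A, ∏ i, ((1 : ℝ) / 2) ^ (k i + 1) ≤ 1 := by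
    have h2 : ∑ k ∈ A, ∏ i, ((1 : ℝ) / 2) ^ (k i + 1) ≤
        ∑ k ∈ Fintype.piFinset (fun _ : ι => Finset.range (S + 1)),
          ∏ i, ((1 : ℝ) / 2) ^ (k i + 1) :=
      Finset.sum_le_sum_of_subset_of_nonneg (Finset.filter_subset _ _)
        fun k _ _ => Finset.prod_nonneg fun i _ => by positivity
    refine h2.trans ?_
    rw [← Finset.prod_univ_sum (fun _ : ι => Finset.range (S + 1))
      (fun _ j => ((1 : ℝ) / 2) ^ (j + 1))]
    refine Finset.prod_le_one (fun i _ => Finset.sum_nonneg fun j _ => by positivity) fun i _ => ?_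
    rw [VecCol_geom]
    have : (0 : ℝ) ≤ (1 / 2) ^ (S + 1) := by positivity
    linarith
  have h3 : ∀ k ∈ A, ((1 : ℝ) / 2) ^ (S + Fintype.card ι) ≤ ∏ i, ((1 : ℝ) / 2) ^ (k i + 1) := by
    intro k hk
    rw [Finset.prod_pow_eq_pow_sum]
    refine pow_le_pow_of_le_one (by norm_num) (by norm_num) ?_
    rw [Finset.sum_add_distrib, Finset.sum_const, Finset.card_univ, smul_eq_mul, mul_one]
    exact Nat.add_le_add_right (Finset.mem_filter.1 hk).2 _
  have h4 := (Finset.card_nsmul_le_sum A _ _ h3).trans h1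
  rw [nsmul_eq_mul, one_div, inv_pow, ← div_eq_mul_inv, div_le_one (by positivity)] at h4
  exact_mod_cast h4

theorem vec_col (ι : Type*) [Fintype ι] (S : ℕ) :
    ∃ f : (ι → ℕ) → Fin (2 ^ (S + Fintype.card ι)), ∀ k l : ι → ℕ,
      ∑ i, k i ≤ S → ∑ i, l i ≤ S → f k = f l → k = l := by
  classical
  set A := (Fintype.piFinset fun _ : ι => Finset.range (S + 1)).filter (fun k => ∑ i, k i ≤ S)
    with hA
  have hmem : ∀ k : ι → ℕ, ∑ i, k i ≤ S → k ∈ A := by
    intro k hk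
    rw [hA, Finset.mem_filter, Fintype.mem_piFinset]
    refine ⟨fun i => ?_, hk⟩
    rw [Finset.mem_range]
    have := Finset.single_le_sum (f := k) (fun j _ => Nat.zero_le _) (Finset.mem_univ i)
    omega
  obtain ⟨g⟩ : Nonempty (A ↪ Fin (2 ^ (S + Fintype.card ι))) :=
    Function.Embedding.nonempty_of_card_le (by
      rw [Fintype.card_coe, Fintype.card_fin]
      exact VecCol_card ι S)
  refine ⟨fun k => if h : k ∈ A then g ⟨k, h⟩ else ⟨0, by positivity⟩, fun k l hk hl h => ?_⟩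
  beta_reduce at h
  rw [dif_pos (hmem k hk), dif_pos (hmem l hl)] at h
  exact Subtype.mk_eq_mk.1 (g.injective h)

end Pool.Agent.TMS
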