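import Mathlib
import Pool.Agent.TMS.Defs
import Pool.Agent.AbcE.Local

/-!
# Fermat (size 3)

`fermat`: `t` is a unit of the valuation ring at `v`; its residue field is `𝓞 K / v`, a finite field with
`N = absNorm v` elements. One elementary way: write `t = a / b` with `a, b ∈ 𝓞 K`, `b ∉ v`
(then `a ∉ v`): e.g. `IsFractionRing.div_surjective` and then multiply numerator and denominator by a
suitable element (approximation), or use `exists_adicValued_mul_sub_le` / the valuation subring /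
`Localization.AtPrime`; then `a ^ (N - 1) ≡ 1`, `b ^ (N - 1) ≡ 1 mod v` (Fermat in the field `𝓞 K ⧸ v`,
`FiniteField.pow_card_sub_one_eq_one`) and `t ^ (N - 1) - 1 = (a ^ (N - 1) - b ^ (N - 1)) / b ^ (N - 1)`.
`gcd_pow`: the set `{s | mk v s = 1 ∧ mk v (s - 1) < 1}` is closed under products and inverses, and
`t ^ gcd a b = t ^ (a u + b w)` for integers `u, w` (Bezout).
-/

namespace Pool.Agent.TMS

open NumberField IsDedekindDomain Pool.Agent.H7.Abc Pool.Agent.AbcE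

private theorem Fermat_int {K : Type*} [Field K] [NumberField K] (v : HeightOneSpectrum (𝓞 K))
    (a : 𝓞 K) (ha : a ∉ v.asIdeal) :
    FinitePlace.mk v ((algebraMap (𝓞 K) K a) ^ (Ideal.absNorm v.asIdeal - 1) - 1) < 1 := by
  classical
  have : Finite (𝓞 K ⧸ v.asIdeal) := Ideal.finiteQuotientOfFreeOfNeBot v.asIdeal v.ne_bot
  have : v.asIdeal.IsMaximal := v.isMaximal
  let _ : Field (𝓞 K ⧸ v.asIdeal) := Ideal.Quotient.field v.asIdeal
  let _ : Fintype (𝓞 K ⧸ v.asIdeal) := Fintype.ofFinite _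
  have hcard : Fintype.card (𝓞 K ⧸ v.asIdeal) = Ideal.absNorm v.asIdeal := by
    rw [Ideal.absNorm_apply, Submodule.cardQuot_apply, Nat.card_eq_fintype_card]
  have h0 : (Ideal.Quotient.mk v.asIdeal a) ≠ 0 := by
    rw [Ne, Ideal.Quotient.eq_zero_iff_mem]
    exact ha
  have h1 := FiniteField.pow_card_sub_one_eq_one _ h0
  rw [hcard] at h1
  have h2 : a ^ (Ideal.absNorm v.asIdeal - 1) - 1 ∈ v.asIdeal := by
    rw [← Ideal.Quotient.eq_zero_iff_mem, map_sub, map_pow, h1, map_one, sub_self]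
  have h3 := (FinitePlace.norm_lt_one_iff_mem (K := K) v
    (a ^ (Ideal.absNorm v.asIdeal - 1) - 1)).2 h2
  rw [FinitePlace.mk_apply]
  rwa [map_sub, map_pow, map_one] at h3

private theorem Fermat_quot {K : Type*} [Field K] [NumberField K] (v : HeightOneSpectrum (𝓞 K))
    (t : K) (ht : FinitePlace.mk v t = 1) :
    ∃ n d : 𝓞 K, n ∉ v.asIdeal ∧ d ∉ v.asIdeal ∧ t * algebraMap (𝓞 K) K d = algebraMap (𝓞 K) K n := by
  have hone : ∀ d : 𝓞 K, FinitePlace.mk v (algebraMap (𝓞 K) K d) = 1 ↔ d ∉ v.asIdeal := by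
    intro d
    rw [FinitePlace.mk_apply]
    exact FinitePlace.norm_eq_one_iff_notMem (K := K) v d
  obtain ⟨n, ⟨d, hd⟩, hnd | hnd⟩ := v.exists_primeCompl_mul_eq_or_mul_eq (K := K) t
  · have hd' : d ∉ v.asIdeal := hd
    simp only at hnd
    refine ⟨n, d, ?_, hd', hnd⟩
    rw [← hone, ← hnd, map_mul, ht, (hone d).2 hd', one_mul]
  · have hd' : d ∉ v.asIdeal := hd
    simp only at hnd
    have h1 : FinitePlace.mk v (algebraMap (𝓞 K) K n) = 1 := by
      have h2 := congrArg (FinitePlace.mk v) hnd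
      rwa [map_mul, ht, one_mul, (hone d).2 hd'] at h2
    exact ⟨d, n, hd', (hone n).1 h1, hnd⟩

theorem fermat {K : Type*} [Field K] [NumberField K] (v : HeightOneSpectrum (𝓞 K)) (t : K)
    (ht : FinitePlace.mk v t = 1) :
    FinitePlace.mk v (t ^ (Ideal.absNorm v.asIdeal - 1) - 1) < 1 := by
  obtain ⟨n, d, hn', hd', hnd⟩ := Fermat_quot v t ht
  have hVd : FinitePlace.mk v (algebraMap (𝓞 K) K d) = 1 := by
    rw [FinitePlace.mk_apply]
    exact (FinitePlace.norm_eq_one_iff_notMem (K := K) v d).2 hd'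
  have h1 := Fermat_int v d hd'
  have h2 := Fermat_int v n hn'
  have hd0 : algebraMap (𝓞 K) K d ≠ 0 := by
    intro h
    rw [h, map_zero] at hVd
    exact zero_ne_one hVd
  set M := Ideal.absNorm v.asIdeal - 1 with hM
  have e1 : t ^ M - 1 = (((algebraMap (𝓞 K) K n) ^ M - 1) - ((algebraMap (𝓞 K) K d) ^ M - 1)) /
      (algebraMap (𝓞 K) K d) ^ M := by
    rw [← hnd, mul_pow]
    field_simp
    ring
  rw [e1, map_div₀, map_pow, hVd, one_pow, div_one]
  exact (fp_sub_le _ _ _).trans_lt (max_lt h2 h1)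

theorem gcd_pow {K : Type*} [Field K] [NumberField K] (v : HeightOneSpectrum (𝓞 K)) (t : K)
    (ht : FinitePlace.mk v t = 1) (a b : ℕ) (ha : FinitePlace.mk v (t ^ a - 1) < 1)
    (hb : FinitePlace.mk v (t ^ b - 1) < 1) : FinitePlace.mk v (t ^ (Nat.gcd a b) - 1) < 1 := by
  set V := FinitePlace.mk v with hV
  have ht0 : t ≠ 0 := by
    rintro rfl
    rw [map_zero] at ht
    exact zero_ne_one ht
  have hmul : ∀ x y : K, V x = 1 ∧ V (x - 1) < 1 → V y = 1 ∧ V (y - 1) < 1 →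
      V (x * y) = 1 ∧ V (x * y - 1) < 1 := by
    rintro x y ⟨h1, h2⟩ ⟨h3, h4⟩
    refine ⟨by rw [map_mul, h1, h3, one_mul], ?_⟩
    have e1 : x * y - 1 = x * (y - 1) + (x - 1) := by ring
    rw [e1]
    refine (FinitePlace.add_le V _ _).trans_lt (max_lt ?_ h2)
    rw [map_mul, h1, one_mul]
    exact h4
  have hinv : ∀ x : K, V x = 1 ∧ V (x - 1) < 1 → V x⁻¹ = 1 ∧ V (x⁻¹ - 1) < 1 := by
    rintro x ⟨h1, h2⟩
    have hx0 : x ≠ 0 := by
      rintro rfl
      rw [map_zero] at h1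
      exact zero_ne_one h1
    refine ⟨by rw [map_inv₀, h1, inv_one], ?_⟩
    have e1 : x⁻¹ - 1 = -(x - 1) * x⁻¹ := by
      field_simp
      ring
    rw [e1, map_mul, map_neg_eq_map, map_inv₀, h1, inv_one, mul_one]
    exact h2
  have hpow : ∀ x : K, V x = 1 ∧ V (x - 1) < 1 → ∀ n : ℕ,
      V (x ^ n) = 1 ∧ V (x ^ n - 1) < 1 := by
    intro x hx n
    induction n with
    | zero => simp
    | succ n ih =>
      rw [pow_succ]
      exact hmul _ _ ih hx
  have hzpow : ∀ x : K, V x = 1 ∧ V (x - 1) < 1 → ∀ n : ℤ,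
      V (x ^ n) = 1 ∧ V (x ^ n - 1) < 1 := by
    intro x hx n
    obtain ⟨m, rfl | rfl⟩ := n.eq_nat_or_neg
    · rw [zpow_natCast]
      exact hpow x hx m
    · rw [zpow_neg, zpow_natCast]
      exact hinv _ (hpow x hx m)
  have hgcd : t ^ (Nat.gcd a b) = (t ^ a) ^ (Nat.gcdA a b) * (t ^ b) ^ (Nat.gcdB a b) := by
    rw [← zpow_natCast t (Nat.gcd a b), Nat.gcd_eq_gcd_ab, zpow_add₀ ht0, zpow_mul, zpow_mul,
      zpow_natCast, zpow_natCast]
  rw [hgcd]
  refine (hmul _ _ (hzpow _ ⟨?_, ha⟩ _) (hzpow _ ⟨?_, hb⟩ _)).2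
  · rw [map_pow, ht, one_pow]
  · rw [map_pow, ht, one_pow]

end Pool.Agent.TMS
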