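import Mathlib
import Pool.Agent.TMS.Defs
import Pool.Agent.AbcE.Gap

/-!
# HgtPow (size 2)

Small facts on the height `hgt` (= `Height.logHeight₁`, `hgt_eq`; see `H7/Abc/Height.lean`).
`hgt_pow`: from Mathlib (`Height.logHeight₁_pow`), or directly from `max 1 (t ^ e) = (max 1 t) ^ e`.
`hgt_mul_le`: `Height.logHeight₁_mul_le` or directly. `hgt_root`: `ρ ^ e = x2 / x1`.
`log_e`: `-∑_{v ∈ F} log |e|_v ≤ [K:ℚ] log e`: all terms are `≥ 0` (`|e|_v ≤ 1`); enlarge `F` to a set `B`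
containing all `v` with `|e|_v ≠ 1` and use `AbcE.gap_prod` for `e`: `∑_w mult log w(e) = [K:ℚ] log e`.
`ineg`: `log (mk v (x - 1)) = - ord v (x - 1) * ln v` is `log_mk`.
`mass`: the full mass: for `x ≠ 1`, `x - 1` a `T`-unit:
`∑_{v ∈ T} max 0 (ord v (x-1)) ln v + ∑_w mult log max 1 (w (x-1))⁻¹ = hgt (x-1)⁻¹ = hgt (x-1) ≥ hgt x - [K:ℚ] log 2`
(`hgt_sub_one` applied to `x - 1 + 1`: prove `hgt x ≤ hgt (x - 1) + [K:ℚ] log 2` from
`Height.logHeight₁_add_le` or as `hgt_sub_one` for `1 - x`...).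
-/

namespace Pool.Agent.TMS

open NumberField IsDedekindDomain Pool.Agent.H7.Abc Pool.Agent.AbcE

variable {K : Type*} [Field K] [NumberField K]

theorem hgt_pow (x : K) (e : ℕ) : hgt (x ^ e) = e * hgt x := by
  rw [hgt_eq, hgt_eq, Height.logHeight₁_pow]

theorem hgt_mul_le (x y : K) : hgt (x * y) ≤ hgt x + hgt y := by
  rw [hgt_eq, hgt_eq, hgt_eq]
  exact Height.logHeight₁_mul_le x y

theorem hgt_root {e : ℕ} (he : 1 ≤ e) {x1 x2 ρ : K} (h1 : x1 ≠ 0) (hρ : ρ ^ e * x1 = x2) :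
    hgt ρ ≤ (hgt x1 + hgt x2) / e := by
  have he0 : (0 : ℝ) < e := by exact_mod_cast he
  rw [le_div_iff₀ he0, mul_comm, ← hgt_pow]
  have h2 : ρ ^ e = x2 * x1⁻¹ := by
    rw [← hρ, mul_assoc, mul_inv_cancel₀ h1, mul_one]
  rw [h2]
  have h3 := hgt_mul_le x2 x1⁻¹
  rw [hgt_inv] at h3
  linarith

theorem mk_nat_le_one (v : HeightOneSpectrum (𝓞 K)) (e : ℕ) : FinitePlace.mk v (e : K) ≤ 1 := by
  induction e with
  | zero => simp
  | succ n ih =>
    push_cast
    refine (FinitePlace.add_le _ _ _).trans (max_le ih ?_)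
    rw [map_one]

theorem log_e {e : ℕ} (he : 1 ≤ e) (F : Finset (HeightOneSpectrum (𝓞 K))) :
    ∑ v ∈ F, -Real.log (FinitePlace.mk v (e : K)) ≤ Module.finrank ℚ K * Real.log e := by
  classical
  have he0 : (e : K) ≠ 0 := by
    have : e ≠ 0 := by omega
    exact_mod_cast this
  have h := gap_prod he0 (F ∪ (finite_support he0).toFinset) (by
    intro v hv
    rw [Finset.mem_union]
    exact Or.inr ((Set.Finite.mem_toFinset _).2 hv))
  have h1 : ∑ w : InfinitePlace K, (w.mult : ℝ) * Real.log (w (e : K)) =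
      Module.finrank ℚ K * Real.log e := by
    have h2 : ∀ w : InfinitePlace K, w (e : K) = e := by
      intro w
      rw [← InfinitePlace.norm_embedding_eq, map_natCast, Complex.norm_natCast]
    simp only [h2]
    rw [← Finset.sum_mul, ← Nat.cast_sum, InfinitePlace.sum_mult_eq]
  have h2 : ∑ v ∈ F, -Real.log (FinitePlace.mk v (e : K)) ≤
      ∑ v ∈ F ∪ (finite_support he0).toFinset, -Real.log (FinitePlace.mk v (e : K)) := by
    refine Finset.sum_le_sum_of_subset_of_nonneg Finset.subset_union_left fun v _ _ => ?_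
    have := Real.log_nonpos (apply_nonneg (FinitePlace.mk v) (e : K)) (mk_nat_le_one v e)
    linarith
  refine h2.trans ?_
  rw [Finset.sum_neg_distrib]
  rw [h1] at h
  linarith

theorem hgt_le_sub_one (x : K) : hgt x ≤ hgt (x - 1) + Module.finrank ℚ K * Real.log 2 := by
  rw [hgt_eq, hgt_eq]
  have := Height.logHeight₁_add_le (x - 1) (1 : K)
  rw [sub_add_cancel, Height.logHeight₁_one, NumberField.totalWeight_eq_finrank, add_zero] at this
  linarith

private theorem HgtPow_log {t : ℝ} (ht : 0 < t) :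
    Real.log (max 1 t⁻¹) = max 0 (-Real.log t) := by
  rw [← Real.posLog_eq_log_max_one (inv_pos.2 ht).le, ← Real.log_inv]
  rfl

theorem mass {x : K} (hx : x ≠ 1) (T : Finset (HeightOneSpectrum (𝓞 K)))
    (hT : ∀ v, v ∉ T → ord v (x - 1) = 0) :
    ∑ v ∈ T, max 0 ((ord v (x - 1) : ℝ) * ln v) +
      ∑ w : InfinitePlace K, (w.mult : ℝ) * max 0 (-Real.log (w (x - 1))) = hgt (x - 1) := by
  have hy : x - 1 ≠ 0 := sub_ne_zero.2 hx
  rw [← hgt_inv (x - 1)]
  unfold hgt
  rw [add_comm]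
  congr 1
  · refine Finset.sum_congr rfl fun w _ => ?_
    rw [map_inv₀, HgtPow_log (InfinitePlace.pos_iff.2 hy)]
  · rw [finsum_eq_sum_of_support_subset (s := T)]
    · refine Finset.sum_congr rfl fun v _ => ?_
      rw [mk_inv, HgtPow_log (FinitePlace.pos_iff.2 hy), log_mk v hy]
      congr 1
      unfold ln
      ring
    · intro v hv
      by_contra hvT
      apply hv
      have h1 : FinitePlace.mk v (x - 1) = 1 := (ord_eq_zero_iff v hy).1 (hT v hvT)
      simp only [mk_inv, h1, inv_one, max_self, Real.log_one]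

end Pool.Agent.TMS
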