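import Mathlib
import Pool.Agent.TMS.Fermat
import Pool.Agent.TMS.HgtPow
import Pool.Agent.AbcE.Gap

/-!
# RoughPair (size 4)

`ln λ` is the logarithm of the norm of `λ`. Suppose `v1 ≠ v2`. Put `γ = β1 / β2`.
1. Let `λ ∈ F` (a finite set of places with `λ ∉ T`, `λ ≠ v1, v2, u`, and `N λ - 1 ∣ L`). All of
`x1, x2, 1 - x1, 1 - x2, β1, β2, s, t` are units at `λ` (`ord λ = 0`; for `s`, `t`: `L * ord λ s = 0`).
`x1 - x2 = (1 - x2) (1 - t ^ L)` and `t ^ L ≡ 1` (`fermat`: `t ^ (N λ - 1) ≡ 1`, `N λ - 1 ∣ L`), so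
`mk λ (x1 / x2 - 1) < 1`. `x1 / x2 = (β1 ^ n1 / β2 ^ n2) s ^ L`, so `β1 ^ n1 / β2 ^ n2 ≡ 1`, and with
`L ∣ n1 - n2`: `γ ^ n1 ≡ 1`. `γ ^ (N λ - 1) ≡ 1`. `gcd n1 (N λ - 1) ∣ gcd n1 L ∣ 2`, so `γ ^ 2 ≡ 1` (`gcd_pow`).
2. `ord v1 γ = 1` (if `v1 ≠ u`: `ord v1 β1 = 1`, `ord v1 β2 = 0`; if `v1 = u`: `ord v1 β1 = 0`,
`ord v1 β2 = -1`), so `γ ^ 2 ≠ 1`. For `y = γ ^ 2 - 1`:
`∑_{λ ∈ F} ln λ ≤ ∑_λ log max 1 (mk λ y⁻¹) ≤ hgt y⁻¹ = hgt y ≤ 2 hgt γ + [K:ℚ] log 2 ≤ 2 (hgt β1 + hgt β2) + [K:ℚ] log 2`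
(`mk λ y < 1` means `mk λ y ≤ 1 / N λ`, `mk_eq_zpow`). Contradiction with the last hypothesis.
-/

namespace Pool.Agent.TMS

open NumberField IsDedekindDomain Pool.Agent.H7.Abc Pool.Agent.AbcE

section rp

variable {K : Type*} [Field K] [NumberField K]

private def UU (v : HeightOneSpectrum (𝓞 K)) (a : K) : Prop :=
  FinitePlace.mk v a = 1 ∧ FinitePlace.mk v (a - 1) < 1

private theorem UU_mul {v : HeightOneSpectrum (𝓞 K)} {a b : K} (ha : UU v a) (hb : UU v b) :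
    UU v (a * b) := by
  refine ⟨by rw [map_mul, ha.1, hb.1, one_mul], ?_⟩
  have e : a * b - 1 = (a - 1) * b + (b - 1) := by ring
  rw [e]
  refine lt_of_le_of_lt (FinitePlace.add_le _ _ _) (max_lt ?_ hb.2)
  rw [map_mul, hb.1, mul_one]
  exact ha.2

private theorem UU_inv {v : HeightOneSpectrum (𝓞 K)} {a : K} (ha : UU v a) : UU v a⁻¹ := by
  refine ⟨by rw [mk_inv, ha.1, inv_one], ?_⟩
  have h0 : a ≠ 0 := by
    rintro rfl
    have := ha.1
    rw [map_zero] at this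
    exact zero_ne_one this
  have e : a⁻¹ - 1 = -(a - 1) * a⁻¹ := by field_simp; ring
  rw [e, map_mul, mk_inv, ha.1, inv_one, mul_one, map_neg_eq_map]
  exact ha.2

private theorem UU_one {v : HeightOneSpectrum (𝓞 K)} : UU v (1 : K) :=
  ⟨map_one _, by rw [sub_self, map_zero]; exact zero_lt_one⟩

private theorem UU_pow {v : HeightOneSpectrum (𝓞 K)} {a : K} (ha : UU v a) (n : ℕ) :
    UU v (a ^ n) := by
  induction n with
  | zero => rw [pow_zero]; exact UU_one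
  | succ n ih => rw [pow_succ]; exact UU_mul ih ha

private theorem UU_zpow {v : HeightOneSpectrum (𝓞 K)} {a : K} (ha : UU v a) (n : ℤ) :
    UU v (a ^ n) := by
  cases n with
  | ofNat n => rw [Int.ofNat_eq_natCast, zpow_natCast]; exact UU_pow ha n
  | negSucc n => rw [zpow_negSucc]; exact UU_inv (UU_pow ha (n + 1))

private theorem UU_fermat {v : HeightOneSpectrum (𝓞 K)} {t : K} (ht : t ≠ 0) (h0 : ord v t = 0)
    {L : ℕ} (hL : (Ideal.absNorm v.asIdeal - 1) ∣ L) : UU v (t ^ L) := by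
  have h1 := (ord_eq_zero_iff v ht).1 h0
  obtain ⟨k, rfl⟩ := hL
  rw [pow_mul]
  exact UU_pow ⟨by rw [map_pow, h1, one_pow], fermat v t h1⟩ k

private theorem ord_mul' (v : HeightOneSpectrum (𝓞 K)) {x y : K} (hx : x ≠ 0) (hy : y ≠ 0) :
    ord v (x * y) = ord v x + ord v y := by
  have h := ord_div v hx (inv_ne_zero hy)
  rw [div_inv_eq_mul, gap_ord_inv v hy] at h
  omega

private theorem ln_le {v : HeightOneSpectrum (𝓞 K)} {y : K} (hy : y ≠ 0)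
    (h : FinitePlace.mk v y < 1) : ln v ≤ Real.log (max 1 (FinitePlace.mk v y⁻¹)) := by
  have hpos : 0 < FinitePlace.mk v y := FinitePlace.pos_iff.2 hy
  have h1 : 1 ≤ (FinitePlace.mk v y)⁻¹ := ((one_lt_inv₀ hpos).2 h).le
  rw [mk_inv, max_eq_right h1, Real.log_inv, log_mk v hy]
  have h2 := Real.log_neg hpos h
  rw [log_mk v hy] at h2
  have h3 := log_norm_pos v
  have h4 : (0 : ℝ) < (ord v y : ℝ) := by
    by_contra hc
    push Not at hc
    nlinarith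
  have h5 : (1 : ℤ) ≤ ord v y := by
    have : (0 : ℤ) < ord v y := by exact_mod_cast h4
    omega
  have h6 : (1 : ℝ) ≤ (ord v y : ℝ) := by exact_mod_cast h5
  have h7 : ln v = Real.log (Ideal.absNorm v.asIdeal : ℝ) := rfl
  rw [h7]
  nlinarith

end rp

open Classical in
theorem rough_pair {K : Type*} [Field K] [NumberField K]
    (T F : Finset (HeightOneSpectrum (𝓞 K))) (u v1 v2 : HeightOneSpectrum (𝓞 K)) (L n1 n2 : ℕ)
    (x1 x2 β1 β2 s t : K) (hL : 1 ≤ L)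
    (hx1 : x1 ≠ 0) (hx11 : x1 ≠ 1) (hx2 : x2 ≠ 0) (hx21 : x2 ≠ 1)
    (hβ1 : β1 ≠ 0) (hβ2 : β2 ≠ 0) (hs : s ≠ 0) (ht : t ≠ 0)
    (ho1 : ∀ v, v ∉ T → ord v (x1 - 1) = 0 ∧ ord v x1 = if v = v1 then (n1 : ℤ) else 0)
    (ho2 : ∀ v, v ∉ T → ord v (x2 - 1) = 0 ∧ ord v x2 = if v = v2 then (n2 : ℤ) else 0)
    (hb1 : ∀ v, ord v β1 = (if v = v1 then 1 else 0) - (if v = u then 1 else 0))
    (hb2 : ∀ v, ord v β2 = (if v = v2 then 1 else 0) - (if v = u then 1 else 0))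
    (hn : (L : ℤ) ∣ (n1 : ℤ) - n2) (hg : Nat.gcd n1 L ∣ 2)
    (h1 : 1 - x1 = (1 - x2) * t ^ L)
    (h2 : x1 / β1 ^ n1 = x2 / β2 ^ n2 * s ^ L)
    (hF : ∀ l ∈ F, l ∉ T ∧ l ≠ u ∧ l ≠ v1 ∧ l ≠ v2 ∧ (Ideal.absNorm l.asIdeal - 1) ∣ L)
    (hsum : 2 * (hgt β1 + hgt β2) + Module.finrank ℚ K * Real.log 2 < ∑ l ∈ F, ln l) :
    v1 = v2 := by
  by_contra hv
  set γ := β1 / β2 with hγ
  have hγ0 : γ ≠ 0 := div_ne_zero hβ1 hβ2
  have hx110 : x1 - 1 ≠ 0 := sub_ne_zero.2 hx11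
  have hx210 : x2 - 1 ≠ 0 := sub_ne_zero.2 hx21
  have hLZ : (L : ℤ) ≠ 0 := by exact_mod_cast (show L ≠ 0 by omega)
  -- `γ ^ 2 ≠ 1`
  have hord : ord v1 γ = 1 := by
    rw [hγ, ord_div v1 hβ1 hβ2, hb1 v1, hb2 v1, if_pos rfl, if_neg hv]
    ring
  have hγ2 : γ ^ 2 - 1 ≠ 0 := by
    intro h
    have h3 : γ ^ 2 = 1 := by linear_combination h
    have h4 := gap_ord_pow v1 hγ0 2
    rw [h3, (ord_eq_zero_iff v1 one_ne_zero).2 (map_one _), hord] at h4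
    norm_num at h4
  -- the main local claim
  have hloc : ∀ l ∈ F, FinitePlace.mk l (γ ^ 2 - 1) < 1 := by
    intro l hl
    obtain ⟨hlT, hlu, hl1, hl2, hdvd⟩ := hF l hl
    obtain ⟨o1, o1'⟩ := ho1 l hlT
    obtain ⟨o2, o2'⟩ := ho2 l hlT
    rw [if_neg hl1] at o1'
    rw [if_neg hl2] at o2'
    have ob1 : ord l β1 = 0 := by rw [hb1 l, if_neg hl1, if_neg hlu, sub_zero]
    have ob2 : ord l β2 = 0 := by rw [hb2 l, if_neg hl2, if_neg hlu, sub_zero]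
    have hpow1 : β1 ^ n1 ≠ 0 := pow_ne_zero _ hβ1
    have hpow2 : β2 ^ n2 ≠ 0 := pow_ne_zero _ hβ2
    have os : ord l s = 0 := by
      have e := congrArg (ord l) h2
      rw [ord_div l hx1 hpow1, ord_mul' l (div_ne_zero hx2 hpow2) (pow_ne_zero _ hs),
        ord_div l hx2 hpow2, gap_ord_pow l hβ1, gap_ord_pow l hβ2, gap_ord_pow l hs, o1', o2',
        ob1, ob2] at e
      simp only [mul_zero, sub_zero, zero_add] at e
      rcases mul_eq_zero.1 e.symm with h | h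
      · exact absurd h hLZ
      · exact h
    have ot : ord l t = 0 := by
      have e : x1 - 1 = (x2 - 1) * t ^ L := by linear_combination -h1
      have e := congrArg (ord l) e
      rw [ord_mul' l hx210 (pow_ne_zero _ ht), gap_ord_pow l ht, o1, o2] at e
      simp only [zero_add] at e
      rcases mul_eq_zero.1 e.symm with h | h
      · exact absurd h hLZ
      · exact h
    have ut := UU_fermat ht ot hdvd
    have us := UU_fermat hs os hdvd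
    have ub2 := UU_fermat hβ2 ob2 hdvd
    have mx2 := (ord_eq_zero_iff l hx2).1 o2'
    have mx1 := (ord_eq_zero_iff l hx1).1 o1'
    have mx21 := (ord_eq_zero_iff l hx210).1 o2
    have ux : UU l (x1 / x2) := by
      refine ⟨by rw [map_div₀, mx1, mx2, div_one], ?_⟩
      have e : x1 / x2 - 1 = (x2 - 1) * (t ^ L - 1) * x2⁻¹ := by
        field_simp
        linear_combination -h1
      rw [e, map_mul, map_mul, mk_inv, mx2, mx21, inv_one, mul_one, one_mul]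
      exact ut.2
    obtain ⟨k, hk⟩ := hn
    have ug : UU l (γ ^ n1) := by
      have e : γ ^ n1 = (x1 / x2) * (s ^ L)⁻¹ * ((β2 ^ L) ^ k)⁻¹ := by
        have e1 : (β2 ^ L) ^ k * β2 ^ n2 = β2 ^ n1 := by
          rw [← zpow_natCast β2 L, ← zpow_mul, ← zpow_natCast β2 n2, ← zpow_add₀ hβ2, ← hk,
            ← zpow_natCast β2 n1]
          congr 1
          ring
        have e2 : (β2 ^ L) ^ k ≠ 0 := zpow_ne_zero _ (pow_ne_zero _ hβ2)
        have e3 : s ^ L ≠ 0 := pow_ne_zero _ hs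
        rw [hγ, div_pow, ← e1]
        field_simp
        rw [div_eq_iff hpow1] at h2
        rw [h2]
        field_simp
      rw [e]
      exact UU_mul (UU_mul ux (UU_inv us)) (UU_inv (UU_zpow ub2 k))
    have oγ : ord l γ = 0 := by rw [hγ, ord_div l hβ1 hβ2, ob1, ob2, sub_zero]
    have mγ := (ord_eq_zero_iff l hγ0).1 oγ
    have h5 := gcd_pow l γ mγ n1 (Ideal.absNorm l.asIdeal - 1) ug.2 (fermat l γ mγ)
    have h6 : Nat.gcd n1 (Ideal.absNorm l.asIdeal - 1) ∣ 2 :=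
      (Nat.gcd_dvd_gcd_of_dvd_right n1 hdvd).trans hg
    obtain ⟨j, hj⟩ := h6
    rw [hj, pow_mul]
    exact (UU_pow ⟨by rw [map_pow, mγ, one_pow], h5⟩ j).2
  have h7 : ∑ l ∈ F, ln l ≤ hgt (γ ^ 2 - 1)⁻¹ := by
    refine le_trans (Finset.sum_le_sum fun l hl => ln_le hγ2 (hloc l hl)) ?_
    exact sum_finite_le (inv_ne_zero hγ2) F
  rw [hgt_inv] at h7
  have h8 := hgt_sub_one (γ ^ 2)
  have h9 : hgt (γ ^ 2) = 2 * hgt γ := by
    have := hgt_pow γ 2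
    push_cast at this
    exact this
  have h10 : hgt γ ≤ hgt β1 + hgt β2 := by
    have := hgt_mul_le β1 β2⁻¹
    rw [hgt_inv, ← div_eq_mul_inv] at this
    exact this
  linarith

end Pool.Agent.TMS
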