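import Mathlib
import Pool.Agent.TMS.RoughPair
import Pool.Agent.TMS.PowCol

/-!
# RoughCount (size 4)

For `v ∈ V` choose `x_v`, `n_v = ord v x_v ≥ 1` (as a natural number). Colours of `v`:
(a) the class `cl {v}` of `AbcF.balanced` and `⌊ln v⌋ ∈ {0, ..., ⌊log P⌋}`; (b) `n_v mod L`.
For every value of (a), (b) that occurs choose a base `u ∈ V` with this value. `|ln v - ln u| ≤ 1`, so
`AbcF.balanced` gives `β_v` with `ord w β_v = [w = v] - [w = u]` and `|log w β_v| ≤ C0` at all infinite `w`;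
`hgt β_v ≤ [K:ℚ] C0 + ln u ≤ [K:ℚ] C0 + log P` (only `u` is a pole).
(c) the colour of `pow_col` (with `e = L`) of `1 - x_v`; (d) the colour of `pow_col` of `x_v / β_v ^ n_v`.
If `v1, v2` have the same colours: the exponents of `1 - x_1`, `1 - x_2` vanish outside `T`, so
`1 - x_1 = (1 - x_2) t ^ L`; outside `T` the exponent of `x_v / β_v ^ n_v` at `w` is `n_v [w = u]`, so
`L` divides the difference, and `x_1 / β_1 ^ n_1 = (x_2 / β_2 ^ n_2) s ^ L`. Apply `rough_pair` with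
`F = Fl \ (T ∪ {u, v1, v2})`, `∑_F ln ≥ ∑_{Fl} ln - (T.card + 3) b`. So the colours are different for
different `v`, and the number of colours is at most
`M_cl (log P + 1) L (C L ^ (T.card + C)) ^ 2`.
(The gcd hypothesis: `Nat.gcd (ord v x).toNat L ∣ 2`.)
-/

namespace Pool.Agent.TMS

open NumberField IsDedekindDomain Pool.Agent.H7.Abc Pool.Agent.AbcE

private theorem RoughCount_mul {K : Type*} [Field K] [NumberField K]
    (v : HeightOneSpectrum (𝓞 K)) {x y : K} (hx : x ≠ 0) (hy : y ≠ 0) :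
    ord v (x * y) = ord v x + ord v y := by
  have hvx : v.valuation K x ≠ 0 := (Valuation.ne_zero_iff _).2 hx
  have hvy : v.valuation K y ≠ 0 := (Valuation.ne_zero_iff _).2 hy
  unfold ord
  rw [map_mul, WithZero.log_mul hvx hvy]
  ring

private theorem RoughCount_pow {K : Type*} [Field K] [NumberField K]
    (v : HeightOneSpectrum (𝓞 K)) {x : K} (hx : x ≠ 0) (n : ℕ) :
    ord v (x ^ n) = n * ord v x := by
  induction n with
  | zero =>
    rw [pow_zero, Nat.cast_zero, zero_mul]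
    unfold ord
    rw [map_one, WithZero.log_one, neg_zero]
  | succ n ih =>
    rw [pow_succ, RoughCount_mul v (pow_ne_zero _ hx) hx, ih]
    push_cast
    ring

private theorem RoughCount_neg {K : Type*} [Field K] [NumberField K]
    (v : HeightOneSpectrum (𝓞 K)) (x : K) : ord v (-x) = ord v x := by
  unfold ord
  rw [Valuation.map_neg]

open Classical in
private theorem RoughCount_hgt {K : Type*} [Field K] [NumberField K] {β : K} (hβ : β ≠ 0)
    (v u : HeightOneSpectrum (𝓞 K)) {C0 : ℝ}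
    (h1 : ∀ w, ord w β = (if w = v then 1 else 0) - (if w = u then 1 else 0))
    (h2 : ∀ w : InfinitePlace K, |Real.log (w β)| ≤ C0) :
    hgt β ≤ Module.finrank ℚ K * C0 + ln u := by
  unfold hgt
  have hC0 : 0 ≤ C0 := by
    obtain ⟨w⟩ : Nonempty (InfinitePlace K) := inferInstance
    exact (abs_nonneg _).trans (h2 w)
  refine add_le_add ?_ ?_
  · have h3 : ∀ w ∈ (Finset.univ : Finset (InfinitePlace K)),
        (w.mult : ℝ) * Real.log (max 1 (w β)) ≤ (w.mult : ℝ) * C0 := by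
      intro w _
      refine mul_le_mul_of_nonneg_left ?_ (Nat.cast_nonneg _)
      rcases le_total 1 (w β) with h | h
      · rw [max_eq_right h]
        exact (le_abs_self _).trans (h2 w)
      · rw [max_eq_left h, Real.log_one]
        exact hC0
    refine (Finset.sum_le_sum h3).trans (le_of_eq ?_)
    rw [← Finset.sum_mul, ← Nat.cast_sum, InfinitePlace.sum_mult_eq]
  · rw [finsum_eq_single _ u]
    · unfold ln
      refine Real.log_le_log (by positivity) ?_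
      refine max_le (one_lt_norm u).le ?_
      rw [mk_eq_zpow u hβ]
      conv_rhs => rw [← zpow_one (Ideal.absNorm u.asIdeal : ℝ)]
      refine zpow_le_zpow_right₀ (one_lt_norm u).le ?_
      rw [h1 u, if_pos rfl]
      split_ifs <;> norm_num
    · intro w hw
      have h3 : FinitePlace.mk w β ≤ 1 := by
        rw [mk_eq_zpow w hβ, h1 w, if_neg hw, sub_zero]
        refine zpow_le_one_of_nonpos₀ (one_lt_norm w).le ?_
        split_ifs <;> norm_num
      rw [max_eq_left h3, Real.log_one]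

open Classical in
/-- The sum over the places of `Fl` which are not removed. -/
private theorem RoughCount_sum {K : Type*} [Field K] [NumberField K]
    (T Fl : Finset (HeightOneSpectrum (𝓞 K))) (u v1 v2 : HeightOneSpectrum (𝓞 K)) {b : ℝ}
    (hb : 0 ≤ b) (hFl : ∀ l ∈ Fl, ln l ≤ b) :
    ∑ l ∈ Fl, ln l - (T.card + 3) * b ≤ ∑ l ∈ Fl \ (T ∪ {u, v1, v2}), ln l := by
  have h1 := Finset.sum_inter_add_sum_sdiff Fl (T ∪ {u, v1, v2}) (fun l => ln l)
  have h2 : ∑ l ∈ Fl ∩ (T ∪ {u, v1, v2}), ln l ≤ (T.card + 3) * b := by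
    have h3 : ∑ l ∈ Fl ∩ (T ∪ {u, v1, v2}), ln l ≤
        (Fl ∩ (T ∪ {u, v1, v2})).card • b :=
      Finset.sum_le_card_nsmul _ _ _ fun l hl => hFl l (Finset.mem_inter.1 hl).1
    refine h3.trans ?_
    rw [nsmul_eq_mul]
    refine mul_le_mul_of_nonneg_right ?_ hb
    have h4 : (Fl ∩ (T ∪ {u, v1, v2})).card ≤ T.card + 3 :=
      (Finset.card_le_card Finset.inter_subset_right).trans
        ((Finset.card_union_le _ _).trans (Nat.add_le_add_left Finset.card_le_three _))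
    exact_mod_cast h4
  linarith

private theorem RoughCount_fin {M Cp C1 L t : ℕ} {x : ℝ} (hx : 0 ≤ x) (hL : 1 ≤ L) {M1 N : ℕ}
    (hM1 : M1 ≤ Cp * L ^ (t + Cp)) (hN : (N : ℝ) ≤ x + 1) :
    ((M * (N * L) * (M1 * M1) : ℕ) : ℝ) ≤
      ((C1 + M * Cp ^ 2 + 2 * Cp + 3 : ℕ) : ℝ) * (x + 1) *
        (L : ℝ) ^ ((C1 + M * Cp ^ 2 + 2 * Cp + 3) * (t + 1)) := by
  have hL' : (1 : ℝ) ≤ L := by exact_mod_cast hL
  have h1 : (M1 : ℝ) ≤ Cp * (L : ℝ) ^ (t + Cp) := by exact_mod_cast hM1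
  have h2 : (0 : ℝ) ≤ M1 := Nat.cast_nonneg _
  have h3 : (M1 : ℝ) * M1 ≤ Cp ^ 2 * (L : ℝ) ^ (2 * (t + Cp)) := by
    calc (M1 : ℝ) * M1 ≤ (Cp * (L : ℝ) ^ (t + Cp)) * (Cp * (L : ℝ) ^ (t + Cp)) :=
          mul_le_mul h1 h1 h2 (by positivity)
      _ = _ := by rw [two_mul, pow_add]; ring
  have h4 : (N : ℝ) * L * (M1 * M1) ≤
      (x + 1) * L * (Cp ^ 2 * (L : ℝ) ^ (2 * (t + Cp))) := by
    refine mul_le_mul (mul_le_mul_of_nonneg_right hN (by positivity)) h3 (by positivity)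
      (by positivity)
  have h5 : (L : ℝ) * (L : ℝ) ^ (2 * (t + Cp)) ≤
      (L : ℝ) ^ ((C1 + M * Cp ^ 2 + 2 * Cp + 3) * (t + 1)) := by
    rw [← pow_succ']
    refine pow_le_pow_right₀ hL' ?_
    nlinarith [Nat.zero_le (C1 * (t + 1)), Nat.zero_le (M * Cp ^ 2 * (t + 1)),
      Nat.zero_le (Cp * t)]
  have h6 : ((M : ℝ) * Cp ^ 2) ≤ ((C1 + M * Cp ^ 2 + 2 * Cp + 3 : ℕ) : ℝ) := by
    push_cast
    have h7 : (0 : ℝ) ≤ C1 := Nat.cast_nonneg _
    have h8 : (0 : ℝ) ≤ Cp := Nat.cast_nonneg _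
    linarith
  calc ((M * (N * L) * (M1 * M1) : ℕ) : ℝ) = M * ((N : ℝ) * L * (M1 * M1)) := by
        push_cast; ring
    _ ≤ M * ((x + 1) * L * (Cp ^ 2 * (L : ℝ) ^ (2 * (t + Cp)))) :=
        mul_le_mul_of_nonneg_left h4 (Nat.cast_nonneg _)
    _ = (M * Cp ^ 2) * ((x + 1) * (L * (L : ℝ) ^ (2 * (t + Cp)))) := by ring
    _ ≤ ((C1 + M * Cp ^ 2 + 2 * Cp + 3 : ℕ) : ℝ) * ((x + 1) *
          (L : ℝ) ^ ((C1 + M * Cp ^ 2 + 2 * Cp + 3) * (t + 1))) :=
        mul_le_mul h6 (mul_le_mul_of_nonneg_left h5 (by linarith)) (by positivity) (by positivity)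
    _ = _ := by ring

theorem rough_count (K : Type*) [Field K] [NumberField K] :
    ∃ C : ℕ, 0 < C ∧ ∀ (T Fl V : Finset (HeightOneSpectrum (𝓞 K))) (P b : ℝ) (L : ℕ),
      1 ≤ P → 0 ≤ b → 1 ≤ L →
      (∀ l ∈ Fl, (Ideal.absNorm l.asIdeal - 1) ∣ L ∧ ln l ≤ b) →
      C + 4 * Real.log P + (T.card + 3) * b < ∑ l ∈ Fl, ln l →
      (∀ v ∈ V, v ∉ T ∧ (Ideal.absNorm v.asIdeal : ℝ) ≤ P ∧
        ∃ x : K, x ≠ 0 ∧ x ≠ 1 ∧ 0 < ord v x ∧ Nat.gcd (ord v x).toNat L ∣ 2 ∧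
          ∀ w, w ∉ T → ord w (x - 1) = 0 ∧ (w ≠ v → ord w x = 0)) →
      (V.card : ℝ) ≤ C * (Real.log P + 1) * (L : ℝ) ^ (C * (T.card + 1)) := by
  classical
  obtain ⟨C0, M, cl, hC0, hbal⟩ := Pool.Agent.AbcF.balanced K
  obtain ⟨Cp, hpow⟩ := pow_col K
  obtain ⟨C1, hC1⟩ := exists_nat_ge (4 * (Module.finrank ℚ K * C0) +
    Module.finrank ℚ K * Real.log 2)
  refine ⟨C1 + M * Cp ^ 2 + 2 * Cp + 3, by omega, ?_⟩
  intro T Fl V P b L hP hb hL hFl hsum hV
  have hlogP : 0 ≤ Real.log P := Real.log_nonneg hP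
  rcases V.eq_empty_or_nonempty with hVe | ⟨v0, hv0⟩
  · rw [hVe, Finset.card_empty, Nat.cast_zero]
    positivity
  have hV' := fun v hv => (hV v hv).2.2
  choose! x hx0 hx1 hxo hxg hxw using hV'
  have hln : ∀ v : HeightOneSpectrum (𝓞 K), 0 ≤ ln v := fun v => (log_norm_pos v).le
  -- the key
  let key : HeightOneSpectrum (𝓞 K) → Fin M × ℕ × ℕ :=
    fun v => (cl {v}, ⌊ln v⌋₊, (ord v (x v)).toNat % L)
  have hbase : ∀ k : Fin M × ℕ × ℕ, ∃ u, (∃ v ∈ V, key v = k) → u ∈ V ∧ key u = k := by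
    intro k
    by_cases h : ∃ v ∈ V, key v = k
    · obtain ⟨v, hv, hk⟩ := h
      exact ⟨v, fun _ => ⟨hv, hk⟩⟩
    · exact ⟨v0, fun h' => absurd h' h⟩
  choose u hu using hbase
  have huV : ∀ v ∈ V, u (key v) ∈ V ∧ key (u (key v)) = key v := fun v hv =>
    hu (key v) ⟨v, hv, rfl⟩
  have hbeta : ∀ v ∈ V, ∃ β : K, β ≠ 0 ∧
      (∀ w, ord w β = (if w = v then 1 else 0) - (if w = u (key v) then 1 else 0)) ∧
      ∀ w : InfinitePlace K, |Real.log (w β)| ≤ C0 := by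
    intro v hv
    have h1 := (huV v hv).2
    have hcl : cl {v} = cl {u (key v)} := (congrArg Prod.fst h1).symm
    have hfl : ⌊ln (u (key v))⌋₊ = ⌊ln v⌋₊ := congrArg (fun z => z.2.1) h1
    obtain ⟨ξ, h2, h3, h4⟩ := hbal {v} {u (key v)} hcl (by
      unfold Pool.Agent.AbcF.LN
      rw [Finset.sum_singleton, Finset.sum_singleton, abs_le]
      have h5 := Nat.floor_le (hln v)
      have h6 := Nat.lt_floor_add_one (ln v)
      have h7 := Nat.floor_le (hln (u (key v)))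
      have h8 := Nat.lt_floor_add_one (ln (u (key v)))
      rw [hfl] at h7 h8
      constructor <;> linarith)
    refine ⟨ξ, h2, fun w => ?_, h4⟩
    rw [h3 w]
    simp only [Finset.mem_singleton]
  choose! β hβ0 hβo hβi using hbeta
  obtain ⟨M1, f, hM1, hf⟩ := hpow L hL T
  have hfl : ∀ v ∈ V, ⌊ln v⌋₊ < ⌊Real.log P⌋₊ + 1 := by
    intro v hv
    refine Nat.lt_succ_of_le (Nat.floor_le_floor ?_)
    exact Real.log_le_log (by linarith [one_lt_norm v]) (hV v hv).2.1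
  have hlnP : ∀ v ∈ V, ln v ≤ Real.log P := fun v hv =>
    Real.log_le_log (by linarith [one_lt_norm v]) (hV v hv).2.1
  let col : HeightOneSpectrum (𝓞 K) → (Fin M × ℕ × ℕ) × Fin M1 × Fin M1 :=
    fun v => (key v, f (1 - x v), f (x v / β v ^ (ord v (x v)).toNat))
  have hmaps : ∀ v ∈ V, col v ∈ ((Finset.univ : Finset (Fin M)) ×ˢ
      (Finset.range (⌊Real.log P⌋₊ + 1) ×ˢ Finset.range L)) ×ˢ
        ((Finset.univ : Finset (Fin M1)) ×ˢ (Finset.univ : Finset (Fin M1))) := by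
    intro v hv
    simp only [Finset.mem_product, Finset.mem_univ, Finset.mem_range, and_true, true_and, col, key]
    exact ⟨hfl v hv, Nat.mod_lt _ (by omega)⟩
  have hinj : Set.InjOn col (V : Set (HeightOneSpectrum (𝓞 K))) := by
    intro v1 hv1 v2 hv2 hcol
    rw [Finset.mem_coe] at hv1 hv2
    have hk : key v1 = key v2 := congrArg Prod.fst hcol
    have hc1 : f (1 - x v1) = f (1 - x v2) := congrArg (fun z => z.2.1) hcol
    have hc2 : f (x v1 / β v1 ^ (ord v1 (x v1)).toNat) =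
        f (x v2 / β v2 ^ (ord v2 (x v2)).toNat) := congrArg (fun z => z.2.2) hcol
    have hmod : (ord v1 (x v1)).toNat % L = (ord v2 (x v2)).toNat % L :=
      congrArg (fun z => z.2.2) hk
    have hb1 := hβo v1 hv1
    have hb2 := hβo v2 hv2
    rw [hk] at hb1
    set w0 := u (key v2) with hw0
    have hw0V : w0 ∈ V := (huV v2 hv2).1
    have hdvd : (L : ℤ) ∣ ((ord v1 (x v1)).toNat : ℤ) - ((ord v2 (x v2)).toNat : ℤ) := by
      have h1 : (ord v2 (x v2)).toNat ≡ (ord v1 (x v1)).toNat [MOD L] := hmod.symm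
      exact (Nat.modEq_iff_dvd).1 h1
    have hn1 : ((ord v1 (x v1)).toNat : ℤ) = ord v1 (x v1) :=
      Int.toNat_of_nonneg (hxo v1 hv1).le
    have hn2 : ((ord v2 (x v2)).toNat : ℤ) = ord v2 (x v2) :=
      Int.toNat_of_nonneg (hxo v2 hv2).le
    have hkey : ∀ v ∈ V, ∀ w, w ∉ T → ord w (x v - 1) = 0 ∧
        ord w (x v) = if w = v then ((ord v (x v)).toNat : ℤ) else 0 := by
      intro v hv w hw
      refine ⟨(hxw v hv w hw).1, ?_⟩
      by_cases h : w = v
      · rw [if_pos h, h, Int.toNat_of_nonneg (hxo v hv).le]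
      · rw [if_neg h]
        exact (hxw v hv w hw).2 h
    have hne : ∀ v ∈ V, (1 : K) - x v ≠ 0 := fun v hv h =>
      hx1 v hv (sub_eq_zero.1 h).symm
    have hq : ∀ v ∈ V, x v / β v ^ (ord v (x v)).toNat ≠ 0 := fun v hv =>
      div_ne_zero (hx0 v hv) (pow_ne_zero _ (hβ0 v hv))
    obtain ⟨t, ht0, ht⟩ := hf (1 - x v1) (1 - x v2) (hne v1 hv1) (hne v2 hv2) (by
      intro w hw
      have h1 : ∀ v ∈ V, ord w (1 - x v) = 0 := by
        intro v hv
        rw [← neg_sub, RoughCount_neg]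
        exact (hxw v hv w hw).1
      rw [h1 v1 hv1, h1 v2 hv2, sub_zero]
      exact dvd_zero _) hc1
    obtain ⟨r, hr0, hr⟩ := hf _ _ (hq v1 hv1) (hq v2 hv2) (by
      intro w hw
      rw [ord_div w (hx0 v1 hv1) (pow_ne_zero _ (hβ0 v1 hv1)),
        ord_div w (hx0 v2 hv2) (pow_ne_zero _ (hβ0 v2 hv2)), RoughCount_pow w (hβ0 v1 hv1),
        RoughCount_pow w (hβ0 v2 hv2), (hkey v1 hv1 w hw).2, (hkey v2 hv2 w hw).2, hb1 w, hb2 w]
      have h1 : ∀ (n : ℤ) (p : Prop) [Decidable p], (if p then n else 0) =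
          n * (if p then 1 else 0) := by
        intro n p _
        split_ifs <;> simp
      rw [h1 _ (w = v1), h1 _ (w = v2)]
      generalize (if w = v1 then (1 : ℤ) else 0) = a1
      generalize (if w = v2 then (1 : ℤ) else 0) = a2
      generalize (if w = w0 then (1 : ℤ) else 0) = a3
      obtain ⟨c, hc⟩ := hdvd
      refine ⟨c * a3, ?_⟩
      rw [← mul_assoc, ← hc]
      ring) hc2
    refine rough_pair T (Fl \ (T ∪ {w0, v1, v2})) w0 v1 v2 L (ord v1 (x v1)).toNat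
      (ord v2 (x v2)).toNat (x v1) (x v2) (β v1) (β v2) r t hL (hx0 v1 hv1) (hx1 v1 hv1)
      (hx0 v2 hv2) (hx1 v2 hv2) (hβ0 v1 hv1) (hβ0 v2 hv2) hr0 ht0 (hkey v1 hv1) (hkey v2 hv2)
      hb1 hb2 hdvd (hxg v1 hv1) ht hr ?_ ?_
    · intro l hl
      rw [Finset.mem_sdiff, Finset.mem_union, Finset.mem_insert, Finset.mem_insert,
        Finset.mem_singleton] at hl
      exact ⟨fun h => hl.2 (Or.inl h), fun h => hl.2 (Or.inr (Or.inl h)),
        fun h => hl.2 (Or.inr (Or.inr (Or.inl h))), fun h => hl.2 (Or.inr (Or.inr (Or.inr h))),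
        (hFl l hl.1).1⟩
    · have h1 := RoughCount_hgt (hβ0 v1 hv1) v1 w0 hb1 (hβi v1 hv1)
      have h2 := RoughCount_hgt (hβ0 v2 hv2) v2 w0 hb2 (hβi v2 hv2)
      have h3 := hlnP w0 hw0V
      have h4 := RoughCount_sum T Fl w0 v1 v2 hb (fun l hl => (hFl l hl).2)
      have h5 : (C1 : ℝ) ≤ ((C1 + M * Cp ^ 2 + 2 * Cp + 3 : ℕ) : ℝ) := by
        exact_mod_cast (by omega : C1 ≤ C1 + M * Cp ^ 2 + 2 * Cp + 3)
      linarith
  have hcard := Finset.card_le_card_of_injOn col hmaps hinj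
  rw [Finset.card_product, Finset.card_product, Finset.card_product, Finset.card_product,
    Finset.card_univ, Finset.card_univ, Finset.card_range, Finset.card_range, Fintype.card_fin,
    Fintype.card_fin] at hcard
  refine le_trans (by exact_mod_cast hcard) (RoughCount_fin (C1 := C1) hlogP hL hM1 ?_)
  push_cast
  have := Nat.floor_le hlogP
  linarith

end Pool.Agent.TMS
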