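import Mathlib
import Pool.Agent.H6.Asymp

/-!
# Bad (size 3)

Let `T = ⌈Y ^ δ⌉`, `w = ⌊Y ^ (1/24)⌋`. If `l ≤ Y` is a prime and a prime `q > Y ^ (1 - δ)` divides `l - 1`,
then `l = m q + 1` with `1 ≤ m ≤ T`, and `m` is even if `q` is odd (`l` odd); `q = 2` is excluded for large
`Y`. So the number of such `l` is at most `∑_{m ≤ T, m even} #{q ≤ Y / m : q, m q + 1 prime}`, which is
bounded in the proof of `Pool.Agent.H6.card_EE_le` by
`16 (1 + log T) Y / (log w) ^ 2 + T * (2 w ^ 12)`: repeat that proof (`card_pairs_explicit`,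
`sum_sigma_le`, `harm_le`). With `log w ≥ log Y / 25`, `1 + log T ≤ 3 δ log Y` (for `Y` large depending on
`δ`), `T w ^ 12 ≤ 2 Y ^ (δ + 1/2) ≤ δ Y / log Y`.
-/

namespace Pool.Agent.TMS

open Filter Topology

open Pool.Agent.H6 in
private theorem bad_sum (T Y w : ℕ) (hw : 2 ≤ w) :
    ∑ m ∈ (Finset.Icc 1 T).filter (fun m => 2 ∣ m),
      ((((Finset.Icc 1 (Y / m)).filter (fun q => q.Prime ∧ (m * q + 1).Prime)).card : ℕ) : ℝ) ≤
      16 * (1 + Real.log T) * Y / (Real.log w) ^ 2 + T * (2 * (w : ℝ) ^ 12) := by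
  have hlog : 0 < Real.log w := Real.log_pos (by exact_mod_cast (by omega : 1 < w))
  calc _ ≤ ∑ m ∈ (Finset.Icc 1 T).filter (fun m => 2 ∣ m),
        (8 * ((∑ h ∈ m.divisors, (1 : ℝ) / h) * (1 / m)) * Y / (Real.log w) ^ 2 + 2 * (w : ℝ) ^ 12) := by
        apply Finset.sum_le_sum
        intro m hm
        rw [Finset.mem_filter, Finset.mem_Icc] at hm
        have h2 := card_pairs_explicit m (Y / m) w hm.2 hm.1.1 hw
        refine h2.trans ?_
        have h3 : ((Y / m : ℕ) : ℝ) ≤ (Y : ℝ) * (1 / m) := by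
          rw [mul_one_div]
          exact Nat.cast_div_le
        have hs : 0 ≤ ∑ h ∈ m.divisors, (1 : ℝ) / h := Finset.sum_nonneg (fun i _ => by positivity)
        have h4 : 8 * (∑ h ∈ m.divisors, (1 : ℝ) / h) * ((Y / m : ℕ) : ℝ) / (Real.log w) ^ 2 ≤
            8 * (∑ h ∈ m.divisors, (1 : ℝ) / h) * ((Y : ℝ) * (1 / m)) / (Real.log w) ^ 2 := by
          gcongr
        have h5 : 8 * (∑ h ∈ m.divisors, (1 : ℝ) / h) * ((Y : ℝ) * (1 / m)) / (Real.log w) ^ 2 =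
            8 * ((∑ h ∈ m.divisors, (1 : ℝ) / h) * (1 / m)) * Y / (Real.log w) ^ 2 := by ring
        linarith
    _ ≤ ∑ m ∈ Finset.Icc 1 T,
        (8 * ((∑ h ∈ m.divisors, (1 : ℝ) / h) * (1 / m)) * Y / (Real.log w) ^ 2 + 2 * (w : ℝ) ^ 12) := by
        apply Finset.sum_le_sum_of_subset_of_nonneg (Finset.filter_subset _ _)
        intro i _ _
        have hs : 0 ≤ ∑ h ∈ i.divisors, (1 : ℝ) / h := Finset.sum_nonneg (fun i _ => by positivity)
        positivity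
    _ = 8 * (∑ m ∈ Finset.Icc 1 T, (∑ h ∈ m.divisors, (1 : ℝ) / h) * (1 / m)) * Y / (Real.log w) ^ 2 +
        T * (2 * (w : ℝ) ^ 12) := by
        rw [Finset.sum_add_distrib, Finset.sum_const, Nat.card_Icc, Nat.add_sub_cancel, nsmul_eq_mul,
          ← Finset.sum_div, ← Finset.sum_mul, ← Finset.mul_sum]
    _ ≤ _ := by
        have h6 := sum_sigma_le T
        have h7 := harm_le T
        have h8 : 8 * (∑ m ∈ Finset.Icc 1 T, (∑ h ∈ m.divisors, (1 : ℝ) / h) * (1 / m)) ≤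
            16 * (1 + Real.log T) := by linarith
        have h9 : 8 * (∑ m ∈ Finset.Icc 1 T, (∑ h ∈ m.divisors, (1 : ℝ) / h) * (1 / m)) * Y /
            (Real.log w) ^ 2 ≤ 16 * (1 + Real.log T) * Y / (Real.log w) ^ 2 := by
          apply div_le_div_of_nonneg_right _ (by positivity)
          exact mul_le_mul_of_nonneg_right h8 (Nat.cast_nonneg Y)
        linarith

open Classical in
private theorem bad_sub (δ : ℝ) (T Y : ℕ) (hY : 1 ≤ Y) (h2 : (2 : ℝ) ≤ (Y : ℝ) ^ (1 - δ))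
    (hT : (Y : ℝ) ^ δ ≤ T) :
    ((((Finset.Icc 1 Y).filter (fun l => l.Prime ∧ ∃ q : ℕ, q.Prime ∧ q ∣ l - 1 ∧
      (Y : ℝ) ^ (1 - δ) < q)).card : ℕ) : ℝ) ≤
    ∑ m ∈ (Finset.Icc 1 T).filter (fun m => 2 ∣ m),
      ((((Finset.Icc 1 (Y / m)).filter (fun q => q.Prime ∧ (m * q + 1).Prime)).card : ℕ) : ℝ) := by
  have hYpos : (0 : ℝ) < Y := by exact_mod_cast hY
  have hsub : ((Finset.Icc 1 Y).filter (fun l => l.Prime ∧ ∃ q : ℕ, q.Prime ∧ q ∣ l - 1 ∧
      (Y : ℝ) ^ (1 - δ) < q)) ⊆ ((Finset.Icc 1 T).filter (fun m => 2 ∣ m)).biUnion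
      (fun m => ((Finset.Icc 1 (Y / m)).filter (fun q => q.Prime ∧ (m * q + 1).Prime)).image
        (fun q => m * q + 1)) := by
    intro l hl
    rw [Finset.mem_filter, Finset.mem_Icc] at hl
    obtain ⟨⟨hl1, hlY⟩, hlp, q, hq, ⟨m, hm⟩, hqY⟩ := hl
    have hl2 : 2 ≤ l := hlp.two_le
    have hq2 : 2 < q := by
      have : (2 : ℝ) < q := lt_of_le_of_lt h2 hqY
      exact_mod_cast this
    have hm0 : 0 < m := by
      rcases Nat.eq_zero_or_pos m with h | h
      · subst h; omega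
      · exact h
    have hlm : l = m * q + 1 := by
      rw [mul_comm]; omega
    have hl3 : l ≠ 2 := by
      intro h
      have : 3 ≤ m * q := by nlinarith
      omega
    have hm2 : 2 ∣ m := by
      have hodd := hlp.odd_of_ne_two hl3
      have hqodd := hq.odd_of_ne_two (by omega)
      obtain ⟨k, hk⟩ := hodd
      have h3 : 2 ∣ q * m := by rw [← hm]; exact ⟨k, by omega⟩
      rcases (Nat.prime_two.dvd_mul).mp h3 with h | h
      · exact absurd (Nat.odd_iff.1 hqodd) (by omega)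
      · exact h
    have hmT : m ≤ T := by
      have h5 : ((m : ℝ)) * q ≤ Y := by
        have : m * q ≤ Y := by omega
        exact_mod_cast this
      have h6 : (m : ℝ) * (Y : ℝ) ^ (1 - δ) ≤ Y := by
        refine le_trans ?_ h5
        exact mul_le_mul_of_nonneg_left hqY.le (Nat.cast_nonneg m)
      have h7 : (Y : ℝ) ^ (1 - δ) * (Y : ℝ) ^ δ = Y := by
        rw [← Real.rpow_add hYpos]
        simp
      have h8 : (m : ℝ) * (Y : ℝ) ^ (1 - δ) ≤ (T : ℝ) * (Y : ℝ) ^ (1 - δ) := by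
        refine h6.trans ?_
        rw [mul_comm (T : ℝ)]
        calc (Y : ℝ) = (Y : ℝ) ^ (1 - δ) * (Y : ℝ) ^ δ := h7.symm
          _ ≤ _ := mul_le_mul_of_nonneg_left hT (by positivity)
      have h9 : (m : ℝ) ≤ T := le_of_mul_le_mul_right h8 (by linarith)
      exact_mod_cast h9
    rw [Finset.mem_biUnion]
    refine ⟨m, ?_, ?_⟩
    · rw [Finset.mem_filter, Finset.mem_Icc]
      exact ⟨⟨hm0, hmT⟩, hm2⟩
    · rw [Finset.mem_image]
      refine ⟨q, ?_, hlm.symm⟩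
      rw [Finset.mem_filter, Finset.mem_Icc]
      refine ⟨⟨hq.one_lt.le, ?_⟩, hq, by rw [← hlm]; exact hlp⟩
      rw [Nat.le_div_iff_mul_le hm0]
      have : q * m = m * q := mul_comm _ _
      omega
  have h1 := (Finset.card_le_card hsub).trans Finset.card_biUnion_le
  have h3 := h1.trans (Finset.sum_le_sum fun m _ => Finset.card_image_le)
  exact_mod_cast h3

open Classical in
theorem bad_card : ∃ C : ℝ, 0 < C ∧ ∀ δ : ℝ, 0 < δ → δ ≤ 1 / 4 → ∀ᶠ Y : ℕ in atTop,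
    ((((Finset.Icc 1 Y).filter (fun l => l.Prime ∧ ∃ q : ℕ, q.Prime ∧ q ∣ l - 1 ∧
      (Y : ℝ) ^ (1 - δ) < q)).card : ℕ) : ℝ) ≤ C * δ * (Y / Real.log Y) := by
  refine ⟨110593, by norm_num, fun δ hδ0 hδ1 => ?_⟩
  have t1 : Tendsto (fun x : ℝ => Real.log x) atTop atTop := Real.tendsto_log_atTop
  have f1 : ∀ᶠ x : ℝ in atTop, 1 / δ ≤ Real.log x := t1.eventually_ge_atTop (1 / δ)
  have f2 : ∀ᶠ x : ℝ in atTop, Real.log x ≤ (δ / 4) * x ^ (1 / 4 : ℝ) := by
    have := (isLittleO_log_rpow_atTop (show (0 : ℝ) < 1 / 4 by norm_num)).bound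
      (show (0 : ℝ) < δ / 4 by positivity)
    filter_upwards [this, eventually_ge_atTop (1 : ℝ)] with x hx hx1
    rw [Real.norm_of_nonneg (Real.log_nonneg hx1),
      Real.norm_of_nonneg (Real.rpow_nonneg (by linarith) _)] at hx
    exact hx
  have f3 : ∀ᶠ x : ℝ in atTop, 4 ≤ x ^ (1 / 24 : ℝ) :=
    (tendsto_rpow_atTop (show (0 : ℝ) < 1 / 24 by norm_num)).eventually_ge_atTop 4
  have f4 : ∀ᶠ x : ℝ in atTop, 2 ≤ x ^ (1 - δ) :=
    (tendsto_rpow_atTop (show (0 : ℝ) < 1 - δ by linarith)).eventually_ge_atTop 2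
  have fall := f1.and (f2.and (f3.and (f4.and (eventually_ge_atTop (4 : ℝ)))))
  have fN := tendsto_natCast_atTop_atTop (R := ℝ) |>.eventually fall
  filter_upwards [fN] with Y hYall
  obtain ⟨g1, g2, g3, g4, g5⟩ := hYall
  have hY1 : 1 ≤ Y := by
    have : (1 : ℝ) ≤ Y := by linarith
    exact_mod_cast this
  set T := ⌈(Y : ℝ) ^ δ⌉₊ with hTdef
  set w := ⌊(Y : ℝ) ^ (1 / 24 : ℝ)⌋₊ with hwdef
  have hTge : (Y : ℝ) ^ δ ≤ T := Nat.le_ceil _
  have hw : 2 ≤ w := by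
    rw [hwdef]
    apply Nat.le_floor
    push_cast
    linarith
  refine (bad_sub δ T Y hY1 g4 hTge).trans ((bad_sum T Y w hw).trans ?_)
  set x : ℝ := (Y : ℝ) with hx
  set L := Real.log x with hL
  have hxpos : 0 < x := by linarith
  have hLδ : 1 ≤ δ * L := by
    have := mul_le_mul_of_nonneg_left g1 hδ0.le
    rwa [mul_one_div_cancel hδ0.ne'] at this
  have hLpos : 0 < L := by
    by_contra h
    push Not at h
    nlinarith
  have hxδ1 : 1 ≤ x ^ δ := Real.one_le_rpow (by linarith) hδ0.le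
  have hTle : (T : ℝ) ≤ 2 * x ^ δ := by
    have := Nat.ceil_lt_add_one (show 0 ≤ x ^ δ by positivity)
    rw [← hTdef] at this
    linarith
  have hTpos : (0 : ℝ) < T := by linarith
  have hlogT : 1 + Real.log T ≤ 3 * (δ * L) := by
    have h8 : Real.log T ≤ Real.log (2 * x ^ δ) := Real.log_le_log hTpos hTle
    rw [Real.log_mul (by norm_num) (by positivity), Real.log_rpow hxpos, ← hL] at h8
    have := Real.log_two_lt_d9
    linarith
  have hlogT0 : 0 ≤ 1 + Real.log T := by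
    have : 0 ≤ Real.log T := Real.log_natCast_nonneg T
    linarith
  have hwle : (w : ℝ) ≤ x ^ (1 / 24 : ℝ) := Nat.floor_le (by positivity)
  have hw12 : (w : ℝ) ^ 12 ≤ x ^ (1 / 2 : ℝ) := by
    calc (w : ℝ) ^ 12 ≤ (x ^ (1 / 24 : ℝ)) ^ 12 := by gcongr
      _ = x ^ (1 / 2 : ℝ) := by
          rw [← Real.rpow_natCast, ← Real.rpow_mul hxpos.le]
          norm_num
  have hlogw : L / 48 ≤ Real.log w := by
    have h1 : x ^ (1 / 48 : ℝ) ≤ w := by
      have h2 : x ^ (1 / 24 : ℝ) - 1 ≤ w := by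
        have := Nat.lt_floor_add_one (x ^ (1 / 24 : ℝ))
        rw [← hwdef] at this
        linarith
      have h3 : x ^ (1 / 24 : ℝ) = (x ^ (1 / 48 : ℝ)) ^ 2 := by
        rw [← Real.rpow_natCast, ← Real.rpow_mul hxpos.le]
        norm_num
      have h4 : 2 ≤ x ^ (1 / 48 : ℝ) := by
        have h5 : (0 : ℝ) ≤ x ^ (1 / 48 : ℝ) := by positivity
        rw [h3] at g3
        nlinarith
      rw [h3] at h2
      nlinarith
    have h6 : Real.log (x ^ (1 / 48 : ℝ)) ≤ Real.log w := Real.log_le_log (by positivity) h1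
    rw [Real.log_rpow hxpos] at h6
    linarith
  have a3 : 16 * (1 + Real.log T) * x / (Real.log w) ^ 2 ≤ 110592 * δ * (x / L) := by
    calc 16 * (1 + Real.log T) * x / (Real.log w) ^ 2 ≤
          16 * (3 * (δ * L)) * x / (L / 48) ^ 2 := by
          gcongr
      _ = 110592 * δ * (x / L) := by field_simp; ring
  have a4 : T * (2 * (w : ℝ) ^ 12) ≤ δ * (x / L) := by
    have h11 : x ^ (3 / 4 : ℝ) * x ^ (1 / 4 : ℝ) = x := by
      rw [← Real.rpow_add hxpos]; norm_num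
    have h12 : x ^ δ * x ^ (1 / 2 : ℝ) ≤ x ^ (3 / 4 : ℝ) := by
      rw [← Real.rpow_add hxpos]
      exact Real.rpow_le_rpow_of_exponent_le (by linarith) (by linarith)
    rw [← mul_div_assoc, le_div_iff₀ hLpos]
    have hp34 : 0 ≤ x ^ (3 / 4 : ℝ) := by positivity
    calc T * (2 * (w : ℝ) ^ 12) * L ≤ (2 * x ^ δ) * (2 * x ^ (1 / 2 : ℝ)) * L := by gcongr
      _ = 4 * (x ^ δ * x ^ (1 / 2 : ℝ)) * L := by ring
      _ ≤ 4 * x ^ (3 / 4 : ℝ) * L := by gcongr
      _ ≤ 4 * x ^ (3 / 4 : ℝ) * ((δ / 4) * x ^ (1 / 4 : ℝ)) := by gcongr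
      _ = δ * (x ^ (3 / 4 : ℝ) * x ^ (1 / 4 : ℝ)) := by ring
      _ = δ * x := by rw [h11]
  linarith

end Pool.Agent.TMS
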