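import Mathlib
import Pool.Agent.TMS.Bad

/-!
# BadSum (size 3)

`U` is any finite set of primes `l` with `z < l ≤ z ^ (1 + η)` such that a prime `q > l ^ (1 - δ)` divides
`l - 1`. Cut into the blocks `2 ^ i ≤ l < 2 ^ (i + 1) = Y`; there are at most `η log z / log 2 + 2 ≤ 3 η log z`
of them. In a block `q > l ^ (1 - δ) ≥ (Y / 2) ^ (1 - δ) ≥ Y ^ (1 - 2 δ)` for large `Y`; `bad_card` with `2 δ`
gives at most `2 C δ Y / log Y` elements, each with `log l / l ≤ 2 log Y / Y`: at most `4 C δ` per block.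
-/

namespace Pool.Agent.TMS

open Filter Topology

theorem bad_sum : ∃ C : ℝ, 0 < C ∧ ∀ δ η : ℝ, 0 < δ → δ ≤ 1 / 8 → 0 < η → η ≤ 1 →
    ∀ᶠ z : ℝ in atTop, ∀ U : Finset ℕ,
      (∀ l ∈ U, l.Prime ∧ z < l ∧ (l : ℝ) ≤ z ^ (1 + η) ∧
        ∃ q : ℕ, q.Prime ∧ q ∣ l - 1 ∧ (l : ℝ) ^ (1 - δ) < q) →
      ∑ l ∈ U, Real.log l / l ≤ C * δ * η * Real.log z := by
  classical
  obtain ⟨C, hC, hbad⟩ := bad_card
  refine ⟨12 * C, by positivity, fun δ η hδ hδ8 hη hη1 => ?_⟩
  have hb := hbad (2 * δ) (by linarith) (by linarith)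
  rw [eventually_atTop] at hb
  obtain ⟨N0, hN0⟩ := hb
  have h2 : ∀ᶠ x : ℝ in atTop, 2 ≤ x ^ δ := (tendsto_rpow_atTop hδ).eventually_ge_atTop 2
  rw [eventually_atTop] at h2
  obtain ⟨x1, hx1⟩ := h2
  have h3 : ∀ᶠ z : ℝ in atTop, 2 / η ≤ Real.log z :=
    Real.tendsto_log_atTop.eventually_ge_atTop _
  filter_upwards [h3, eventually_ge_atTop (N0 : ℝ), eventually_ge_atTop x1,
    eventually_ge_atTop (2 : ℝ)] with z hz3 hzN hzx hz2 U hU
  have hlog2 : 0 < Real.log 2 := Real.log_pos (by norm_num)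
  have hlog2a : 0.6931471803 < Real.log 2 := Real.log_two_gt_d9
  have hz0 : 0 < z := by linarith
  have hlz : 0 < Real.log z := Real.log_pos (by linarith)
  set lam : ℝ := Real.log z / Real.log 2 with hlam
  have hlam1 : 1 ≤ lam := by
    rw [hlam, le_div_iff₀ hlog2, one_mul]
    exact Real.log_le_log (by norm_num) hz2
  -- position of the exponents
  have hpos : ∀ l ∈ U, lam - 1 < (Nat.log 2 l : ℝ) ∧ (Nat.log 2 l : ℝ) ≤ (1 + η) * lam := by
    intro l hl
    obtain ⟨hlp, hzl, hlz2, -⟩ := hU l hl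
    have hl0 : l ≠ 0 := hlp.ne_zero
    have hlr : (0 : ℝ) < l := by exact_mod_cast hlp.pos
    have e1 : l < 2 ^ (Nat.log 2 l + 1) := Nat.lt_pow_succ_log_self (by norm_num) l
    have e2 : 2 ^ Nat.log 2 l ≤ l := Nat.pow_log_le_self 2 hl0
    have e1' : (l : ℝ) < 2 ^ (Nat.log 2 l + 1) := by exact_mod_cast e1
    have e2' : (2 : ℝ) ^ Nat.log 2 l ≤ l := by exact_mod_cast e2
    constructor
    · have e3 : Real.log z < ((Nat.log 2 l : ℝ) + 1) * Real.log 2 := by
        have := Real.log_lt_log hz0 (hzl.trans e1')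
        rw [Real.log_pow] at this
        push_cast at this
        exact this
      have e4 : lam < (Nat.log 2 l : ℝ) + 1 := by
        rw [hlam, div_lt_iff₀ hlog2]
        exact e3
      linarith
    · have e3 : (Nat.log 2 l : ℝ) * Real.log 2 ≤ (1 + η) * Real.log z := by
        have := Real.log_le_log (by positivity) (e2'.trans hlz2)
        rw [Real.log_pow, Real.log_rpow hz0] at this
        exact this
      rw [hlam, ← mul_div_assoc, le_div_iff₀ hlog2]
      exact e3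
  set I : Finset ℕ := U.image (Nat.log 2) with hI
  have hIcard : (I.card : ℝ) ≤ 3 * η * Real.log z := by
    have hsub : I ⊆ Finset.Ioc ⌊lam - 1⌋₊ ⌊(1 + η) * lam⌋₊ := by
      intro i hi
      obtain ⟨l, hl, rfl⟩ := Finset.mem_image.mp hi
      obtain ⟨p1, p2⟩ := hpos l hl
      rw [Finset.mem_Ioc]
      constructor
      · have : ((⌊lam - 1⌋₊ : ℕ) : ℝ) < (Nat.log 2 l : ℝ) :=
          lt_of_le_of_lt (Nat.floor_le (by linarith)) p1
        exact_mod_cast this
      · exact Nat.le_floor p2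
    have h4 : I.card ≤ ⌊(1 + η) * lam⌋₊ - ⌊lam - 1⌋₊ := by
      have := Finset.card_le_card hsub
      rwa [Nat.card_Ioc] at this
    have h5 : (I.card : ℝ) ≤ (⌊(1 + η) * lam⌋₊ : ℝ) - (⌊lam - 1⌋₊ : ℝ) := by
      have h6 : ⌊lam - 1⌋₊ ≤ ⌊(1 + η) * lam⌋₊ := by
        apply Nat.floor_le_floor
        nlinarith
      have : (I.card : ℝ) ≤ ((⌊(1 + η) * lam⌋₊ - ⌊lam - 1⌋₊ : ℕ) : ℝ) := by exact_mod_cast h4
      rwa [Nat.cast_sub h6] at this
    have h6 : ((⌊(1 + η) * lam⌋₊ : ℕ) : ℝ) ≤ (1 + η) * lam := Nat.floor_le (by positivity)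
    have h7 : lam - 1 - 1 < ((⌊lam - 1⌋₊ : ℕ) : ℝ) := Nat.sub_one_lt_floor (lam - 1)
    have h8 : (I.card : ℝ) ≤ η * lam + 2 := by nlinarith
    have h9 : lam ≤ 1.45 * Real.log z := by
      rw [hlam, div_le_iff₀ hlog2]
      nlinarith
    have h10 : 2 ≤ η * Real.log z := by
      have := mul_le_mul_of_nonneg_left hz3 hη.le
      rwa [mul_div_cancel₀ _ hη.ne'] at this
    have h11 : η * lam ≤ η * (1.45 * Real.log z) := mul_le_mul_of_nonneg_left h9 hη.le
    nlinarith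
  have hblock : ∀ i ∈ I, ∑ l ∈ U with Nat.log 2 l = i, Real.log l / l ≤ 4 * C * δ := by
    intro i _
    by_cases hemp : (U.filter (fun l => Nat.log 2 l = i)) = ∅
    · rw [hemp, Finset.sum_empty]; positivity
    obtain ⟨l0, hl0⟩ := Finset.nonempty_iff_ne_empty.mpr hemp
    rw [Finset.mem_filter] at hl0
    set Y : ℕ := 2 ^ (i + 1) with hY
    have hYr : (Y : ℝ) = 2 ^ (i + 1) := by rw [hY]; push_cast; rfl
    have hlY : ∀ l ∈ U, Nat.log 2 l = i → (l : ℝ) < Y ∧ (Y : ℝ) / 2 ≤ l := by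
      intro l hl hli
      obtain ⟨hlp, -, -, -⟩ := hU l hl
      have e1 : l < 2 ^ (Nat.log 2 l + 1) := Nat.lt_pow_succ_log_self (by norm_num) l
      have e2 : 2 ^ Nat.log 2 l ≤ l := Nat.pow_log_le_self 2 hlp.ne_zero
      rw [hli] at e1 e2
      constructor
      · exact_mod_cast e1
      · have : (2 : ℝ) ^ i ≤ l := by exact_mod_cast e2
        rw [hYr, pow_succ]
        linarith
    have hzY : z < Y := (hU l0 hl0.1).2.1.trans (hlY l0 hl0.1 hl0.2).1
    have hY2 : (2 : ℝ) < Y := lt_of_le_of_lt hz2 hzY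
    have hY0 : (0 : ℝ) < Y := by linarith
    have hlY0 : 0 < Real.log Y := Real.log_pos (by linarith)
    have hcard := hN0 Y (by
      have : (N0 : ℝ) ≤ Y := hzN.trans hzY.le
      exact_mod_cast this)
    have hYδ := hx1 Y (hzx.trans hzY.le)
    have hsub : (U.filter (fun l => Nat.log 2 l = i)) ⊆
        (Finset.Icc 1 Y).filter (fun l => l.Prime ∧ ∃ q : ℕ, q.Prime ∧ q ∣ l - 1 ∧
          (Y : ℝ) ^ (1 - 2 * δ) < q) := by
      intro l hl
      rw [Finset.mem_filter] at hl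
      obtain ⟨hlp, hzl, hlz2, q, hq, hql, hqb⟩ := hU l hl.1
      obtain ⟨f1, f2⟩ := hlY l hl.1 hl.2
      rw [Finset.mem_filter, Finset.mem_Icc]
      refine ⟨⟨hlp.pos, by exact_mod_cast f1.le⟩, hlp, q, hq, hql, lt_of_le_of_lt ?_ hqb⟩
      have g1 : ((Y : ℝ) / 2) ^ (1 - δ) ≤ (l : ℝ) ^ (1 - δ) :=
        Real.rpow_le_rpow (by positivity) f2 (by linarith)
      refine le_trans ?_ g1
      rw [Real.div_rpow hY0.le (by norm_num)]
      have g2 : (2 : ℝ) ^ (1 - δ) ≤ (Y : ℝ) ^ δ := by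
        refine le_trans ?_ hYδ
        calc (2 : ℝ) ^ (1 - δ) ≤ (2 : ℝ) ^ (1 : ℝ) :=
              Real.rpow_le_rpow_of_exponent_le (by norm_num) (by linarith)
          _ = 2 := Real.rpow_one 2
      rw [le_div_iff₀ (Real.rpow_pos_of_pos (by norm_num) _)]
      calc (Y : ℝ) ^ (1 - 2 * δ) * (2 : ℝ) ^ (1 - δ) ≤ (Y : ℝ) ^ (1 - 2 * δ) * (Y : ℝ) ^ δ :=
            mul_le_mul_of_nonneg_left g2 (Real.rpow_nonneg hY0.le _)
        _ = (Y : ℝ) ^ (1 - δ) := by
            rw [← Real.rpow_add hY0]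
            congr 1
            ring
    have hc2 : ((U.filter (fun l => Nat.log 2 l = i)).card : ℝ) ≤
        C * (2 * δ) * (Y / Real.log Y) := by
      refine le_trans ?_ hcard
      exact_mod_cast Finset.card_le_card hsub
    have hterm : ∀ l ∈ U.filter (fun l => Nat.log 2 l = i),
        Real.log l / l ≤ 2 * Real.log Y / Y := by
      intro l hl
      rw [Finset.mem_filter] at hl
      obtain ⟨f1, f2⟩ := hlY l hl.1 hl.2
      have hlr : (0 : ℝ) < l := by exact_mod_cast (hU l hl.1).1.pos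
      have g1 : Real.log l ≤ Real.log Y := Real.log_le_log hlr f1.le
      rw [div_le_div_iff₀ hlr hY0]
      have g2 : Real.log l * Y ≤ Real.log Y * Y := mul_le_mul_of_nonneg_right g1 hY0.le
      have g3 : Real.log Y * Y ≤ Real.log Y * (2 * l) :=
        mul_le_mul_of_nonneg_left (by linarith) hlY0.le
      linarith
    calc ∑ l ∈ U with Nat.log 2 l = i, Real.log l / l
        ≤ ∑ l ∈ U with Nat.log 2 l = i, 2 * Real.log Y / Y := Finset.sum_le_sum hterm
      _ = ((U.filter (fun l => Nat.log 2 l = i)).card : ℝ) * (2 * Real.log Y / Y) := by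
          rw [Finset.sum_const, nsmul_eq_mul]
      _ ≤ (C * (2 * δ) * (Y / Real.log Y)) * (2 * Real.log Y / Y) :=
          mul_le_mul_of_nonneg_right hc2 (by positivity)
      _ = 4 * C * δ := by
          field_simp
          ring
  calc ∑ l ∈ U, Real.log l / l
      = ∑ i ∈ I, ∑ l ∈ U with Nat.log 2 l = i, Real.log l / l := by
        rw [Finset.sum_fiberwise_of_maps_to]
        intro l hl
        exact Finset.mem_image_of_mem _ hl
    _ ≤ ∑ i ∈ I, 4 * C * δ := Finset.sum_le_sum hblock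
    _ = (I.card : ℝ) * (4 * C * δ) := by rw [Finset.sum_const, nsmul_eq_mul]
    _ ≤ (3 * η * Real.log z) * (4 * C * δ) :=
        mul_le_mul_of_nonneg_right hIcard (by positivity)
    _ = 12 * C * δ * η * Real.log z := by ring

end Pool.Agent.TMS
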