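import Mathlib
import Pool.Agent.TMS.IdAsym

/-!
# SumFac (size 4)

`log N I = ∑_v ord_v(I) ln v` (finite sum over the places dividing `I`; unique factorisation:
`Ideal.finprod_heightOneSpectrum_factorization`, or by induction over prime factors
(`UniqueFactorizationMonoid.induction_on_prime`), `ord_v(I) = #{k ≥ 1 : v ^ k ∣ I}`).
So `∑_I log N I = ∑_v ln v ∑_{k ≥ 1, N v ^ k ≤ y} #{I ∈ idl K y : v ^ k ∣ I}`
`= ∑_v ln v ∑_{k ≥ 1} card (idl K (y / N v ^ k))` (`idl_dvd` with `J = v.asIdeal ^ k`).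
`fac_lower`: keep `k = 1`. `fac_upper`: the terms with `k ≥ 2` are at most
`∑_v ln v ∑_{k ≥ 2} C y / N v ^ k ≤ 2 C y ∑_v ln v / N v ^ 2 ≤ C' y ∑_v N v ^ (-3/2)` (`idl_le`,
`H7.Abc.exists_bound` with `σ = 3 / 2`, `log t ≤ 2 t ^ (1/2)`).
Alternative for `fac_lower` and `fac_upper` without exact identities: it suffices to have for every `I ≠ ⊥`:
`∑_{v ∣ I, v ∈ plc K y} ln v ≤ log N I` and `log N I ≤ ∑_{v ∈ plc K y} ∑_{k=1}^{K0} [v ^ k ∣ I] ln v`.
-/

namespace Pool.Agent.TMS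

open NumberField IsDedekindDomain Pool.Agent.H7.Abc Pool.Agent.AbcE

private theorem SumFac_exists (K : Type*) [Field K] [NumberField K] (I : Ideal (𝓞 K)) (hI : I ≠ ⊥) :
    ∃ (s : Finset (HeightOneSpectrum (𝓞 K))) (c : HeightOneSpectrum (𝓞 K) → ℕ),
      (∀ v ∈ s, c v ≠ 0 ∧ v.asIdeal ^ c v ∣ I) ∧ ∏ v ∈ s, v.asIdeal ^ c v = I := by
  classical
  have h := Ideal.finprod_heightOneSpectrum_factorization (R := 𝓞 K) (I := I) hI
  have hfin := Ideal.hasFiniteMulSupport (R := 𝓞 K) (I := I) hI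
  rw [finprod_eq_prod _ hfin] at h
  refine ⟨_, fun v => (Associates.mk v.asIdeal).count (Associates.mk I).factors, ?_, h⟩
  intro v hv
  constructor
  · intro h0
    have h1 := (Set.Finite.mem_toFinset _).1 hv
    apply h1
    change v.maxPowDividing I = 1
    unfold HeightOneSpectrum.maxPowDividing
    have h0' : (Associates.mk v.asIdeal).count (Associates.mk I).factors = 0 := h0
    rw [h0', pow_zero]
  · conv_rhs => rw [← h]
    exact Finset.dvd_prod_of_mem (fun v : HeightOneSpectrum (𝓞 K) => v.maxPowDividing I) hv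

private theorem SumFac_one_le (K : Type*) [Field K] [NumberField K] (I : Ideal (𝓞 K)) (hI : I ≠ ⊥) :
    1 ≤ Ideal.absNorm I :=
  Nat.one_le_iff_ne_zero.2 (by rwa [Ne, Ideal.absNorm_eq_zero_iff])

private theorem SumFac_norm_le (K : Type*) [Field K] [NumberField K] (I J : Ideal (𝓞 K))
    (hI : I ≠ ⊥) (h : J ∣ I) : (Ideal.absNorm J : ℝ) ≤ (Ideal.absNorm I : ℝ) := by
  have h1 : Ideal.absNorm J ∣ Ideal.absNorm I := map_dvd _ h
  exact_mod_cast Nat.le_of_dvd (SumFac_one_le K I hI) h1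

open Classical in
private theorem SumFac_low (K : Type*) [Field K] [NumberField K] (y : ℝ) (I : Ideal (𝓞 K))
    (hI : I ∈ idl K y) :
    ∑ v ∈ plc K y, (if v.asIdeal ∣ I then ln v else 0) ≤ Real.log (Ideal.absNorm I : ℝ) := by
  rw [mem_idl] at hI
  rw [← Finset.sum_filter]
  set s := (plc K y).filter (fun v => v.asIdeal ∣ I) with hs
  have hdvd : ∏ v ∈ s, v.asIdeal ∣ I := by
    have h1 : ∏ p ∈ s.image (fun v : HeightOneSpectrum (𝓞 K) => v.asIdeal), p ∣ I := by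
      refine Finset.prod_primes_dvd I ?_ ?_
      · intro p hp
        obtain ⟨v, _, rfl⟩ := Finset.mem_image.1 hp
        exact v.prime
      · intro p hp
        obtain ⟨v, hv, rfl⟩ := Finset.mem_image.1 hp
        exact (Finset.mem_filter.1 hv).2
    rwa [Finset.prod_image (fun a _ b _ hab => HeightOneSpectrum.ext hab)] at h1
  have h2 := SumFac_norm_le K I _ hI.1 hdvd
  have h3 : ∑ v ∈ s, ln v = Real.log (Ideal.absNorm (∏ v ∈ s, v.asIdeal) : ℝ) := by
    rw [map_prod, Nat.cast_prod, Real.log_prod]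
    · rfl
    · intro v _
      have := two_le_norm v
      positivity
  rw [h3]
  have h4 : (0 : ℝ) < (Ideal.absNorm (∏ v ∈ s, v.asIdeal) : ℝ) := by
    have h5 : (∏ v ∈ s, v.asIdeal) ≠ ⊥ := by
      intro h0
      rw [h0] at hdvd
      exact hI.1 (zero_dvd_iff.1 hdvd)
    exact_mod_cast SumFac_one_le K _ h5
  exact Real.log_le_log h4 h2

open Classical in
private theorem SumFac_up (K : Type*) [Field K] [NumberField K] (y : ℝ) (I : Ideal (𝓞 K))
    (hI : I ∈ idl K y) :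
    Real.log (Ideal.absNorm I : ℝ) ≤
      ∑ v ∈ plc K y, ∑ k ∈ Finset.Icc 1 (⌊y⌋₊ + 1), (if v.asIdeal ^ k ∣ I then ln v else 0) := by
  rw [mem_idl] at hI
  obtain ⟨s, c, hc, hprod⟩ := SumFac_exists K I hI.1
  have hlog : Real.log (Ideal.absNorm I : ℝ) = ∑ v ∈ s, (c v : ℝ) * ln v := by
    conv_lhs => rw [← hprod]
    rw [map_prod, Nat.cast_prod, Real.log_prod]
    · refine Finset.sum_congr rfl (fun v _ => ?_)
      rw [map_pow, Nat.cast_pow, Real.log_pow]
      rfl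
    · intro v _
      rw [map_pow, Nat.cast_pow]
      have := two_le_norm v
      positivity
  rw [hlog]
  have hsub : s ⊆ plc K y := by
    intro v hv
    rw [mem_plc]
    have h1 := hc v hv
    have h2 : v.asIdeal ∣ I := (dvd_pow_self _ h1.1).trans h1.2
    exact (SumFac_norm_le K I _ hI.1 h2).trans hI.2
  have hnn : ∀ v : HeightOneSpectrum (𝓞 K), 0 < ln v := fun v => log_norm_pos v
  refine le_trans (Finset.sum_le_sum (fun v hv => ?_))
    (Finset.sum_le_sum_of_subset_of_nonneg hsub (fun v _ _ =>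
      Finset.sum_nonneg (fun k _ => ?_)))
  · have h1 := hc v hv
    have h2 : ((2 : ℝ) ^ c v) ≤ y := by
      calc (2 : ℝ) ^ c v ≤ (Ideal.absNorm v.asIdeal : ℝ) ^ c v :=
            pow_le_pow_left₀ (by norm_num) (two_le_norm v) _
        _ = (Ideal.absNorm (v.asIdeal ^ c v) : ℝ) := by rw [map_pow, Nat.cast_pow]
        _ ≤ (Ideal.absNorm I : ℝ) := SumFac_norm_le K I _ hI.1 h1.2
        _ ≤ y := hI.2
    have h3 : c v ≤ ⌊y⌋₊ + 1 := by
      have h4 : (c v : ℝ) ≤ y := by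
        have h5 : c v < 2 ^ c v := Nat.lt_two_pow_self
        have h6 : (c v : ℝ) < (2 : ℝ) ^ c v := by exact_mod_cast h5
        linarith
      exact (Nat.le_floor h4).trans (Nat.le_succ _)
    have h5 : (c v : ℝ) * ln v = ∑ k ∈ Finset.Icc 1 (c v), ln v := by
      rw [Finset.sum_const, Nat.card_Icc, nsmul_eq_mul]
      simp
    rw [h5]
    refine le_trans (le_of_eq (Finset.sum_congr rfl (fun k hk => ?_)))
      (Finset.sum_le_sum_of_subset_of_nonneg (Finset.Icc_subset_Icc_right h3)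
        (fun k _ _ => ?_))
    · rw [if_pos]
      exact (pow_dvd_pow _ (Finset.mem_Icc.1 hk).2).trans h1.2
    · split_ifs
      · exact (hnn v).le
      · exact le_refl _
  · split_ifs
    · exact (hnn v).le
    · exact le_refl _

theorem fac_lower (K : Type*) [Field K] [NumberField K] (y : ℝ) :
    ∑ v ∈ plc K y, ln v * ((idl K (y / Ideal.absNorm v.asIdeal)).card : ℝ) ≤
      ∑ I ∈ idl K y, Real.log (Ideal.absNorm I : ℝ) := by
  classical
  have h1 : ∑ v ∈ plc K y, ln v * ((idl K (y / Ideal.absNorm v.asIdeal)).card : ℝ) =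
      ∑ I ∈ idl K y, ∑ v ∈ plc K y, (if v.asIdeal ∣ I then ln v else 0) := by
    rw [Finset.sum_comm]
    refine Finset.sum_congr rfl (fun v _ => ?_)
    rw [← Finset.sum_filter, Finset.sum_const, nsmul_eq_mul]
    have h2 := idl_dvd K v.asIdeal v.ne_bot y
    rw [← h2, mul_comm]
  rw [h1]
  exact Finset.sum_le_sum (fun I hI => SumFac_low K y I hI)

private theorem SumFac_geom (r : ℝ) (h0 : 0 ≤ r) (h1 : r ≤ 1 / 2) (n : ℕ) :
    ∑ k ∈ Finset.Icc 2 (n + 1), r ^ k ≤ 2 * r ^ 2 := by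
  have h : ∑ k ∈ Finset.Icc 2 (n + 1), r ^ k + 2 * r ^ (n + 2) ≤ 2 * r ^ 2 := by
    induction n with
    | zero => simp
    | succ n ih =>
      rw [Finset.sum_Icc_succ_top (by omega)]
      have h2 : 0 ≤ r ^ (n + 2) := by positivity
      have h3 : r ^ (n + 1 + 2) = r ^ (n + 2) * r := by ring
      have h4 : r ^ (n + 1 + 1) = r ^ (n + 2) := by ring
      rw [h3, h4]
      nlinarith
  have h2 : 0 ≤ r ^ (n + 2) := by positivity
  linarith

theorem fac_upper (K : Type*) [Field K] [NumberField K] :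
    ∃ C : ℝ, 0 < C ∧ ∀ y : ℝ, 0 ≤ y → ∑ I ∈ idl K y, Real.log (Ideal.absNorm I : ℝ) ≤
      ∑ v ∈ plc K y, ln v * ((idl K (y / Ideal.absNorm v.asIdeal)).card : ℝ) + C * y := by
  classical
  obtain ⟨C1, hC1, hle⟩ := idl_le K
  obtain ⟨Z, hZ⟩ := exists_bound K (show (1 : ℝ) < 3 / 2 by norm_num)
  have hZ0 : 0 ≤ Z := by simpa using hZ ∅
  have hnn : ∀ v : HeightOneSpectrum (𝓞 K), 0 < ln v := fun v => log_norm_pos v
  refine ⟨4 * C1 * Z + 1, by positivity, fun y hy => ?_⟩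
  have h1 : ∑ I ∈ idl K y, Real.log (Ideal.absNorm I : ℝ) ≤
      ∑ v ∈ plc K y, ∑ k ∈ Finset.Icc 1 (⌊y⌋₊ + 1),
        ln v * ((idl K (y / (Ideal.absNorm v.asIdeal : ℝ) ^ k)).card : ℝ) := by
    refine (Finset.sum_le_sum (fun I hI => SumFac_up K y I hI)).trans (le_of_eq ?_)
    rw [Finset.sum_comm]
    refine Finset.sum_congr rfl (fun v _ => ?_)
    rw [Finset.sum_comm]
    refine Finset.sum_congr rfl (fun k _ => ?_)
    rw [← Finset.sum_filter, Finset.sum_const, nsmul_eq_mul]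
    have h2 := idl_dvd K (v.asIdeal ^ k) (pow_ne_zero _ v.ne_bot) y
    rw [map_pow, Nat.cast_pow] at h2
    rw [← h2, mul_comm]
  refine h1.trans ?_
  have h2 : ∀ v ∈ plc K y, ∑ k ∈ Finset.Icc 1 (⌊y⌋₊ + 1),
        ln v * ((idl K (y / (Ideal.absNorm v.asIdeal : ℝ) ^ k)).card : ℝ) ≤
      ln v * ((idl K (y / Ideal.absNorm v.asIdeal)).card : ℝ) +
        4 * C1 * y * (Ideal.absNorm v.asIdeal : ℝ) ^ (-(3 / 2 : ℝ)) := by
    intro v _
    have hN2 := two_le_norm v
    set N : ℝ := (Ideal.absNorm v.asIdeal : ℝ) with hN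
    have hN0 : 0 < N := by linarith
    rw [← Finset.add_sum_Ioc_eq_sum_Icc (by omega : 1 ≤ ⌊y⌋₊ + 1), pow_one]
    have h3 : Finset.Ioc 1 (⌊y⌋₊ + 1) = Finset.Icc 2 (⌊y⌋₊ + 1) := by
      ext k; simp only [Finset.mem_Ioc, Finset.mem_Icc]; omega
    rw [h3]
    have h4 : ∑ k ∈ Finset.Icc 2 (⌊y⌋₊ + 1), ln v * ((idl K (y / N ^ k)).card : ℝ) ≤
        ln v * (C1 * y * (2 * (1 / N) ^ 2)) := by
      rw [← Finset.mul_sum]
      refine mul_le_mul_of_nonneg_left ?_ (hnn v).le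
      calc ∑ k ∈ Finset.Icc 2 (⌊y⌋₊ + 1), ((idl K (y / N ^ k)).card : ℝ)
          ≤ ∑ k ∈ Finset.Icc 2 (⌊y⌋₊ + 1), C1 * y * (1 / N) ^ k := by
            refine Finset.sum_le_sum (fun k _ => ?_)
            have h5 := hle (y / N ^ k) (by positivity)
            calc ((idl K (y / N ^ k)).card : ℝ) ≤ C1 * (y / N ^ k) := h5
              _ = C1 * y * (1 / N) ^ k := by rw [one_div, inv_pow]; ring
        _ = C1 * y * ∑ k ∈ Finset.Icc 2 (⌊y⌋₊ + 1), (1 / N) ^ k := by rw [Finset.mul_sum]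
        _ ≤ C1 * y * (2 * (1 / N) ^ 2) := by
            refine mul_le_mul_of_nonneg_left ?_ (by positivity)
            refine SumFac_geom (1 / N) (by positivity) ?_ _
            exact one_div_le_one_div_of_le (by norm_num) hN2
    have h5 : ln v ≤ 2 * N ^ (1 / 2 : ℝ) := by
      have h6 := Real.log_le_rpow_div hN0.le (show (0 : ℝ) < 1 / 2 by norm_num)
      have h7 : ln v = Real.log N := rfl
      rw [h7]
      linarith
    have h6 : ln v * (C1 * y * (2 * (1 / N) ^ 2)) ≤ 4 * C1 * y * N ^ (-(3 / 2 : ℝ)) := by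
      have h7 : N ^ (-(3 / 2 : ℝ)) = N ^ (1 / 2 : ℝ) * (1 / N) ^ 2 := by
        rw [show (-(3 / 2 : ℝ)) = 1 / 2 + (-2 : ℝ) by norm_num, Real.rpow_add hN0]
        congr 1
        rw [Real.rpow_neg hN0.le, one_div, inv_pow]
        norm_cast
      rw [h7]
      calc ln v * (C1 * y * (2 * (1 / N) ^ 2))
          ≤ (2 * N ^ (1 / 2 : ℝ)) * (C1 * y * (2 * (1 / N) ^ 2)) :=
            mul_le_mul_of_nonneg_right h5 (by positivity)
        _ = _ := by ring
    linarith
  refine (Finset.sum_le_sum h2).trans ?_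
  rw [Finset.sum_add_distrib, ← Finset.mul_sum]
  have h3 := hZ (plc K y)
  have h4 : 4 * C1 * y * ∑ v ∈ plc K y, (Ideal.absNorm v.asIdeal : ℝ) ^ (-(3 / 2 : ℝ)) ≤
      4 * C1 * y * Z := mul_le_mul_of_nonneg_left h3 (by positivity)
  nlinarith

end Pool.Agent.TMS
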