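import Mathlib
import Pool.Agent.TMS.IdAsym

/-!
# SumLog (size 3)

`κ` is any real number with `card (idl K y) / y → κ`, `κ > 0`.
Upper bound: every term is `≤ log y`, so the sum is `≤ card (idl K y) log y ≤ (κ + ε) y log y` for large `y`.
Lower bound: the ideals with norm in `(a y, y]`, `a > 0` small: their number is
`card (idl K y) - card (idl K (a y)) ≥ (κ - ε') y - (κ + ε') a y`, each term is `≥ log (a y) = log y - log (1/a)`.
(All terms are `≥ 0`, norms are `≥ 1`.)
-/

namespace Pool.Agent.TMS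

open NumberField IsDedekindDomain Pool.Agent.H7.Abc Pool.Agent.AbcE Filter Topology

private theorem SumLog_one_le (K : Type*) [Field K] [NumberField K] {I : Ideal (𝓞 K)}
    (hI : I ≠ ⊥) : (1 : ℝ) ≤ (Ideal.absNorm I : ℝ) := by
  have : 1 ≤ Ideal.absNorm I :=
    Nat.one_le_iff_ne_zero.2 (by rwa [Ne, Ideal.absNorm_eq_zero_iff])
  exact_mod_cast this

theorem sum_log (K : Type*) [Field K] [NumberField K] (κ : ℝ) (hκ : 0 < κ)
    (h : Tendsto (fun y : ℝ => ((idl K y).card : ℝ) / y) atTop (𝓝 κ)) (ε : ℝ) (hε : 0 < ε) :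
    ∀ᶠ y : ℝ in atTop, (κ - ε) * (y * Real.log y) ≤
        ∑ I ∈ idl K y, Real.log (Ideal.absNorm I : ℝ) ∧
      ∑ I ∈ idl K y, Real.log (Ideal.absNorm I : ℝ) ≤ (κ + ε) * (y * Real.log y) := by
  classical
  -- asymptotics of the count
  have hev : ∀ δ : ℝ, 0 < δ → ∀ᶠ t : ℝ in atTop, (κ - δ) * t ≤ ((idl K t).card : ℝ) ∧
      ((idl K t).card : ℝ) ≤ (κ + δ) * t := by
    intro δ hδ0
    have h1 := (h.eventually (Ioo_mem_nhds (show κ - δ < κ by linarith)
      (show κ < κ + δ by linarith)))
    filter_upwards [h1, eventually_gt_atTop (0 : ℝ)] with t ht ht0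
    have ha := ht.1
    have hb := ht.2
    rw [lt_div_iff₀ ht0] at ha
    rw [div_lt_iff₀ ht0] at hb
    exact ⟨ha.le, hb.le⟩
  have hnn : ∀ y : ℝ, ∀ I ∈ idl K y, 0 ≤ Real.log (Ideal.absNorm I : ℝ) := by
    intro y I hI
    exact Real.log_nonneg (SumLog_one_le K (mem_idl.1 hI).1)
  -- parameters
  set a : ℝ := min (1 / 2) (ε / (4 * (κ + ε))) with ha
  have ha0 : 0 < a := by
    rw [ha]; exact lt_min (by norm_num) (by positivity)
  have ha1 : a ≤ 1 / 2 := min_le_left _ _
  have ha2 : (κ + ε / 4) * a ≤ ε / 4 := by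
    have h1 : a ≤ ε / (4 * (κ + ε)) := min_le_right _ _
    have h2 : (κ + ε) * a ≤ ε / 4 := by
      calc (κ + ε) * a ≤ (κ + ε) * (ε / (4 * (κ + ε))) :=
            mul_le_mul_of_nonneg_left h1 (by positivity)
        _ = ε / 4 := by field_simp
    nlinarith
  have hta : Tendsto (fun y : ℝ => a * y) atTop atTop := tendsto_id.const_mul_atTop ha0
  have hlogtop : Tendsto Real.log atTop atTop := Real.tendsto_log_atTop
  filter_upwards [hev ε hε, hev (ε / 4) (by positivity),
    hta.eventually (hev (ε / 4) (by positivity)), eventually_ge_atTop (1 : ℝ),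
    hta.eventually (eventually_ge_atTop (1 : ℝ)),
    hlogtop.eventually_ge_atTop ((κ - ε / 2) * (-Real.log a) / (ε / 2))]
    with y h1 h2 h3 hy1 hay1 hl
  have hy0 : 0 < y := by linarith
  have hlogy : 0 ≤ Real.log y := Real.log_nonneg hy1
  constructor
  · rcases le_or_gt κ ε with hc | hc
    · have h4 : (κ - ε) * (y * Real.log y) ≤ 0 :=
        mul_nonpos_of_nonpos_of_nonneg (by linarith) (by positivity)
      exact h4.trans (Finset.sum_nonneg (hnn y))
    · have hsub : idl K (a * y) ⊆ idl K y := by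
        intro I hI
        rw [mem_idl] at hI ⊢
        refine ⟨hI.1, hI.2.trans ?_⟩
        nlinarith
      have h4 : ∑ I ∈ idl K y \ idl K (a * y), Real.log (Ideal.absNorm I : ℝ) ≤
          ∑ I ∈ idl K y, Real.log (Ideal.absNorm I : ℝ) :=
        Finset.sum_le_sum_of_subset_of_nonneg Finset.sdiff_subset
          (fun I hI _ => hnn y I hI)
      have h5 : ((idl K y \ idl K (a * y)).card : ℝ) * Real.log (a * y) ≤
          ∑ I ∈ idl K y \ idl K (a * y), Real.log (Ideal.absNorm I : ℝ) := by
        rw [← nsmul_eq_mul]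
        refine Finset.card_nsmul_le_sum _ _ _ (fun I hI => ?_)
        rw [Finset.mem_sdiff, mem_idl, mem_idl] at hI
        refine Real.log_le_log (by linarith) ?_
        by_contra hlt
        push Not at hlt
        exact hI.2 ⟨hI.1.1, hlt.le⟩
      have h6 : (κ - ε / 2) * y ≤ ((idl K y \ idl K (a * y)).card : ℝ) := by
        rw [Finset.card_sdiff_of_subset hsub, Nat.cast_sub (Finset.card_le_card hsub)]
        have h7 := h2.1
        have h8 := h3.2
        have h9 : (κ + ε / 4) * (a * y) ≤ ε / 4 * y := by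
          calc (κ + ε / 4) * (a * y) = ((κ + ε / 4) * a) * y := by ring
            _ ≤ ε / 4 * y := mul_le_mul_of_nonneg_right ha2 hy0.le
        have h10 : (κ - ε / 2) * y = (κ - ε / 4) * y - ε / 4 * y := by ring
        linarith
      have hlay : 0 ≤ Real.log (a * y) := Real.log_nonneg hay1
      have h7 : (κ - ε / 2) * y * Real.log (a * y) ≤
          ((idl K y \ idl K (a * y)).card : ℝ) * Real.log (a * y) :=
        mul_le_mul_of_nonneg_right h6 hlay
      have h8 : (κ - ε) * (y * Real.log y) ≤ (κ - ε / 2) * y * Real.log (a * y) := by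
        rw [Real.log_mul ha0.ne' hy0.ne']
        rw [div_le_iff₀ (by positivity)] at hl
        have h9 : (κ - ε) * Real.log y ≤ (κ - ε / 2) * (Real.log a + Real.log y) := by
          nlinarith
        calc (κ - ε) * (y * Real.log y) = y * ((κ - ε) * Real.log y) := by ring
          _ ≤ y * ((κ - ε / 2) * (Real.log a + Real.log y)) :=
            mul_le_mul_of_nonneg_left h9 hy0.le
          _ = _ := by ring
      linarith
  · have h4 : ∑ I ∈ idl K y, Real.log (Ideal.absNorm I : ℝ) ≤
        ((idl K y).card : ℝ) * Real.log y := by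
      rw [← nsmul_eq_mul]
      refine Finset.sum_le_card_nsmul _ _ _ (fun I hI => ?_)
      rw [mem_idl] at hI
      have := SumLog_one_le K hI.1
      exact Real.log_le_log (by linarith) hI.2
    have h5 : ((idl K y).card : ℝ) * Real.log y ≤ (κ + ε) * y * Real.log y :=
      mul_le_mul_of_nonneg_right h1.2 hlogy
    calc _ ≤ _ := h4
      _ ≤ _ := h5
      _ = _ := by ring

end Pool.Agent.TMS
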