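import Mathlib
import Pool.Agent.TMS.IdDefs
import Pool.Agent.GLFour.Zprime

/-!
# ThetaK (size 3)

Every place `v` lies over one rational prime `p` (the characteristic of the residue field), `N v` is a
power `p ^ f`, `f ≥ 1`, and `p ∈ v`. For a finite set `F` of places over `p`:
`∏_{v ∈ F} v.asIdeal ∣ (p)` (distinct primes, `Finset.prod_primes_dvd`), so `∏ N v ≤ p ^ d`
(compare `Pool/Agent/GLFour/Zprime.lean`: `Zprime_absNorm_span`, `card_primes_above`), so
`∑_{v ∈ F} ln v ≤ d log p` (`over_sum`). `theta_le`: `∑_{v, N v ≤ y} ln v ≤ ∑_{p ≤ y} d log p =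
d log (primorial ⌊y⌋) ≤ d (log 4) y` (`primorial_le_four_pow`).
`deg_two`: if `N v` is not a prime then `N v = p ^ f` with `f ≥ 2`; for given `p` the sum over such `v` of
`ln v / N v` is at most `d log p / p ^ 2`, and `∑_p log p / p ^ 2` converges
(or: `ln v / N v ≤ ...`, `card_primes_above`).
`card_norm_eq`: for a prime `p` at most `d` places have norm `p` (`card_primes_above`).
-/

namespace Pool.Agent.TMS

open NumberField IsDedekindDomain Pool.Agent.H7.Abc Pool.Agent.AbcE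

private theorem ThetaK_prime (K : Type*) [Field K] [NumberField K] (v : HeightOneSpectrum (𝓞 K)) :
    ∃ p n : ℕ, p.Prime ∧ n ≠ 0 ∧ (p : 𝓞 K) ∈ v.asIdeal ∧ Ideal.absNorm v.asIdeal = p ^ n := by
  have hmax : v.asIdeal.IsMaximal := v.isPrime.isMaximal v.ne_bot
  obtain ⟨p, n, hn, hpP, hp, hN⟩ := Ideal.exists_prime_and_absNorm_eq_pow v.asIdeal
  exact ⟨p, n, hp, by omega, hpP, hN⟩

private theorem ThetaK_over (K : Type*) [Field K] [NumberField K] (p : ℕ) (hp : p.Prime)
    (F : Finset (HeightOneSpectrum (𝓞 K))) (hF : ∀ v ∈ F, (p : 𝓞 K) ∈ v.asIdeal) :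
    ∑ v ∈ F, ln v ≤ Module.finrank ℚ K * Real.log p := by
  classical
  have hdvd : ∏ v ∈ F, v.asIdeal ∣ Ideal.span {(p : 𝓞 K)} := by
    have h1 : ∏ I ∈ F.image (fun v : HeightOneSpectrum (𝓞 K) => v.asIdeal), I ∣
        Ideal.span {(p : 𝓞 K)} := by
      refine Finset.prod_primes_dvd _ ?_ ?_
      · intro I hI
        obtain ⟨v, _, rfl⟩ := Finset.mem_image.1 hI
        exact v.prime
      · intro I hI
        obtain ⟨v, hv, rfl⟩ := Finset.mem_image.1 hI
        rw [Ideal.dvd_span_singleton]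
        exact hF v hv
    rwa [Finset.prod_image (fun a _ b _ hab => HeightOneSpectrum.ext hab)] at h1
  have h1 : Ideal.absNorm (∏ v ∈ F, v.asIdeal) ≤ p ^ Module.finrank ℚ K := by
    rw [← Pool.Agent.GLFour.Zprime_absNorm_span K p]
    refine Nat.le_of_dvd ?_ (Ideal.absNorm_dvd_absNorm_of_le (Ideal.le_of_dvd hdvd))
    rw [Pool.Agent.GLFour.Zprime_absNorm_span K p]
    exact pow_pos hp.pos _
  have h3 : ∑ v ∈ F, ln v = Real.log (Ideal.absNorm (∏ v ∈ F, v.asIdeal) : ℝ) := by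
    rw [map_prod, Nat.cast_prod, Real.log_prod]
    · rfl
    · intro v _
      have := two_le_norm v
      positivity
  have h4 : (0 : ℝ) < (Ideal.absNorm (∏ v ∈ F, v.asIdeal) : ℝ) := by
    rw [map_prod, Nat.cast_prod]
    refine Finset.prod_pos (fun v _ => ?_)
    have := two_le_norm v
    positivity
  rw [h3, ← Real.log_pow]
  refine Real.log_le_log h4 ?_
  exact_mod_cast h1

theorem theta_le (K : Type*) [Field K] [NumberField K] :
    ∃ C : ℝ, 0 < C ∧ ∀ y : ℝ, 0 ≤ y → ∑ v ∈ plc K y, ln v ≤ C * y := by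
  classical
  choose p n hp hn hmem hN using ThetaK_prime K
  have hd : (0 : ℝ) < (Module.finrank ℚ K : ℝ) := by
    exact_mod_cast Module.finrank_pos
  have hl4 : 0 < Real.log 4 := Real.log_pos (by norm_num)
  refine ⟨Module.finrank ℚ K * Real.log 4, by positivity, fun y hy => ?_⟩
  have hmaps : ∀ v ∈ plc K y, p v ∈ (Finset.Ioc 0 ⌊y⌋₊).filter Nat.Prime := by
    intro v hv
    rw [mem_plc] at hv
    rw [Finset.mem_filter, Finset.mem_Ioc]
    refine ⟨⟨(hp v).pos, Nat.le_floor ?_⟩, hp v⟩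
    refine le_trans ?_ hv
    rw [hN v]
    exact_mod_cast Nat.le_self_pow (hn v) _
  rw [← Finset.sum_fiberwise_of_maps_to hmaps]
  calc ∑ q ∈ (Finset.Ioc 0 ⌊y⌋₊).filter Nat.Prime, ∑ v ∈ plc K y with p v = q, ln v
      ≤ ∑ q ∈ (Finset.Ioc 0 ⌊y⌋₊).filter Nat.Prime, Module.finrank ℚ K * Real.log q := by
        refine Finset.sum_le_sum (fun q hq => ?_)
        refine ThetaK_over K q (Finset.mem_filter.1 hq).2 _ (fun v hv => ?_)
        rw [← (Finset.mem_filter.1 hv).2]
        exact hmem v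
    _ = Module.finrank ℚ K * Chebyshev.theta y := by
        rw [← Finset.mul_sum]
        rfl
    _ ≤ Module.finrank ℚ K * (Real.log 4 * y) :=
        mul_le_mul_of_nonneg_left (Chebyshev.theta_le_log4_mul_x hy) hd.le
    _ = _ := by ring

theorem deg_two (K : Type*) [Field K] [NumberField K] :
    ∃ C : ℝ, 0 < C ∧ ∀ F : Finset (HeightOneSpectrum (𝓞 K)),
      (∀ v ∈ F, ¬ (Ideal.absNorm v.asIdeal).Prime) →
      ∑ v ∈ F, ln v / Ideal.absNorm v.asIdeal ≤ C := by
  classical
  choose p n hp hn hmem hN using ThetaK_prime K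
  have hd : (0 : ℝ) < (Module.finrank ℚ K : ℝ) := by
    exact_mod_cast Module.finrank_pos
  have hsum : Summable (fun n : ℕ => (n : ℝ) ^ (-(3 / 2) : ℝ)) :=
    Real.summable_nat_rpow.2 (by norm_num)
  have hnn : ∀ v : HeightOneSpectrum (𝓞 K), 0 < ln v := fun v => log_norm_pos v
  refine ⟨2 * Module.finrank ℚ K * (∑' n : ℕ, (n : ℝ) ^ (-(3 / 2) : ℝ)) + 1, ?_, fun F hF => ?_⟩
  · have : 0 ≤ ∑' n : ℕ, (n : ℝ) ^ (-(3 / 2) : ℝ) := tsum_nonneg (fun n => by positivity)
    positivity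
  have hmaps : ∀ v ∈ F, p v ∈ F.image p := fun v hv => Finset.mem_image_of_mem _ hv
  rw [← Finset.sum_fiberwise_of_maps_to hmaps]
  have h1 : ∀ q ∈ F.image p, ∑ v ∈ F with p v = q, ln v / (Ideal.absNorm v.asIdeal : ℝ) ≤
      2 * Module.finrank ℚ K * (q : ℝ) ^ (-(3 / 2) : ℝ) := by
    intro q hq
    obtain ⟨w, hw, rfl⟩ := Finset.mem_image.1 hq
    have hp0 : (0 : ℝ) < (p w : ℝ) := by exact_mod_cast (hp w).pos
    have hp1 : (1 : ℝ) ≤ (p w : ℝ) := by exact_mod_cast (hp w).one_lt.le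
    calc ∑ v ∈ F with p v = p w, ln v / (Ideal.absNorm v.asIdeal : ℝ)
        ≤ ∑ v ∈ F with p v = p w, ln v * (1 / (p w : ℝ) ^ 2) := by
          refine Finset.sum_le_sum (fun v hv => ?_)
          obtain ⟨hv1, hv2⟩ := Finset.mem_filter.1 hv
          rw [div_eq_mul_one_div]
          refine mul_le_mul_of_nonneg_left ?_ (hnn v).le
          refine one_div_le_one_div_of_le (by positivity) ?_
          rw [hN v, hv2, Nat.cast_pow]
          refine pow_le_pow_right₀ hp1 ?_
          by_contra hlt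
          have h2 : n v = 1 := by have := hn v; omega
          apply hF v hv1
          rw [hN v, h2, pow_one]
          exact hp v
      _ = (∑ v ∈ F with p v = p w, ln v) * (1 / (p w : ℝ) ^ 2) := by rw [Finset.sum_mul]
      _ ≤ (Module.finrank ℚ K * Real.log (p w)) * (1 / (p w : ℝ) ^ 2) := by
          refine mul_le_mul_of_nonneg_right ?_ (by positivity)
          refine ThetaK_over K (p w) (hp w) _ (fun v hv => ?_)
          rw [← (Finset.mem_filter.1 hv).2]
          exact hmem v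
      _ ≤ (Module.finrank ℚ K * (2 * (p w : ℝ) ^ (1 / 2 : ℝ))) * (1 / (p w : ℝ) ^ 2) := by
          refine mul_le_mul_of_nonneg_right ?_ (by positivity)
          refine mul_le_mul_of_nonneg_left ?_ hd.le
          have h6 := Real.log_le_rpow_div hp0.le (show (0 : ℝ) < 1 / 2 by norm_num)
          linarith
      _ = 2 * Module.finrank ℚ K * (p w : ℝ) ^ (-(3 / 2) : ℝ) := by
          have h7 : (p w : ℝ) ^ (-(3 / 2) : ℝ) = (p w : ℝ) ^ (1 / 2 : ℝ) * (1 / (p w : ℝ) ^ 2) := by
            rw [show (-(3 / 2) : ℝ) = 1 / 2 + (-2 : ℝ) by norm_num, Real.rpow_add hp0]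
            congr 1
            rw [Real.rpow_neg hp0.le, one_div]
            norm_cast
          rw [h7]; ring
  refine (Finset.sum_le_sum h1).trans ?_
  rw [← Finset.mul_sum]
  have h2 : ∑ q ∈ F.image p, (q : ℝ) ^ (-(3 / 2) : ℝ) ≤ ∑' n : ℕ, (n : ℝ) ^ (-(3 / 2) : ℝ) :=
    Summable.sum_le_tsum _ (fun n _ => by positivity) hsum
  have h3 := mul_le_mul_of_nonneg_left h2 (show 0 ≤ 2 * (Module.finrank ℚ K : ℝ) by positivity)
  linarith

theorem card_norm_eq (K : Type*) [Field K] [NumberField K] (p : ℕ) (hp : p.Prime)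
    (F : Finset (HeightOneSpectrum (𝓞 K))) (hF : ∀ v ∈ F, Ideal.absNorm v.asIdeal = p) :
    F.card ≤ Module.finrank ℚ K := by
  classical
  have h1 := Pool.Agent.GLFour.card_primes_above K p hp
    (F.image (fun v : HeightOneSpectrum (𝓞 K) => v.asIdeal)) (by
      intro I hI
      obtain ⟨v, hv, rfl⟩ := Finset.mem_image.1 hI
      refine ⟨v.isPrime, v.ne_bot, ?_⟩
      have := Ideal.absNorm_mem v.asIdeal
      rwa [hF v hv] at this)
  rwa [Finset.card_image_of_injective _ (fun a b hab => HeightOneSpectrum.ext hab)] at h1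

end Pool.Agent.TMS
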