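import Mathlib
import Pool.Agent.TMS.SumLog
import Pool.Agent.TMS.SumFac
import Pool.Agent.TMS.ThetaK

/-!
# Lam (size 4)

`Λ(y) = ∑_{N v ≤ y} ln v / N v`, `I(y) = card (idl K y)`, `I(y) / y → κ > 0`, `S(y) = ∑_{I} log N I`.
Let `ε > 0` be small and `Y0 ≥ 1` such that `(κ - ε) t ≤ I(t) ≤ (κ + ε) t` for `t ≥ Y0`.
Upper bound: `fac_lower`, keep `v` with `N v ≤ y / Y0`: `(κ - ε) y Λ(y / Y0) ≤ S(y) ≤ (κ + ε) y log y`
(`sum_log`), i.e. `Λ(y) ≤ ((κ + ε) / (κ - ε)) log (Y0 y)` for large `y`.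
Lower bound: `(κ - ε) y log y ≤ S(y) ≤ ∑_{N v ≤ y / Y0} ln v (κ + ε) y / N v + ∑_{y / Y0 < N v ≤ y} ln v C Y0 + C y`
(`fac_upper`, `idl_le`: `I(y / N v) ≤ C y / N v ≤ C Y0`), the second sum is `≤ C' Y0 y` by `theta_le`. So
`Λ(y) ≥ ((κ - ε) log y - C'') / (κ + ε)`.
-/

namespace Pool.Agent.TMS

open NumberField IsDedekindDomain Pool.Agent.H7.Abc Pool.Agent.AbcE Filter Topology

theorem lam (K : Type*) [Field K] [NumberField K] (ε : ℝ) (hε : 0 < ε) :
    ∀ᶠ y : ℝ in atTop,
      (1 - ε) * Real.log y ≤ ∑ v ∈ plc K y, ln v / Ideal.absNorm v.asIdeal ∧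
      ∑ v ∈ plc K y, ln v / Ideal.absNorm v.asIdeal ≤ (1 + ε) * Real.log y := by
  obtain ⟨κ, hκ, hlim⟩ := idl_tendsto K
  obtain ⟨C1, hC1, hle⟩ := idl_le K
  obtain ⟨C2, hC2, hup⟩ := fac_upper K
  obtain ⟨C3, hC3, hth⟩ := theta_le K
  have hlnpos : ∀ v : HeightOneSpectrum (𝓞 K), 0 < ln v := fun v => log_norm_pos v
  have hNpos : ∀ v : HeightOneSpectrum (𝓞 K), (1 : ℝ) ≤ (Ideal.absNorm v.asIdeal : ℝ) := by
    intro v
    have : 1 ≤ Ideal.absNorm v.asIdeal :=
      Nat.one_le_iff_ne_zero.2 (by rw [Ne, Ideal.absNorm_eq_zero_iff]; exact v.ne_bot)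
    exact_mod_cast this
  -- parameters
  set e : ℝ := min ε 1 / 4 with he
  have he0 : 0 < e := by
    rw [he]; have := lt_min hε one_pos; linarith
  have he1 : e ≤ 1 / 4 := by
    rw [he]; have := min_le_right ε 1; linarith
  have he2 : e ≤ ε / 4 := by
    rw [he]; have := min_le_left ε 1; linarith
  set δ : ℝ := κ * e with hδ
  have hδ0 : 0 < δ := mul_pos hκ he0
  have hδκ : 0 < κ - δ := by rw [hδ]; nlinarith
  -- asymptotics of the count
  have hev : ∀ᶠ t : ℝ in atTop, (κ - δ) * t ≤ ((idl K t).card : ℝ) ∧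
      ((idl K t).card : ℝ) ≤ (κ + δ) * t := by
    have h1 := (hlim.eventually (Ioo_mem_nhds (show κ - δ < κ by linarith)
      (show κ < κ + δ by linarith)))
    filter_upwards [h1, eventually_gt_atTop (0 : ℝ)] with t ht ht0
    have ha := ht.1
    have hb := ht.2
    rw [lt_div_iff₀ ht0] at ha
    rw [div_lt_iff₀ ht0] at hb
    exact ⟨ha.le, hb.le⟩
  obtain ⟨Y1, hY1⟩ := eventually_atTop.1 hev
  set Y0 : ℝ := max Y1 1 with hY0
  have hY01 : 1 ≤ Y0 := le_max_right _ _
  have hY00 : 0 < Y0 := by linarith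
  have hI : ∀ t : ℝ, Y0 ≤ t → (κ - δ) * t ≤ ((idl K t).card : ℝ) ∧
      ((idl K t).card : ℝ) ≤ (κ + δ) * t :=
    fun t ht => hY1 t ((le_max_left _ _).trans ht)
  have hlog0 : 0 ≤ Real.log Y0 := Real.log_nonneg hY01
  have hS := sum_log K κ hκ hlim δ hδ0
  -- the upper bound at `y / Y0`
  have hU : ∀ᶠ y : ℝ in atTop, ∑ v ∈ plc K (y / Y0), ln v / Ideal.absNorm v.asIdeal ≤
      (1 + 2 / 3 * ε) * Real.log y := by
    filter_upwards [hS, eventually_ge_atTop (1 : ℝ)] with y hy hy1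
    have hy0 : 0 < y := by linarith
    have hlogy : 0 ≤ Real.log y := Real.log_nonneg hy1
    have h1 : (κ - δ) * y * ∑ v ∈ plc K (y / Y0), ln v / Ideal.absNorm v.asIdeal ≤
        ∑ v ∈ plc K y, ln v * ((idl K (y / Ideal.absNorm v.asIdeal)).card : ℝ) := by
      rw [Finset.mul_sum]
      have hsub : plc K (y / Y0) ⊆ plc K y := by
        intro v hv
        rw [mem_plc] at hv ⊢
        exact hv.trans (div_le_self hy0.le hY01)
      refine le_trans (Finset.sum_le_sum (fun v hv => ?_))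
        (Finset.sum_le_sum_of_subset_of_nonneg hsub (fun v _ _ =>
          mul_nonneg (hlnpos v).le (Nat.cast_nonneg _)))
      rw [mem_plc] at hv
      have hN := hNpos v
      have hN0 : (0 : ℝ) < (Ideal.absNorm v.asIdeal : ℝ) := by linarith
      have ht : Y0 ≤ y / (Ideal.absNorm v.asIdeal : ℝ) := by
        rw [le_div_iff₀ hN0]
        rw [le_div_iff₀ hY00] at hv
        linarith
      have h2 := (hI _ ht).1
      calc (κ - δ) * y * (ln v / (Ideal.absNorm v.asIdeal : ℝ))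
          = ln v * ((κ - δ) * (y / (Ideal.absNorm v.asIdeal : ℝ))) := by ring
        _ ≤ ln v * ((idl K (y / Ideal.absNorm v.asIdeal)).card : ℝ) :=
          mul_le_mul_of_nonneg_left h2 (hlnpos v).le
    have h2 := fac_lower K y
    have h3 : (κ - δ) * y * ∑ v ∈ plc K (y / Y0), ln v / Ideal.absNorm v.asIdeal ≤
        (κ + δ) * (y * Real.log y) := le_trans h1 (le_trans h2 hy.2)
    have h4 : (κ - δ) * ∑ v ∈ plc K (y / Y0), ln v / Ideal.absNorm v.asIdeal ≤
        (κ + δ) * Real.log y := by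
      have : y * ((κ - δ) * ∑ v ∈ plc K (y / Y0), ln v / Ideal.absNorm v.asIdeal) ≤
          y * ((κ + δ) * Real.log y) := by
        calc _ = (κ - δ) * y * ∑ v ∈ plc K (y / Y0), ln v / Ideal.absNorm v.asIdeal := by ring
          _ ≤ (κ + δ) * (y * Real.log y) := h3
          _ = _ := by ring
      exact le_of_mul_le_mul_left this hy0
    have h5 : (κ + δ) * Real.log y ≤ (κ - δ) * ((1 + 2 / 3 * ε) * Real.log y) := by
      have : (κ + δ) ≤ (κ - δ) * (1 + 2 / 3 * ε) := by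
        rw [hδ]
        have h6 : (1 + e) ≤ (1 - e) * (1 + 2 / 3 * ε) := by nlinarith
        nlinarith
      calc (κ + δ) * Real.log y ≤ ((κ - δ) * (1 + 2 / 3 * ε)) * Real.log y :=
            mul_le_mul_of_nonneg_right this hlogy
        _ = _ := by ring
    exact le_of_mul_le_mul_left (h4.trans h5) hδκ
  have hU' : ∀ᶠ z : ℝ in atTop, ∑ v ∈ plc K z, ln v / Ideal.absNorm v.asIdeal ≤
      (1 + 2 / 3 * ε) * Real.log (Y0 * z) := by
    have ht : Tendsto (fun z : ℝ => Y0 * z) atTop atTop :=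
      tendsto_id.const_mul_atTop hY00
    filter_upwards [ht.eventually hU] with z hz
    rwa [mul_div_cancel_left₀ _ hY00.ne'] at hz
  have hlogtop : Tendsto Real.log atTop atTop := Real.tendsto_log_atTop
  set D : ℝ := C1 * Y0 * C3 + C2 with hD
  have hD0 : 0 < D := by positivity
  filter_upwards [hS, hU', eventually_ge_atTop (1 : ℝ),
    hlogtop.eventually_ge_atTop ((1 + 2 / 3 * ε) * Real.log Y0 / (ε / 3)),
    hlogtop.eventually_ge_atTop (D / (κ * (ε / 2)))] with y hy hyU hy1 hl1 hl2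
  have hy0 : 0 < y := by linarith
  have hlogy : 0 ≤ Real.log y := Real.log_nonneg hy1
  constructor
  · have h1 : ∑ v ∈ plc K y, ln v * ((idl K (y / Ideal.absNorm v.asIdeal)).card : ℝ) ≤
        (κ + δ) * y * ∑ v ∈ plc K y, ln v / Ideal.absNorm v.asIdeal +
          C1 * Y0 * ∑ v ∈ plc K y, ln v := by
      rw [Finset.mul_sum, Finset.mul_sum, ← Finset.sum_add_distrib]
      refine Finset.sum_le_sum (fun v hv => ?_)
      have hN := hNpos v
      have hN0 : (0 : ℝ) < (Ideal.absNorm v.asIdeal : ℝ) := by linarith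
      have hq : 0 < y / (Ideal.absNorm v.asIdeal : ℝ) := div_pos hy0 hN0
      have h2 : ((idl K (y / Ideal.absNorm v.asIdeal)).card : ℝ) ≤
          (κ + δ) * (y / (Ideal.absNorm v.asIdeal : ℝ)) + C1 * Y0 := by
        rcases le_or_gt Y0 (y / (Ideal.absNorm v.asIdeal : ℝ)) with ht | ht
        · have := (hI _ ht).2
          have : 0 < C1 * Y0 := by positivity
          linarith
        · have h3 := hle _ hq.le
          have h4 : C1 * (y / (Ideal.absNorm v.asIdeal : ℝ)) ≤ C1 * Y0 :=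
            mul_le_mul_of_nonneg_left ht.le hC1.le
          have h5 : 0 < (κ + δ) * (y / (Ideal.absNorm v.asIdeal : ℝ)) := by positivity
          linarith
      calc ln v * ((idl K (y / Ideal.absNorm v.asIdeal)).card : ℝ)
          ≤ ln v * ((κ + δ) * (y / (Ideal.absNorm v.asIdeal : ℝ)) + C1 * Y0) :=
            mul_le_mul_of_nonneg_left h2 (hlnpos v).le
        _ = (κ + δ) * y * (ln v / (Ideal.absNorm v.asIdeal : ℝ)) + C1 * Y0 * ln v := by ring
    have h2 := hup y hy0.le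
    have h3 := hth y hy0.le
    have h4 : C1 * Y0 * ∑ v ∈ plc K y, ln v ≤ C1 * Y0 * (C3 * y) :=
      mul_le_mul_of_nonneg_left h3 (by positivity)
    have h5 : y * ((κ - δ) * Real.log y) ≤
        y * ((κ + δ) * ∑ v ∈ plc K y, ln v / Ideal.absNorm v.asIdeal + D) := by
      have : y * ((κ - δ) * Real.log y) = (κ - δ) * (y * Real.log y) := by ring
      rw [this]
      have h6 := hy.1
      have h7 : y * ((κ + δ) * ∑ v ∈ plc K y, ln v / Ideal.absNorm v.asIdeal + D) =
          (κ + δ) * y * ∑ v ∈ plc K y, ln v / Ideal.absNorm v.asIdeal +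
            C1 * Y0 * (C3 * y) + C2 * y := by rw [hD]; ring
      rw [h7]
      linarith
    have h6 : (κ - δ) * Real.log y ≤
        (κ + δ) * ∑ v ∈ plc K y, ln v / Ideal.absNorm v.asIdeal + D :=
      le_of_mul_le_mul_left h5 hy0
    have h7 : D ≤ κ * (ε / 2) * Real.log y := by
      rw [div_le_iff₀ (by positivity)] at hl2
      linarith
    have h8 : (κ + δ) * ((1 - ε) * Real.log y) ≤
        (κ + δ) * ∑ v ∈ plc K y, ln v / Ideal.absNorm v.asIdeal := by
      have h9 : (κ + δ) * ((1 - ε) * Real.log y) ≤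
          (κ - δ) * Real.log y - κ * (ε / 2) * Real.log y := by
        have h10 : (κ + δ) * (1 - ε) ≤ (κ - δ) - κ * (ε / 2) := by
          rw [hδ]
          have h11 : (1 + e) * (1 - ε) ≤ 1 - e - ε / 2 := by nlinarith
          nlinarith
        calc (κ + δ) * ((1 - ε) * Real.log y) = ((κ + δ) * (1 - ε)) * Real.log y := by ring
          _ ≤ ((κ - δ) - κ * (ε / 2)) * Real.log y := mul_le_mul_of_nonneg_right h10 hlogy
          _ = _ := by ring
      linarith
    exact le_of_mul_le_mul_left h8 (by positivity)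
  · refine hyU.trans ?_
    rw [Real.log_mul hY00.ne' hy0.ne']
    have h1 : (1 + 2 / 3 * ε) * Real.log Y0 ≤ ε / 3 * Real.log y := by
      rw [div_le_iff₀ (by positivity)] at hl1
      linarith
    nlinarith

end Pool.Agent.TMS
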