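import Mathlib
import Pool.Agent.TMS.Lam
import Pool.Agent.TMS.BadSum

/-!
# Smooth (size 4)

Let `C` be the constant of `bad_sum`, `d = [K:ℚ]`, `δ0 = min (1/8) (1 / (8 C d))`, `η = δ0 / 2`, `δ = δ0 / 4`.
For large `Z`: `lam` with `ε` small (`ε (2 + η) ≤ η / 2`) for `Z` and `Z ^ (1 + η)`:
`∑_{Z < N v ≤ Z ^ (1 + η)} ln v / N v ≥ (η / 2) log Z`. Remove the `v` whose norm is not a prime (`deg_two`: at
most `C'`) and those with prime norm `l` such that a prime `q > l ^ (1 - δ0)` divides `l - 1`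
(`bad_sum` and `card_norm_eq`: at most `d C δ0 η log Z ≤ (η / 8) log Z`). Let `F` be the rest:
`∑_F ln v / N v ≥ (η / 4) log Z`, so `∑_F ln v ≥ Z (η / 4) log Z ≥ Z`; `ln v ≤ (1 + η) log Z ≤ 2 log Z`.
`y = Z ^ ((1 + η) (1 - δ0))`, `L = ∏_{q ≤ y prime} q ^ (Nat.log q ⌊Z ^ (1 + η)⌋)`: for `v ∈ F` all prime factors
of `N v - 1` are `≤ (N v) ^ (1 - δ0) ≤ y` and `N v - 1 ≤ Z ^ (1 + η)`, so `N v - 1 ∣ L`.
`log L ≤ y (1 + η) log Z ≤ Z ^ (1 - δ)` for large `Z` since `(1 + η)(1 - δ0) < 1 - δ0 / 2 = 1 - 2 δ`; prime factors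
of `L` are `≤ y ≤ Z ^ (1 - δ)`.
-/

namespace Pool.Agent.TMS

open NumberField IsDedekindDomain Pool.Agent.H7.Abc Pool.Agent.AbcE Filter Topology

private noncomputable def LL (y M : ℕ) : ℕ :=
  ∏ q ∈ (Finset.Icc 1 y).filter Nat.Prime, q ^ Nat.log q M

private theorem LL_pos (y M : ℕ) : 1 ≤ LL y M := by
  unfold LL
  refine Nat.one_le_iff_ne_zero.2 (Finset.prod_ne_zero_iff.2 fun q hq => ?_)
  exact pow_ne_zero _ (Finset.mem_filter.1 hq).2.ne_zero

private theorem LL_dvd (y M N : ℕ) (hN : N ≠ 0) (hNM : N ≤ M)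
    (h : ∀ q : ℕ, q.Prime → q ∣ N → q ≤ y) : N ∣ LL y M := by
  have hsub : N.primeFactors ⊆ (Finset.Icc 1 y).filter Nat.Prime := by
    intro q hq
    have hp := Nat.prime_of_mem_primeFactors hq
    rw [Finset.mem_filter, Finset.mem_Icc]
    exact ⟨⟨hp.one_le, h q hp (Nat.dvd_of_mem_primeFactors hq)⟩, hp⟩
  have h1 : N = ∏ q ∈ N.primeFactors, q ^ N.factorization q := by
    conv_lhs => rw [← Nat.prod_factorization_pow_eq_self hN]
    rfl
  rw [h1]
  unfold LL
  refine dvd_trans (Finset.prod_dvd_prod_of_dvd _ (fun q => q ^ Nat.log q M) fun q hq => ?_)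
    (Finset.prod_dvd_prod_of_subset _ _ _ hsub)
  refine pow_dvd_pow _ ?_
  have hp := Nat.prime_of_mem_primeFactors hq
  refine Nat.le_log_of_pow_le hp.one_lt ?_
  exact (Nat.le_of_dvd (Nat.pos_of_ne_zero hN) (Nat.ordProj_dvd N q)).trans hNM

private theorem LL_log (y M : ℕ) (hM : 1 ≤ M) : Real.log (LL y M) ≤ y * Real.log M := by
  unfold LL
  rw [Nat.cast_prod, Real.log_prod]
  · have hM0 : 0 ≤ Real.log M := Real.log_nonneg (by exact_mod_cast hM)
    calc ∑ q ∈ (Finset.Icc 1 y).filter Nat.Prime, Real.log ((q ^ Nat.log q M : ℕ) : ℝ)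
        ≤ ∑ q ∈ (Finset.Icc 1 y).filter Nat.Prime, Real.log M := by
          refine Finset.sum_le_sum fun q hq => ?_
          have hp := (Finset.mem_filter.1 hq).2
          refine Real.log_le_log (by exact_mod_cast pow_pos hp.pos _) ?_
          exact_mod_cast Nat.pow_log_le_self q (by omega)
      _ = ((Finset.Icc 1 y).filter Nat.Prime).card * Real.log M := by
          rw [Finset.sum_const, nsmul_eq_mul]
      _ ≤ y * Real.log M := by
          refine mul_le_mul_of_nonneg_right ?_ hM0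
          have := (Finset.card_filter_le (Finset.Icc 1 y) Nat.Prime)
          rw [Nat.card_Icc] at this
          exact_mod_cast (by omega : ((Finset.Icc 1 y).filter Nat.Prime).card ≤ y)
  · intro q hq
    have hp := (Finset.mem_filter.1 hq).2
    exact_mod_cast pow_ne_zero _ hp.ne_zero

private theorem LL_prime (y M p : ℕ) (hp : p.Prime) (h : p ∣ LL y M) : p ≤ y := by
  unfold LL at h
  obtain ⟨q, hq, hpq⟩ := (hp.prime.dvd_finsetProd_iff _).1 h
  have hq' := Finset.mem_filter.1 hq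
  have := (Nat.prime_dvd_prime_iff_eq hp hq'.2).1 (hp.dvd_of_dvd_pow hpq)
  rw [this]
  exact (Finset.mem_Icc.1 hq'.1).2

theorem smooth_places (K : Type*) [Field K] [NumberField K] :
    ∃ δ Z0 : ℝ, 0 < δ ∧ δ < 1 / 2 ∧ 1 ≤ Z0 ∧ ∀ Z : ℝ, Z0 ≤ Z →
      ∃ (F : Finset (HeightOneSpectrum (𝓞 K))) (L : ℕ), 1 ≤ L ∧ Z ≤ ∑ v ∈ F, ln v ∧
        (∀ v ∈ F, (Ideal.absNorm v.asIdeal - 1) ∣ L ∧ ln v ≤ 2 * Real.log Z) ∧
        Real.log L ≤ Z ^ (1 - δ) ∧ ∀ p : ℕ, p.Prime → p ∣ L → (p : ℝ) ≤ Z ^ (1 - δ) := by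
  classical
  obtain ⟨C, hC, hbad⟩ := bad_sum
  obtain ⟨C', hC', htwo⟩ := deg_two K
  have hd : (1 : ℝ) ≤ Module.finrank ℚ K := by
    exact_mod_cast Module.finrank_pos (R := ℚ) (M := K)
  set d : ℝ := (Module.finrank ℚ K : ℝ) with hdd
  set δ0 : ℝ := min (1 / 8) (1 / (8 * C * d)) with hδ0
  have hδ0pos : 0 < δ0 := lt_min (by norm_num) (by positivity)
  have hδ01 : δ0 ≤ 1 / 8 := min_le_left _ _
  have hδ02 : d * C * δ0 ≤ 1 / 8 := by
    have h1 : δ0 ≤ 1 / (8 * C * d) := min_le_right _ _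
    have h2 : 0 < 8 * C * d := by positivity
    rw [le_div_iff₀ h2] at h1
    linarith
  set η : ℝ := δ0 / 2 with hη
  have hη0 : 0 < η := by positivity
  have hη1 : η ≤ 1 := by linarith
  set δ : ℝ := δ0 / 4 with hδ
  have hδpos : 0 < δ := by positivity
  have hε : 0 < η / 8 := by positivity
  have e1 := lam K (η / 8) hε
  have e2 : ∀ᶠ Z : ℝ in atTop, (1 - η / 8) * Real.log (Z ^ (1 + η)) ≤
        ∑ v ∈ plc K (Z ^ (1 + η)), ln v / Ideal.absNorm v.asIdeal ∧
      ∑ v ∈ plc K (Z ^ (1 + η)), ln v / Ideal.absNorm v.asIdeal ≤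
        (1 + η / 8) * Real.log (Z ^ (1 + η)) :=
    (tendsto_rpow_atTop (show 0 < 1 + η by positivity)).eventually e1
  have e3 := hbad δ0 η hδ0pos hδ01 hη0 hη1
  have e4 : ∀ᶠ Z : ℝ in atTop, 8 * C' / η + 4 / η ≤ Real.log Z :=
    Real.tendsto_log_atTop.eventually_ge_atTop _
  have e5 : ∀ᶠ Z : ℝ in atTop, 2 * Real.log Z ≤ Z ^ δ := by
    have h := (isLittleO_log_rpow_atTop hδpos).bound (show (0 : ℝ) < 1 / 2 by norm_num)
    filter_upwards [h, eventually_ge_atTop 1] with Z h1 h2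
    rw [Real.norm_of_nonneg (Real.log_nonneg h2), Real.norm_of_nonneg (by positivity)] at h1
    linarith
  have e6 := eventually_gt_atTop (1 : ℝ)
  obtain ⟨Z0, hZ0⟩ := eventually_atTop.1 (e1.and (e2.and (e3.and (e4.and (e5.and e6)))))
  refine ⟨δ, max Z0 1, hδpos, by linarith, le_max_right _ _, fun Z hZ => ?_⟩
  obtain ⟨h1, h2, h3, h4, h5, h6⟩ := hZ0 Z ((le_max_left _ _).trans hZ)
  have hZpos : 0 < Z := by linarith
  have hlogZ : 0 < Real.log Z := Real.log_pos h6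
  have hlogpow : Real.log (Z ^ (1 + η)) = (1 + η) * Real.log Z := Real.log_rpow hZpos _
  rw [hlogpow] at h2
  set X : ℝ := Z ^ (1 + η) with hX
  have hZX : Z ≤ X := by
    conv_lhs => rw [← Real.rpow_one Z]
    exact Real.rpow_le_rpow_of_exponent_le h6.le (by linarith)
  have hX1 : 1 ≤ X := by linarith
  -- the window
  set W : Finset (HeightOneSpectrum (𝓞 K)) := plc K X \ plc K Z with hW
  have hWmem : ∀ v ∈ W, Z < (Ideal.absNorm v.asIdeal : ℝ) ∧ (Ideal.absNorm v.asIdeal : ℝ) ≤ X := by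
    intro v hv
    rw [hW, Finset.mem_sdiff, mem_plc, mem_plc] at hv
    exact ⟨not_le.1 hv.2, hv.1⟩
  have hsubp : plc K Z ⊆ plc K X := by
    intro v hv
    rw [mem_plc] at hv ⊢
    exact hv.trans hZX
  have hWsum : η / 2 * Real.log Z ≤ ∑ v ∈ W, ln v / Ideal.absNorm v.asIdeal := by
    have := Finset.sum_sdiff (f := fun v => ln v / (Ideal.absNorm v.asIdeal : ℝ)) hsubp
    have hh : (1 - η / 8) * ((1 + η) * Real.log Z) - (1 + η / 8) * Real.log Z ≥
        η / 2 * Real.log Z := by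
      have : (1 - η / 8) * (1 + η) - (1 + η / 8) - η / 2 ≥ 0 := by nlinarith
      nlinarith
    have h2' := h2.1
    have h1' := h1.2
    linarith
  -- the three parts
  let Pb : HeightOneSpectrum (𝓞 K) → Prop := fun v => ∃ q : ℕ, q.Prime ∧
    q ∣ Ideal.absNorm v.asIdeal - 1 ∧ (Ideal.absNorm v.asIdeal : ℝ) ^ (1 - δ0) < q
  set Wn := W.filter (fun v => ¬ (Ideal.absNorm v.asIdeal).Prime) with hWn
  set Wp := W.filter (fun v => (Ideal.absNorm v.asIdeal).Prime) with hWp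
  set Wb := Wp.filter (fun v => Pb v) with hWb
  set F := Wp.filter (fun v => ¬ Pb v) with hF
  have hpos : ∀ v : HeightOneSpectrum (𝓞 K), 0 < ln v := fun v => log_norm_pos v
  have hNpos : ∀ v : HeightOneSpectrum (𝓞 K), (0 : ℝ) < Ideal.absNorm v.asIdeal := fun v => by
    have := two_le_norm v
    linarith
  have hsplit : ∑ v ∈ W, ln v / (Ideal.absNorm v.asIdeal : ℝ) =
      (∑ v ∈ Wb, ln v / (Ideal.absNorm v.asIdeal : ℝ) +
        ∑ v ∈ F, ln v / (Ideal.absNorm v.asIdeal : ℝ)) +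
        ∑ v ∈ Wn, ln v / (Ideal.absNorm v.asIdeal : ℝ) := by
    rw [← Finset.sum_filter_add_sum_filter_not W (fun v => (Ideal.absNorm v.asIdeal).Prime),
      ← Finset.sum_filter_add_sum_filter_not (W.filter (fun v => (Ideal.absNorm v.asIdeal).Prime))
        (fun v => Pb v)]
  have hWnle : ∑ v ∈ Wn, ln v / (Ideal.absNorm v.asIdeal : ℝ) ≤ C' :=
    htwo Wn fun v hv => (Finset.mem_filter.1 hv).2
  have hWble : ∑ v ∈ Wb, ln v / (Ideal.absNorm v.asIdeal : ℝ) ≤ η / 8 * Real.log Z := by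
    have hmaps : ∀ v ∈ Wb, Ideal.absNorm v.asIdeal ∈ Wb.image (fun v => Ideal.absNorm v.asIdeal) :=
      fun v hv => Finset.mem_image_of_mem _ hv
    have hUsum := h3 (Wb.image (fun v => Ideal.absNorm v.asIdeal)) (by
      intro l hl
      obtain ⟨v, hv, rfl⟩ := Finset.mem_image.1 hl
      have hv1 := Finset.mem_filter.1 hv
      have hv2 := Finset.mem_filter.1 hv1.1
      exact ⟨hv2.2, (hWmem v hv2.1).1, (hWmem v hv2.1).2, hv1.2⟩)
    rw [← Finset.sum_fiberwise_of_maps_to hmaps]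
    calc ∑ n ∈ Wb.image (fun v => Ideal.absNorm v.asIdeal),
          ∑ v ∈ Wb with Ideal.absNorm v.asIdeal = n, ln v / (Ideal.absNorm v.asIdeal : ℝ)
        ≤ ∑ n ∈ Wb.image (fun v => Ideal.absNorm v.asIdeal), d * (Real.log n / n) := by
          refine Finset.sum_le_sum fun n hn => ?_
          obtain ⟨v0, hv0, hv0n⟩ := Finset.mem_image.1 hn
          have hv1 := Finset.mem_filter.1 hv0
          have hv2 := Finset.mem_filter.1 hv1.1
          have hnp : n.Prime := by rw [← hv0n]; exact hv2.2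
          have hc := card_norm_eq K n hnp (Wb.filter (fun v => Ideal.absNorm v.asIdeal = n))
            (fun v hv => (Finset.mem_filter.1 hv).2)
          have hterm : ∑ v ∈ Wb with Ideal.absNorm v.asIdeal = n,
              ln v / (Ideal.absNorm v.asIdeal : ℝ) =
              ∑ v ∈ Wb with Ideal.absNorm v.asIdeal = n, Real.log n / n := by
            refine Finset.sum_congr rfl fun v hv => ?_
            have := (Finset.mem_filter.1 hv).2
            unfold ln
            rw [this]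
          rw [hterm, Finset.sum_const, nsmul_eq_mul]
          refine mul_le_mul_of_nonneg_right ?_ ?_
          · rw [hdd]; exact_mod_cast hc
          · have : (1 : ℝ) ≤ n := by exact_mod_cast hnp.one_le
            have := Real.log_nonneg this
            positivity
      _ = d * ∑ n ∈ Wb.image (fun v => Ideal.absNorm v.asIdeal), Real.log n / n := by
          rw [Finset.mul_sum]
      _ ≤ d * (C * δ0 * η * Real.log Z) := mul_le_mul_of_nonneg_left hUsum (by linarith)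
      _ = (d * C * δ0) * (η * Real.log Z) := by ring
      _ ≤ (1 / 8) * (η * Real.log Z) :=
          mul_le_mul_of_nonneg_right hδ02 (by positivity)
      _ = η / 8 * Real.log Z := by ring
  have h4a : 8 * C' / η ≤ Real.log Z := by
    have : 0 < 4 / η := by positivity
    linarith
  have h4b : 4 / η ≤ Real.log Z := by
    have : 0 < 8 * C' / η := by positivity
    linarith
  rw [div_le_iff₀ hη0] at h4a h4b
  have hFsum : η / 4 * Real.log Z ≤ ∑ v ∈ F, ln v / (Ideal.absNorm v.asIdeal : ℝ) := by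
    rw [hsplit] at hWsum
    linarith
  have hFmem : ∀ v ∈ F, v ∈ W ∧ (Ideal.absNorm v.asIdeal).Prime ∧ ¬ Pb v := by
    intro v hv
    have hv1 := Finset.mem_filter.1 hv
    have hv2 := Finset.mem_filter.1 hv1.1
    exact ⟨hv2.1, hv2.2, hv1.2⟩
  set y : ℝ := Z ^ ((1 + η) * (1 - δ0)) with hy
  have hyX : X ^ (1 - δ0) = y := by rw [hX, ← Real.rpow_mul hZpos.le]
  have hy0 : 0 ≤ y := by positivity
  have hyle : y ≤ Z ^ (1 - 2 * δ) := by
    refine Real.rpow_le_rpow_of_exponent_le h6.le ?_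
    rw [hη, hδ]
    nlinarith
  have hyle2 : Z ^ (1 - 2 * δ) ≤ Z ^ (1 - δ) :=
    Real.rpow_le_rpow_of_exponent_le h6.le (by linarith)
  have hfl : (⌊y⌋₊ : ℝ) ≤ y := Nat.floor_le hy0
  have hMX : (⌊X⌋₊ : ℝ) ≤ X := Nat.floor_le (by linarith)
  have hM1 : 1 ≤ ⌊X⌋₊ := Nat.le_floor (by exact_mod_cast hX1)
  refine ⟨F, LL ⌊y⌋₊ ⌊X⌋₊, LL_pos _ _, ?_, ?_, ?_, ?_⟩
  · calc Z = Z * 1 := (mul_one Z).symm
      _ ≤ Z * (η / 4 * Real.log Z) := mul_le_mul_of_nonneg_left (by linarith) hZpos.le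
      _ ≤ Z * ∑ v ∈ F, ln v / (Ideal.absNorm v.asIdeal : ℝ) :=
          mul_le_mul_of_nonneg_left hFsum hZpos.le
      _ = ∑ v ∈ F, Z * (ln v / (Ideal.absNorm v.asIdeal : ℝ)) := Finset.mul_sum _ _ _
      _ ≤ ∑ v ∈ F, ln v := by
          refine Finset.sum_le_sum fun v hv => ?_
          have h7 := (hWmem v (hFmem v hv).1).1
          rw [mul_div_assoc', div_le_iff₀ (hNpos v)]
          nlinarith [hpos v]
  · intro v hv
    obtain ⟨hvW, hvp, hvb⟩ := hFmem v hv
    obtain ⟨hv1, hv2⟩ := hWmem v hvW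
    refine ⟨?_, ?_⟩
    · refine LL_dvd _ _ _ ?_ ?_ ?_
      · have := hvp.two_le
        omega
      · have : Ideal.absNorm v.asIdeal ≤ ⌊X⌋₊ := Nat.le_floor hv2
        omega
      · intro q hq hqd
        refine Nat.le_floor ?_
        have h8 : (q : ℝ) ≤ (Ideal.absNorm v.asIdeal : ℝ) ^ (1 - δ0) := by
          by_contra hcon
          push Not at hcon
          exact hvb ⟨q, hq, hqd, hcon⟩
        refine h8.trans ?_
        rw [← hyX]
        exact Real.rpow_le_rpow (hNpos v).le hv2 (by linarith)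
    · have h9 : ln v ≤ Real.log X := Real.log_le_log (hNpos v) hv2
      rw [hX, hlogpow] at h9
      nlinarith
  · refine (LL_log _ _ hM1).trans ?_
    have h10 : Real.log (⌊X⌋₊ : ℝ) ≤ (1 + η) * Real.log Z := by
      rw [← hlogpow]
      exact Real.log_le_log (by exact_mod_cast hM1) hMX
    have h11 : (1 + η) * Real.log Z ≤ Z ^ δ := by
      refine le_trans ?_ h5
      nlinarith
    calc (⌊y⌋₊ : ℝ) * Real.log (⌊X⌋₊ : ℝ) ≤ y * Z ^ δ :=
          mul_le_mul hfl (h10.trans h11) (Real.log_nonneg (by exact_mod_cast hM1)) hy0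
      _ ≤ Z ^ (1 - 2 * δ) * Z ^ δ := mul_le_mul_of_nonneg_right hyle (by positivity)
      _ = Z ^ (1 - δ) := by
          rw [← Real.rpow_add hZpos]
          congr 1
          ring
  · intro p hp hpL
    have h12 := LL_prime _ _ p hp hpL
    have h13 : (p : ℝ) ≤ (⌊y⌋₊ : ℝ) := by exact_mod_cast h12
    linarith

end Pool.Agent.TMS
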