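import Mathlib
import Pool.Agent.TMS.Defs
import Pool.Agent.AbcE.Local

/-!
# LocCol (size 2)

If no `t ≠ 0` satisfies `mk v (x0 t ^ e - 1) < mk v e ^ e` any map works (`Fin e` is nonempty). Otherwise
fix one, `t*`, and put `c t = c0 (t / t*)` with `c0` from `AbcE.local_class`. As `mk v e ≤ 1`,
`mk v (x0 t ^ e) = 1 = mk v (x0 t* ^ e)`, so `mk v (t / t*) = 1` and
`(t / t*) ^ e - 1 = (x0 t ^ e - x0 t* ^ e) / (x0 t* ^ e)` has `mk v < mk v e ^ e`. So
`mk v (t1 / t* - t2 / t*) * mk v e ≤ mk v ((t1 / t*) ^ e - (t2 / t*) ^ e) < mk v e ^ e`, hence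
`mk v (t1 / t* - t2 / t*) < mk v e ^ (e - 1) ≤ mk v e` (`e ≥ 2`), and `t2 / t1 - 1 = (t2 / t* - t1 / t*) / (t1 / t*)`.
-/

namespace Pool.Agent.TMS

open NumberField IsDedekindDomain Pool.Agent.H7.Abc Pool.Agent.AbcE

private theorem LocCol_nat {K : Type*} [Field K] [NumberField K] (V : FinitePlace K) (n : ℕ) :
    V (n : K) ≤ 1 := by
  induction n with
  | zero => simp
  | succ n ih =>
    rw [Nat.cast_succ]
    refine (FinitePlace.add_le V _ _).trans (max_le ih ?_)
    rw [map_one]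

private theorem LocCol_one {K : Type*} [Field K] [NumberField K] (V : FinitePlace K) {Y : K}
    (hY1 : V (Y - 1) < 1) : V Y = 1 := by
  have h1 : V Y ≤ 1 := by
    have := FinitePlace.add_le V (Y - 1) 1
    rw [sub_add_cancel, map_one] at this
    exact this.trans (max_le hY1.le le_rfl)
  have h2 : 1 ≤ max (V Y) (V (Y - 1)) := by
    have := fp_sub_le V Y (Y - 1)
    rwa [sub_sub_cancel, map_one] at this
  rcases le_max_iff.1 h2 with h | h
  · exact le_antisymm h1 h
  · exact absurd h (not_le.2 hY1)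

theorem loc_col {K : Type*} [Field K] [NumberField K] (e : ℕ) (he : 2 ≤ e)
    (v : HeightOneSpectrum (𝓞 K)) (x0 : K) :
    ∃ c : K → Fin e, ∀ t1 t2 : K, t1 ≠ 0 → t2 ≠ 0 →
      FinitePlace.mk v (x0 * t1 ^ e - 1) < FinitePlace.mk v (e : K) ^ e →
      FinitePlace.mk v (x0 * t2 ^ e - 1) < FinitePlace.mk v (e : K) ^ e →
      c t1 = c t2 → FinitePlace.mk v (t2 / t1 - 1) < FinitePlace.mk v (e : K) := by
  obtain ⟨c0, hc0⟩ := local_class e (by omega) v
  set V := FinitePlace.mk v with hV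
  have hA : 0 < V (e : K) := by
    rw [FinitePlace.pos_iff]
    exact_mod_cast (show e ≠ 0 by omega)
  have hA1 : V (e : K) ≤ 1 := LocCol_nat V e
  have hAe : V (e : K) ^ e ≤ 1 := pow_le_one₀ hA.le hA1
  by_cases hex : ∃ t : K, t ≠ 0 ∧ V (x0 * t ^ e - 1) < V (e : K) ^ e
  · obtain ⟨s, hs0, hs⟩ := hex
    have hs1 : V (x0 * s ^ e) = 1 := LocCol_one V (hs.trans_le hAe)
    have key : ∀ t : K, t ≠ 0 → V (x0 * t ^ e - 1) < V (e : K) ^ e →
        V (t / s) = 1 ∧ V ((t / s) ^ e - 1) < V (e : K) ^ e := by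
      intro t ht0 ht
      have ht1 : V (x0 * t ^ e) = 1 := LocCol_one V (ht.trans_le hAe)
      have hx0 : x0 ≠ 0 := by
        rintro rfl
        rw [zero_mul, map_zero] at ht1
        exact zero_ne_one ht1
      have e1 : (t / s) ^ e = (x0 * t ^ e) / (x0 * s ^ e) := by
        rw [div_pow]
        field_simp
      constructor
      · have h2 : V (t / s) ^ e = 1 := by
          rw [← map_pow, e1, map_div₀, ht1, hs1, div_one]
        exact (pow_eq_one_iff_of_nonneg (apply_nonneg _ _) (by omega)).1 h2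
      · have e2 : (t / s) ^ e - 1 =
            ((x0 * t ^ e - 1) - (x0 * s ^ e - 1)) / (x0 * s ^ e) := by
          rw [e1]
          field_simp
          ring
        rw [e2, map_div₀, hs1, div_one]
        exact (fp_sub_le V _ _).trans_lt (max_lt ht hs)
    refine ⟨fun t => c0 (t / s), ?_⟩
    intro t1 t2 ht1 ht2 h1 h2 hc
    obtain ⟨a1, b1⟩ := key t1 ht1 h1
    obtain ⟨a2, b2⟩ := key t2 ht2 h2
    have h3 := hc0 (t1 / s) (t2 / s) a1 a2 b1 b2 hc
    have h4 : V ((t1 / s) ^ e - (t2 / s) ^ e) < V (e : K) ^ e := by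
      have e3 : (t1 / s) ^ e - (t2 / s) ^ e = ((t1 / s) ^ e - 1) - ((t2 / s) ^ e - 1) := by ring
      rw [e3]
      exact (fp_sub_le V _ _).trans_lt (max_lt b1 b2)
    have h5 : V (t1 / s - t2 / s) * V (e : K) < V (e : K) ^ (e - 1) * V (e : K) := by
      have e4 : V (e : K) ^ (e - 1) * V (e : K) = V (e : K) ^ e := by
        rw [← pow_succ]
        congr 1
        omega
      rw [e4]
      exact h3.trans_lt h4
    have h6 : V (t1 / s - t2 / s) < V (e : K) ^ (e - 1) := lt_of_mul_lt_mul_right h5 hA.le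
    have h7 : V (e : K) ^ (e - 1) ≤ V (e : K) := by
      calc V (e : K) ^ (e - 1) ≤ V (e : K) ^ 1 := pow_le_pow_of_le_one hA.le hA1 (by omega)
        _ = V (e : K) := pow_one _
    have e5 : t2 / t1 - 1 = -(t1 / s - t2 / s) / (t1 / s) := by
      field_simp
      ring
    rw [e5, map_div₀, map_neg_eq_map, a1, div_one]
    exact h6.trans_le h7
  · refine ⟨fun _ => ⟨0, by omega⟩, ?_⟩
    intro t1 t2 ht1 _ h1 _ _
    exact absurd ⟨t1, ht1, h1⟩ hex

end Pool.Agent.TMS
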