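import Mathlib
import Pool.Agent.TMS.Defs

/-!
# PadeInt (size 3)

`fact_dvd`: `k! ∣ e ^ k ∏_{a < j ≤ a + k} (e j + b)`.
It is enough to compare the multiplicity of every prime `ℓ`. If `ℓ ∣ e`: the multiplicity of `ℓ` in
`k!` is at most `k` (`Nat.Prime.multiplicity_factorial...` / `sub_one_mul_padicValNat_factorial`, or
`Nat.factorization_factorial_le..`; it is `< k` for `k ≥ 1`), and `ℓ ^ k ∣ e ^ k`.
If `ℓ ∤ e`: take `M = ` the multiplicity of `ℓ` in `k!` and an integer `e'` with `e e' ≡ 1 mod ℓ ^ M`;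
modulo `ℓ ^ M` the product is `e ^ k ∏ (j + b e')`, and the product of `k` consecutive integers
`(a + 1 + b e') ... (a + k + b e')` is divisible by `k!` (`Int` version: `Nat.factorial_dvd_descFactorial`
after shifting by a multiple of `ℓ ^ M`, or `Ring.choose`, or `Polynomial`: `ascPochhammer`).
(Shift `b e'` by a multiple of `ℓ ^ M` to make it a natural number.)

`cA_cast`, `cB_cast`: `e ^ n * pa e n k` is the product of
`e ^ (n - k) ∏_{k < j ≤ n} (e j - 1) / (n - k)!` and `e ^ k ∏_{n - k < j ≤ n} (e j + 1) / k!`, both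
integers by `fact_dvd` (`n = k + (n - k)`, `n = (n - k) + k`), so its `num` is itself.
-/

namespace Pool.Agent.TMS

private theorem PadeInt_prod {R : Type*} [CommRing R] (f : ℕ → R) (a k : ℕ) :
    ∏ j ∈ Finset.Ioc a (a + k), f j = ∏ i ∈ Finset.range k, f (a + 1 + i) := by
  induction k with
  | zero => simp
  | succ k ih =>
    rw [← add_assoc, Finset.prod_Ioc_succ_top (by omega), ih, Finset.prod_range_succ]
    congr 2
    ring

private theorem PadeInt_le {p m k : ℕ} (hp : p.Prime) (h : p ^ m ∣ k.factorial) : m ≤ k := by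
  have h1 := Nat.Prime.emultiplicity_factorial_le_div_pred hp k
  have h2 : (m : ℕ∞) ≤ emultiplicity p k.factorial := le_emultiplicity_of_pow_dvd h
  have h3 : (m : ℕ∞) ≤ ((k / (p - 1) : ℕ) : ℕ∞) := h2.trans h1
  have h4 : m ≤ k / (p - 1) := by exact_mod_cast h3
  exact h4.trans (Nat.div_le_self _ _)

private theorem PadeInt_copr {p m k : ℕ} (e a : ℕ) (b : ℤ) (hp : p.Prime) (hpe : ¬ p ∣ e)
    (h : p ^ m ∣ k.factorial) :
    ((p ^ m : ℕ) : ℤ) ∣ (e : ℤ) ^ k * ∏ j ∈ Finset.Ioc a (a + k), ((e : ℤ) * j + b) := by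
  have : NeZero (p ^ m) := ⟨pow_ne_zero _ hp.ne_zero⟩
  have hcop : e.Coprime (p ^ m) :=
    Nat.Coprime.pow_right _ ((Nat.Prime.coprime_iff_not_dvd hp).2 hpe).symm
  have h1 : (e : ZMod (p ^ m)) * (e : ZMod (p ^ m))⁻¹ = 1 := ZMod.coe_mul_inv_eq_one e hcop
  let c : ℕ := ((b : ZMod (p ^ m)) * (e : ZMod (p ^ m))⁻¹).val
  have hc : (c : ZMod (p ^ m)) = (b : ZMod (p ^ m)) * (e : ZMod (p ^ m))⁻¹ :=
    ZMod.natCast_zmod_val _
  have hb : (b : ZMod (p ^ m)) = (e : ZMod (p ^ m)) * (c : ZMod (p ^ m)) := by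
    rw [hc, mul_left_comm, h1, mul_one]
  rw [← ZMod.intCast_zmod_eq_zero_iff_dvd]
  push_cast
  have h2 : ∏ j ∈ Finset.Ioc a (a + k), ((e : ZMod (p ^ m)) * (j : ZMod (p ^ m)) + b) =
      (e : ZMod (p ^ m)) ^ k * (((a + c + 1).ascFactorial k : ℕ) : ZMod (p ^ m)) := by
    rw [Nat.ascFactorial_eq_prod_range, PadeInt_prod, Nat.cast_prod]
    have h3 : (e : ZMod (p ^ m)) ^ k = ∏ _i ∈ Finset.range k, (e : ZMod (p ^ m)) := by simp
    rw [h3, ← Finset.prod_mul_distrib]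
    refine Finset.prod_congr rfl fun i _ => ?_
    rw [hb]
    push_cast
    ring
  have h4 : (((a + c + 1).ascFactorial k : ℕ) : ZMod (p ^ m)) = 0 := by
    rw [ZMod.natCast_eq_zero_iff]
    exact h.trans (Nat.factorial_dvd_ascFactorial _ _)
  rw [h2, h4, mul_zero, mul_zero]

theorem fact_dvd (e a k : ℕ) (b : ℤ) :
    ((k.factorial : ℕ) : ℤ) ∣ (e : ℤ) ^ k * ∏ j ∈ Finset.Ioc a (a + k), ((e : ℤ) * j + b) := by
  rw [Int.natCast_dvd, Nat.dvd_iff_prime_pow_dvd_dvd]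
  intro p m hp h
  rw [← Int.natCast_dvd]
  by_cases hpe : p ∣ e
  · have h1 : m ≤ k := PadeInt_le hp h
    have h2 : p ^ m ∣ e ^ k := (pow_dvd_pow p h1).trans (pow_dvd_pow_of_dvd hpe k)
    have h3 : ((p ^ m : ℕ) : ℤ) ∣ (e : ℤ) ^ k := by exact_mod_cast h2
    exact h3.trans (dvd_mul_right _ _)
  · exact PadeInt_copr e a b hp hpe h

private theorem PadeInt_num {x : ℚ} (h : ∃ z : ℤ, x = (z : ℚ)) : ((x.num : ℤ) : ℚ) = x := by
  obtain ⟨z, rfl⟩ := h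
  simp

private theorem PadeInt_aux (e n k : ℕ) (hk : k ≤ n) (s t : ℤ) :
    ∃ z : ℤ, (e : ℚ) ^ n * (((∏ j ∈ Finset.Ioc k n, ((e : ℚ) * j + s)) / ((n - k).factorial : ℚ)) *
      ((∏ j ∈ Finset.Ioc (n - k) n, ((e : ℚ) * j + t)) / (k.factorial : ℚ))) = (z : ℚ) := by
  obtain ⟨u, hu⟩ := fact_dvd e k (n - k) s
  obtain ⟨v, hv⟩ := fact_dvd e (n - k) k t
  rw [Nat.add_sub_cancel' hk] at hu
  rw [Nat.sub_add_cancel hk] at hv
  have hu' : (e : ℚ) ^ (n - k) * ∏ j ∈ Finset.Ioc k n, ((e : ℚ) * j + s) =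
      ((n - k).factorial : ℚ) * u := by exact_mod_cast hu
  have hv' : (e : ℚ) ^ k * ∏ j ∈ Finset.Ioc (n - k) n, ((e : ℚ) * j + t) =
      (k.factorial : ℚ) * v := by exact_mod_cast hv
  have h1 : ((n - k).factorial : ℚ) ≠ 0 := by exact_mod_cast (Nat.factorial_ne_zero _)
  have h2 : (k.factorial : ℚ) ≠ 0 := by exact_mod_cast (Nat.factorial_ne_zero _)
  have h3 : (e : ℚ) ^ n = (e : ℚ) ^ (n - k) * (e : ℚ) ^ k := by
    rw [← pow_add, Nat.sub_add_cancel hk]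
  refine ⟨u * v, ?_⟩
  have h4 : (e : ℚ) ^ n * (((∏ j ∈ Finset.Ioc k n, ((e : ℚ) * j + s)) /
      ((n - k).factorial : ℚ)) *
      ((∏ j ∈ Finset.Ioc (n - k) n, ((e : ℚ) * j + t)) / (k.factorial : ℚ))) =
      (((e : ℚ) ^ (n - k) * ∏ j ∈ Finset.Ioc k n, ((e : ℚ) * j + s)) /
        ((n - k).factorial : ℚ)) *
      (((e : ℚ) ^ k * ∏ j ∈ Finset.Ioc (n - k) n, ((e : ℚ) * j + t)) / (k.factorial : ℚ)) := by
    rw [h3]
    ring
  rw [h4, hu', hv', mul_div_cancel_left₀ _ h1, mul_div_cancel_left₀ _ h2]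
  push_cast
  rfl

theorem cA_cast (e n k : ℕ) (hk : k ≤ n) : ((cA e n k : ℤ) : ℚ) = (e : ℚ) ^ n * pa e n k := by
  refine PadeInt_num ?_
  obtain ⟨z, hz⟩ := PadeInt_aux e n k hk (-1) 1
  refine ⟨z, ?_⟩
  rw [← hz]
  unfold pa
  push_cast
  simp only [sub_eq_add_neg]

theorem cB_cast (e n k : ℕ) (hk : k ≤ n) : ((cB e n k : ℤ) : ℚ) = (e : ℚ) ^ n * pb e n k := by
  refine PadeInt_num ?_
  obtain ⟨z, hz⟩ := PadeInt_aux e n k hk 1 (-1)
  refine ⟨z, ?_⟩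
  rw [← hz]
  unfold pb
  push_cast
  simp only [sub_eq_add_neg]

end Pool.Agent.TMS
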