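import Mathlib
import Pool.Agent.TMS.PadeInt

/-!
# PadeBd (size 2)

`pa e n k ≤ e ^ n C(n, k) C(n + 1, k)`: every factor `e j - 1 ≤ e j`, so
`∏_{k < j ≤ n} (e j - 1) / (n - k)! ≤ e ^ (n - k) C(n, k)`, and `e j + 1 ≤ e (j + 1)`, so
`∏_{n - k < j ≤ n} (e j + 1) / k! ≤ e ^ k C(n + 1, k)`. Similarly
`pb e n k ≤ e ^ n C(n + 1, n - k) C(n, k)`. Then `∑_k C(n, k) C(n + 1, k) ≤ 2 ^ n 2 ^ (n + 1)`.
Multiply by `e ^ n` (`cA_cast`, `cB_cast`). All factors are nonnegative since `e, j ≥ 1`.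
-/

namespace Pool.Agent.TMS

private theorem PadeBd_prod0 (e a b : ℕ) (h : a ≤ b) :
    ∏ j ∈ Finset.Ioc a b, ((e : ℚ) * j) =
      (e : ℚ) ^ (b - a) * ((b.factorial : ℚ) / (a.factorial : ℚ)) := by
  induction b, h using Nat.le_induction with
  | base =>
    have : (a.factorial : ℚ) ≠ 0 := by exact_mod_cast a.factorial_ne_zero
    simp [div_self this]
  | succ b hb ih =>
    rw [Finset.prod_Ioc_succ_top (by omega), ih, Nat.succ_sub hb, pow_succ, Nat.factorial_succ]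
    push_cast
    ring

private theorem PadeBd_prod1 (e a b : ℕ) (h : a ≤ b) :
    ∏ j ∈ Finset.Ioc a b, ((e : ℚ) * (j + 1)) =
      (e : ℚ) ^ (b - a) * (((b + 1).factorial : ℚ) / ((a + 1).factorial : ℚ)) := by
  induction b, h using Nat.le_induction with
  | base =>
    have : ((a + 1).factorial : ℚ) ≠ 0 := by exact_mod_cast (a + 1).factorial_ne_zero
    simp [div_self this]
  | succ b hb ih =>
    rw [Finset.prod_Ioc_succ_top (by omega), ih, Nat.succ_sub hb, pow_succ,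
      Nat.factorial_succ (b + 1)]
    push_cast
    ring

private theorem PadeBd_sub_nonneg (e a b : ℕ) (he : 1 ≤ e) :
    0 ≤ ∏ j ∈ Finset.Ioc a b, ((e : ℚ) * j - 1) := by
  refine Finset.prod_nonneg fun j hj => ?_
  have h1 : 1 ≤ j := by
    have := (Finset.mem_Ioc.1 hj).1
    omega
  have h2 : (1 : ℚ) ≤ (e : ℚ) * j := by
    exact_mod_cast Nat.one_le_iff_ne_zero.2 (Nat.mul_ne_zero (by omega) (by omega))
  linarith

private theorem PadeBd_add_nonneg (e a b : ℕ) :
    0 ≤ ∏ j ∈ Finset.Ioc a b, ((e : ℚ) * j + 1) :=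
  Finset.prod_nonneg fun j _ => by positivity

private theorem PadeBd_sub_le (e a b : ℕ) (he : 1 ≤ e) (h : a ≤ b) :
    ∏ j ∈ Finset.Ioc a b, ((e : ℚ) * j - 1) ≤
      (e : ℚ) ^ (b - a) * ((b.factorial : ℚ) / (a.factorial : ℚ)) := by
  rw [← PadeBd_prod0 e a b h]
  refine Finset.prod_le_prod (fun j hj => ?_) fun j _ => by linarith
  have h1 : 1 ≤ j := by
    have := (Finset.mem_Ioc.1 hj).1
    omega
  have h2 : (1 : ℚ) ≤ (e : ℚ) * j := by
    exact_mod_cast Nat.one_le_iff_ne_zero.2 (Nat.mul_ne_zero (by omega) (by omega))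
  linarith

private theorem PadeBd_add_le (e a b : ℕ) (he : 1 ≤ e) (h : a ≤ b) :
    ∏ j ∈ Finset.Ioc a b, ((e : ℚ) * j + 1) ≤
      (e : ℚ) ^ (b - a) * (((b + 1).factorial : ℚ) / ((a + 1).factorial : ℚ)) := by
  rw [← PadeBd_prod1 e a b h]
  refine Finset.prod_le_prod (fun j _ => by positivity) fun j _ => ?_
  have : (1 : ℚ) ≤ (e : ℚ) := by exact_mod_cast he
  linarith

private theorem PadeBd_pa_nonneg (e n k : ℕ) (he : 1 ≤ e) : 0 ≤ pa e n k := by
  unfold pa
  have h1 := PadeBd_sub_nonneg e k n he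
  have h2 := PadeBd_add_nonneg e (n - k) n
  positivity

private theorem PadeBd_pa_le (e n k : ℕ) (he : 1 ≤ e) (hk : k ≤ n) :
    pa e n k ≤ (e : ℚ) ^ n * ((n.choose k : ℚ) * ((n + 1).choose k : ℚ)) := by
  unfold pa
  have h1 := PadeBd_sub_nonneg e k n he
  have h2 := PadeBd_add_nonneg e (n - k) n
  have h3 := PadeBd_sub_le e k n he hk
  have h4 := PadeBd_add_le e (n - k) n he (Nat.sub_le n k)
  have hf1 : (0 : ℚ) < ((n - k).factorial : ℚ) := by exact_mod_cast (n - k).factorial_pos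
  have hf2 : (0 : ℚ) < (k.factorial : ℚ) := by exact_mod_cast k.factorial_pos
  have hf3 : (0 : ℚ) < ((n - k + 1).factorial : ℚ) := by
    exact_mod_cast (n - k + 1).factorial_pos
  have e1 : (n.choose k : ℚ) = (n.factorial : ℚ) / ((k.factorial : ℚ) * ((n - k).factorial : ℚ)) :=
    Nat.cast_choose ℚ hk
  have e2 : ((n + 1).choose k : ℚ) =
      ((n + 1).factorial : ℚ) / ((k.factorial : ℚ) * ((n - k + 1).factorial : ℚ)) := by
    rw [Nat.cast_choose ℚ (show k ≤ n + 1 by omega)]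
    have : n + 1 - k = n - k + 1 := by omega
    rw [this]
  have hnk : n - (n - k) = k := by omega
  rw [hnk] at h4
  calc _ ≤ (((e : ℚ) ^ (n - k) * ((n.factorial : ℚ) / (k.factorial : ℚ))) / ((n - k).factorial : ℚ)) *
        (((e : ℚ) ^ k * (((n + 1).factorial : ℚ) / ((n - k + 1).factorial : ℚ))) /
          (k.factorial : ℚ)) := by
        refine mul_le_mul ?_ ?_ (by positivity) (by positivity)
        · exact div_le_div_of_nonneg_right h3 hf1.le
        · exact div_le_div_of_nonneg_right h4 hf2.le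
    _ = (e : ℚ) ^ n * ((n.choose k : ℚ) * ((n + 1).choose k : ℚ)) := by
        rw [e1, e2]
        have : (e : ℚ) ^ n = (e : ℚ) ^ (n - k) * (e : ℚ) ^ k := by
          rw [← pow_add]
          congr 1
          omega
        rw [this]
        field_simp

private theorem PadeBd_pb (e n k : ℕ) (hk : k ≤ n) : pb e n k = pa e n (n - k) := by
  unfold pb pa
  have : n - (n - k) = k := by omega
  rw [this]
  ring

private theorem PadeBd_cA_nonneg (e n k : ℕ) (he : 1 ≤ e) : 0 ≤ cA e n k := by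
  unfold cA
  rw [Rat.num_nonneg]
  have := PadeBd_pa_nonneg e n k he
  positivity

private theorem PadeBd_cB (e n k : ℕ) (hk : k ≤ n) : cB e n k = cA e n (n - k) := by
  unfold cA cB
  rw [PadeBd_pb e n k hk]

theorem cA_nonneg (e n k : ℕ) (he : 1 ≤ e) (hk : k ≤ n) : 0 ≤ cA e n k :=
  PadeBd_cA_nonneg e n k he

theorem cB_nonneg (e n k : ℕ) (he : 1 ≤ e) (hk : k ≤ n) : 0 ≤ cB e n k := by
  rw [PadeBd_cB e n k hk]
  exact PadeBd_cA_nonneg e n _ he

private theorem PadeBd_cA_le (e n k : ℕ) (he : 1 ≤ e) (hk : k ≤ n) :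
    (cA e n k : ℝ) ≤ (e : ℝ) ^ n * ((e : ℝ) ^ n * ((n.choose k : ℝ) * ((n + 1).choose k : ℝ))) := by
  have h1 : ((cA e n k : ℤ) : ℚ) ≤
      (e : ℚ) ^ n * ((e : ℚ) ^ n * ((n.choose k : ℚ) * ((n + 1).choose k : ℚ))) := by
    rw [cA_cast e n k hk]
    exact mul_le_mul_of_nonneg_left (PadeBd_pa_le e n k he hk) (by positivity)
  exact_mod_cast h1

theorem sum_cA_le (e n : ℕ) (he : 1 ≤ e) :
    ∑ k ∈ Finset.range (n + 1), (cA e n k : ℝ) ≤ 2 * (4 * (e : ℝ) ^ 2) ^ n := by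
  calc ∑ k ∈ Finset.range (n + 1), (cA e n k : ℝ)
      ≤ ∑ k ∈ Finset.range (n + 1),
          (e : ℝ) ^ n * ((e : ℝ) ^ n * ((n.choose k : ℝ) * 2 ^ (n + 1))) := by
        refine Finset.sum_le_sum fun k hk => ?_
        have hk' : k ≤ n := by
          have := Finset.mem_range.1 hk
          omega
        refine (PadeBd_cA_le e n k he hk').trans ?_
        have h2 : ((n + 1).choose k : ℝ) ≤ 2 ^ (n + 1) := by
          exact_mod_cast Nat.choose_le_two_pow (n + 1) k
        gcongr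
    _ = (e : ℝ) ^ n * ((e : ℝ) ^ n * ((∑ k ∈ Finset.range (n + 1), (n.choose k : ℝ)) *
          2 ^ (n + 1))) := by
        rw [Finset.sum_mul, Finset.mul_sum, Finset.mul_sum]
    _ = 2 * (4 * (e : ℝ) ^ 2) ^ n := by
        have h3 : (∑ k ∈ Finset.range (n + 1), (n.choose k : ℝ)) = 2 ^ n := by
          exact_mod_cast Nat.sum_range_choose n
        rw [h3, mul_pow, ← pow_mul, pow_succ, show (4 : ℝ) = 2 * 2 by norm_num, mul_pow,
          Nat.mul_comm 2 n, pow_mul, pow_two]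
        ring

theorem sum_cB_le (e n : ℕ) (he : 1 ≤ e) :
    ∑ k ∈ Finset.range (n + 1), (cB e n k : ℝ) ≤ 2 * (4 * (e : ℝ) ^ 2) ^ n := by
  have : ∑ k ∈ Finset.range (n + 1), (cB e n k : ℝ) =
      ∑ k ∈ Finset.range (n + 1), (cA e n k : ℝ) := by
    rw [← Finset.sum_range_reflect (fun k => (cA e n k : ℝ))]
    refine Finset.sum_congr rfl fun k hk => ?_
    have hk' : k ≤ n := by
      have := Finset.mem_range.1 hk
      omega
    rw [PadeBd_cB e n k hk']
    have : n + 1 - 1 - k = n - k := by omega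
    rw [this]
  rw [this]
  exact sum_cA_le e n he

end Pool.Agent.TMS
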