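import Mathlib
import Pool.Agent.TMS.Defs

/-!
# PadeMom (size 3)

Nodes: the `2 n + 2` different rational numbers `k e` and `k e + 1`, `0 ≤ k ≤ n` (different since
`e ≥ 2`). For a polynomial `g` of degree `2 n + 1 = (number of nodes) - 1`,
`leadingCoeff g = ∑_i g(v_i) / ∏_{j ≠ i} (v_i - v_j)` (`Lagrange.leadingCoeff_eq_sum`); apply it to
`X ^ (2 n + 1) + f` and to `X ^ (2 n + 1)` and subtract: `∑_i f(v_i) / ∏_{j ≠ i} (v_i - v_j) = 0` for
`deg f ≤ 2 n`.
Weights: for `v_i = k e`: `∏_{i ≠ k} (k e - i e) = e ^ n k! (n - k)! (-1) ^ (n - k)` and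
`∏_{i ≤ n} (k e - i e - 1) = ∏_{j ≤ k} (e j - 1) ∏_{1 ≤ j ≤ n - k} (-e j - 1)
 = - (-1) ^ (n - k) ∏_{1 ≤ j ≤ k} (e j - 1) ∏_{1 ≤ j ≤ n - k} (e j + 1)`.
Multiply by `N = e ^ n ∏_{1 ≤ j ≤ n} (e j - 1) ∏_{1 ≤ j ≤ n} (e j + 1)`: `N / (weight product) = - pa e n k`.
For `v_i = k e + 1`: `∏_{i ≠ k} (k e - i e)` as before and
`∏_{i ≤ n} (k e + 1 - i e) = (-1) ^ (n - k) ∏_{1 ≤ j ≤ k} (e j + 1) ∏_{1 ≤ j ≤ n - k} (e j - 1)`, so
`N / (weight product) = pb e n k`.
-/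

namespace Pool.Agent.TMS

private theorem PadeMom_shift (F : ℕ → ℚ) (k : ℕ) :
    ∏ j ∈ Finset.range k, F j = ∏ i ∈ Finset.Ioc 0 k, F (k - i) := by
  rw [← Finset.prod_range_reflect]
  refine Finset.prod_bij (fun j _ => j + 1) ?_ ?_ ?_ ?_
  · intro a ha
    simp only [Finset.mem_range, Finset.mem_Ioc] at ha ⊢
    omega
  · intro a _ b _ h
    omega
  · intro b hb
    simp only [Finset.mem_Ioc] at hb
    exact ⟨b - 1, by simp only [Finset.mem_range]; omega, by omega⟩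
  · intro a ha
    congr 1
    omega

private theorem PadeMom_split (F : ℕ → ℚ) (k m : ℕ) :
    ∏ j ∈ Finset.range (k + m + 1), F j =
      (∏ i ∈ Finset.Ioc 0 k, F (k - i)) * F k * ∏ i ∈ Finset.Ioc 0 m, F (k + i) := by
  induction m with
  | zero =>
    rw [Nat.add_zero, Finset.prod_range_succ, PadeMom_shift]
    simp
  | succ m ih =>
    rw [← Nat.add_assoc, Finset.prod_range_succ, ih, Finset.prod_Ioc_succ_top (by omega)]
    rw [← mul_assoc]
    rfl

private theorem PadeMom_erase (F : ℕ → ℚ) (k m : ℕ) :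
    ∏ j ∈ (Finset.range (k + m + 1)).erase k, F j =
      (∏ i ∈ Finset.Ioc 0 k, F (k - i)) * ∏ i ∈ Finset.Ioc 0 m, F (k + i) := by
  have h1 := PadeMom_split (fun j => if j = k then 1 else F j) k m
  have hk : k ∈ Finset.range (k + m + 1) := by
    simp only [Finset.mem_range]
    omega
  rw [← Finset.mul_prod_erase _ _ hk] at h1
  have h2 : ∏ j ∈ (Finset.range (k + m + 1)).erase k, (if j = k then 1 else F j) =
      ∏ j ∈ (Finset.range (k + m + 1)).erase k, F j :=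
    Finset.prod_congr rfl fun j hj => if_neg (Finset.ne_of_mem_erase hj)
  have h3 : ∏ i ∈ Finset.Ioc 0 k, (if k - i = k then 1 else F (k - i)) =
      ∏ i ∈ Finset.Ioc 0 k, F (k - i) :=
    Finset.prod_congr rfl fun j hj => if_neg (by
      simp only [Finset.mem_Ioc] at hj
      omega)
  have h4 : ∏ i ∈ Finset.Ioc 0 m, (if k + i = k then 1 else F (k + i)) =
      ∏ i ∈ Finset.Ioc 0 m, F (k + i) :=
    Finset.prod_congr rfl fun j hj => if_neg (by
      simp only [Finset.mem_Ioc] at hj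
      omega)
  simp only [if_true, one_mul, mul_one] at h1
  rw [h2, h3, h4] at h1
  exact h1

private theorem PadeMom_fact (k : ℕ) : ∏ i ∈ Finset.Ioc 0 k, (i : ℚ) = (k.factorial : ℚ) := by
  induction k with
  | zero => simp
  | succ k ih =>
    rw [Finset.prod_Ioc_succ_top (by omega), ih, Nat.factorial_succ]
    push_cast
    ring

private theorem PadeMom_A (e k m : ℕ) :
    ∏ j ∈ (Finset.range (k + m + 1)).erase k, ((k : ℚ) * e - (j : ℚ) * e) =
      (e : ℚ) ^ (k + m) * (k.factorial : ℚ) * (m.factorial : ℚ) * (-1) ^ m := by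
  rw [PadeMom_erase]
  have h1 : ∏ i ∈ Finset.Ioc 0 k, ((k : ℚ) * e - ((k - i : ℕ) : ℚ) * e) =
      (e : ℚ) ^ k * (k.factorial : ℚ) := by
    rw [← PadeMom_fact]
    have h2 : (e : ℚ) ^ k = ∏ _i ∈ Finset.Ioc 0 k, (e : ℚ) := by simp
    rw [h2, ← Finset.prod_mul_distrib]
    refine Finset.prod_congr rfl fun i hi => ?_
    rw [Nat.cast_sub (Finset.mem_Ioc.1 hi).2]
    ring
  have h2 : ∏ i ∈ Finset.Ioc 0 m, ((k : ℚ) * e - ((k + i : ℕ) : ℚ) * e) =
      (e : ℚ) ^ m * (m.factorial : ℚ) * (-1) ^ m := by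
    rw [← PadeMom_fact]
    have h2 : (e : ℚ) ^ m = ∏ _i ∈ Finset.Ioc 0 m, (e : ℚ) := by simp
    have h3 : (-1 : ℚ) ^ m = ∏ _i ∈ Finset.Ioc 0 m, (-1 : ℚ) := by simp
    rw [h2, h3, ← Finset.prod_mul_distrib, ← Finset.prod_mul_distrib]
    refine Finset.prod_congr rfl fun i hi => ?_
    push_cast
    ring
  rw [h1, h2, pow_add]
  ring

private theorem PadeMom_B (e k m : ℕ) (s : ℚ) :
    ∏ j ∈ Finset.range (k + m + 1), ((k : ℚ) * e - (j : ℚ) * e + s) =
      s * (∏ i ∈ Finset.Ioc 0 k, ((e : ℚ) * i + s)) *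
        ((-1) ^ m * ∏ i ∈ Finset.Ioc 0 m, ((e : ℚ) * i - s)) := by
  rw [PadeMom_split]
  have h1 : ∏ i ∈ Finset.Ioc 0 k, ((k : ℚ) * e - ((k - i : ℕ) : ℚ) * e + s) =
      ∏ i ∈ Finset.Ioc 0 k, ((e : ℚ) * i + s) := by
    refine Finset.prod_congr rfl fun i hi => ?_
    rw [Nat.cast_sub (Finset.mem_Ioc.1 hi).2]
    ring
  have h2 : ∏ i ∈ Finset.Ioc 0 m, ((k : ℚ) * e - ((k + i : ℕ) : ℚ) * e + s) =
      (-1) ^ m * ∏ i ∈ Finset.Ioc 0 m, ((e : ℚ) * i - s) := by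
    have h3 : (-1 : ℚ) ^ m = ∏ _i ∈ Finset.Ioc 0 m, (-1 : ℚ) := by simp
    rw [h3, ← Finset.prod_mul_distrib]
    refine Finset.prod_congr rfl fun i hi => ?_
    push_cast
    ring
  rw [h1, h2]
  ring

private theorem PadeMom_ne (e : ℕ) (he : 2 ≤ e) (k : ℕ) :
    ∏ i ∈ Finset.Ioc 0 k, ((e : ℚ) * i - 1) ≠ 0 := by
  refine Finset.prod_ne_zero_iff.2 fun i hi => ?_
  have h1 : 1 ≤ i := (Finset.mem_Ioc.1 hi).1
  have h2 : (1 : ℚ) ≤ i := by exact_mod_cast h1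
  have h3 : (2 : ℚ) ≤ e := by exact_mod_cast he
  nlinarith

private theorem PadeMom_ne' (e : ℕ) (k : ℕ) :
    ∏ i ∈ Finset.Ioc 0 k, ((e : ℚ) * i + 1) ≠ 0 := by
  refine Finset.prod_ne_zero_iff.2 fun i hi => ?_
  positivity

private theorem PadeMom_Ioc (f : ℕ → ℚ) {k n : ℕ} (hk : k ≤ n)
    (h : ∏ i ∈ Finset.Ioc 0 k, f i ≠ 0) :
    ∏ i ∈ Finset.Ioc k n, f i = (∏ i ∈ Finset.Ioc 0 n, f i) / ∏ i ∈ Finset.Ioc 0 k, f i := by
  rw [eq_div_iff h, mul_comm]
  exact Finset.prod_Ioc_consecutive f (Nat.zero_le k) hk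

private theorem PadeMom_inj (e : ℕ) (he : 2 ≤ e) :
    Function.Injective (Sum.elim (fun k : ℕ => (k : ℚ) * e) (fun k : ℕ => (k : ℚ) * e + 1)) := by
  have he0 : (e : ℚ) ≠ 0 := by
    have : e ≠ 0 := by omega
    exact_mod_cast this
  have key : ∀ a b : ℕ, (a : ℚ) * e ≠ (b : ℚ) * e + 1 := by
    intro a b h
    have h1 : a * e = b * e + 1 := by exact_mod_cast h
    have h2 : e ∣ 1 := by
      have h3 : e ∣ b * e + 1 := h1 ▸ Dvd.intro_left a rfl
      exact (Nat.dvd_add_right (Dvd.intro_left b rfl)).1 h3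
    have h3 := Nat.le_of_dvd one_pos h2
    omega
  rintro (a | a) (b | b) h
  · have h1 : (a : ℚ) * e = (b : ℚ) * e := h
    have h2 : (a : ℚ) = b := mul_right_cancel₀ he0 h1
    have h3 : a = b := by exact_mod_cast h2
    rw [h3]
  · exact absurd h (key a b)
  · exact absurd h.symm (key b a)
  · have h1 : (a : ℚ) * e + 1 = (b : ℚ) * e + 1 := h
    have h2 : (a : ℚ) = b := mul_right_cancel₀ he0 (add_right_cancel h1)
    have h3 : a = b := by exact_mod_cast h2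
    rw [h3]

theorem moment (e n : ℕ) (he : 2 ≤ e) (f : Polynomial ℚ) (hf : f.natDegree ≤ 2 * n) :
    ∑ k ∈ Finset.range (n + 1), pb e n k * f.eval ((k : ℚ) * e + 1) =
      ∑ k ∈ Finset.range (n + 1), pa e n k * f.eval ((k : ℚ) * e) := by
  classical
  let s : Finset (ℕ ⊕ ℕ) := (Finset.range (n + 1)).disjSum (Finset.range (n + 1))
  let v : ℕ ⊕ ℕ → ℚ := Sum.elim (fun k : ℕ => (k : ℚ) * e) (fun k : ℕ => (k : ℚ) * e + 1)
  have hs : s.card = 2 * n + 2 := by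
    simp only [s, Finset.card_disjSum, Finset.card_range]
    omega
  have hdeg : f.degree < s.card := by
    rw [hs]
    refine lt_of_le_of_lt Polynomial.degree_le_natDegree ?_
    exact_mod_cast (by omega : f.natDegree < 2 * n + 2)
  have hL := Lagrange.coeff_eq_sum (s := s) (v := v) ((PadeMom_inj e he).injOn) hdeg
  rw [hs, Polynomial.coeff_eq_zero_of_natDegree_lt (by omega), Finset.sum_disjSum] at hL
  have er1 : ∀ k, s.erase (Sum.inl k) =
      ((Finset.range (n + 1)).erase k).disjSum (Finset.range (n + 1)) := by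
    intro k
    ext x
    rcases x with x | x <;> simp [s]
  have er2 : ∀ k, s.erase (Sum.inr k) =
      (Finset.range (n + 1)).disjSum ((Finset.range (n + 1)).erase k) := by
    intro k
    ext x
    rcases x with x | x <;> simp [s]
  have he0 : (e : ℚ) ≠ 0 := by
    have : e ≠ 0 := by omega
    exact_mod_cast this
  set N : ℚ := (e : ℚ) ^ n * (∏ i ∈ Finset.Ioc 0 n, ((e : ℚ) * i - 1)) *
    ∏ i ∈ Finset.Ioc 0 n, ((e : ℚ) * i + 1) with hN
  have w1 : ∀ k ∈ Finset.range (n + 1), N * (f.eval (v (Sum.inl k)) /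
      ∏ j ∈ s.erase (Sum.inl k), (v (Sum.inl k) - v j)) = -(pa e n k * f.eval ((k : ℚ) * e)) := by
    intro k hk
    obtain ⟨m, rfl⟩ := Nat.exists_eq_add_of_le (Nat.lt_succ_iff.1 (Finset.mem_range.1 hk))
    rw [er1, Finset.prod_disjSum]
    have h1 : ∏ j ∈ (Finset.range (k + m + 1)).erase k, (v (Sum.inl k) - v (Sum.inl j)) =
        (e : ℚ) ^ (k + m) * (k.factorial : ℚ) * (m.factorial : ℚ) * (-1) ^ m := PadeMom_A e k m
    have h2 : ∏ j ∈ Finset.range (k + m + 1), (v (Sum.inl k) - v (Sum.inr j)) =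
        (-1) * (∏ i ∈ Finset.Ioc 0 k, ((e : ℚ) * i - 1)) *
        ((-1) ^ m * ∏ i ∈ Finset.Ioc 0 m, ((e : ℚ) * i + 1)) := by
      have h3 := PadeMom_B e k m (-1)
      simp only [← sub_eq_add_neg, sub_neg_eq_add] at h3
      rw [← h3]
      refine Finset.prod_congr rfl fun j _ => ?_
      show (k : ℚ) * e - ((j : ℚ) * e + 1) = _
      ring
    have h3 : v (Sum.inl k) = (k : ℚ) * e := rfl
    rw [h1, h2, h3, hN]
    unfold pa
    rw [Nat.add_sub_cancel_left, PadeMom_Ioc _ (Nat.le_add_right k m) (PadeMom_ne e he k),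
      PadeMom_Ioc _ (Nat.le_add_left m k) (PadeMom_ne' e m)]
    have g1 := PadeMom_ne e he k
    have g2 := PadeMom_ne' e m
    have g3 : (k.factorial : ℚ) ≠ 0 := by exact_mod_cast Nat.factorial_ne_zero _
    have g4 : (m.factorial : ℚ) ≠ 0 := by exact_mod_cast Nat.factorial_ne_zero _
    have g5 : ((-1 : ℚ) ^ m) * ((-1 : ℚ) ^ m) = 1 := by
      rw [← mul_pow]; simp
    generalize (∏ i ∈ Finset.Ioc 0 k, ((e : ℚ) * i - 1)) = a at *
    generalize (∏ i ∈ Finset.Ioc 0 m, ((e : ℚ) * i + 1)) = b at *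
    generalize (∏ i ∈ Finset.Ioc 0 (k + m), ((e : ℚ) * i - 1)) = c at *
    generalize (∏ i ∈ Finset.Ioc 0 (k + m), ((e : ℚ) * i + 1)) = d at *
    generalize f.eval ((k : ℚ) * e) = y at *
    have g6 : (e : ℚ) ^ (k + m) * (k.factorial : ℚ) * (m.factorial : ℚ) * (-1) ^ m *
        ((-1) * a * ((-1) ^ m * b)) =
        -((e : ℚ) ^ (k + m) * (k.factorial : ℚ) * (m.factorial : ℚ) * a * b) := by
      linear_combination (-(e : ℚ) ^ (k + m) * (k.factorial : ℚ) * (m.factorial : ℚ) * a * b) * g5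
    rw [g6]
    have g7 : (e : ℚ) ^ (k + m) ≠ 0 := pow_ne_zero _ he0
    field_simp
  have w2 : ∀ k ∈ Finset.range (n + 1), N * (f.eval (v (Sum.inr k)) /
      ∏ j ∈ s.erase (Sum.inr k), (v (Sum.inr k) - v j)) =
        pb e n k * f.eval ((k : ℚ) * e + 1) := by
    intro k hk
    obtain ⟨m, rfl⟩ := Nat.exists_eq_add_of_le (Nat.lt_succ_iff.1 (Finset.mem_range.1 hk))
    rw [er2, Finset.prod_disjSum]
    have h1 : ∏ j ∈ (Finset.range (k + m + 1)).erase k, (v (Sum.inr k) - v (Sum.inr j)) =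
        (e : ℚ) ^ (k + m) * (k.factorial : ℚ) * (m.factorial : ℚ) * (-1) ^ m := by
      rw [← PadeMom_A e k m]
      refine Finset.prod_congr rfl fun j _ => ?_
      show (k : ℚ) * e + 1 - ((j : ℚ) * e + 1) = _
      ring
    have h2 : ∏ j ∈ Finset.range (k + m + 1), (v (Sum.inr k) - v (Sum.inl j)) =
        1 * (∏ i ∈ Finset.Ioc 0 k, ((e : ℚ) * i + 1)) *
        ((-1) ^ m * ∏ i ∈ Finset.Ioc 0 m, ((e : ℚ) * i - 1)) := by
      rw [← PadeMom_B e k m 1]
      refine Finset.prod_congr rfl fun j _ => ?_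
      show (k : ℚ) * e + 1 - (j : ℚ) * e = _
      ring
    have h3 : v (Sum.inr k) = (k : ℚ) * e + 1 := rfl
    rw [h1, h2, h3, hN]
    unfold pb
    rw [Nat.add_sub_cancel_left, PadeMom_Ioc _ (Nat.le_add_right k m) (PadeMom_ne' e k),
      PadeMom_Ioc _ (Nat.le_add_left m k) (PadeMom_ne e he m)]
    have g1 := PadeMom_ne' e k
    have g2 := PadeMom_ne e he m
    have g3 : (k.factorial : ℚ) ≠ 0 := by exact_mod_cast Nat.factorial_ne_zero _
    have g4 : (m.factorial : ℚ) ≠ 0 := by exact_mod_cast Nat.factorial_ne_zero _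
    have g5 : ((-1 : ℚ) ^ m) * ((-1 : ℚ) ^ m) = 1 := by
      rw [← mul_pow]; simp
    generalize (∏ i ∈ Finset.Ioc 0 k, ((e : ℚ) * i + 1)) = a at *
    generalize (∏ i ∈ Finset.Ioc 0 m, ((e : ℚ) * i - 1)) = b at *
    generalize (∏ i ∈ Finset.Ioc 0 (k + m), ((e : ℚ) * i - 1)) = c at *
    generalize (∏ i ∈ Finset.Ioc 0 (k + m), ((e : ℚ) * i + 1)) = d at *
    generalize f.eval ((k : ℚ) * e + 1) = y at *
    have g6 : (1 * a * ((-1) ^ m * b)) * ((e : ℚ) ^ (k + m) * (k.factorial : ℚ) *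
        (m.factorial : ℚ) * (-1) ^ m) =
        (e : ℚ) ^ (k + m) * (k.factorial : ℚ) * (m.factorial : ℚ) * a * b := by
      linear_combination ((e : ℚ) ^ (k + m) * (k.factorial : ℚ) * (m.factorial : ℚ) * a * b) * g5
    rw [g6]
    have g7 : (e : ℚ) ^ (k + m) ≠ 0 := pow_ne_zero _ he0
    field_simp
  have hfin := congrArg (fun t => N * t) hL
  simp only [mul_zero, mul_add, Finset.mul_sum] at hfin
  rw [Finset.sum_congr rfl w1, Finset.sum_congr rfl w2, Finset.sum_neg_distrib] at hfin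
  linarith

end Pool.Agent.TMS
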