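import Mathlib
import Pool.Agent.TMS.PadeBd
import Pool.Agent.TMS.PadeMom
import Pool.Agent.AbcE.Arch

/-!
# ArchDelta (size 4)

`M = 2 (4 e ^ 2) ^ n` bounds the sums of the `cA`, `cB` (`PadeBd`), which are `≥ 0`. `m = 2 n + 1`.
Let `s = log x1 / e` (principal), `Y1 = exp s`, so `Y1 ^ e = x1`; `‖log x1‖ ≤ (4 / 3) ‖x1 - 1‖ ≤ 1 / 3`.
1. `G(s) = Y1 QQ(x1) - PP(x1) = ∑_k cB exp((k e + 1) s) - ∑_k cA exp(k e s)
 = ∑_i s ^ i / i! (∑_k cB (k e + 1) ^ i - ∑_k cA (k e) ^ i)`; the bracket is `0` for `i ≤ 2 n` (`moment`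
with `f = X ^ i`, times `e ^ n`) and at most `M (e n + 1) ^ i` in absolute value (both sums lie in
`[0, M (e n + 1) ^ i]`). With `r = 1 / e`: `(e n + 1) ^ i / i! ≤ exp((e n + 1) r) / r ^ i ≤ exp(n + 1) e ^ i`,
so `‖G(s)‖ ≤ M exp(n + 1) ∑_{i ≥ m} (e ‖s‖) ^ i ≤ 2 M exp(n + 1) ((4 / 3) ‖x1 - 1‖) ^ m` as
`e ‖s‖ = ‖log x1‖ ≤ 1 / 3`.
2. `Y2 = ρ Y1`, `Y2 ^ e = x2`. `|arg Y1| ≤ ‖s‖ ≤ 1 / (3 e)` and `|arg ρ| ≤ π / (4 e)`, the sum is at most
`π / (2 e)` (`1 / 3 ≤ π / 4`). `AbcE.ArchAux.sector` with `a = Y2`, `b = 1` (arg Y2 = arg ρ + arg Y1 as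
the sum is in `(-π, π]`) or with `a = ρ Y1`, `b = 1` gives `‖Y2 - 1‖ ≤ ‖Y2 ^ e - 1‖ = ‖x2 - 1‖`.
(Alternatively repeat its proof.) If `x1 = 1` everything is fine as well.
3. `QQ(x1) - ρ PP(x1) = ρ G(s) - (Y2 - 1) QQ(x1)`; `‖ρ‖ ^ e = ‖x2‖ / ‖x1‖ ≤ (5 / 4) / (3 / 4) ≤ 2`, so
`‖ρ‖ ≤ 2`; `‖QQ(x1)‖ ≤ M (5 / 4) ^ n`.
-/

namespace Pool.Agent.TMS

private theorem archDelta_tail (m : ℕ) {t R : ℝ} (ht : 0 ≤ t) (hR : t ≤ R) (hR0 : 0 < R) :
    Real.exp t - ∑ i ∈ Finset.range m, t ^ i / (i.factorial : ℝ) ≤ (t / R) ^ m * Real.exp R := by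
  have hs : ∀ x : ℝ, HasSum (fun j : ℕ => x ^ j / (j.factorial : ℝ)) (Real.exp x) := by
    intro x
    have := NormedSpace.expSeries_div_hasSum_exp (𝔸 := ℝ) x
    rwa [← Real.exp_eq_exp_ℝ] at this
  have h1 := (hasSum_nat_add_iff' m).2 (hs t)
  have h2 := ((hasSum_nat_add_iff' m).2 (hs R)).mul_left ((t / R) ^ m)
  have hq0 : 0 ≤ t / R := div_nonneg ht hR0.le
  have hq1 : t / R ≤ 1 := (div_le_one hR0).2 hR
  have h3 := hasSum_le (fun j => by
    have hle : (t / R) ^ (j + m) ≤ (t / R) ^ m :=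
      pow_le_pow_of_le_one hq0 hq1 (Nat.le_add_left m j)
    have he : t ^ (j + m) = (t / R) ^ (j + m) * R ^ (j + m) := by
      rw [← mul_pow, div_mul_cancel₀ _ hR0.ne']
    rw [he, mul_div_assoc]
    have hnn : 0 ≤ R ^ (j + m) / ((j + m).factorial : ℝ) := by positivity
    exact mul_le_mul_of_nonneg_right hle hnn) h1 h2
  refine h3.trans ?_
  apply mul_le_mul_of_nonneg_left _ (pow_nonneg hq0 m)
  have : 0 ≤ ∑ i ∈ Finset.range m, R ^ i / (i.factorial : ℝ) :=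
    Finset.sum_nonneg (fun i _ => by positivity)
  linarith

private theorem archDelta_rem (m : ℕ) {X e : ℝ} (hX : 0 < X) (he : 0 < e) {z s : ℂ}
    (hz : ‖z‖ ≤ X) (hs : e * ‖s‖ ≤ 1) :
    ‖Complex.exp (z * s) - ∑ i ∈ Finset.range m, (z * s) ^ i / (i.factorial : ℂ)‖ ≤
      (e * ‖s‖) ^ m * Real.exp (X / e) := by
  refine (Complex.norm_exp_sub_sum_le_exp_norm_sub_sum (z * s) m).trans ?_
  have hR0 : 0 < X / e := div_pos hX he
  have hle : ‖z * s‖ ≤ X / e := by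
    rw [norm_mul, le_div_iff₀ he]
    calc ‖z‖ * ‖s‖ * e = ‖z‖ * (e * ‖s‖) := by ring
      _ ≤ X * 1 := by gcongr
      _ = X := mul_one X
  refine (archDelta_tail m (norm_nonneg _) hle hR0).trans ?_
  apply mul_le_mul_of_nonneg_right _ (Real.exp_pos _).le
  apply pow_le_pow_left₀ (div_nonneg (norm_nonneg _) hR0.le)
  rw [div_le_iff₀ hR0, norm_mul]
  calc ‖z‖ * ‖s‖ ≤ X * ‖s‖ := by gcongr
    _ = e * ‖s‖ * (X / e) := by field_simp

private theorem archDelta_mom (e n : ℕ) (he : 2 ≤ e) (i : ℕ) (hi : i < 2 * n + 1) :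
    ∑ k ∈ Finset.range (n + 1), (cB e n k : ℂ) * ((k : ℂ) * e + 1) ^ i =
      ∑ k ∈ Finset.range (n + 1), (cA e n k : ℂ) * ((k : ℂ) * e) ^ i := by
  have h := moment e n he (Polynomial.X ^ i) (by rw [Polynomial.natDegree_X_pow]; omega)
  simp only [Polynomial.eval_pow, Polynomial.eval_X] at h
  have h2 : ∑ k ∈ Finset.range (n + 1), (cB e n k : ℚ) * ((k : ℚ) * e + 1) ^ i =
      ∑ k ∈ Finset.range (n + 1), (cA e n k : ℚ) * ((k : ℚ) * e) ^ i := by
    have h3 : ∑ k ∈ Finset.range (n + 1), (cB e n k : ℚ) * ((k : ℚ) * e + 1) ^ i =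
        (e : ℚ) ^ n * ∑ k ∈ Finset.range (n + 1), pb e n k * ((k : ℚ) * e + 1) ^ i := by
      rw [Finset.mul_sum]
      apply Finset.sum_congr rfl
      intro k hk
      rw [Finset.mem_range] at hk
      rw [cB_cast e n k (by omega)]
      ring
    have h4 : ∑ k ∈ Finset.range (n + 1), (cA e n k : ℚ) * ((k : ℚ) * e) ^ i =
        (e : ℚ) ^ n * ∑ k ∈ Finset.range (n + 1), pa e n k * ((k : ℚ) * e) ^ i := by
      rw [Finset.mul_sum]
      apply Finset.sum_congr rfl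
      intro k hk
      rw [Finset.mem_range] at hk
      rw [cA_cast e n k (by omega)]
      ring
    rw [h3, h4, h]
  have h5 := congrArg (fun q : ℚ => (q : ℂ)) h2
  push_cast at h5
  exact h5

private theorem archDelta_poly (e n : ℕ) (he : 2 ≤ e) (s : ℂ) :
    ∑ k ∈ Finset.range (n + 1), (cB e n k : ℂ) *
        ∑ i ∈ Finset.range (2 * n + 1), (((k : ℂ) * e + 1) * s) ^ i / (i.factorial : ℂ) =
      ∑ k ∈ Finset.range (n + 1), (cA e n k : ℂ) *
        ∑ i ∈ Finset.range (2 * n + 1), (((k : ℂ) * e) * s) ^ i / (i.factorial : ℂ) := by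
  have key : ∀ (c b : ℕ → ℂ), ∑ k ∈ Finset.range (n + 1), c k *
        ∑ i ∈ Finset.range (2 * n + 1), (b k * s) ^ i / (i.factorial : ℂ) =
      ∑ i ∈ Finset.range (2 * n + 1), s ^ i / (i.factorial : ℂ) *
        ∑ k ∈ Finset.range (n + 1), c k * b k ^ i := by
    intro c b
    simp only [Finset.mul_sum]
    rw [Finset.sum_comm]
    apply Finset.sum_congr rfl
    intro i _
    apply Finset.sum_congr rfl
    intro k _
    rw [mul_pow]
    ring
  rw [key (fun k => (cB e n k : ℂ)) (fun k => (k : ℂ) * e + 1),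
    key (fun k => (cA e n k : ℂ)) (fun k => (k : ℂ) * e)]
  apply Finset.sum_congr rfl
  intro i hi
  rw [Finset.mem_range] at hi
  rw [archDelta_mom e n he i hi]

private theorem archDelta_G (e n : ℕ) (he : 2 ≤ e) (s : ℂ) (hs : (e : ℝ) * ‖s‖ ≤ 1) :
    ‖∑ k ∈ Finset.range (n + 1), (cB e n k : ℂ) * Complex.exp (((k : ℂ) * e + 1) * s) -
      ∑ k ∈ Finset.range (n + 1), (cA e n k : ℂ) * Complex.exp (((k : ℂ) * e) * s)‖ ≤
      4 * (4 * (e : ℝ) ^ 2) ^ n * (((e : ℝ) * ‖s‖) ^ (2 * n + 1) * Real.exp (n + 1)) := by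
  have he0 : (0 : ℝ) < e := by
    have : 0 < e := by omega
    exact_mod_cast this
  have he1 : (1 : ℝ) ≤ e := by
    have : 1 ≤ e := by omega
    exact_mod_cast this
  set B : ℝ := ((e : ℝ) * ‖s‖) ^ (2 * n + 1) * Real.exp (n + 1) with hB
  have hB0 : 0 ≤ B := by positivity
  have hX : (0 : ℝ) < n * e + 1 := by positivity
  have hexp : Real.exp (((n : ℝ) * e + 1) / e) ≤ Real.exp (n + 1) := by
    apply Real.exp_le_exp.2
    rw [div_le_iff₀ he0]
    nlinarith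
  have hrem : ∀ z : ℂ, ‖z‖ ≤ (n : ℝ) * e + 1 →
      ‖Complex.exp (z * s) - ∑ i ∈ Finset.range (2 * n + 1), (z * s) ^ i / (i.factorial : ℂ)‖ ≤
        B := by
    intro z hz
    refine (archDelta_rem (2 * n + 1) hX he0 hz hs).trans ?_
    apply mul_le_mul_of_nonneg_left hexp (by positivity)
  have hsub : ∑ k ∈ Finset.range (n + 1), (cB e n k : ℂ) * Complex.exp (((k : ℂ) * e + 1) * s) -
      ∑ k ∈ Finset.range (n + 1), (cA e n k : ℂ) * Complex.exp (((k : ℂ) * e) * s) =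
      ∑ k ∈ Finset.range (n + 1), (cB e n k : ℂ) * (Complex.exp (((k : ℂ) * e + 1) * s) -
        ∑ i ∈ Finset.range (2 * n + 1), (((k : ℂ) * e + 1) * s) ^ i / (i.factorial : ℂ)) -
      ∑ k ∈ Finset.range (n + 1), (cA e n k : ℂ) * (Complex.exp (((k : ℂ) * e) * s) -
        ∑ i ∈ Finset.range (2 * n + 1), (((k : ℂ) * e) * s) ^ i / (i.factorial : ℂ)) := by
    simp only [mul_sub, Finset.sum_sub_distrib]
    rw [archDelta_poly e n he s]
    ring
  rw [hsub]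
  refine (norm_sub_le _ _).trans ?_
  have hk : ∀ k ∈ Finset.range (n + 1), (k : ℝ) ≤ n := by
    intro k hk
    rw [Finset.mem_range] at hk
    have : k ≤ n := by omega
    exact_mod_cast this
  have h1 : ‖∑ k ∈ Finset.range (n + 1), (cB e n k : ℂ) * (Complex.exp (((k : ℂ) * e + 1) * s) -
        ∑ i ∈ Finset.range (2 * n + 1), (((k : ℂ) * e + 1) * s) ^ i / (i.factorial : ℂ))‖ ≤
      ∑ k ∈ Finset.range (n + 1), (cB e n k : ℝ) * B := by
    refine (norm_sum_le _ _).trans (Finset.sum_le_sum ?_)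
    intro k hk'
    have hk2 : k ≤ n := by
      rw [Finset.mem_range] at hk'
      omega
    have hc : (0 : ℝ) ≤ (cB e n k : ℝ) := by exact_mod_cast cB_nonneg e n k (by omega) hk2
    rw [norm_mul, Complex.norm_intCast, abs_of_nonneg hc]
    apply mul_le_mul_of_nonneg_left _ hc
    apply hrem
    calc ‖(k : ℂ) * e + 1‖ ≤ ‖(k : ℂ) * e‖ + ‖(1 : ℂ)‖ := norm_add_le _ _
      _ = k * e + 1 := by rw [norm_mul, Complex.norm_natCast, Complex.norm_natCast, norm_one]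
      _ ≤ n * e + 1 := by
        have := hk k hk'
        gcongr
  have h2 : ‖∑ k ∈ Finset.range (n + 1), (cA e n k : ℂ) * (Complex.exp (((k : ℂ) * e) * s) -
        ∑ i ∈ Finset.range (2 * n + 1), (((k : ℂ) * e) * s) ^ i / (i.factorial : ℂ))‖ ≤
      ∑ k ∈ Finset.range (n + 1), (cA e n k : ℝ) * B := by
    refine (norm_sum_le _ _).trans (Finset.sum_le_sum ?_)
    intro k hk'
    have hk2 : k ≤ n := by
      rw [Finset.mem_range] at hk'
      omega
    have hc : (0 : ℝ) ≤ (cA e n k : ℝ) := by exact_mod_cast cA_nonneg e n k (by omega) hk2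
    rw [norm_mul, Complex.norm_intCast, abs_of_nonneg hc]
    apply mul_le_mul_of_nonneg_left _ hc
    apply hrem
    calc ‖(k : ℂ) * e‖ = k * e := by rw [norm_mul, Complex.norm_natCast, Complex.norm_natCast]
      _ ≤ n * e + 1 := by
        have := hk k hk'
        nlinarith
  rw [← Finset.sum_mul] at h1 h2
  have h3 := mul_le_mul_of_nonneg_right (sum_cB_le e n (by omega)) hB0
  have h4 := mul_le_mul_of_nonneg_right (sum_cA_le e n (by omega)) hB0
  linarith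

theorem archDelta : ∃ C : ℝ, 1 ≤ C ∧ ∀ (e n : ℕ) (x1 x2 ρ : ℂ), 2 ≤ e → ρ ≠ 0 → ρ ^ e * x1 = x2 →
    ‖x1 - 1‖ ≤ 1 / 4 → ‖x2 - 1‖ ≤ 1 / 4 → |Complex.arg ρ| ≤ Real.pi / (4 * e) →
    ‖QQ e n x1 - ρ * PP e n x1‖ ≤
      (C * (e : ℝ) ^ 2) ^ (n + 1) * max (‖x1 - 1‖ ^ (2 * n + 1)) ‖x2 - 1‖ := by
  refine ⟨1000, by norm_num, ?_⟩
  intro e n x1 x2 ρ he hρ hρx hx1 hx2 harg
  have he0 : (0 : ℝ) < e := by
    have : 0 < e := by omega
    exact_mod_cast this
  have he1 : (1 : ℝ) ≤ e := by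
    have : 1 ≤ e := by omega
    exact_mod_cast this
  have heC : (e : ℂ) ≠ 0 := by
    have : e ≠ 0 := by omega
    exact_mod_cast this
  have hx10 : x1 ≠ 0 := by
    rintro rfl
    rw [zero_sub, norm_neg, norm_one] at hx1
    norm_num at hx1
  -- the logarithm
  have hlog : ‖Complex.log x1‖ ≤ 4 / 3 * ‖x1 - 1‖ := by
    have h1 := Complex.norm_log_one_add_le (z := x1 - 1) (by linarith)
    rw [add_sub_cancel] at h1
    refine h1.trans ?_
    have h2 : (1 - ‖x1 - 1‖)⁻¹ ≤ 4 / 3 := by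
      rw [inv_le_comm₀ (by linarith) (by norm_num)]
      linarith
    have h3 : 0 ≤ ‖x1 - 1‖ := norm_nonneg _
    have h4 : ‖x1 - 1‖ ^ 2 * (1 - ‖x1 - 1‖)⁻¹ / 2 ≤ ‖x1 - 1‖ ^ 2 * (4 / 3) / 2 := by gcongr
    nlinarith
  set s : ℂ := Complex.log x1 / e with hs
  have hes : (e : ℂ) * s = Complex.log x1 := by rw [hs]; field_simp
  have hesn : (e : ℝ) * ‖s‖ = ‖Complex.log x1‖ := by
    rw [← hes, norm_mul, Complex.norm_natCast]
  set Y1 : ℂ := Complex.exp s with hY1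
  have hY1e : Y1 ^ e = x1 := by
    rw [hY1, ← Complex.exp_nat_mul, hes, Complex.exp_log hx10]
  have hY10 : Y1 ≠ 0 := Complex.exp_ne_zero s
  -- the argument of `Y1`
  have hsn : ‖s‖ ≤ 1 / (3 * e) := by
    rw [le_div_iff₀ (by positivity)]
    nlinarith
  have hpi : (3 : ℝ) < Real.pi := Real.pi_gt_three
  have hsn2 : ‖s‖ ≤ 1 / 3 := hsn.trans (by
    rw [div_le_div_iff₀ (by positivity) (by norm_num)]
    nlinarith)
  have him : |s.im| ≤ ‖s‖ := Complex.abs_im_le_norm s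
  have hargY : Complex.arg Y1 = s.im := by
    rw [← Complex.log_im, hY1, Complex.log_exp]
    · have := (abs_le.1 him).1
      linarith
    · have := (abs_le.1 him).2
      linarith
  have hsum : |Complex.arg ρ + Complex.arg Y1| ≤ Real.pi / (2 * e) := by
    rw [hargY]
    calc |Complex.arg ρ + s.im| ≤ |Complex.arg ρ| + |s.im| := abs_add_le _ _
      _ ≤ Real.pi / (4 * e) + 1 / (3 * e) := add_le_add harg (him.trans hsn)
      _ ≤ Real.pi / (2 * e) := by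
        rw [div_add_div _ _ (by positivity) (by positivity), div_le_div_iff₀ (by positivity)
          (by positivity)]
        have : 0 ≤ (e : ℝ) ^ 3 := by positivity
        have h1 : 0 < (e : ℝ) ^ 2 := by positivity
        nlinarith [mul_pos h1 he0]
  have hsum2 : Real.pi / (2 * e) ≤ Real.pi / 2 := by
    apply div_le_div_of_nonneg_left Real.pi_pos.le (by norm_num)
    linarith
  have hargmul : Complex.arg (ρ * Y1) = Complex.arg ρ + Complex.arg Y1 := by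
    apply Complex.arg_mul hρ hY10
    have := abs_le.1 hsum
    constructor
    · linarith [this.1]
    · linarith [this.2]
  have hY2 : ‖ρ * Y1 - 1‖ ≤ ‖x2 - 1‖ := by
    have h1 := AbcE.ArchAux.sector (e := e) (by omega) (mul_ne_zero hρ hY10)
      (one_ne_zero (α := ℂ)) (by rw [Complex.arg_one, sub_zero, hargmul]; exact hsum)
    rw [div_one] at h1
    rwa [mul_pow, hY1e, hρx] at h1
  -- the norm of `ρ`
  have hx1n : 3 / 4 ≤ ‖x1‖ := by
    have h1 := norm_sub_norm_le (1 : ℂ) x1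
    rw [norm_one, norm_sub_rev] at h1
    linarith
  have hx2n : ‖x2‖ ≤ 5 / 4 := by
    have h1 := norm_sub_norm_le x2 (1 : ℂ)
    rw [norm_one] at h1
    linarith
  have hx1n' : ‖x1‖ ≤ 5 / 4 := by
    have h1 := norm_sub_norm_le x1 (1 : ℂ)
    rw [norm_one] at h1
    linarith
  have hρn : ‖ρ‖ ≤ 2 := by
    by_contra hcon
    push Not at hcon
    have h1 : ‖ρ‖ ^ e * ‖x1‖ = ‖x2‖ := by rw [← norm_pow, ← norm_mul, hρx]
    have h2 : ‖ρ‖ ^ 1 ≤ ‖ρ‖ ^ e := pow_le_pow_right₀ (by linarith) (by omega)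
    rw [pow_one] at h2
    nlinarith
  -- the sums
  have hPP : PP e n x1 = ∑ k ∈ Finset.range (n + 1),
      (cA e n k : ℂ) * Complex.exp (((k : ℂ) * e) * s) := by
    unfold PP
    apply Finset.sum_congr rfl
    intro k _
    rw [mul_assoc, hes, Complex.exp_nat_mul, Complex.exp_log hx10]
  have hQQ : Y1 * QQ e n x1 = ∑ k ∈ Finset.range (n + 1),
      (cB e n k : ℂ) * Complex.exp (((k : ℂ) * e + 1) * s) := by
    unfold QQ
    rw [Finset.mul_sum]
    apply Finset.sum_congr rfl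
    intro k _
    rw [add_mul, one_mul, Complex.exp_add, mul_assoc (k : ℂ), hes, Complex.exp_nat_mul,
      Complex.exp_log hx10]
    ring
  have hG := archDelta_G e n he s (by rw [hesn]; linarith)
  rw [← hPP, ← hQQ, hesn] at hG
  have hQn : ‖QQ e n x1‖ ≤ 2 * (4 * (e : ℝ) ^ 2) ^ n * (5 / 4) ^ n := by
    unfold QQ
    refine (norm_sum_le _ _).trans ?_
    calc ∑ k ∈ Finset.range (n + 1), ‖(cB e n k : ℂ) * x1 ^ k‖
        ≤ ∑ k ∈ Finset.range (n + 1), (cB e n k : ℝ) * (5 / 4) ^ n := by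
          apply Finset.sum_le_sum
          intro k hk
          have hk2 : k ≤ n := by
            rw [Finset.mem_range] at hk
            omega
          have hc : (0 : ℝ) ≤ (cB e n k : ℝ) := by
            exact_mod_cast cB_nonneg e n k (by omega) hk2
          rw [norm_mul, Complex.norm_intCast, abs_of_nonneg hc, norm_pow]
          apply mul_le_mul_of_nonneg_left _ hc
          calc ‖x1‖ ^ k ≤ (5 / 4) ^ k := by gcongr
            _ ≤ (5 / 4) ^ n := pow_le_pow_right₀ (by norm_num) hk2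
      _ = (∑ k ∈ Finset.range (n + 1), (cB e n k : ℝ)) * (5 / 4) ^ n := by
          rw [Finset.sum_mul]
      _ ≤ _ := by
          apply mul_le_mul_of_nonneg_right (sum_cB_le e n (by omega))
          positivity
  have hid : QQ e n x1 - ρ * PP e n x1 =
      ρ * (Y1 * QQ e n x1 - PP e n x1) - (ρ * Y1 - 1) * QQ e n x1 := by ring
  rw [hid]
  refine (norm_sub_le _ _).trans ?_
  rw [norm_mul, norm_mul]
  set A := ‖x1 - 1‖ with hA
  set B := ‖x2 - 1‖ with hB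
  have hA0 : 0 ≤ A := norm_nonneg _
  have hB0 : 0 ≤ B := norm_nonneg _
  set W : ℝ := max (A ^ (2 * n + 1)) B with hW
  have hW0 : 0 ≤ W := le_max_of_le_right hB0
  have hlogp : ‖Complex.log x1‖ ^ (2 * n + 1) ≤ (4 / 3) ^ (2 * n + 1) * W := by
    calc ‖Complex.log x1‖ ^ (2 * n + 1) ≤ (4 / 3 * A) ^ (2 * n + 1) := by gcongr
      _ = (4 / 3) ^ (2 * n + 1) * A ^ (2 * n + 1) := mul_pow _ _ _
      _ ≤ _ := by
        apply mul_le_mul_of_nonneg_left (le_max_left _ _)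
        positivity
  set E : ℝ := (4 * (e : ℝ) ^ 2) ^ n with hE
  have hE0 : 0 ≤ E := by positivity
  have hexp : Real.exp ((n : ℝ) + 1) ≤ 3 ^ (n + 1) := by
    have h1 : Real.exp ((n : ℝ) + 1) = Real.exp 1 ^ (n + 1) := by
      rw [← Real.exp_nat_mul]
      congr 1
      push_cast
      ring
    rw [h1]
    have := AbcE.ArchAux.exp_one_lt
    gcongr
    linarith
  have t1 : ‖ρ‖ * ‖Y1 * QQ e n x1 - PP e n x1‖ ≤
      2 * (4 * E * ((4 / 3) ^ (2 * n + 1) * W * 3 ^ (n + 1))) := by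
    refine mul_le_mul hρn (hG.trans ?_) (norm_nonneg _) (by norm_num)
    apply mul_le_mul_of_nonneg_left _ (by positivity)
    exact mul_le_mul hlogp hexp (Real.exp_pos _).le (by positivity)
  have t2 : ‖ρ * Y1 - 1‖ * ‖QQ e n x1‖ ≤ W * (2 * E * (5 / 4) ^ n) := by
    refine mul_le_mul (hY2.trans (le_max_right _ _)) hQn (norm_nonneg _) hW0
  refine (add_le_add t1 t2).trans ?_
  have h43 : ((4 : ℝ) / 3) ^ (2 * n + 1) ≤ 2 * 2 ^ n := by
    rw [pow_add, pow_mul, pow_one]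
    have h1 : (((4 : ℝ) / 3) ^ 2) ^ n ≤ 2 ^ n := by
      gcongr
      norm_num
    have h2 : (0 : ℝ) ≤ 2 ^ n := by positivity
    nlinarith
  have hEe : E ≤ 4 ^ n * ((e : ℝ) ^ 2) ^ (n + 1) := by
    rw [hE, mul_pow]
    apply mul_le_mul_of_nonneg_left _ (by positivity)
    apply pow_le_pow_right₀ _ (by omega)
    nlinarith
  have hfin : 2 * (4 * E * ((4 / 3) ^ (2 * n + 1) * W * 3 ^ (n + 1))) +
      W * (2 * E * (5 / 4) ^ n) ≤ (50 * 6 ^ n * E) * W := by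
    have h1 : 2 * (4 * E * ((4 / 3) ^ (2 * n + 1) * W * 3 ^ (n + 1))) ≤
        2 * (4 * E * (2 * 2 ^ n * W * 3 ^ (n + 1))) := by gcongr
    have h2 : W * (2 * E * (5 / 4) ^ n) ≤ W * (2 * E * 6 ^ n) := by
      gcongr
      norm_num
    have h3 : (2 : ℝ) ^ n * 3 ^ (n + 1) = 3 * 6 ^ n := by
      rw [pow_succ, ← mul_assoc, ← mul_pow]
      norm_num
      ring
    have h4 : 2 * (4 * E * (2 * 2 ^ n * W * 3 ^ (n + 1))) = 48 * 6 ^ n * E * W := by
      calc 2 * (4 * E * (2 * 2 ^ n * W * 3 ^ (n + 1))) =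
          16 * E * W * (2 ^ n * 3 ^ (n + 1)) := by ring
        _ = 48 * 6 ^ n * E * W := by rw [h3]; ring
    nlinarith
  refine hfin.trans ?_
  apply mul_le_mul_of_nonneg_right _ hW0
  calc 50 * 6 ^ n * E ≤ 50 * 6 ^ n * (4 ^ n * ((e : ℝ) ^ 2) ^ (n + 1)) := by gcongr
    _ = 50 * 24 ^ n * ((e : ℝ) ^ 2) ^ (n + 1) := by
      rw [show (24 : ℝ) = 6 * 4 by norm_num, mul_pow]
      ring
    _ ≤ 1000 ^ (n + 1) * ((e : ℝ) ^ 2) ^ (n + 1) := by
      apply mul_le_mul_of_nonneg_right _ (by positivity)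
      rw [pow_succ]
      have h1 : (24 : ℝ) ^ n ≤ 1000 ^ n := by gcongr; norm_num
      have h2 : (0 : ℝ) ≤ 1000 ^ n := by positivity
      nlinarith
    _ = (1000 * (e : ℝ) ^ 2) ^ (n + 1) := by rw [mul_pow]

end Pool.Agent.TMS
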