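import Mathlib
import Pool.Agent.TMS.Defs
import Pool.Agent.AbcE.Local

/-!
# Newton (size 3)

Put `q = V (x - 1) / V e ^ 2 < 1` (`0 < V e ≤ 1`). Claim: for every `N` there is `Y` with
`V (Y - 1) ≤ V (x - 1) / V e` and `V (Y ^ e - x) ≤ V (x - 1) * q ^ N`. `N = 0`: `Y = 1`.
Step: `f = Y ^ e - x`, `δ = - f / (e Y ^ (e - 1))`, `V Y = 1` (as `V (Y - 1) ≤ q V e < 1`), so
`V δ = V f / V e ≤ V (x - 1) / V e`, and `(Y + δ) ^ e - x = ∑_{i ≥ 2} C(e, i) Y ^ (e - i) δ ^ i`, so
`V ((Y + δ) ^ e - x) ≤ V δ ^ 2 = V f ^ 2 / V e ^ 2 ≤ V f * q`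
(use `V` of a natural number is `≤ 1`, `V δ ≤ 1`). Choose `N` with `V (x - 1) q ^ N < ε`.
-/

namespace Pool.Agent.TMS

open NumberField IsDedekindDomain Pool.Agent.H7.Abc Pool.Agent.AbcE

private theorem Newton_nat {K : Type*} [Field K] [NumberField K] (V : FinitePlace K) (n : ℕ) :
    V (n : K) ≤ 1 := by
  induction n with
  | zero => simp
  | succ n ih =>
    rw [Nat.cast_succ]
    refine (FinitePlace.add_le V _ _).trans (max_le ih ?_)
    rw [map_one]

private theorem Newton_exp {K : Type*} [Field K] [NumberField K] (V : FinitePlace K) (Y δ : K)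
    (hY : V Y ≤ 1) (hδ : V δ ≤ 1) (n : ℕ) :
    ∃ k : K, V k ≤ 1 ∧ (Y + δ) ^ n = Y ^ n + n * Y ^ (n - 1) * δ + k * δ ^ 2 := by
  induction n with
  | zero => exact ⟨0, by simp, by simp⟩
  | succ n ih =>
    obtain ⟨k, hk, he⟩ := ih
    refine ⟨k * Y + n * Y ^ (n - 1) + k * δ, ?_, ?_⟩
    · have h1 : V (k * Y) ≤ 1 := by
        rw [map_mul]
        exact mul_le_one₀ hk (apply_nonneg _ _) hY
      have h2 : V ((n : K) * Y ^ (n - 1)) ≤ 1 := by
        rw [map_mul, map_pow]
        exact mul_le_one₀ (Newton_nat V n) (pow_nonneg (apply_nonneg _ _) _)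
          (pow_le_one₀ (apply_nonneg _ _) hY)
      have h3 : V (k * δ) ≤ 1 := by
        rw [map_mul]
        exact mul_le_one₀ hk (apply_nonneg _ _) hδ
      exact (FinitePlace.add_le V _ _).trans (max_le
        ((FinitePlace.add_le V _ _).trans (max_le h1 h2)) h3)
    · rw [pow_succ, he]
      rcases Nat.eq_zero_or_pos n with h0 | h0
      · subst h0
        simp
        ring
      · have hn : Y ^ (n - 1) * Y = Y ^ n := by
          rw [← pow_succ]
          congr 1
          omega
        have hs : n + 1 - 1 = n := by omega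
        rw [hs]
        push_cast
        linear_combination ((n : K) * δ) * hn

private theorem Newton_seq {K : Type*} [Field K] [NumberField K] (V : FinitePlace K) (e : ℕ)
    (he : 1 ≤ e) (x : K) (hx : V (x - 1) < V (e : K) ^ 2) (N : ℕ) :
    ∃ Y : K, V (Y - 1) ≤ V (x - 1) / V (e : K) ∧
      V (Y ^ e - x) ≤ V (x - 1) * (V (x - 1) / V (e : K) ^ 2) ^ N := by
  have hA : 0 < V (e : K) := by
    rw [FinitePlace.pos_iff]
    exact_mod_cast (show e ≠ 0 by omega)
  have hA1 : V (e : K) ≤ 1 := Newton_nat V e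
  have hd : 0 ≤ V (x - 1) := apply_nonneg _ _
  have hq0 : 0 ≤ V (x - 1) / V (e : K) ^ 2 := by positivity
  have hq1 : V (x - 1) / V (e : K) ^ 2 ≤ 1 := by
    rw [div_le_one (by positivity)]
    exact hx.le
  have hdA : V (x - 1) / V (e : K) < 1 := by
    rw [div_lt_one hA]
    calc V (x - 1) < V (e : K) ^ 2 := hx
      _ ≤ V (e : K) := by
        rw [pow_two]
        exact mul_le_of_le_one_left hA.le hA1
  induction N with
  | zero =>
    refine ⟨1, ?_, ?_⟩
    · rw [sub_self, map_zero]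
      positivity
    · rw [one_pow, pow_zero, mul_one, ← map_neg_eq_map, neg_sub]
  | succ N ih =>
    obtain ⟨Y, hY1, hY2⟩ := ih
    have hYV : V Y = 1 := by
      have h1 : V Y ≤ 1 := by
        have := FinitePlace.add_le V (Y - 1) 1
        rw [sub_add_cancel, map_one] at this
        exact this.trans (max_le (hY1.trans hdA.le) le_rfl)
      have h2 : 1 ≤ max (V Y) (V (Y - 1)) := by
        have := fp_sub_le V Y (Y - 1)
        rwa [sub_sub_cancel, map_one] at this
      rcases le_max_iff.1 h2 with h | h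
      · exact le_antisymm h1 h
      · exact absurd (h.trans hY1) (not_le.2 hdA)
    have hY0 : Y ≠ 0 := by
      rintro rfl
      rw [map_zero] at hYV
      exact zero_ne_one hYV
    have he0 : (e : K) ≠ 0 := by exact_mod_cast (show e ≠ 0 by omega)
    set f : K := Y ^ e - x with hf
    set δ : K := -f / (e * Y ^ (e - 1)) with hδ
    have hfd : V f ≤ V (x - 1) :=
      hY2.trans (mul_le_of_le_one_right hd (pow_le_one₀ hq0 hq1))
    have hVδ : V δ = V f / V (e : K) := by
      rw [hδ, map_div₀, map_neg_eq_map, map_mul, map_pow, hYV, one_pow, mul_one]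
    have hδd : V δ ≤ V (x - 1) / V (e : K) := by
      rw [hVδ]
      exact div_le_div_of_nonneg_right hfd hA.le
    refine ⟨Y + δ, ?_, ?_⟩
    · have : Y + δ - 1 = (Y - 1) + δ := by ring
      rw [this]
      exact (FinitePlace.add_le V _ _).trans (max_le hY1 hδd)
    · obtain ⟨k, hk, hke⟩ := Newton_exp V Y δ hYV.le (hδd.trans hdA.le) e
      have hcan : (e : K) * Y ^ (e - 1) * δ = -f := by
        rw [hδ]
        field_simp
      have hres : (Y + δ) ^ e - x = k * δ ^ 2 := by
        rw [hke, hcan, hf]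
        ring
      rw [hres, map_mul, map_pow]
      calc V k * V δ ^ 2 ≤ V δ ^ 2 := mul_le_of_le_one_left (by positivity) hk
        _ = V f * (V f / V (e : K) ^ 2) := by
          rw [hVδ]
          field_simp
        _ ≤ (V (x - 1) * (V (x - 1) / V (e : K) ^ 2) ^ N) * (V (x - 1) / V (e : K) ^ 2) := by
          refine mul_le_mul hY2 ?_ ?_ ?_
          · exact div_le_div_of_nonneg_right hfd (by positivity)
          · have : 0 ≤ V f := apply_nonneg _ _
            positivity
          · positivity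
        _ = V (x - 1) * (V (x - 1) / V (e : K) ^ 2) ^ (N + 1) := by
          rw [pow_succ]
          ring

theorem newton {K : Type*} [Field K] [NumberField K] (V : FinitePlace K) (e : ℕ) (he : 1 ≤ e)
    (x : K) (hx : V (x - 1) < V (e : K) ^ 2) (ε : ℝ) (hε : 0 < ε) :
    ∃ Y : K, V (Y - 1) ≤ V (x - 1) / V (e : K) ∧ V (Y ^ e - x) < ε := by
  have hA : 0 < V (e : K) := by
    rw [FinitePlace.pos_iff]
    exact_mod_cast (show e ≠ 0 by omega)
  have hd : 0 ≤ V (x - 1) := apply_nonneg _ _
  have hq0 : 0 ≤ V (x - 1) / V (e : K) ^ 2 := by positivity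
  have hq1 : V (x - 1) / V (e : K) ^ 2 < 1 := by
    rw [div_lt_one (by positivity)]
    exact hx
  have hlim : Filter.Tendsto (fun N : ℕ => V (x - 1) * (V (x - 1) / V (e : K) ^ 2) ^ N)
      Filter.atTop (nhds (V (x - 1) * 0)) :=
    (tendsto_pow_atTop_nhds_zero_of_lt_one hq0 hq1).const_mul _
  rw [mul_zero] at hlim
  obtain ⟨N, hN⟩ := (hlim.eventually (gt_mem_nhds hε)).exists
  obtain ⟨Y, h1, h2⟩ := Newton_seq V e he x hx N
  exact ⟨Y, h1, h2.trans_lt hN⟩

end Pool.Agent.TMS
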