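import Mathlib
import Pool.Agent.TMS.Newton
import Pool.Agent.TMS.PadeInt
import Pool.Agent.TMS.PadeMom

/-!
# FinDelta (size 4)

`V` is nonarchimedean, integers have `V ≤ 1`. Let `m = 2 n + 1`.
1. For `V Y ≤ 1`, `t = Y - 1`, `V t ≤ 1`:
`Y * QQ e n (Y ^ e) - PP e n (Y ^ e) = ∑_i t ^ i (∑_k cB C(k e + 1, i) - ∑_k cA C(k e, i))` (binomial
theorem), the inner sums are integers and vanish for `i ≤ 2 n` (`moment` for the polynomial `C(X, i)`,
multiplied by `e ^ n`), so `V (Y QQ(Y ^ e) - PP(Y ^ e)) ≤ V t ^ m`.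
2. For `V x ≤ 1`, `V Y ≤ 1`: `V (PP e n x - PP e n (Y ^ e)) ≤ V (x - Y ^ e)`, the same for `QQ`.
3. Take `ε > 0` smaller than `(V (x1 - 1) / V e) ^ m` (positive, as `x1 ≠ 1`), than `V e ^ 2` and so on,
and `Y1` from `newton` for `x1`. So `V (Y1 QQ(x1) - PP(x1)) ≤ max ((V (x1 - 1) / V e) ^ m) ε`.
4. `Y2 = ρ Y1`, `V ρ = 1`, `V Y1 = 1`: `Y2 ^ e - x2 = ρ ^ e (Y1 ^ e - x1)`, so `V (Y2 ^ e - x2) < ε`;
`Y2 - 1 = ρ (Y1 - 1) + (ρ - 1)` so `V (Y2 - 1) < V e`; hence
`V (Y2 - 1) * V e ≤ V (Y2 ^ e - 1) ≤ max (V (x2 - 1)) ε` (`AbcE.fp_pow_sub_ge` with `t = 1`).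
5. `QQ(x1) - ρ PP(x1) = ρ (Y1 QQ(x1) - PP(x1)) - (Y2 - 1) QQ(x1)`, so its `V` is at most
`max ((V (x1 - 1) / V e) ^ m) (V (x2 - 1) / V e) ` or `ε / V e`; let `ε → 0` (choose `ε / V e` smaller
than `(V (x1 - 1) / V e) ^ m`).
-/

namespace Pool.Agent.TMS

open NumberField IsDedekindDomain Pool.Agent.H7.Abc Pool.Agent.AbcE

section aux

variable {K : Type*} [Field K] [NumberField K]

private theorem FinDelta_nat (V : FinitePlace K) (n : ℕ) : V (n : K) ≤ 1 := by
  induction n with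
  | zero => simp
  | succ n ih =>
    push_cast
    refine (FinitePlace.add_le V _ _).trans (max_le ih ?_)
    rw [map_one]

private theorem FinDelta_int (V : FinitePlace K) (z : ℤ) : V (z : K) ≤ 1 := by
  obtain ⟨n, rfl | rfl⟩ := z.eq_nat_or_neg
  · rw [Int.cast_natCast]
    exact FinDelta_nat V n
  · rw [Int.cast_neg, map_neg_eq_map, Int.cast_natCast]
    exact FinDelta_nat V n

private theorem FinDelta_sum (V : FinitePlace K) {ι : Type*} (s : Finset ι) (f : ι → K) {a : ℝ}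
    (ha : 0 ≤ a) (h : ∀ i ∈ s, V (f i) ≤ a) : V (∑ i ∈ s, f i) ≤ a := by
  classical
  induction s using Finset.induction_on with
  | empty => simpa using ha
  | insert i s hi ih =>
    rw [Finset.sum_insert hi]
    refine (FinitePlace.add_le V _ _).trans (max_le ?_ ?_)
    · exact h i (Finset.mem_insert_self i s)
    · exact ih fun j hj => h j (Finset.mem_insert_of_mem hj)

private theorem FinDelta_pow (V : FinitePlace K) {x y : K} (hx : V x ≤ 1) (hy : V y ≤ 1) (k : ℕ) :
    V (x ^ k - y ^ k) ≤ V (x - y) := by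
  induction k with
  | zero => simp [apply_nonneg]
  | succ n ih =>
    have e1 : x ^ (n + 1) - y ^ (n + 1) = x ^ n * (x - y) + (x ^ n - y ^ n) * y := by ring
    rw [e1]
    refine (FinitePlace.add_le V _ _).trans (max_le ?_ ?_)
    · rw [map_mul, map_pow]
      exact mul_le_of_le_one_left (apply_nonneg V _) (pow_le_one₀ (apply_nonneg V _) hx)
    · rw [map_mul]
      exact (mul_le_of_le_one_right (apply_nonneg V _) hy).trans ih

private theorem FinDelta_eq_one (V : FinitePlace K) {x : K} (h : V (x - 1) < 1) : V x = 1 := by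
  apply le_antisymm
  · have h1 : x = (x - 1) + 1 := by ring
    rw [h1]
    refine (FinitePlace.add_le V _ _).trans (max_le h.le ?_)
    rw [map_one]
  · by_contra h1
    push Not at h1
    have h2 : V (1 : K) < 1 := by
      have h3 : (1 : K) = x - (x - 1) := by ring
      calc V (1 : K) = V (x - (x - 1)) := by rw [← h3]
        _ ≤ max (V x) (V (x - 1)) := fp_sub_le V _ _
        _ < 1 := max_lt h1 h
    rw [map_one] at h2
    exact lt_irrefl _ h2

private theorem FinDelta_poly (V : FinitePlace K) (c : ℕ → ℤ) (n : ℕ) {x y : K} (hx : V x ≤ 1)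
    (hy : V y ≤ 1) :
    V (∑ k ∈ Finset.range (n + 1), (c k : K) * x ^ k -
      ∑ k ∈ Finset.range (n + 1), (c k : K) * y ^ k) ≤ V (x - y) := by
  rw [← Finset.sum_sub_distrib]
  refine FinDelta_sum V _ _ (apply_nonneg V _) fun k _ => ?_
  rw [← mul_sub, map_mul]
  exact (mul_le_of_le_one_left (apply_nonneg V _) (FinDelta_int V _)).trans
    (FinDelta_pow V hx hy k)

private theorem FinDelta_polyle (V : FinitePlace K) (c : ℕ → ℤ) (n : ℕ) {x : K} (hx : V x ≤ 1) :
    V (∑ k ∈ Finset.range (n + 1), (c k : K) * x ^ k) ≤ 1 := by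
  refine FinDelta_sum V _ _ zero_le_one fun k _ => ?_
  rw [map_mul, map_pow]
  exact mul_le_one₀ (FinDelta_int V _) (pow_nonneg (apply_nonneg V _) _)
    (pow_le_one₀ (apply_nonneg V _) hx)

end aux

private theorem FinDelta_choose (i : ℕ) : ∃ f : Polynomial ℚ, f.natDegree ≤ i ∧
    ∀ m : ℕ, f.eval (m : ℚ) = (m.choose i : ℚ) := by
  refine ⟨Polynomial.C ((i.factorial : ℚ)⁻¹) * descPochhammer ℚ i, ?_, fun m => ?_⟩
  · refine (Polynomial.natDegree_C_mul_le _ _).trans ?_
    rw [descPochhammer_natDegree]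
  · rw [Polynomial.eval_mul, Polynomial.eval_C, descPochhammer_eval_eq_descFactorial,
      Nat.descFactorial_eq_factorial_mul_choose]
    have : (i.factorial : ℚ) ≠ 0 := by exact_mod_cast Nat.factorial_ne_zero i
    push_cast
    field_simp

private theorem FinDelta_vanish (e n : ℕ) (he : 2 ≤ e) (i : ℕ) (hi : i ≤ 2 * n) :
    ∑ k ∈ Finset.range (n + 1), cB e n k * ((k * e + 1).choose i : ℤ) -
      ∑ k ∈ Finset.range (n + 1), cA e n k * ((k * e).choose i : ℤ) = 0 := by
  obtain ⟨f, hf, hf'⟩ := FinDelta_choose i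
  have h := moment e n he f (hf.trans hi)
  have h1 : (∑ k ∈ Finset.range (n + 1), (cB e n k : ℚ) * ((k * e + 1).choose i : ℚ)) =
      (e : ℚ) ^ n * ∑ k ∈ Finset.range (n + 1), pb e n k * f.eval ((k : ℚ) * e + 1) := by
    rw [Finset.mul_sum]
    refine Finset.sum_congr rfl fun k hk => ?_
    rw [cB_cast e n k (Nat.lt_succ_iff.1 (Finset.mem_range.1 hk)), ← hf']
    push_cast
    ring
  have h2 : (∑ k ∈ Finset.range (n + 1), (cA e n k : ℚ) * ((k * e).choose i : ℚ)) =
      (e : ℚ) ^ n * ∑ k ∈ Finset.range (n + 1), pa e n k * f.eval ((k : ℚ) * e) := by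
    rw [Finset.mul_sum]
    refine Finset.sum_congr rfl fun k hk => ?_
    rw [cA_cast e n k (Nat.lt_succ_iff.1 (Finset.mem_range.1 hk)), ← hf']
    push_cast
    ring
  have h3 : (∑ k ∈ Finset.range (n + 1), (cB e n k : ℚ) * ((k * e + 1).choose i : ℚ)) -
      (∑ k ∈ Finset.range (n + 1), (cA e n k : ℚ) * ((k * e).choose i : ℚ)) = 0 := by
    rw [h1, h2, h, sub_self]
  exact_mod_cast h3

private theorem FinDelta_binom {R : Type*} [CommRing R] (t : R) (m M : ℕ) (h : m < M) :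
    (1 + t) ^ m = ∑ i ∈ Finset.range M, ((m.choose i : ℤ) : R) * t ^ i := by
  have h1 : (1 + t) ^ m = ∑ i ∈ Finset.range (m + 1), ((m.choose i : ℤ) : R) * t ^ i := by
    rw [add_comm, add_pow]
    refine Finset.sum_congr rfl fun i _ => ?_
    push_cast
    ring
  rw [h1]
  refine Finset.sum_subset (Finset.range_mono h) fun i _ hi => ?_
  rw [Nat.choose_eq_zero_of_lt (by
    simp only [Finset.mem_range] at hi
    omega)]
  simp

private theorem FinDelta_expand {R : Type*} [CommRing R] (e n : ℕ) (t : R) :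
    (1 + t) * QQ e n ((1 + t) ^ e) - PP e n ((1 + t) ^ e) =
      ∑ i ∈ Finset.range (n * e + 2),
        ((∑ k ∈ Finset.range (n + 1), cB e n k * ((k * e + 1).choose i : ℤ) -
          ∑ k ∈ Finset.range (n + 1), cA e n k * ((k * e).choose i : ℤ) : ℤ) : R) * t ^ i := by
  have hle : ∀ k ∈ Finset.range (n + 1), k * e ≤ n * e := fun k hk =>
    Nat.mul_le_mul_right _ (Nat.lt_succ_iff.1 (Finset.mem_range.1 hk))
  have h1 : (1 + t) * QQ e n ((1 + t) ^ e) = ∑ k ∈ Finset.range (n + 1),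
      ∑ i ∈ Finset.range (n * e + 2), ((cB e n k * ((k * e + 1).choose i : ℤ) : ℤ) : R) * t ^ i := by
    unfold QQ
    rw [Finset.mul_sum]
    refine Finset.sum_congr rfl fun k hk => ?_
    have h2 : (1 + t) * ((cB e n k : R) * ((1 + t) ^ e) ^ k) =
        (cB e n k : R) * (1 + t) ^ (k * e + 1) := by
      rw [← pow_mul, mul_comm e k, pow_succ]
      ring
    rw [h2, FinDelta_binom t (k * e + 1) (n * e + 2) (by have := hle k hk; omega),
      Finset.mul_sum]
    refine Finset.sum_congr rfl fun i _ => ?_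
    push_cast
    ring
  have h2 : PP e n ((1 + t) ^ e) = ∑ k ∈ Finset.range (n + 1),
      ∑ i ∈ Finset.range (n * e + 2), ((cA e n k * ((k * e).choose i : ℤ) : ℤ) : R) * t ^ i := by
    unfold PP
    refine Finset.sum_congr rfl fun k hk => ?_
    have h2 : (cA e n k : R) * ((1 + t) ^ e) ^ k =
        (cA e n k : R) * (1 + t) ^ (k * e) := by
      rw [← pow_mul, mul_comm e k]
    rw [h2, FinDelta_binom t (k * e) (n * e + 2) (by have := hle k hk; omega),
      Finset.mul_sum]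
    refine Finset.sum_congr rfl fun i _ => ?_
    push_cast
    ring
  rw [h1, h2, Finset.sum_comm, Finset.sum_comm (s := Finset.range (n + 1)),
    ← Finset.sum_sub_distrib]
  refine Finset.sum_congr rfl fun i _ => ?_
  push_cast
  rw [sub_mul, Finset.sum_mul, Finset.sum_mul]

private theorem FinDelta_one {K : Type*} [Field K] [NumberField K] (V : FinitePlace K) (e n : ℕ)
    (he : 2 ≤ e) (Y : K) (hY : V (Y - 1) ≤ 1) :
    V (Y * QQ e n (Y ^ e) - PP e n (Y ^ e)) ≤ V (Y - 1) ^ (2 * n + 1) := by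
  have h1 := FinDelta_expand e n (Y - 1)
  rw [add_sub_cancel] at h1
  rw [h1]
  refine FinDelta_sum V _ _ (pow_nonneg (apply_nonneg V _) _) fun i _ => ?_
  rcases Nat.lt_or_ge (2 * n) i with hi | hi
  · rw [map_mul, map_pow]
    refine (mul_le_of_le_one_left (pow_nonneg (apply_nonneg V _) _) (FinDelta_int V _)).trans ?_
    exact pow_le_pow_of_le_one (apply_nonneg V _) hY hi
  · rw [FinDelta_vanish e n he i hi]
    simp only [Int.cast_zero, zero_mul, map_zero]
    exact pow_nonneg (apply_nonneg V _) _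

theorem finDelta {K : Type*} [Field K] [NumberField K] (V : FinitePlace K) (e n : ℕ) (he : 2 ≤ e)
    (x1 x2 ρ : K) (h1 : x1 ≠ 1) (hρ : ρ ^ e * x1 = x2)
    (hx1 : V (x1 - 1) < V (e : K) ^ 2) (hx2 : V (x2 - 1) < V (e : K) ^ 2)
    (hρ1 : V (ρ - 1) < V (e : K)) :
    V (QQ e n x1 - ρ * PP e n x1) ≤
      max ((V (x1 - 1) / V (e : K)) ^ (2 * n + 1)) (V (x2 - 1) / V (e : K)) := by
  have he1 : 1 ≤ e := by omega
  have hA : 0 < V (e : K) := by
    rw [FinitePlace.pos_iff]
    exact_mod_cast (show e ≠ 0 by omega)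
  have hA1 : V (e : K) ≤ 1 := FinDelta_nat V e
  have hA2 : V (e : K) ^ 2 ≤ V (e : K) := by
    rw [sq]
    exact mul_le_of_le_one_left hA.le hA1
  have hd1 : 0 < V (x1 - 1) := by
    rw [FinitePlace.pos_iff]
    exact sub_ne_zero.2 h1
  have hx1' : V x1 = 1 := FinDelta_eq_one V (hx1.trans_le (hA2.trans hA1))
  have hρ' : V ρ = 1 := FinDelta_eq_one V (hρ1.trans_le hA1)
  set R : ℝ := (V (x1 - 1) / V (e : K)) ^ (2 * n + 1) with hR
  have hRpos : 0 < R := pow_pos (div_pos hd1 hA) _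
  obtain ⟨Y, hY1, hY2⟩ := newton V e he1 x1 hx1 (V (e : K) * R) (mul_pos hA hRpos)
  have hdA : V (x1 - 1) / V (e : K) < V (e : K) := by
    rw [div_lt_iff₀ hA, ← sq]
    exact hx1
  have hYA : V (Y - 1) < V (e : K) := hY1.trans_lt hdA
  have hY1' : V Y = 1 := FinDelta_eq_one V (hYA.trans_le hA1)
  have hεR : V (e : K) * R ≤ R := mul_le_of_le_one_left hRpos.le hA1
  have hYe : V (Y ^ e) ≤ 1 := by
    rw [map_pow, hY1', one_pow]
  have hxe : V (x1 - Y ^ e) ≤ R := by
    rw [← neg_sub, map_neg_eq_map]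
    exact hY2.le.trans hεR
  -- the first estimate
  have hG : V (Y * QQ e n x1 - PP e n x1) ≤ R := by
    have e1 : Y * QQ e n x1 - PP e n x1 = (Y * QQ e n (Y ^ e) - PP e n (Y ^ e)) +
        (Y * (QQ e n x1 - QQ e n (Y ^ e)) - (PP e n x1 - PP e n (Y ^ e))) := by ring
    rw [e1]
    refine (FinitePlace.add_le V _ _).trans (max_le ?_ ?_)
    · refine (FinDelta_one V e n he Y (hYA.le.trans hA1)).trans ?_
      exact pow_le_pow_left₀ (apply_nonneg V _) hY1 _
    · refine (fp_sub_le V _ _).trans (max_le ?_ ?_)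
      · rw [map_mul, hY1', one_mul]
        exact (FinDelta_poly V (cB e n) n hx1'.le hYe).trans hxe
      · exact (FinDelta_poly V (cA e n) n hx1'.le hYe).trans hxe
  -- the second estimate
  have hY2' : V (ρ * Y) = 1 := by rw [map_mul, hρ', hY1', one_mul]
  have hsub : V (ρ * Y - 1) < V (e : K) := by
    have e1 : ρ * Y - 1 = ρ * (Y - 1) + (ρ - 1) := by ring
    rw [e1]
    refine (FinitePlace.add_le V _ _).trans_lt (max_lt ?_ hρ1)
    rw [map_mul, hρ', one_mul]
    exact hYA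
  have hge := fp_pow_sub_ge V hY2' (map_one V) e he1 hsub
  have hle : V ((ρ * Y) ^ e - 1 ^ e) ≤ max (V (e : K) * R) (V (x2 - 1)) := by
    have e1 : (ρ * Y) ^ e - 1 ^ e = ρ ^ e * (Y ^ e - x1) + (x2 - 1) := by
      rw [← hρ, mul_pow, one_pow]
      ring
    rw [e1]
    refine (FinitePlace.add_le V _ _).trans (max_le_max ?_ le_rfl)
    rw [map_mul, map_pow, hρ', one_pow, one_mul]
    exact hY2.le
  have hY3 : V (ρ * Y - 1) ≤ max R (V (x2 - 1) / V (e : K)) := by
    have h3 := hge.trans hle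
    rcases le_max_iff.1 h3 with h4 | h4
    · refine le_max_of_le_left ?_
      rw [mul_comm] at h4
      exact le_of_mul_le_mul_left h4 hA
    · refine le_max_of_le_right ?_
      rw [le_div_iff₀ hA]
      exact h4
  have e1 : QQ e n x1 - ρ * PP e n x1 =
      ρ * (Y * QQ e n x1 - PP e n x1) - (ρ * Y - 1) * QQ e n x1 := by ring
  rw [e1]
  refine (fp_sub_le V _ _).trans (max_le ?_ ?_)
  · rw [map_mul, hρ', one_mul]
    exact hG.trans (le_max_left _ _)
  · rw [map_mul]
    refine (mul_le_of_le_one_right (apply_nonneg V _) ?_).trans hY3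
    exact FinDelta_polyle V (cB e n) n hx1'.le

end Pool.Agent.TMS
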