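import Mathlib
import Pool.Agent.TMS.FinDelta
import Pool.Agent.TMS.ArchDelta
import Pool.Agent.TMS.HgtPow
import Pool.Agent.AbcE.Gap

/-!
# MainIneq (size 4)

`Δ = QQ e n x1 - ρ * PP e n x1 ≠ 0`. Product formula (`AbcE.gap_prod`) for `Δ` over a finite set `B`
containing `Vf` and all `v` at which one of `x1, ρ, Δ, e` is not a unit.
* `w ∉ Vi`: `w Δ ≤ M max(1, w x1) ^ n (1 + w ρ)`, `M = 2 (4 e ^ 2) ^ n`, so
`log w Δ ≤ log (2 M) + n log max(1, w x1) + log max(1, w ρ)`.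
* `w ∈ Vi`: `archDelta` for the embedding: `log w Δ ≤ (n + 1) log (C e ^ 2) -
min ((2 n + 1) (-log w (x1 - 1))) (-log w (x2 - 1))` (`x1, x2 ≠ 1`).
* `v ∉ Vf`: integers have `mk v ≤ 1`: `mk v Δ ≤ max(1, mk v x1) ^ n max(1, mk v ρ)`.
* `v ∈ Vf`: `finDelta`: `log mk v Δ ≤ max ((2 n + 1) (a - l)) (b - l) ≤ - min ((2 n + 1) (-a)) (-b) - (2 n + 1) l`,
`a = log mk v (x1 - 1) = - ord v (x1 - 1) ln v` (`log_mk`), `b` the same for `x2`, `l = log mk v e ≤ 0`;
`∑ -l ≤ [K:ℚ] log e` (`log_e`).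
Sum: `0 ≤ (n + 1) [K:ℚ] log (C' e ^ 2) + n hgt x1 + hgt ρ + (2 n + 1) [K:ℚ] log e - (the two sums)`, where
the parts of `n hgt x1 + hgt ρ` at `Vf`, `Vi` are `≥ 0`, and `hgt ρ ≤ (hgt x1 + hgt x2) / e` (`hgt_root`).
-/

namespace Pool.Agent.TMS

open NumberField IsDedekindDomain Pool.Agent.H7.Abc Pool.Agent.AbcE

private theorem mi_map {R S : Type*} [CommRing R] [CommRing S] (φ : R →+* S) (e n : ℕ) (x : R) :
    φ (PP e n x) = PP e n (φ x) ∧ φ (QQ e n x) = QQ e n (φ x) := by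
  unfold PP QQ
  simp [map_sum]

private theorem mi_norm_PP (e n : ℕ) (he : 1 ≤ e) (x : ℂ) :
    ‖PP e n x‖ ≤ 2 * (4 * (e : ℝ) ^ 2) ^ n * (max 1 ‖x‖) ^ n := by
  unfold PP
  refine le_trans (norm_sum_le _ _) ?_
  refine le_trans (Finset.sum_le_sum (f := _) (g := fun k => (cA e n k : ℝ) * (max 1 ‖x‖) ^ n)
    fun k hk => ?_) ?_
  · have hk' := Finset.mem_range_succ_iff.1 hk
    rw [norm_mul, norm_pow]
    have h0 : (0 : ℝ) ≤ cA e n k := by exact_mod_cast cA_nonneg e n k he hk'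
    have h1 : ‖((cA e n k : ℤ) : ℂ)‖ = (cA e n k : ℝ) := by
      rw [Complex.norm_intCast, abs_of_nonneg h0]
    rw [h1]
    refine mul_le_mul_of_nonneg_left ?_ h0
    calc ‖x‖ ^ k ≤ (max 1 ‖x‖) ^ k := pow_le_pow_left₀ (norm_nonneg _) (le_max_right _ _) k
      _ ≤ (max 1 ‖x‖) ^ n := pow_le_pow_right₀ (le_max_left _ _) hk'
  · rw [← Finset.sum_mul]
    exact mul_le_mul_of_nonneg_right (sum_cA_le e n he) (by positivity)

private theorem mi_norm_QQ (e n : ℕ) (he : 1 ≤ e) (x : ℂ) :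
    ‖QQ e n x‖ ≤ 2 * (4 * (e : ℝ) ^ 2) ^ n * (max 1 ‖x‖) ^ n := by
  unfold QQ
  refine le_trans (norm_sum_le _ _) ?_
  refine le_trans (Finset.sum_le_sum (f := _) (g := fun k => (cB e n k : ℝ) * (max 1 ‖x‖) ^ n)
    fun k hk => ?_) ?_
  · have hk' := Finset.mem_range_succ_iff.1 hk
    rw [norm_mul, norm_pow]
    have h0 : (0 : ℝ) ≤ cB e n k := by exact_mod_cast cB_nonneg e n k he hk'
    have h1 : ‖((cB e n k : ℤ) : ℂ)‖ = (cB e n k : ℝ) := by
      rw [Complex.norm_intCast, abs_of_nonneg h0]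
    rw [h1]
    refine mul_le_mul_of_nonneg_left ?_ h0
    calc ‖x‖ ^ k ≤ (max 1 ‖x‖) ^ k := pow_le_pow_left₀ (norm_nonneg _) (le_max_right _ _) k
      _ ≤ (max 1 ‖x‖) ^ n := pow_le_pow_right₀ (le_max_left _ _) hk'
  · rw [← Finset.sum_mul]
    exact mul_le_mul_of_nonneg_right (sum_cB_le e n he) (by positivity)

section
variable {K : Type*} [Field K] [NumberField K]

private theorem mi_fp_sum (V : FinitePlace K) (s : Finset ℕ) (f : ℕ → K) (a : ℝ) (ha : 0 ≤ a)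
    (h : ∀ i ∈ s, V (f i) ≤ a) : V (∑ i ∈ s, f i) ≤ a := by
  classical
  induction s using Finset.induction_on with
  | empty => simpa using ha
  | insert i s hi ih =>
    rw [Finset.sum_insert hi]
    exact (FinitePlace.add_le V _ _).trans (max_le (h i (Finset.mem_insert_self _ _))
      (ih fun j hj => h j (Finset.mem_insert_of_mem hj)))

private theorem mi_nat (V : HeightOneSpectrum (𝓞 K)) (m : ℤ) (hm : 0 ≤ m) :
    FinitePlace.mk V (m : K) ≤ 1 := by
  lift m to ℕ using hm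
  exact_mod_cast mk_nat_le_one V m

private theorem mi_fp_poly (v : HeightOneSpectrum (𝓞 K)) (n : ℕ) (c : ℕ → ℤ)
    (hc : ∀ k ≤ n, 0 ≤ c k) (x : K) :
    FinitePlace.mk v (∑ k ∈ Finset.range (n + 1), (c k : K) * x ^ k) ≤
      (max 1 (FinitePlace.mk v x)) ^ n := by
  refine mi_fp_sum _ _ _ _ (by positivity) fun k hk => ?_
  have hk' := Finset.mem_range_succ_iff.1 hk
  rw [map_mul, map_pow]
  have h1 := mi_nat v (c k) (hc k hk')
  calc FinitePlace.mk v (c k : K) * FinitePlace.mk v x ^ k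
      ≤ 1 * (FinitePlace.mk v x) ^ k :=
        mul_le_mul_of_nonneg_right h1 (pow_nonneg (apply_nonneg _ _) _)
    _ = (FinitePlace.mk v x) ^ k := one_mul _
    _ ≤ (max 1 (FinitePlace.mk v x)) ^ k :=
        pow_le_pow_left₀ (apply_nonneg _ _) (le_max_right _ _) k
    _ ≤ (max 1 (FinitePlace.mk v x)) ^ n := pow_le_pow_right₀ (le_max_left _ _) hk'

private theorem mi_fin_gen (v : HeightOneSpectrum (𝓞 K)) (e n : ℕ) (he : 1 ≤ e) (x ρ : K)
    (hΔ : QQ e n x - ρ * PP e n x ≠ 0) :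
    Real.log (FinitePlace.mk v (QQ e n x - ρ * PP e n x)) ≤
      n * Real.log (max 1 (FinitePlace.mk v x)) + Real.log (max 1 (FinitePlace.mk v ρ)) := by
  have hP := mi_fp_poly v n (fun k => cA e n k) (fun k hk => cA_nonneg e n k he hk) x
  have hQ := mi_fp_poly v n (fun k => cB e n k) (fun k hk => cB_nonneg e n k he hk) x
  set a := max 1 (FinitePlace.mk v x) with ha
  set b := max 1 (FinitePlace.mk v ρ) with hb
  have ha1 : 1 ≤ a := le_max_left _ _
  have hb1 : 1 ≤ b := le_max_left _ _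
  have h1 : FinitePlace.mk v (QQ e n x - ρ * PP e n x) ≤ a ^ n * b := by
    refine (fp_sub_le _ _ _).trans (max_le ?_ ?_)
    · refine le_trans hQ ?_
      exact le_mul_of_one_le_right (by positivity) hb1
    · rw [map_mul, mul_comm]
      exact mul_le_mul hP (le_max_right _ _) (apply_nonneg _ _) (by positivity)
  have h2 : 0 < FinitePlace.mk v (QQ e n x - ρ * PP e n x) := FinitePlace.pos_iff.2 hΔ
  calc _ ≤ Real.log (a ^ n * b) := Real.log_le_log h2 h1
    _ = n * Real.log a + Real.log b := by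
      rw [Real.log_mul (by positivity) (by positivity), Real.log_pow]

private theorem mi_inf_gen (w : InfinitePlace K) (e n : ℕ) (he : 1 ≤ e) (x ρ : K)
    (hΔ : QQ e n x - ρ * PP e n x ≠ 0) :
    Real.log (w (QQ e n x - ρ * PP e n x)) ≤ (n + 1) * Real.log (4 * (e : ℝ) ^ 2) +
      n * Real.log (max 1 (w x)) + Real.log (max 1 (w ρ)) := by
  have he1 : (1 : ℝ) ≤ e := by exact_mod_cast he
  have hnorm : ∀ y : K, w y = ‖w.embedding y‖ := fun y => (InfinitePlace.norm_embedding_eq w y).symm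
  have h0 : 0 < w (QQ e n x - ρ * PP e n x) := InfinitePlace.pos_iff.2 hΔ
  have hP := mi_norm_PP e n he (w.embedding x)
  have hQ := mi_norm_QQ e n he (w.embedding x)
  rw [← (mi_map w.embedding e n x).1, ← hnorm, ← hnorm] at hP
  rw [← (mi_map w.embedding e n x).2, ← hnorm, ← hnorm] at hQ
  set a := max 1 (w x) with ha
  set b := max 1 (w ρ) with hb
  have ha1 : 1 ≤ a := le_max_left _ _
  have hb1 : 1 ≤ b := le_max_left _ _
  set M : ℝ := 2 * (4 * (e : ℝ) ^ 2) ^ n with hM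
  have hM0 : 0 < M := by positivity
  have h1 : w (QQ e n x - ρ * PP e n x) ≤ 2 * M * a ^ n * b := by
    have h3 : w (QQ e n x - ρ * PP e n x) ≤ w (QQ e n x) + w ρ * w (PP e n x) := by
      rw [hnorm, hnorm (QQ e n x), hnorm ρ, hnorm (PP e n x), map_sub, map_mul, ← norm_mul]
      exact norm_sub_le _ _
    have h4 : w ρ * w (PP e n x) ≤ b * (M * a ^ n) :=
      mul_le_mul (le_max_right _ _) hP (apply_nonneg _ _) (by positivity)
    have h5 : w (QQ e n x) ≤ b * (M * a ^ n) :=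
      le_trans hQ (le_mul_of_one_le_left (by positivity) hb1)
    calc _ ≤ _ := h3
      _ ≤ b * (M * a ^ n) + b * (M * a ^ n) := add_le_add h5 h4
      _ = 2 * M * a ^ n * b := by ring
  have h6 : 2 * M ≤ (4 * (e : ℝ) ^ 2) ^ (n + 1) := by
    have : (1 : ℝ) ≤ (e : ℝ) ^ 2 := one_le_pow₀ he1
    have h7 : (0 : ℝ) ≤ (4 * (e : ℝ) ^ 2) ^ n := by positivity
    have h8 : (4 * (e : ℝ) ^ 2) ^ (n + 1) = (4 * (e : ℝ) ^ 2) ^ n * (4 * (e : ℝ) ^ 2) :=
      pow_succ _ _
    rw [hM, h8]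
    nlinarith
  calc _ ≤ Real.log ((4 * (e : ℝ) ^ 2) ^ (n + 1) * a ^ n * b) := by
        refine Real.log_le_log h0 (le_trans h1 ?_)
        gcongr
    _ = _ := by
      rw [Real.log_mul (by positivity) (by positivity), Real.log_mul (by positivity) (by positivity),
        Real.log_pow, Real.log_pow]
      push_cast
      ring

private theorem mi_inf_close (C : ℝ) (hC1 : 1 ≤ C)
    (hC : ∀ (e n : ℕ) (x1 x2 ρ : ℂ), 2 ≤ e → ρ ≠ 0 → ρ ^ e * x1 = x2 →
    ‖x1 - 1‖ ≤ 1 / 4 → ‖x2 - 1‖ ≤ 1 / 4 → |Complex.arg ρ| ≤ Real.pi / (4 * e) →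
    ‖QQ e n x1 - ρ * PP e n x1‖ ≤
      (C * (e : ℝ) ^ 2) ^ (n + 1) * max (‖x1 - 1‖ ^ (2 * n + 1)) ‖x2 - 1‖)
    (w : InfinitePlace K) (e n : ℕ) (he : 2 ≤ e) (x1 x2 ρ : K) (hx11 : x1 ≠ 1) (hx21 : x2 ≠ 1)
    (hρ0 : ρ ≠ 0) (hρ : ρ ^ e * x1 = x2) (h1 : w (x1 - 1) ≤ 1 / 4) (h2 : w (x2 - 1) ≤ 1 / 4)
    (h3 : |Complex.arg (w.embedding ρ)| ≤ Real.pi / (4 * e))
    (hΔ : QQ e n x1 - ρ * PP e n x1 ≠ 0) :
    Real.log (w (QQ e n x1 - ρ * PP e n x1)) ≤ (n + 1) * Real.log (C * (e : ℝ) ^ 2) -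
      min ((2 * n + 1 : ℝ) * (-Real.log (w (x1 - 1)))) (-Real.log (w (x2 - 1))) := by
  have he1 : (0 : ℝ) < e := by exact_mod_cast (by omega : 0 < e)
  have hnorm : ∀ y : K, w y = ‖w.embedding y‖ := fun y => (InfinitePlace.norm_embedding_eq w y).symm
  have h0 : 0 < w (QQ e n x1 - ρ * PP e n x1) := InfinitePlace.pos_iff.2 hΔ
  have p1 : 0 < w (x1 - 1) := InfinitePlace.pos_iff.2 (sub_ne_zero.2 hx11)
  have p2 : 0 < w (x2 - 1) := InfinitePlace.pos_iff.2 (sub_ne_zero.2 hx21)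
  have e1 : ‖w.embedding x1 - 1‖ = w (x1 - 1) := by rw [hnorm, map_sub, map_one]
  have e2 : ‖w.embedding x2 - 1‖ = w (x2 - 1) := by rw [hnorm, map_sub, map_one]
  have e3 : ‖QQ e n (w.embedding x1) - w.embedding ρ * PP e n (w.embedding x1)‖ =
      w (QQ e n x1 - ρ * PP e n x1) := by
    rw [hnorm, map_sub, map_mul, (mi_map w.embedding e n x1).1, (mi_map w.embedding e n x1).2]
  have key := hC e n (w.embedding x1) (w.embedding x2) (w.embedding ρ) he
    ((map_ne_zero _).2 hρ0) (by rw [← map_pow, ← map_mul, hρ]) (by rw [e1]; exact h1)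
    (by rw [e2]; exact h2) h3
  rw [e1, e2, e3] at key
  have hmax : Real.log (max (w (x1 - 1) ^ (2 * n + 1)) (w (x2 - 1))) =
      -min ((2 * n + 1 : ℝ) * (-Real.log (w (x1 - 1)))) (-Real.log (w (x2 - 1))) := by
    have hl : Real.log (w (x1 - 1) ^ (2 * n + 1)) =
        -((2 * n + 1 : ℝ) * (-Real.log (w (x1 - 1)))) := by
      rw [Real.log_pow]; push_cast; ring
    rcases le_total (w (x1 - 1) ^ (2 * n + 1)) (w (x2 - 1)) with h | h
    · rw [max_eq_right h, min_eq_right, neg_neg]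
      have := Real.log_le_log (by positivity) h
      rw [hl] at this
      linarith
    · rw [max_eq_left h, min_eq_left, hl]
      have := Real.log_le_log p2 h
      rw [hl] at this
      linarith
  calc _ ≤ Real.log ((C * (e : ℝ) ^ 2) ^ (n + 1) *
        max (w (x1 - 1) ^ (2 * n + 1)) (w (x2 - 1))) := Real.log_le_log h0 key
    _ = _ := by
      rw [Real.log_mul (by positivity) (lt_max_of_lt_right p2).ne', hmax, Real.log_pow]
      push_cast
      ring

private theorem mi_fin_close (v : HeightOneSpectrum (𝓞 K)) (e n : ℕ) (he : 2 ≤ e)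
    (x1 x2 ρ : K) (hx11 : x1 ≠ 1) (hx21 : x2 ≠ 1) (hρ : ρ ^ e * x1 = x2)
    (h1 : FinitePlace.mk v (x1 - 1) < FinitePlace.mk v (e : K) ^ 2)
    (h2 : FinitePlace.mk v (x2 - 1) < FinitePlace.mk v (e : K) ^ 2)
    (h3 : FinitePlace.mk v (ρ - 1) < FinitePlace.mk v (e : K))
    (hΔ : QQ e n x1 - ρ * PP e n x1 ≠ 0) :
    Real.log (FinitePlace.mk v (QQ e n x1 - ρ * PP e n x1)) ≤
      -min ((2 * n + 1 : ℝ) * ((ord v (x1 - 1) : ℝ) * ln v)) ((ord v (x2 - 1) : ℝ) * ln v) +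
        (2 * n + 1) * (-Real.log (FinitePlace.mk v (e : K))) := by
  have heK : (e : K) ≠ 0 := by exact_mod_cast (by omega : e ≠ 0)
  have h0 : 0 < FinitePlace.mk v (QQ e n x1 - ρ * PP e n x1) := FinitePlace.pos_iff.2 hΔ
  have p1 : 0 < FinitePlace.mk v (x1 - 1) := FinitePlace.pos_iff.2 (sub_ne_zero.2 hx11)
  have p2 : 0 < FinitePlace.mk v (x2 - 1) := FinitePlace.pos_iff.2 (sub_ne_zero.2 hx21)
  have pe : 0 < FinitePlace.mk v (e : K) := FinitePlace.pos_iff.2 heK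
  have hle : Real.log (FinitePlace.mk v (e : K)) ≤ 0 := Real.log_nonpos pe.le (mk_nat_le_one v e)
  have key := finDelta (FinitePlace.mk v) e n he x1 x2 ρ hx11 hρ h1 h2 h3
  have l1 : Real.log (FinitePlace.mk v (x1 - 1)) = -((ord v (x1 - 1) : ℝ) * ln v) := by
    rw [log_mk v (sub_ne_zero.2 hx11)]
    unfold ln
    ring
  have l2 : Real.log (FinitePlace.mk v (x2 - 1)) = -((ord v (x2 - 1) : ℝ) * ln v) := by
    rw [log_mk v (sub_ne_zero.2 hx21)]
    unfold ln
    ring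
  set A := (ord v (x1 - 1) : ℝ) * ln v with hA
  set B := (ord v (x2 - 1) : ℝ) * ln v with hB
  set l := Real.log (FinitePlace.mk v (e : K)) with hl
  have hn : (0 : ℝ) ≤ n := Nat.cast_nonneg n
  refine le_trans (Real.log_le_log h0 key) ?_
  rcases le_total ((FinitePlace.mk v (x1 - 1) / FinitePlace.mk v (e : K)) ^ (2 * n + 1))
    (FinitePlace.mk v (x2 - 1) / FinitePlace.mk v (e : K)) with h | h
  · rw [max_eq_right h, Real.log_div p2.ne' pe.ne', l2, ← hl]
    have := min_le_right ((2 * n + 1 : ℝ) * A) B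
    nlinarith
  · rw [max_eq_left h, Real.log_pow, Real.log_div p1.ne' pe.ne', l1, ← hl]
    have := min_le_left ((2 * n + 1 : ℝ) * A) B
    push_cast
    nlinarith

private theorem mi_hgt_ge {x : K} (hx : x ≠ 0) (B : Finset (HeightOneSpectrum (𝓞 K))) :
    (∑ w : InfinitePlace K, (w.mult : ℝ) * Real.log (max 1 (w x))) +
      ∑ v ∈ B, Real.log (max 1 (FinitePlace.mk v x)) ≤ hgt x := by
  unfold hgt
  have := sum_le_finsum' (finite_support_hgt hx) (fun v => log_max_nonneg _) B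
  linarith

end

theorem main_ineq (K : Type*) [Field K] [NumberField K] :
    ∃ C : ℝ, 0 < C ∧ ∀ (e n : ℕ) (x1 x2 ρ : K) (Vf : Finset (HeightOneSpectrum (𝓞 K)))
      (Vi : Finset (InfinitePlace K)), 2 ≤ e → x1 ≠ 0 → x1 ≠ 1 → x2 ≠ 0 → x2 ≠ 1 → ρ ≠ 0 →
      ρ ^ e * x1 = x2 →
      (∀ v ∈ Vf, FinitePlace.mk v (x1 - 1) < FinitePlace.mk v (e : K) ^ 2) →
      (∀ v ∈ Vf, FinitePlace.mk v (x2 - 1) < FinitePlace.mk v (e : K) ^ 2) →
      (∀ v ∈ Vf, FinitePlace.mk v (ρ - 1) < FinitePlace.mk v (e : K)) →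
      (∀ w ∈ Vi, w (x1 - 1) ≤ 1 / 4) → (∀ w ∈ Vi, w (x2 - 1) ≤ 1 / 4) →
      (∀ w ∈ Vi, |Complex.arg (w.embedding ρ)| ≤ Real.pi / (4 * e)) →
      QQ e n x1 ≠ ρ * PP e n x1 →
      ∑ v ∈ Vf, min ((2 * n + 1 : ℝ) * ((ord v (x1 - 1) : ℝ) * ln v))
          ((ord v (x2 - 1) : ℝ) * ln v) +
        ∑ w ∈ Vi, (w.mult : ℝ) * min ((2 * n + 1 : ℝ) * (-Real.log (w (x1 - 1))))
          (-Real.log (w (x2 - 1))) ≤
      n * hgt x1 + (hgt x1 + hgt x2) / e + C * (n + 1) * (1 + Real.log e) := by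
  classical
  obtain ⟨C0, hC01, hC0⟩ := archDelta
  set C1 : ℝ := max C0 4 with hC1
  have hC14 : 4 ≤ C1 := le_max_right _ _
  have hC10 : C0 ≤ C1 := le_max_left _ _
  set d : ℝ := (Module.finrank ℚ K : ℝ) with hd
  have hdpos : 0 < d := by
    rw [hd]; exact_mod_cast Module.finrank_pos (R := ℚ) (M := K)
  have hlC1 : 0 < Real.log C1 := Real.log_pos (by linarith)
  refine ⟨d * (Real.log C1 + 4), by positivity, ?_⟩
  intro e n x1 x2 ρ Vf Vi he hx1 hx11 hx2 hx21 hρ0 hρ hf1 hf2 hf3 hi1 hi2 hi3 hne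
  have hΔ : QQ e n x1 - ρ * PP e n x1 ≠ 0 := sub_ne_zero.2 hne
  set Δ := QQ e n x1 - ρ * PP e n x1 with hΔd
  have he1 : (1 : ℝ) ≤ e := by exact_mod_cast (by omega : 1 ≤ e)
  have hloge : 0 ≤ Real.log e := Real.log_nonneg he1
  set B : Finset (HeightOneSpectrum (𝓞 K)) := Vf ∪ (finite_support hΔ).toFinset with hB
  have hprod := gap_prod hΔ B (fun v hv => by
    rw [hB, Finset.mem_union, Set.Finite.mem_toFinset]; exact Or.inr hv)
  set L : ℝ := Real.log (C1 * (e : ℝ) ^ 2) with hL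
  have hLv : L = Real.log C1 + 2 * Real.log e := by
    rw [hL, Real.log_mul (by positivity) (by positivity), Real.log_pow]; norm_num
  -- infinite places
  have hinf : ∀ w : InfinitePlace K, Real.log (w Δ) ≤ (n + 1) * L +
      (n * Real.log (max 1 (w x1)) + Real.log (max 1 (w ρ))) -
      (if w ∈ Vi then min ((2 * n + 1 : ℝ) * (-Real.log (w (x1 - 1))))
          (-Real.log (w (x2 - 1))) else 0) := by
    intro w
    have hn0 : 0 ≤ (n : ℝ) * Real.log (max 1 (w x1)) + Real.log (max 1 (w ρ)) := by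
      have := log_max_nonneg (w x1)
      have := log_max_nonneg (w ρ)
      positivity
    split_ifs with hw
    · have h1 := mi_inf_close C0 hC01 hC0 w e n he x1 x2 ρ hx11 hx21 hρ0 hρ (hi1 w hw) (hi2 w hw)
        (hi3 w hw) hΔ
      have h2 : Real.log (C0 * (e : ℝ) ^ 2) ≤ L := by
        refine Real.log_le_log (by positivity) ?_
        gcongr
      have h3 : ((n : ℝ) + 1) * Real.log (C0 * (e : ℝ) ^ 2) ≤ (n + 1) * L :=
        mul_le_mul_of_nonneg_left h2 (by positivity)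
      linarith
    · have h1 := mi_inf_gen w e n (by omega) x1 ρ hΔ
      have h2 : Real.log (4 * (e : ℝ) ^ 2) ≤ L := by
        refine Real.log_le_log (by positivity) ?_
        gcongr
      have h3 : ((n : ℝ) + 1) * Real.log (4 * (e : ℝ) ^ 2) ≤ (n + 1) * L :=
        mul_le_mul_of_nonneg_left h2 (by positivity)
      linarith
  have hfin : ∀ v : HeightOneSpectrum (𝓞 K), Real.log (FinitePlace.mk v Δ) ≤
      (n * Real.log (max 1 (FinitePlace.mk v x1)) + Real.log (max 1 (FinitePlace.mk v ρ))) -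
      (if v ∈ Vf then (min ((2 * n + 1 : ℝ) * ((ord v (x1 - 1) : ℝ) * ln v))
          ((ord v (x2 - 1) : ℝ) * ln v) -
          (2 * n + 1) * (-Real.log (FinitePlace.mk v (e : K)))) else 0) := by
    intro v
    have hn0 : 0 ≤ (n : ℝ) * Real.log (max 1 (FinitePlace.mk v x1)) +
        Real.log (max 1 (FinitePlace.mk v ρ)) := by
      have := log_max_nonneg (FinitePlace.mk v x1)
      have := log_max_nonneg (FinitePlace.mk v ρ)
      positivity
    split_ifs with hv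
    · have h1 := mi_fin_close v e n he x1 x2 ρ hx11 hx21 hρ (hf1 v hv) (hf2 v hv) (hf3 v hv) hΔ
      linarith
    · have h1 := mi_fin_gen v e n (by omega) x1 ρ hΔ
      linarith
  have hsum1 : ∑ w : InfinitePlace K, (w.mult : ℝ) * Real.log (w Δ) ≤ d * ((n + 1) * L) +
      (n * (∑ w : InfinitePlace K, (w.mult : ℝ) * Real.log (max 1 (w x1))) +
        ∑ w : InfinitePlace K, (w.mult : ℝ) * Real.log (max 1 (w ρ))) -
      ∑ w ∈ Vi, (w.mult : ℝ) * min ((2 * n + 1 : ℝ) * (-Real.log (w (x1 - 1))))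
          (-Real.log (w (x2 - 1))) := by
    have hd2 : d = ∑ w : InfinitePlace K, (w.mult : ℝ) := by
      rw [hd, ← InfinitePlace.sum_mult_eq (K := K)]
      push_cast
      rfl
    have h1 : ∑ w ∈ Vi, (w.mult : ℝ) * min ((2 * n + 1 : ℝ) * (-Real.log (w (x1 - 1))))
          (-Real.log (w (x2 - 1))) = ∑ w : InfinitePlace K, (w.mult : ℝ) *
          (if w ∈ Vi then min ((2 * n + 1 : ℝ) * (-Real.log (w (x1 - 1))))
          (-Real.log (w (x2 - 1))) else 0) := by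
      rw [← Finset.sum_filter_add_sum_filter_not Finset.univ (fun w => w ∈ Vi)]
      rw [Finset.sum_eq_zero (s := Finset.univ.filter fun w => w ∉ Vi), add_zero]
      · have : Finset.univ.filter (fun w => w ∈ Vi) = Vi := by ext w; simp
        rw [this]
        exact Finset.sum_congr rfl fun w hw => by rw [if_pos hw]
      · intro w hw
        rw [if_neg (Finset.mem_filter.1 hw).2, mul_zero]
    rw [h1, hd2, Finset.sum_mul, Finset.mul_sum, ← Finset.sum_add_distrib,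
      ← Finset.sum_add_distrib, ← Finset.sum_sub_distrib]
    refine Finset.sum_le_sum fun w _ => ?_
    have := mul_le_mul_of_nonneg_left (hinf w) (Nat.cast_nonneg (α := ℝ) w.mult)
    refine le_trans this (le_of_eq ?_)
    ring
  have hsum2 : ∑ v ∈ B, Real.log (FinitePlace.mk v Δ) ≤
      (n * (∑ v ∈ B, Real.log (max 1 (FinitePlace.mk v x1))) +
        ∑ v ∈ B, Real.log (max 1 (FinitePlace.mk v ρ))) -
      (∑ v ∈ Vf, min ((2 * n + 1 : ℝ) * ((ord v (x1 - 1) : ℝ) * ln v))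
          ((ord v (x2 - 1) : ℝ) * ln v) -
        (2 * n + 1) * ∑ v ∈ Vf, (-Real.log (FinitePlace.mk v (e : K)))) := by
    have h1 : ∑ v ∈ Vf, min ((2 * n + 1 : ℝ) * ((ord v (x1 - 1) : ℝ) * ln v))
          ((ord v (x2 - 1) : ℝ) * ln v) -
        (2 * n + 1) * ∑ v ∈ Vf, (-Real.log (FinitePlace.mk v (e : K))) =
        ∑ v ∈ B, (if v ∈ Vf then (min ((2 * n + 1 : ℝ) * ((ord v (x1 - 1) : ℝ) * ln v))
          ((ord v (x2 - 1) : ℝ) * ln v) -
          (2 * n + 1) * (-Real.log (FinitePlace.mk v (e : K)))) else 0) := by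
      rw [Finset.mul_sum, ← Finset.sum_sub_distrib]
      rw [← Finset.sum_filter_add_sum_filter_not B (fun v => v ∈ Vf)]
      rw [Finset.sum_eq_zero (s := B.filter fun v => v ∉ Vf), add_zero]
      · have : B.filter (fun v => v ∈ Vf) = Vf := by
          ext v
          rw [Finset.mem_filter, hB, Finset.mem_union]
          tauto
        rw [this]
        exact Finset.sum_congr rfl fun v hv => by rw [if_pos hv]
      · intro v hv
        rw [if_neg (Finset.mem_filter.1 hv).2]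
    rw [h1, Finset.mul_sum, ← Finset.sum_add_distrib, ← Finset.sum_sub_distrib]
    exact Finset.sum_le_sum fun v _ => hfin v
  have hH1 := mi_hgt_ge hx1 B
  have hH2 := mi_hgt_ge hρ0 B
  have hH3 := hgt_root (by omega : 1 ≤ e) hx1 hρ
  have hE := log_e (by omega : 1 ≤ e) Vf
  have hH1' := mul_le_mul_of_nonneg_left hH1 (Nat.cast_nonneg (α := ℝ) n)
  have hE' := mul_le_mul_of_nonneg_left hE (by positivity : (0 : ℝ) ≤ 2 * n + 1)
  have hfinal : d * ((n + 1) * L) + (2 * n + 1) * (d * Real.log e) ≤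
      d * (Real.log C1 + 4) * (n + 1) * (1 + Real.log e) := by
    rw [hLv]
    have hn : (0 : ℝ) ≤ n := Nat.cast_nonneg n
    have : (n + 1) * (Real.log C1 + 2 * Real.log e) + (2 * n + 1) * Real.log e ≤
        (Real.log C1 + 4) * (n + 1) * (1 + Real.log e) := by
      nlinarith [mul_nonneg hn hloge, mul_nonneg hlC1.le hloge,
        mul_nonneg hn (mul_nonneg hlC1.le hloge)]
    calc _ = d * ((n + 1) * (Real.log C1 + 2 * Real.log e) + (2 * n + 1) * Real.log e) := by ring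
      _ ≤ d * ((Real.log C1 + 4) * (n + 1) * (1 + Real.log e)) :=
        mul_le_mul_of_nonneg_left this hdpos.le
      _ = _ := by ring
  rw [← hd] at hE'
  nlinarith [hsum1, hsum2, hprod, hH1', hH2, hH3, hE', hfinal]

end Pool.Agent.TMS
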