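import Mathlib
import Pool.Agent.TMS.PadeInt
import Pool.Agent.TMS.PadeMom

/-!
# PadeND (size 4)

Work in `ℚ[X]` with `p_n = ∑ pa e n k X ^ k`, `q_n = ∑ pb e n k X ^ k`; `PP e n x`, `QQ e n x` are
`e ^ n` times their values (`cA_cast`, `cB_cast`; `e ≠ 0`).
`F_n(Y) = Y q_n(Y ^ e) - p_n(Y ^ e)` is divisible by `(Y - 1) ^ (2 n + 1)`: its `i`-th Hasse derivative
(or Taylor coefficient) at `1` is `∑ pb e n k C(k e + 1, i) - ∑ pa e n k C(k e, i)`, and this is `0`
for `i ≤ 2 n` by `moment` applied to the polynomial `C(X, i)` (= `descPochhammer / i!`).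
`D = p_n q_{n+1} - p_{n+1} q_n` has degree `≤ 2 n + 1` and
`D(Y ^ e) = F_{n+1}(Y) q_n(Y ^ e) - F_n(Y) q_{n+1}(Y ^ e)` is divisible by `(Y - 1) ^ (2 n + 1)`. The root
multiplicity of `D(Y ^ e)` at `1` is that of `D` at `1` (`D = (X - 1) ^ m G`, `G(1) ≠ 0`,
`Y ^ e - 1 = (Y - 1) H`, `H(1) = e ≠ 0`), so `(X - 1) ^ (2 n + 1) ∣ D` and `D = c (X - 1) ^ (2 n + 1)`,
where `c` = coefficient of `X ^ (2 n + 1)` of `D` is
`pa e n n * pb e (n+1) (n+1) - pa e (n+1) (n+1) * pb e n n`
`= ∏_{j ≤ n} (e j + 1) ∏_{j ≤ n} (e j - 1) / (n! (n + 1)!) * ((e (n + 1) - 1) - (e (n + 1) + 1)) ≠ 0`.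
If both equations hold at `x`, then `D(x) = 0`, so `x = 1`.
-/

namespace Pool.Agent.TMS

open Polynomial

private noncomputable def ndP (e n : ℕ) : ℚ[X] :=
  ∑ k ∈ Finset.range (n + 1), monomial k (pa e n k)

private noncomputable def ndQ (e n : ℕ) : ℚ[X] :=
  ∑ k ∈ Finset.range (n + 1), monomial k (pb e n k)

private theorem nd_sum_deg (n : ℕ) (c : ℕ → ℚ) :
    (∑ k ∈ Finset.range (n + 1), monomial k (c k) : ℚ[X]).natDegree ≤ n := by
  apply natDegree_sum_le_of_forall_le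
  intro k hk
  rw [Finset.mem_range] at hk
  exact (natDegree_monomial_le _).trans (by omega)

private theorem nd_sum_coeff (n : ℕ) (c : ℕ → ℚ) :
    (∑ k ∈ Finset.range (n + 1), monomial k (c k) : ℚ[X]).coeff n = c n := by
  rw [finsetSum_coeff, Finset.sum_eq_single n]
  · rw [coeff_monomial, if_pos rfl]
  · intro k _ hk
    rw [coeff_monomial, if_neg hk]
  · intro h
    exact absurd (Finset.mem_range.mpr (Nat.lt_succ_self n)) h

/-- `F_n(Y)` is divisible by `(Y - 1) ^ (2 n + 1)`. -/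
private theorem nd_F_dvd (e n : ℕ) (he : 2 ≤ e) :
    (X - C 1) ^ (2 * n + 1) ∣ X * expand ℚ e (ndQ e n) - expand ℚ e (ndP e n) := by
  have he0 : 0 < e := by omega
  have h1 : X * expand ℚ e (ndQ e n) - expand ℚ e (ndP e n) =
      ∑ k ∈ Finset.range (n + 1), monomial (k * e + 1) (pb e n k) -
        ∑ k ∈ Finset.range (n + 1), monomial (k * e) (pa e n k) := by
    unfold ndQ ndP
    rw [map_sum, map_sum, Finset.mul_sum]
    congr 1
    · refine Finset.sum_congr rfl fun k _ => ?_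
      rw [expand_monomial, X_mul_monomial, mul_comm]
    · refine Finset.sum_congr rfl fun k _ => ?_
      rw [expand_monomial, mul_comm]
  rw [h1, X_sub_C_pow_dvd_iff, ← taylor_apply, X_pow_dvd_iff]
  intro i hi
  rw [taylor_coeff, map_sub, map_sum, map_sum, eval_sub, eval_finsetSum, eval_finsetSum]
  simp only [hasseDeriv_monomial, eval_monomial, one_pow, mul_one]
  have h2 := moment e n he (descPochhammer ℚ i) (by
    rw [descPochhammer_natDegree]
    omega)
  have hfac : (i.factorial : ℚ) ≠ 0 := by exact_mod_cast Nat.factorial_ne_zero i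
  have h3 : ∀ m : ℕ, (descPochhammer ℚ i).eval (m : ℚ) = i.factorial * (m.choose i : ℚ) := by
    intro m
    rw [descPochhammer_eval_eq_descFactorial, Nat.descFactorial_eq_factorial_mul_choose]
    push_cast
    ring
  have h4 : ∑ k ∈ Finset.range (n + 1), pb e n k * (descPochhammer ℚ i).eval ((k : ℚ) * e + 1) =
      i.factorial * ∑ k ∈ Finset.range (n + 1), ((k * e + 1).choose i : ℚ) * pb e n k := by
    rw [Finset.mul_sum]
    refine Finset.sum_congr rfl fun k _ => ?_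
    have h5 := h3 (k * e + 1)
    push_cast at h5
    rw [h5]
    ring
  have h5 : ∑ k ∈ Finset.range (n + 1), pa e n k * (descPochhammer ℚ i).eval ((k : ℚ) * e) =
      i.factorial * ∑ k ∈ Finset.range (n + 1), ((k * e).choose i : ℚ) * pa e n k := by
    rw [Finset.mul_sum]
    refine Finset.sum_congr rfl fun k _ => ?_
    have h6 := h3 (k * e)
    push_cast at h6
    rw [h6]
    ring
  rw [h4, h5] at h2
  rw [mul_left_cancel₀ hfac h2, sub_self]

private theorem nd_expand_dvd (e : ℕ) (he : 2 ≤ e) (D : ℚ[X]) (N : ℕ)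
    (h : (X - C 1) ^ N ∣ expand ℚ e D) : (X - C 1) ^ N ∣ D := by
  induction N with
  | zero => exact one_dvd _
  | succ N ih =>
    obtain ⟨D', hD'⟩ := ih ((pow_dvd_pow _ (Nat.le_succ N)).trans h)
    have h1 : expand ℚ e D = (X - C 1) ^ N *
        ((∑ i ∈ Finset.range e, X ^ i) ^ N * expand ℚ e D') := by
      rw [hD', map_mul, map_pow, map_sub, expand_X, expand_C, ← mul_assoc, ← mul_pow]
      congr 2
      rw [C_1, mul_geom_sum]
    rw [h1, pow_succ] at h
    have hne : (X - C (1 : ℚ)) ^ N ≠ 0 := pow_ne_zero _ (X_sub_C_ne_zero _)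
    have h2 := (mul_dvd_mul_iff_left hne).mp h
    rw [dvd_iff_isRoot, IsRoot.def, eval_mul, eval_pow, eval_finsetSum, expand_eval, one_pow] at h2
    simp only [eval_pow, eval_X, one_pow, Finset.sum_const, Finset.card_range, nsmul_eq_mul,
      mul_one] at h2
    have h3 : (e : ℚ) ^ N ≠ 0 := by
      apply pow_ne_zero
      have : e ≠ 0 := by omega
      exact_mod_cast this
    have h4 : D'.eval 1 = 0 := (mul_eq_zero.mp h2).resolve_left h3
    rw [hD', pow_succ]
    exact mul_dvd_mul_left _ (dvd_iff_isRoot.mpr h4)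

private theorem nd_prod (e n : ℕ) (he : 2 ≤ e) :
    pa e n n * pb e (n + 1) (n + 1) - pa e (n + 1) (n + 1) * pb e n n ≠ 0 := by
  have hpa : ∀ m, pa e m m = (∏ j ∈ Finset.Ioc 0 m, ((e : ℚ) * j + 1)) / (m.factorial : ℚ) := by
    intro m
    unfold pa
    rw [Finset.Ioc_self, Finset.prod_empty, Nat.sub_self, Nat.factorial_zero, Nat.cast_one,
      div_one, one_mul]
  have hpb : ∀ m, pb e m m = (∏ j ∈ Finset.Ioc 0 m, ((e : ℚ) * j - 1)) / (m.factorial : ℚ) := by
    intro m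
    unfold pb
    rw [Finset.Ioc_self, Finset.prod_empty, Nat.sub_self, Nat.factorial_zero, Nat.cast_one,
      div_one, one_mul]
  rw [hpa, hpa, hpb, hpb]
  have h1 : ∀ f : ℕ → ℚ, ∏ j ∈ Finset.Ioc 0 (n + 1), f j = (∏ j ∈ Finset.Ioc 0 n, f j) * f (n + 1) := by
    intro f
    rw [← Finset.insert_Ioc_right_eq_Ioc_add_one (Nat.zero_le n), Finset.prod_insert (by simp),
      mul_comm]
  rw [h1, h1]
  set A := ∏ j ∈ Finset.Ioc 0 n, ((e : ℚ) * j + 1) with hA
  set B := ∏ j ∈ Finset.Ioc 0 n, ((e : ℚ) * j - 1) with hB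
  have hA0 : A ≠ 0 := by
    rw [hA, Finset.prod_ne_zero_iff]
    intro j _
    positivity
  have hB0 : B ≠ 0 := by
    rw [hB, Finset.prod_ne_zero_iff]
    intro j hj
    rw [Finset.mem_Ioc] at hj
    have h2 : (2 : ℚ) ≤ e := by exact_mod_cast he
    have h3 : (1 : ℚ) ≤ j := by exact_mod_cast hj.1
    have : (0 : ℚ) < (e : ℚ) * j - 1 := by nlinarith
    exact this.ne'
  have hf1 : ((n.factorial : ℕ) : ℚ) ≠ 0 := by exact_mod_cast Nat.factorial_ne_zero n
  have hf2 : (((n + 1).factorial : ℕ) : ℚ) ≠ 0 := by exact_mod_cast Nat.factorial_ne_zero (n + 1)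
  have h4 : A / (n.factorial : ℚ) * (B * ((e : ℚ) * ((n + 1 : ℕ) : ℚ) - 1) / ((n + 1).factorial : ℚ)) -
      A * ((e : ℚ) * ((n + 1 : ℕ) : ℚ) + 1) / ((n + 1).factorial : ℚ) * (B / (n.factorial : ℚ)) =
      -2 * (A * B) / ((n.factorial : ℚ) * ((n + 1).factorial : ℚ)) := by
    field_simp
    ring
  rw [h4]
  apply div_ne_zero
  · exact mul_ne_zero (by norm_num) (mul_ne_zero hA0 hB0)
  · exact mul_ne_zero hf1 hf2

private theorem nd_D (e n : ℕ) (he : 2 ≤ e) : ∃ c : ℚ, c ≠ 0 ∧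
    ndP e n * ndQ e (n + 1) - ndP e (n + 1) * ndQ e n = (X - C 1) ^ (2 * n + 1) * C c := by
  set D := ndP e n * ndQ e (n + 1) - ndP e (n + 1) * ndQ e n with hD
  have h1 : (X - C 1) ^ (2 * n + 1) ∣ expand ℚ e D := by
    have h2 : expand ℚ e D =
        (X * expand ℚ e (ndQ e (n + 1)) - expand ℚ e (ndP e (n + 1))) * expand ℚ e (ndQ e n) -
        (X * expand ℚ e (ndQ e n) - expand ℚ e (ndP e n)) * expand ℚ e (ndQ e (n + 1)) := by
      rw [hD, map_sub, map_mul, map_mul]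
      ring
    rw [h2]
    apply dvd_sub
    · refine Dvd.dvd.mul_right ?_ _
      exact (pow_dvd_pow _ (by omega)).trans (nd_F_dvd e (n + 1) he)
    · exact Dvd.dvd.mul_right (nd_F_dvd e n he) _
  obtain ⟨G, hG⟩ := nd_expand_dvd e he D _ h1
  have hc : D.coeff (2 * n + 1) ≠ 0 := by
    have e1 : (ndP e n * ndQ e (n + 1)).coeff (n + (n + 1)) =
        (ndP e n).coeff n * (ndQ e (n + 1)).coeff (n + 1) :=
      coeff_mul_add_eq_of_natDegree_le (nd_sum_deg _ _) (nd_sum_deg _ _)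
    have e2 : (ndP e (n + 1) * ndQ e n).coeff ((n + 1) + n) =
        (ndP e (n + 1)).coeff (n + 1) * (ndQ e n).coeff n :=
      coeff_mul_add_eq_of_natDegree_le (nd_sum_deg _ _) (nd_sum_deg _ _)
    have e3 : 2 * n + 1 = n + (n + 1) := by ring
    have e4 : n + (n + 1) = (n + 1) + n := by ring
    rw [hD, coeff_sub, e3, e1, e4, e2]
    unfold ndP ndQ
    rw [nd_sum_coeff, nd_sum_coeff, nd_sum_coeff, nd_sum_coeff]
    exact nd_prod e n he
  have hD0 : D ≠ 0 := by
    intro h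
    rw [h, coeff_zero] at hc
    exact hc rfl
  have hG0 : G ≠ 0 := by
    rintro rfl
    rw [mul_zero] at hG
    exact hD0 hG
  have hdeg : D.natDegree ≤ 2 * n + 1 := by
    rw [hD]
    refine (natDegree_sub_le _ _).trans (max_le ?_ ?_)
    · refine natDegree_mul_le.trans ?_
      have := nd_sum_deg n (pa e n)
      have := nd_sum_deg (n + 1) (pb e (n + 1))
      unfold ndP ndQ
      omega
    · refine natDegree_mul_le.trans ?_
      have := nd_sum_deg n (pb e n)
      have := nd_sum_deg (n + 1) (pa e (n + 1))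
      unfold ndP ndQ
      omega
  have hGdeg : G.natDegree = 0 := by
    rw [hG, natDegree_mul (pow_ne_zero _ (X_sub_C_ne_zero _)) hG0, natDegree_pow,
      natDegree_X_sub_C] at hdeg
    omega
  obtain ⟨c, rfl⟩ := natDegree_eq_zero.mp hGdeg
  refine ⟨c, ?_, hG⟩
  rintro rfl
  exact hG0 C_0

private theorem nd_PP {F : Type*} [Field F] [CharZero F] (e n : ℕ) (x : F) :
    PP e n x = (e : F) ^ n * aeval x (ndP e n) := by
  unfold PP ndP
  rw [map_sum, Finset.mul_sum]
  refine Finset.sum_congr rfl fun k hk => ?_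
  rw [Finset.mem_range] at hk
  rw [aeval_monomial]
  have h1 := congrArg (algebraMap ℚ F) (cA_cast e n k (by omega))
  rw [map_mul, map_pow, map_intCast, map_natCast] at h1
  rw [h1, mul_assoc]

private theorem nd_QQ {F : Type*} [Field F] [CharZero F] (e n : ℕ) (x : F) :
    QQ e n x = (e : F) ^ n * aeval x (ndQ e n) := by
  unfold QQ ndQ
  rw [map_sum, Finset.mul_sum]
  refine Finset.sum_congr rfl fun k hk => ?_
  rw [Finset.mem_range] at hk
  rw [aeval_monomial]
  have h1 := congrArg (algebraMap ℚ F) (cB_cast e n k (by omega))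
  rw [map_mul, map_pow, map_intCast, map_natCast] at h1
  rw [h1, mul_assoc]

theorem nondeg {F : Type*} [Field F] [CharZero F] (e n : ℕ) (he : 2 ≤ e) (x : F) (hx : x ≠ 1)
    (ρ : F) : ¬ (QQ e n x = ρ * PP e n x ∧ QQ e (n + 1) x = ρ * PP e (n + 1) x) := by
  rintro ⟨h1, h2⟩
  have he0 : (e : F) ≠ 0 := by
    have : e ≠ 0 := by omega
    exact_mod_cast this
  obtain ⟨c, hc, hD⟩ := nd_D e n he
  have h3 : PP e n x * QQ e (n + 1) x - PP e (n + 1) x * QQ e n x = 0 := by
    rw [h1, h2]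
    ring
  rw [nd_PP, nd_PP, nd_QQ, nd_QQ] at h3
  have h4 : (e : F) ^ n * (e : F) ^ (n + 1) *
      (aeval x (ndP e n) * aeval x (ndQ e (n + 1)) - aeval x (ndP e (n + 1)) * aeval x (ndQ e n)) = 0 := by
    rw [← h3]
    ring
  have h5 := (mul_eq_zero.mp h4).resolve_left (mul_ne_zero (pow_ne_zero _ he0) (pow_ne_zero _ he0))
  rw [← map_mul, ← map_mul, ← map_sub, hD, map_mul, map_pow, map_sub, aeval_X, aeval_C, aeval_C,
    map_one] at h5
  rcases mul_eq_zero.mp h5 with h6 | h6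
  · exact hx (sub_eq_zero.mp (pow_eq_zero_iff (by omega) |>.mp h6))
  · rw [map_eq_zero] at h6
    exact hc h6

end Pool.Agent.TMS
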