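import Mathlib
import Pool.Agent.TMS.MainIneq
import Pool.Agent.TMS.PadeND

/-!
# Pair (size 3)

Let `C0` be the constant of `main_ineq`, `C = 100 C0`, `h1 ≤ h2` the heights, `C (1 + log e) ≤ h1`, so
`C0 (n + 1) (1 + log e) ≤ (n + 1) h1 / 100`; `e ≥ 3`.
`main_ineq` and `Rel` with `a = 2 n + 1` give, if `QQ e n x1 ≠ ρ PP e n x1`,
(*) `0.9 min ((2 n + 1) h1) h2 ≤ n h1 + (h1 + h2) / 3 + (n + 1) h1 / 100`.
Gap: `n = 0`: `PP e 0 x = QQ e 0 x = 1`, and `ρ ≠ 1` since `x1 ≠ x2`; so `0.9 h1 ≤ (h1 + h2) / 3 + h1 / 100`,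
`h2 ≥ 1.67 h1`.
Thue: `n = ⌊(h2 / h1 - 1) / 2⌋`, so `(2 n + 1) h1 ≤ h2 < (2 n + 3) h1`. By `nondeg` (*) holds for `n` or for
`n + 1`. For `n`: `0.9 (h2 - 2 h1) ≤ 0.9 (2 n + 1) h1 ≤ (h2 - h1) / 2 + (h1 + h2) / 3 + ((h2 - h1) / 2 + h1) / 100`,
so `h2 ≤ 27 h1`. For `n + 1`: `min = h2` and
`0.9 h2 ≤ (h2 + h1) / 2 + (h1 + h2) / 3 + (h2 / 2 + 1.5 h1) / 100`, so `h2 ≤ 14 h1`.
-/

namespace Pool.Agent.TMS

open NumberField IsDedekindDomain Pool.Agent.H7.Abc Pool.Agent.AbcE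

private theorem pair_real1 (h1 h2 : ℝ) (h0 : 0 < h1) (hle : h1 ≤ h2)
    (h : 9 / 10 * min (1 * h1) h2 ≤ 0 * h1 + (h1 + h2) / 3 + 1 * h1 / 100) : 3 / 2 * h1 ≤ h2 := by
  rw [one_mul, min_eq_left hle] at h
  linarith

private theorem pair_real2 (h1 h2 n : ℝ) (h0 : 0 < h1) (hn1 : (2 * n + 1) * h1 ≤ h2)
    (hn2 : h2 < (2 * n + 3) * h1) (hn : 0 ≤ n)
    (h : 9 / 10 * min ((2 * n + 1) * h1) h2 ≤ n * h1 + (h1 + h2) / 3 + (n + 1) * h1 / 100) :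
    h2 ≤ 100 * h1 := by
  rw [min_eq_left hn1] at h
  have e1 : n * h1 ≤ (h2 - h1) / 2 := by linarith
  nlinarith

private theorem pair_real3 (h1 h2 n : ℝ) (h0 : 0 < h1) (hn1 : (2 * n + 1) * h1 ≤ h2)
    (hn2 : h2 < (2 * n + 3) * h1) (hn : 0 ≤ n)
    (h : 9 / 10 * min ((2 * (n + 1) + 1) * h1) h2 ≤
      (n + 1) * h1 + (h1 + h2) / 3 + (n + 1 + 1) * h1 / 100) :
    h2 ≤ 100 * h1 := by
  rw [min_eq_right (by linarith)] at h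
  have e1 : n * h1 ≤ (h2 - h1) / 2 := by linarith
  nlinarith

theorem pair (K : Type*) [Field K] [NumberField K] :
    ∃ C : ℝ, 0 < C ∧ ∀ (e : ℕ) (x1 x2 : K), 3 ≤ e → x1 ≠ 0 → x1 ≠ 1 → x2 ≠ 0 → x2 ≠ 1 →
      x1 ≠ x2 → Rel e x1 x2 → C * (1 + Real.log e) ≤ hgt x1 → hgt x1 ≤ hgt x2 →
      3 / 2 * hgt x1 ≤ hgt x2 ∧ hgt x2 ≤ 100 * hgt x1 := by
  obtain ⟨C0, hC0, H⟩ := main_ineq K
  refine ⟨100 * C0, by positivity, ?_⟩
  intro e x1 x2 he hx1 hx11 hx2 hx21 hne hrel hC hle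
  obtain ⟨ρ, Vf, Vi, hρ0, hρ, hf1, hf2, hf3, hi1, hi2, hi3, hmass⟩ := hrel
  have he3 : (3 : ℝ) ≤ e := by exact_mod_cast he
  have hloge : 0 ≤ Real.log e := Real.log_nonneg (by linarith)
  have hh1 : 0 < hgt x1 := lt_of_lt_of_le (by positivity) hC
  have hh2 : 0 ≤ hgt x2 := by linarith
  -- the basic inequality
  have key : ∀ n : ℕ, QQ e n x1 ≠ ρ * PP e n x1 →
      9 / 10 * min ((2 * (n : ℝ) + 1) * hgt x1) (hgt x2) ≤
        n * hgt x1 + (hgt x1 + hgt x2) / 3 + ((n : ℝ) + 1) * hgt x1 / 100 := by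
    intro n hn
    have h1 := H e n x1 x2 ρ Vf Vi (by omega) hx1 hx11 hx2 hx21 hρ0 hρ hf1 hf2 hf3 hi1 hi2 hi3 hn
    have h2 := hmass (2 * (n : ℝ) + 1) (by have : (0 : ℝ) ≤ n := Nat.cast_nonneg n; linarith)
    have h3 : (hgt x1 + hgt x2) / e ≤ (hgt x1 + hgt x2) / 3 := by
      apply div_le_div_of_nonneg_left (by linarith) (by norm_num) he3
    have h4 : C0 * ((n : ℝ) + 1) * (1 + Real.log e) ≤ ((n : ℝ) + 1) * hgt x1 / 100 := by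
      have h5 : C0 * (1 + Real.log e) ≤ hgt x1 / 100 := by linarith
      have h6 : (0 : ℝ) ≤ (n : ℝ) + 1 := by positivity
      have := mul_le_mul_of_nonneg_left h5 h6
      linarith
    linarith
  have hρ1 : ρ ≠ 1 := by
    rintro rfl
    apply hne
    rw [← hρ, one_pow, one_mul]
  have hP0 : PP e 0 x1 = 1 ∧ QQ e 0 x1 = 1 := by
    unfold PP QQ cA cB pa pb
    simp
  have hgap : 3 / 2 * hgt x1 ≤ hgt x2 := by
    have h0 := key 0 (by rw [hP0.1, hP0.2, mul_one]; exact hρ1.symm)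
    refine pair_real1 _ _ hh1 hle ?_
    simpa using h0
  refine ⟨hgap, ?_⟩
  obtain ⟨n, hn1, hn2⟩ : ∃ n : ℕ, (2 * (n : ℝ) + 1) * hgt x1 ≤ hgt x2 ∧
      hgt x2 < (2 * (n : ℝ) + 3) * hgt x1 := by
    have ha : 0 ≤ (hgt x2 / hgt x1 - 1) / 2 := by
      have : 1 ≤ hgt x2 / hgt x1 := by rw [le_div_iff₀ hh1]; linarith
      linarith
    refine ⟨⌊(hgt x2 / hgt x1 - 1) / 2⌋₊, ?_, ?_⟩
    · have := Nat.floor_le ha
      rw [← le_div_iff₀ hh1]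
      linarith
    · have := Nat.lt_floor_add_one ((hgt x2 / hgt x1 - 1) / 2)
      rw [← div_lt_iff₀ hh1]
      linarith
  have hn0 : (0 : ℝ) ≤ n := Nat.cast_nonneg n
  by_cases hcase : QQ e n x1 = ρ * PP e n x1
  · have hnd := nondeg e n (by omega) x1 hx11 ρ
    have h1 : QQ e (n + 1) x1 ≠ ρ * PP e (n + 1) x1 := fun h => hnd ⟨hcase, h⟩
    have := key (n + 1) h1
    push_cast at this
    exact pair_real3 _ _ n hh1 hn1 hn2 hn0 this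
  · exact pair_real2 _ _ n hh1 hn1 hn2 hn0 (key n hcase)

end Pool.Agent.TMS
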