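import Mathlib
import Pool.Agent.TMS.Defs

/-!
# SmallH (size 2)

`cnd x + cnd x⁻¹ ≤ 2 hgt x` (a place with `|x|_v < 1` contributes `log N v ≤ log max 1 |x⁻¹|_v`, so
`cnd x ≤ hgt x⁻¹ = hgt x`, compare `finite_support_cnd`, `sum_finite_le`, and the same for `x⁻¹`), so
`{x | x ≠ 0, hgt x ≤ H} = Small K H (2 H)`; `card_small_le` with `σ = 2`, `δ = 1` bounds it by
`C (2 H + 4) ^ r exp(6 H) ≤ exp(C' (H + 1))`; `small_finite` for the finiteness.
-/

namespace Pool.Agent.TMS

open NumberField IsDedekindDomain Pool.Agent.H7.Abc Pool.Agent.AbcE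

private theorem SmallH_cnd {K : Type*} [Field K] [NumberField K] {x : K} (hx : x ≠ 0) :
    cnd x ≤ hgt x := by
  unfold cnd
  rw [finsum_eq_sum _ (finite_support_cnd hx)]
  refine le_trans (Finset.sum_le_sum (g := fun v : HeightOneSpectrum (𝓞 K) =>
    Real.log (max 1 (FinitePlace.mk v x⁻¹))) fun v _ => ?_) ?_
  · split_ifs with h
    · have hpos : 0 < FinitePlace.mk v x := FinitePlace.pos_iff.2 hx
      have hl := log_mk v hx
      have hN := log_norm_pos v
      have hneg : Real.log (FinitePlace.mk v x) < 0 := Real.log_neg hpos h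
      rw [hl] at hneg
      have h1 : (0 : ℝ) < ord v x := by
        by_contra hcon
        push Not at hcon
        nlinarith
      have h2 : (1 : ℝ) ≤ ord v x := by exact_mod_cast h1
      rw [mk_inv]
      have h3 : 1 ≤ (FinitePlace.mk v x)⁻¹ := (one_le_inv₀ hpos).2 h.le
      rw [max_eq_right h3, Real.log_inv, hl]
      nlinarith
    · exact log_max_nonneg _
  · have := sum_finite_le (inv_ne_zero hx) (finite_support_cnd hx).toFinset
    rw [hgt_inv] at this
    exact this

theorem small_card (K : Type*) [Field K] [NumberField K] :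
    ∃ C : ℝ, 0 < C ∧ ∀ H : ℝ, 0 ≤ H → {x : K | x ≠ 0 ∧ hgt x ≤ H}.Finite ∧
      (({x : K | x ≠ 0 ∧ hgt x ≤ H}.ncard : ℕ) : ℝ) ≤ Real.exp (C * (H + 1)) := by
  obtain ⟨C0, hC0, hb⟩ := card_small_le (K := K) (σ := 2) (δ := 1) (by norm_num) (by norm_num)
  set r := Fintype.card (InfinitePlace K) with hr
  refine ⟨C0 + 4 * r + 6, by positivity, fun H hH => ?_⟩
  have heq : {x : K | x ≠ 0 ∧ hgt x ≤ H} = Small K H (2 * H) := by
    ext x
    constructor
    · rintro ⟨hx, h⟩
      refine ⟨hx, h, ?_⟩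
      have h1 := SmallH_cnd hx
      have h2 := SmallH_cnd (inv_ne_zero hx)
      rw [hgt_inv] at h2
      linarith
    · rintro ⟨hx, h, -⟩
      exact ⟨hx, h⟩
  rw [heq]
  refine ⟨small_finite H (2 * H), ?_⟩
  have h1 := hb H (2 * H) hH
  have h2 : C0 ≤ Real.exp C0 := by
    have := Real.add_one_le_exp C0
    linarith
  have h3 : (2 * H + 4) ^ r ≤ Real.exp ((r : ℝ) * (2 * H + 4)) := by
    rw [Real.exp_nat_mul]
    apply pow_le_pow_left₀ (by positivity)
    have := Real.add_one_le_exp (2 * H + 4)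
    linarith
  calc ((Small K H (2 * H)).ncard : ℝ) ≤ _ := h1
    _ ≤ Real.exp C0 * Real.exp ((r : ℝ) * (2 * H + 4)) *
        Real.exp (2 * (2 * H) + 2 * 1 * H) := by
        apply mul_le_mul_of_nonneg_right _ (Real.exp_pos _).le
        exact mul_le_mul h2 h3 (by positivity) (Real.exp_pos _).le
    _ = Real.exp (C0 + r * (2 * H + 4) + (2 * (2 * H) + 2 * 1 * H)) := by
        rw [← Real.exp_add, ← Real.exp_add]
    _ ≤ Real.exp ((C0 + 4 * r + 6) * (H + 1)) := by
        apply Real.exp_le_exp.2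
        have h4 : (0 : ℝ) ≤ r := Nat.cast_nonneg _
        have h5 : 0 ≤ C0 * H := by positivity
        have h6 : 0 ≤ (r : ℝ) * H := by positivity
        nlinarith

end Pool.Agent.TMS
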