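import Mathlib
import Pool.Agent.TMS.Color
import Pool.Agent.TMS.Pair
import Pool.Agent.TMS.SmallH

/-!
# ThueM (size 3)

Let `C1` be larger than the constants of `color` and `pair`. Every finite subset `S` of `XX K e T` has at
most `exp(C2 (e (1 + log e) + 1)) + 13 exp(C1 (T.card + 1) (1 + log e))` elements:
elements with `hgt x < C1 e (1 + log e)`: `small_card`. The others: colour them with `color`; one colour
contains at most 13 elements: let `x1` be one of smallest height `h1` in the colour, all the others have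
height in `[h1, 100 h1]` (`pair`), and `x ↦ ⌊log (hgt x / h1) / log (3 / 2)⌋ ∈ {0, ..., 11}` is injective on the
colour by the gap (`log 100 / log 1.5 = 11.4`; if two different ones have the same floor the larger height
is `< 3/2` times the smaller one, against `pair`). Then the set is finite (a set all of whose finite
subsets have at most `N` elements is finite) and the bound holds for it.
-/

namespace Pool.Agent.TMS

open NumberField IsDedekindDomain Pool.Agent.H7.Abc Pool.Agent.AbcE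

private theorem ThueM_chain {α : Type*} (h : α → ℝ) (m : ℕ) :
    ∀ S : Finset α, S.card = m + 1 →
      (∀ x ∈ S, ∀ y ∈ S, x ≠ y → h x ≤ h y → 3 / 2 * h x ≤ h y) →
      ∃ x ∈ S, ∃ y ∈ S, (3 / 2 : ℝ) ^ m * h x ≤ h y := by
  classical
  induction m with
  | zero =>
    intro S hS _
    obtain ⟨x, rfl⟩ := Finset.card_eq_one.1 hS
    exact ⟨x, by simp, x, by simp, by simp⟩
  | succ m ih =>
    intro S hS hp
    have hne : S.Nonempty := by
      rw [← Finset.card_pos]
      omega
    obtain ⟨z, hz, hmax⟩ := Finset.exists_max_image S h hne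
    obtain ⟨x, hx, y, hy, hxy⟩ := ih (S.erase z) (by
      rw [Finset.card_erase_of_mem hz]
      omega) (fun x hx y hy => hp x (Finset.mem_of_mem_erase hx) y (Finset.mem_of_mem_erase hy))
    refine ⟨x, Finset.mem_of_mem_erase hx, z, hz, ?_⟩
    have h1 := hp y (Finset.mem_of_mem_erase hy) z hz (Finset.ne_of_mem_erase hy)
      (hmax y (Finset.mem_of_mem_erase hy))
    rw [pow_succ]
    nlinarith

private theorem ThueM_le {α : Type*} (h : α → ℝ) (U : Set α) (hpos : ∀ x ∈ U, 0 < h x)
    (hU : ∀ x ∈ U, ∀ y ∈ U, x ≠ y → h x ≤ h y → 3 / 2 * h x ≤ h y ∧ h y ≤ 100 * h x) :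
    U.Finite ∧ U.ncard ≤ 12 := by
  classical
  have key : ∀ S : Finset α, (S : Set α) ⊆ U → S.card ≠ 12 + 1 := by
    intro S hS hc
    obtain ⟨x, hx, y, hy, hxy⟩ := ThueM_chain h 12 S hc
      (fun x hx y hy hne hle => (hU x (hS hx) y (hS hy) hne hle).1)
    have hx0 := hpos x (hS hx)
    norm_num at hxy
    rcases eq_or_ne x y with rfl | hne
    · nlinarith
    · have := (hU x (hS hx) y (hS hy) hne (by nlinarith)).2
      nlinarith
  have hfin : U.Finite := by
    by_contra hinf
    obtain ⟨t, ht, hc⟩ := Set.Infinite.exists_subset_card_eq hinf (12 + 1)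
    exact key t ht hc
  refine ⟨hfin, ?_⟩
  by_contra hcon
  push Not at hcon
  rw [Set.ncard_eq_toFinset_card U hfin] at hcon
  obtain ⟨t, ht, hc⟩ := Finset.exists_subset_card_eq (s := hfin.toFinset) (n := 12 + 1) hcon
  refine key t ?_ hc
  intro x hx
  exact (Set.Finite.mem_toFinset hfin).1 (ht hx)

theorem thue_mahler (K : Type*) [Field K] [NumberField K] :
    ∃ C : ℝ, 0 < C ∧ ∀ (e : ℕ) (T : Finset (HeightOneSpectrum (𝓞 K))), 3 ≤ e →
      (XX K e T).Finite ∧ (((XX K e T).ncard : ℕ) : ℝ) ≤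
        Real.exp (C * (e * (1 + Real.log e) + (T.card + 1) * (1 + Real.log e))) := by
  classical
  obtain ⟨C1, hC1, hcol⟩ := color K
  obtain ⟨C2, hC2, hpair⟩ := pair K
  obtain ⟨C3, hC3, hsmall⟩ := small_card K
  set D : ℝ := max C1 C2 with hD
  have hD1 : C1 ≤ D := le_max_left _ _
  have hD2 : C2 ≤ D := le_max_right _ _
  have hD0 : 0 < D := lt_of_lt_of_le hC1 hD1
  refine ⟨C3 * (D + 1) + C1 + 3, by positivity, ?_⟩
  intro e T he
  have he3 : (3 : ℝ) ≤ e := by exact_mod_cast he
  have hlog : 0 ≤ Real.log e := Real.log_nonneg (by linarith)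
  set E1 : ℝ := e * (1 + Real.log e) with hE1
  set E2 : ℝ := (T.card + 1) * (1 + Real.log e) with hE2
  have hE1' : 1 ≤ E1 := by nlinarith
  have hT0 : (0 : ℝ) ≤ T.card := Nat.cast_nonneg _
  have hE2' : 1 ≤ E2 := by nlinarith
  obtain ⟨M, f, hM, hf⟩ := hcol e T (by omega)
  set H0 : ℝ := D * E1 with hH0
  have hH00 : 0 < H0 := by positivity
  let S : Fin M → Set K := fun c => {x | x ∈ XX K e T ∧ H0 ≤ hgt x ∧ f x = c}
  have hS : ∀ c, (S c).Finite ∧ (S c).ncard ≤ 12 := by
    intro c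
    apply ThueM_le (fun x : K => hgt x)
    · intro x hx
      exact lt_of_lt_of_le hH00 hx.2.1
    · intro x hx y hy hne hle
      have hCE : C1 * E1 ≤ H0 := by
        rw [hH0]
        gcongr
      have hR : Rel e x y := hf x hx.1 y hy.1 (hCE.trans hx.2.1) (hCE.trans hy.2.1)
        (hx.2.2.trans hy.2.2.symm)
      apply hpair e x y he hx.1.1 hx.1.2.1 hy.1.1 hy.1.2.1 hne hR _ hle
      refine le_trans ?_ hx.2.1
      rw [hH0, hE1]
      have h1 : C2 * (1 + Real.log e) ≤ D * (1 + Real.log e) := by gcongr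
      have h2 : D * (1 + Real.log e) ≤ D * (e * (1 + Real.log e)) := by
        apply mul_le_mul_of_nonneg_left _ hD0.le
        nlinarith
      exact h1.trans h2
  obtain ⟨hAf, hAc⟩ := hsmall H0 hH00.le
  have hsub : XX K e T ⊆ {x : K | x ≠ 0 ∧ hgt x ≤ H0} ∪ ⋃ c, S c := by
    intro x hx
    by_cases h : hgt x ≤ H0
    · exact Or.inl ⟨hx.1, h⟩
    · right
      rw [Set.mem_iUnion]
      exact ⟨f x, hx, (lt_of_not_ge h).le, rfl⟩
  have hUf : (⋃ c, S c).Finite := Set.finite_iUnion (fun c => (hS c).1)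
  have hfin : ({x : K | x ≠ 0 ∧ hgt x ≤ H0} ∪ ⋃ c, S c).Finite := hAf.union hUf
  refine ⟨hfin.subset hsub, ?_⟩
  have hUc : (⋃ c, S c).ncard ≤ M * 12 := by
    have h1 : (⋃ c, S c) ⊆ ((Finset.univ.biUnion (fun c => (hS c).1.toFinset) : Finset K) :
        Set K) := by
      intro x hx
      rw [Set.mem_iUnion] at hx
      obtain ⟨c, hc⟩ := hx
      rw [Finset.mem_coe, Finset.mem_biUnion]
      exact ⟨c, Finset.mem_univ c, (Set.Finite.mem_toFinset _).2 hc⟩
    have h2 := Set.ncard_le_ncard h1 (Finset.finite_toSet _)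
    rw [Set.ncard_coe_finset] at h2
    refine h2.trans (Finset.card_biUnion_le.trans ?_)
    calc ∑ c, ((hS c).1.toFinset).card ≤ ∑ _c : Fin M, 12 := by
          apply Finset.sum_le_sum
          intro c _
          rw [← Set.ncard_eq_toFinset_card (S c) (hS c).1]
          exact (hS c).2
      _ = M * 12 := by simp
  have h1 : ((XX K e T).ncard : ℝ) ≤ Real.exp (C3 * (H0 + 1)) +
      12 * Real.exp (C1 * (T.card + 1) * (1 + Real.log e)) := by
    have h2 := (Set.ncard_le_ncard hsub hfin).trans (Set.ncard_union_le _ _)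
    have h3 : ((XX K e T).ncard : ℝ) ≤
        (({x : K | x ≠ 0 ∧ hgt x ≤ H0}.ncard : ℕ) : ℝ) + ((⋃ c, S c).ncard : ℝ) := by
      exact_mod_cast h2
    have h4 : ((⋃ c, S c).ncard : ℝ) ≤ M * 12 := by exact_mod_cast hUc
    linarith
  have hsum : Real.exp (C3 * (D + 1) * (E1 + E2) + C1 * (E1 + E2) + 3 * (E1 + E2)) =
      Real.exp ((C3 * (D + 1) + C1 + 3) * (E1 + E2)) := by
    congr 1
    ring
  refine h1.trans ?_
  rw [← hsum]
  have a1 : Real.exp (C3 * (H0 + 1)) ≤
      Real.exp (C3 * (D + 1) * (E1 + E2) + C1 * (E1 + E2)) := by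
    apply Real.exp_le_exp.2
    have b1 : C3 * (H0 + 1) ≤ C3 * (D + 1) * (E1 + E2) := by
      rw [mul_assoc]
      apply mul_le_mul_of_nonneg_left _ hC3.le
      rw [hH0]
      nlinarith
    have b2 : 0 ≤ C1 * (E1 + E2) := by positivity
    linarith
  have a2 : Real.exp (C1 * (T.card + 1) * (1 + Real.log e)) ≤
      Real.exp (C3 * (D + 1) * (E1 + E2) + C1 * (E1 + E2)) := by
    apply Real.exp_le_exp.2
    have b1 : C1 * (T.card + 1) * (1 + Real.log e) = C1 * E2 := by
      rw [hE2]
      ring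
    have b2 : 0 ≤ C3 * (D + 1) * (E1 + E2) := by positivity
    have b3 : 0 ≤ C1 * E1 := by positivity
    rw [b1]
    linarith
  have a3 : (13 : ℝ) ≤ Real.exp (3 * (E1 + E2)) := by
    have b1 : Real.exp 3 ≤ Real.exp (3 * (E1 + E2)) := by
      apply Real.exp_le_exp.2
      linarith
    have b2 : Real.exp 3 = Real.exp 1 ^ 3 := by
      rw [← Real.exp_nat_mul]
      norm_num
    have b3 := Real.exp_one_gt_d9
    have b4 : (2.7 : ℝ) ^ 3 ≤ Real.exp 1 ^ 3 := by
      gcongr
      linarith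
    norm_num at b4
    linarith
  have a4 := Real.exp_pos (C3 * (D + 1) * (E1 + E2) + C1 * (E1 + E2))
  rw [Real.exp_add _ (3 * (E1 + E2))]
  nlinarith

end Pool.Agent.TMS
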