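import Mathlib
import Pool.Agent.TMS.ThueM
import Pool.Agent.TMS.RoughCount
import Pool.Agent.TMS.Smooth
import Pool.Agent.TMS.Mob
import Pool.Agent.TMS.IdAsym

/-!
# TheoremI (size 4)

For `v ∈ V` take `x_v` from `mob` and `n_v = ord v x_v ≥ 1`. Let `δ1`, `Z0` be from `smooth_places`,
`Z = 6 log P`, `E = Z ^ (1 - δ1)`.
Case A: `P ≥ P0` (large) and `T.card + 1 ≤ (log P) ^ (1/2)`.
 (1) `v` such that `4 ∣ n_v` or an odd prime `p ≤ E` divides `n_v`: with `e = 4` or `p`, `x_v ∈ XX K e T`, and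
 `v` is determined by `x_v` (the only place outside `T` at which `x_v` has a positive exponent), so by
 `thue_mahler` there are at most `∑_{e ≤ E + 4} exp(C (e (1 + log e) + (T.card + 1)(1 + log e)))
 ≤ (E + 5) exp(C' (T.card + 1) (E + 5) (1 + log (E + 5)))` of them.
 (2) the others: `gcd (n_v, L) ∣ 2` (all prime factors of `L` are `≤ E`), `rough_count` with `b = 2 log Z`:
 `C + 4 log P + (T.card + 3) b < Z ≤ ∑_F ln`, as `(T.card + 3) 2 log Z ≤ 8 (log P) ^ (1/2) log Z`; at most
 `C (log P + 1) exp(C (T.card + 1) Z ^ (1 - δ1))` of them.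
 Both are `≤ exp(C'' (T.card + 1) (log P) ^ (1 - δ))` with `δ = δ1 / 2`.
Case B: `T.card + 1 > (log P) ^ (1/2)`: `V ⊆ plc K P`, `plc_card_le`: `V.card ≤ C P ≤ exp(C' log P)` and
 `(T.card + 1) (log P) ^ (1 - δ) ≥ (log P) ^ (3/2 - δ) ≥ log P` (times a constant if `log P < 1`).
Case C: `2 ≤ P ≤ P0`: `V.card ≤ C P0`, and `(T.card + 1) (log P) ^ (1 - δ) ≥ (log 2) ^ (1 - δ) ≥ log 2`.
-/

namespace Pool.Agent.TMS

open NumberField IsDedekindDomain Pool.Agent.H7.Abc Pool.Agent.AbcE

/-- A divisor condition. -/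
private theorem TheoremI_gcd {n L : ℕ} (hn : 0 < n) (E : ℝ)
    (hp : ∀ p : ℕ, p.Prime → p ∣ L → (p : ℝ) ≤ E) (h : ¬ Nat.gcd n L ∣ 2) :
    ∃ e : ℕ, 3 ≤ e ∧ (e : ℝ) ≤ E + 4 ∧ e ∣ n := by
  have hg0 : Nat.gcd n L ≠ 0 := (Nat.gcd_pos_of_pos_left _ hn).ne'
  by_cases hE : ∃ p : ℕ, p.Prime ∧ p ≠ 2 ∧ p ∣ Nat.gcd n L
  · obtain ⟨p, hpp, hp2, hpg⟩ := hE
    have h1 := hpp.two_le
    have h2 := hp p hpp (hpg.trans (Nat.gcd_dvd_right _ _))
    exact ⟨p, by omega, by linarith, hpg.trans (Nat.gcd_dvd_left _ _)⟩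
  · push Not at hE
    have h2 : Nat.gcd n L = 2 ^ (Nat.gcd n L).primeFactorsList.length :=
      Nat.eq_prime_pow_of_unique_prime_dvd hg0 (by
        intro q hq hqg
        by_contra hne
        exact hE q hq hne hqg)
    have hlen : 2 ≤ (Nat.gcd n L).primeFactorsList.length := by
      by_contra hcon
      push Not at hcon
      apply h
      rw [h2]
      exact (Nat.pow_dvd_pow 2 (by omega : _ ≤ 1)).trans (by norm_num)
    have h4 : 4 ∣ Nat.gcd n L := by
      rw [h2, show (4 : ℕ) = 2 ^ 2 by norm_num]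
      exact Nat.pow_dvd_pow 2 hlen
    have hL2 : 2 ∣ L := (by norm_num : (2 : ℕ) ∣ 4).trans (h4.trans (Nat.gcd_dvd_right _ _))
    have h5 := hp 2 Nat.prime_two hL2
    refine ⟨4, by norm_num, ?_, h4.trans (Nat.gcd_dvd_left _ _)⟩
    push_cast at h5 ⊢
    linarith

private theorem TheoremI_pow (a b M : ℝ) (hab : a < b) :
    ∀ᶠ x : ℝ in Filter.atTop, M * x ^ a ≤ x ^ b := by
  have h1 := tendsto_rpow_atTop (sub_pos.mpr hab)
  filter_upwards [h1.eventually_ge_atTop M, Filter.eventually_gt_atTop 0] with x hx hx0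
  have h2 : x ^ b = x ^ (b - a) * x ^ a := by
    rw [← Real.rpow_add hx0]
    ring_nf
  rw [h2]
  exact mul_le_mul_of_nonneg_right hx (Real.rpow_nonneg hx0.le _)

/-- The growth conditions. -/
private theorem TheoremI_growth (δ1 Z0 C : ℝ) (hδ : 0 < δ1) (hδ' : δ1 < 1 / 2) (hC : 0 ≤ C) :
    ∃ l0 : ℝ, 1 ≤ l0 ∧ ∀ l : ℝ, l0 ≤ l →
      ((6 * l) ^ (1 - δ1) + 5) * (1 + Real.log ((6 * l) ^ (1 - δ1) + 5)) ≤ l ^ (1 - δ1 / 2) ∧
      C * (l + 1) ≤ Real.exp (l ^ (1 - δ1 / 2)) ∧
      C + (l ^ (1 / 2 : ℝ) + 2) * (2 * Real.log (6 * l)) < 2 * l ∧ Z0 ≤ 6 * l := by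
  set ε : ℝ := δ1 / 4 with hε
  have hε0 : 0 < ε := by positivity
  have hlt : (1 - δ1) * (1 + ε) < 1 - δ1 / 2 := by
    rw [hε]
    nlinarith
  have e1 := TheoremI_pow _ _ ((1 + 1 / ε) * 36 ^ (1 + ε)) hlt
  have e2 := TheoremI_pow (3 / 4) 1 (C + 48) (by norm_num)
  obtain ⟨l0, hl0⟩ := Filter.eventually_atTop.mp (e1.and e2)
  refine ⟨max (max 1 l0) (max (12 * C) Z0), (le_max_left _ _).trans (le_max_left _ _), ?_⟩
  intro l hl
  have h1 : 1 ≤ l := ((le_max_left _ _).trans (le_max_left _ _)).trans hl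
  have h2 : l0 ≤ l := ((le_max_right _ _).trans (le_max_left _ _)).trans hl
  have h3 : 12 * C ≤ l := ((le_max_left _ _).trans (le_max_right _ _)).trans hl
  have h4 : Z0 ≤ l := ((le_max_right _ _).trans (le_max_right _ _)).trans hl
  obtain ⟨g1, g2⟩ := hl0 l h2
  have hl0' : 0 < l := by linarith
  refine ⟨?_, ?_, ?_, by linarith⟩
  · -- (i)
    set E : ℝ := (6 * l) ^ (1 - δ1) with hE
    have hE1 : 1 ≤ E := Real.one_le_rpow (by linarith) (by linarith)
    have hE2 : E ≤ 6 * l ^ (1 - δ1) := by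
      rw [hE, Real.mul_rpow (by norm_num) hl0'.le]
      refine mul_le_mul_of_nonneg_right ?_ (Real.rpow_nonneg hl0'.le _)
      calc (6 : ℝ) ^ (1 - δ1) ≤ 6 ^ (1 : ℝ) :=
            Real.rpow_le_rpow_of_exponent_le (by norm_num) (by linarith)
        _ = 6 := Real.rpow_one _
    have hE5 : 0 < E + 5 := by linarith
    have hlog : 1 + Real.log (E + 5) ≤ (1 + 1 / ε) * (E + 5) ^ ε := by
      have h5 := Real.log_le_rpow_div hE5.le hε0
      have h6 : 1 ≤ (E + 5) ^ ε := Real.one_le_rpow (by linarith) hε0.le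
      calc 1 + Real.log (E + 5) ≤ (E + 5) ^ ε + (E + 5) ^ ε / ε := add_le_add h6 h5
        _ = (1 + 1 / ε) * (E + 5) ^ ε := by ring
    have h7 : (E + 5) * (1 + Real.log (E + 5)) ≤ (1 + 1 / ε) * (E + 5) ^ (1 + ε) := by
      calc (E + 5) * (1 + Real.log (E + 5)) ≤ (E + 5) * ((1 + 1 / ε) * (E + 5) ^ ε) :=
            mul_le_mul_of_nonneg_left hlog hE5.le
        _ = (1 + 1 / ε) * (E + 5) ^ (1 + ε) := by
            rw [Real.rpow_add hE5, Real.rpow_one]
            ring
    have h8 : (E + 5) ^ (1 + ε) ≤ 36 ^ (1 + ε) * l ^ ((1 - δ1) * (1 + ε)) := by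
      rw [Real.rpow_mul hl0'.le, ← Real.mul_rpow (by norm_num) (Real.rpow_nonneg hl0'.le _)]
      apply Real.rpow_le_rpow hE5.le _ (by linarith)
      have h9 : 1 ≤ l ^ (1 - δ1) := Real.one_le_rpow h1 (by linarith)
      linarith
    have hp : 0 ≤ 1 + 1 / ε := by positivity
    calc (E + 5) * (1 + Real.log (E + 5)) ≤ (1 + 1 / ε) * (E + 5) ^ (1 + ε) := h7
      _ ≤ (1 + 1 / ε) * (36 ^ (1 + ε) * l ^ ((1 - δ1) * (1 + ε))) :=
          mul_le_mul_of_nonneg_left h8 hp
      _ = (1 + 1 / ε) * 36 ^ (1 + ε) * l ^ ((1 - δ1) * (1 + ε)) := by ring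
      _ ≤ l ^ (1 - δ1 / 2) := g1
  · -- (ii)
    set G : ℝ := l ^ (1 - δ1 / 2) with hG
    have hG0 : 0 ≤ G := Real.rpow_nonneg hl0'.le _
    have hG3 : l ^ 2 ≤ G ^ 3 := by
      rw [hG, ← Real.rpow_natCast (l ^ (1 - δ1 / 2)) 3, ← Real.rpow_mul hl0'.le,
        ← Real.rpow_natCast l 2]
      apply Real.rpow_le_rpow_of_exponent_le h1
      push_cast
      linarith
    have hexp : G ^ 3 / 6 ≤ Real.exp G := by
      have := Real.pow_div_factorial_le_exp G hG0 3
      simpa [Nat.factorial] using this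
    have h5 : C * (l + 1) ≤ l ^ 2 / 6 := by
      rcases le_or_gt C 0 with hC | hC
      · have : C * (l + 1) ≤ 0 := mul_nonpos_of_nonpos_of_nonneg hC (by linarith)
        have : 0 ≤ l ^ 2 / 6 := by positivity
        linarith
      · have h6 : C * (l + 1) ≤ C * (2 * l) := mul_le_mul_of_nonneg_left (by linarith) hC.le
        have h7 : 12 * C * l ≤ l * l := mul_le_mul_of_nonneg_right h3 hl0'.le
        nlinarith
    linarith
  · -- (iii)
    have h5 : Real.log (6 * l) ≤ (6 * l) ^ (1 / 4 : ℝ) / (1 / 4) :=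
      Real.log_le_rpow_div (by linarith) (by norm_num)
    have h6 : (6 * l) ^ (1 / 4 : ℝ) ≤ 2 * l ^ (1 / 4 : ℝ) := by
      rw [Real.mul_rpow (by norm_num) hl0'.le]
      refine mul_le_mul_of_nonneg_right ?_ (Real.rpow_nonneg hl0'.le _)
      calc (6 : ℝ) ^ (1 / 4 : ℝ) ≤ 16 ^ (1 / 4 : ℝ) :=
            Real.rpow_le_rpow (by norm_num) (by norm_num) (by norm_num)
        _ = 2 := by
            rw [show (16 : ℝ) = 2 ^ (4 : ℝ) by norm_num, ← Real.rpow_mul (by norm_num)]
            norm_num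
    have h7 : Real.log (6 * l) ≤ 8 * l ^ (1 / 4 : ℝ) := by linarith
    have h8 : l ^ (1 / 2 : ℝ) + 2 ≤ 3 * l ^ (1 / 2 : ℝ) := by
      have : 1 ≤ l ^ (1 / 2 : ℝ) := Real.one_le_rpow h1 (by norm_num)
      linarith
    have h9 : 0 ≤ Real.log (6 * l) := Real.log_nonneg (by linarith)
    have h10 : (l ^ (1 / 2 : ℝ) + 2) * (2 * Real.log (6 * l)) ≤ 48 * l ^ (3 / 4 : ℝ) := by
      calc (l ^ (1 / 2 : ℝ) + 2) * (2 * Real.log (6 * l))
          ≤ (3 * l ^ (1 / 2 : ℝ)) * (2 * (8 * l ^ (1 / 4 : ℝ))) :=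
            mul_le_mul h8 (by linarith) (by linarith) (by positivity)
        _ = 48 * (l ^ (1 / 2 : ℝ) * l ^ (1 / 4 : ℝ)) := by ring
        _ = 48 * l ^ (3 / 4 : ℝ) := by
            rw [← Real.rpow_add hl0']
            norm_num
    have h11 : 1 ≤ l ^ (3 / 4 : ℝ) := Real.one_le_rpow h1 (by norm_num)
    rw [Real.rpow_one] at g2
    have h12 : C ≤ C * l ^ (3 / 4 : ℝ) := le_mul_of_one_le_right hC h11
    linarith

open Classical in
theorem theoremI (K : Type*) [Field K] [NumberField K] :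
    ∃ C δ : ℝ, 0 < C ∧ 0 < δ ∧ δ < 1 / 2 ∧ ∀ (T V : Finset (HeightOneSpectrum (𝓞 K))) (P : ℝ),
      2 ≤ P → (∀ v ∈ V, v ∉ T ∧ (Ideal.absNorm v.asIdeal : ℝ) ≤ P ∧ Cond (K := K) (insert v T)) →
      (V.card : ℝ) ≤ Real.exp (C * (T.card + 1) * (Real.log P) ^ (1 - δ)) := by
  obtain ⟨Cth, hCth, hth⟩ := thue_mahler K
  obtain ⟨Crc, hCrc, hrc⟩ := rough_count K
  obtain ⟨δ1, Z0, hδ1, hδ1', hZ0, hsm⟩ := smooth_places K
  obtain ⟨Cp, hCp, hplc⟩ := plc_card_le K
  obtain ⟨l0, hl01, hgr⟩ := TheoremI_growth δ1 Z0 Crc hδ1 hδ1' (Nat.cast_nonneg _)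
  have hCrc0 : (0 : ℝ) ≤ Crc := Nat.cast_nonneg _
  set C : ℝ := (2 + Cth + Crc) + (Cp + 1) + 2 * Cp * Real.exp l0 with hC
  have hC3 : 0 ≤ 2 * Cp * Real.exp l0 := by positivity
  refine ⟨C, δ1 / 2, by positivity, by positivity, by linarith, ?_⟩
  intro T V P hP hV
  have hP0 : 0 < P := by linarith
  set t : ℝ := (T.card : ℝ) + 1 with ht
  set l : ℝ := Real.log P with hl
  have ht1 : 1 ≤ t := by
    have : (0 : ℝ) ≤ T.card := Nat.cast_nonneg _
    linarith
  have hl2 : 1 / 2 ≤ l := by
    have h1 := Real.log_two_gt_d9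
    have h2 : Real.log 2 ≤ Real.log P := Real.log_le_log (by norm_num) hP
    linarith
  have hl0 : 0 < l := by linarith
  set G : ℝ := l ^ (1 - δ1 / 2) with hG
  have hG0 : 0 < G := Real.rpow_pos_of_pos hl0 _
  have hVP : (V.card : ℝ) ≤ Cp * P := by
    refine le_trans ?_ (hplc P hP0.le)
    exact_mod_cast Finset.card_le_card fun v hv => mem_plc.mpr (hV v hv).2.1
  have htG : 0 ≤ t * G := by positivity
  by_cases hbig : l0 ≤ l
  · have hl1 : 1 ≤ l := hl01.trans hbig
    have hG1 : 1 ≤ G := Real.one_le_rpow hl1 (by linarith)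
    have htG1 : 1 ≤ t * G := one_le_mul_of_one_le_of_one_le ht1 hG1
    by_cases hT : t ≤ l ^ (1 / 2 : ℝ)
    · -- Case A
      obtain ⟨g1, g2, g3, g4⟩ := hgr l hbig
      have hmob : ∀ v ∈ V, ∃ x : K, x ≠ 0 ∧ x ≠ 1 ∧ 0 < ord v x ∧
          ∀ w, w ∉ T → ord w (x - 1) = 0 ∧ (w ≠ v → ord w x = 0) := fun v hv =>
        mob T v (hV v hv).1 (hV v hv).2.2
      choose! x hx0 hx1 hxo hxw using hmob
      obtain ⟨F, L, hL1, hFsum, hF, hlogL, hLp⟩ := hsm (6 * l) g4
      set E : ℝ := (6 * l) ^ (1 - δ1) with hE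
      have hE0 : 0 < E := Real.rpow_pos_of_pos (by linarith) _
      have hE1 : 1 ≤ E := Real.one_le_rpow (by linarith) (by linarith)
      have hlogE : 0 ≤ Real.log (E + 5) := Real.log_nonneg (by linarith)
      have hEG : E + 5 ≤ G := by
        refine le_trans ?_ g1
        exact le_mul_of_one_le_right (by linarith) (by linarith)
      have hGexp : G ≤ Real.exp (t * G) := by
        have h1 := Real.add_one_le_exp (t * G)
        have h2 : G ≤ t * G := le_mul_of_one_le_left hG0.le ht1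
        linarith
      -- the part with gcd condition
      set V2 := V.filter (fun v => Nat.gcd (ord v (x v)).toNat L ∣ 2) with hV2
      set V1 := V.filter (fun v => ¬ Nat.gcd (ord v (x v)).toNat L ∣ 2) with hV1
      have hcard : V.card = V2.card + V1.card :=
        (Finset.card_filter_add_card_filter_not _).symm
      have h2 : (V2.card : ℝ) ≤ Crc * (l + 1) * (L : ℝ) ^ (Crc * (T.card + 1)) := by
        refine hrc T F V2 P (2 * Real.log (6 * l)) L (by linarith)
          (mul_nonneg (by norm_num) (Real.log_nonneg (by linarith))) hL1 hF ?_ ?_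
        · have h3 : 0 ≤ Real.log (6 * l) := Real.log_nonneg (by linarith)
          have h4 : ((T.card : ℝ) + 3) * (2 * Real.log (6 * l)) ≤
              (l ^ (1 / 2 : ℝ) + 2) * (2 * Real.log (6 * l)) :=
            mul_le_mul_of_nonneg_right (by linarith) (by linarith)
          linarith
        · intro v hv
          have hv' := Finset.mem_filter.mp hv
          exact ⟨(hV v hv'.1).1, (hV v hv'.1).2.1, x v, hx0 v hv'.1, hx1 v hv'.1, hxo v hv'.1,
            hv'.2, hxw v hv'.1⟩
      -- the part with small divisors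
      have hex : ∀ v ∈ V1, ∃ e : ℕ, 3 ≤ e ∧ (e : ℝ) ≤ E + 4 ∧ e ∣ (ord v (x v)).toNat := by
        intro v hv
        have hv' := Finset.mem_filter.mp hv
        have hpos : 0 < (ord v (x v)).toNat := by
          have := hxo v hv'.1
          omega
        exact TheoremI_gcd hpos E hLp hv'.2
      choose! e he3 heE hed using hex
      have h1 : (V1.card : ℝ) ≤ G * Real.exp (Cth * (t * G)) := by
        have hmaps : ∀ v ∈ V1, e v ∈ Finset.Icc 3 ⌊E + 4⌋₊ := by
          intro v hv
          exact Finset.mem_Icc.mpr ⟨he3 v hv, Nat.le_floor (heE v hv)⟩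
        have hc := Finset.card_eq_sum_card_fiberwise (f := e) (s := V1)
          (t := Finset.Icc 3 ⌊E + 4⌋₊) hmaps
        have hfib : ∀ k ∈ Finset.Icc 3 ⌊E + 4⌋₊, ((V1.filter (fun v => e v = k)).card : ℝ) ≤
            Real.exp (Cth * (t * G)) := by
          intro k hk
          obtain ⟨hk3, hkE⟩ := Finset.mem_Icc.mp hk
          have hkE' : (k : ℝ) ≤ E + 4 :=
            le_trans (by exact_mod_cast hkE) (Nat.floor_le (by linarith))
          obtain ⟨hfin, hn⟩ := hth k T hk3
          have hinj : Set.InjOn x (V1.filter (fun v => e v = k) : Set _) := by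
            intro v hv w hw hvw
            have hv' := (Finset.mem_filter.mp (Finset.mem_filter.mp hv).1).1
            have hw' := (Finset.mem_filter.mp (Finset.mem_filter.mp hw).1).1
            by_contra hne
            have h3 := (hxw w hw' v (hV v hv').1).2 hne
            have h4 := hxo v hv'
            rw [hvw, h3] at h4
            exact lt_irrefl _ h4
          have hsub : (((V1.filter (fun v => e v = k)).image x : Finset K) : Set K) ⊆
              XX K k T := by
            intro y hy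
            obtain ⟨v, hv, rfl⟩ := Finset.mem_image.mp (Finset.mem_coe.mp hy)
            obtain ⟨hv1, hvk⟩ := Finset.mem_filter.mp hv
            have hv' := (Finset.mem_filter.mp hv1).1
            refine ⟨hx0 v hv', hx1 v hv', fun w hw => ⟨(hxw v hv' w hw).1, ?_⟩⟩
            by_cases hwv : w = v
            · rw [hwv]
              have h3 := hed v hv1
              rw [hvk] at h3
              have h4 : (((ord v (x v)).toNat : ℕ) : ℤ) = ord v (x v) :=
                Int.toNat_of_nonneg (hxo v hv').le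
              rw [← h4]
              exact_mod_cast h3
            · rw [(hxw v hv' w hw).2 hwv]
              exact dvd_zero _
          have h5 : ((V1.filter (fun v => e v = k)).card : ℝ) ≤ ((XX K k T).ncard : ℝ) := by
            rw [← Finset.card_image_of_injOn hinj, ← Set.ncard_coe_finset]
            exact_mod_cast Set.ncard_le_ncard hsub hfin
          refine h5.trans (hn.trans (Real.exp_le_exp.mpr ?_))
          refine mul_le_mul_of_nonneg_left ?_ hCth.le
          have hk0 : (0 : ℝ) < k := by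
            have : (3 : ℝ) ≤ k := by exact_mod_cast hk3
            linarith
          have h6 : Real.log k ≤ Real.log (E + 5) := Real.log_le_log hk0 (by linarith)
          have h7 : 0 ≤ 1 + Real.log (E + 5) := by linarith
          calc (k : ℝ) * (1 + Real.log k) + ((T.card : ℝ) + 1) * (1 + Real.log k)
              = ((k : ℝ) + t) * (1 + Real.log k) := by rw [ht]; ring
            _ ≤ ((k : ℝ) + t) * (1 + Real.log (E + 5)) :=
                mul_le_mul_of_nonneg_left (by linarith) (by linarith)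
            _ ≤ (t * (E + 5)) * (1 + Real.log (E + 5)) := by
                refine mul_le_mul_of_nonneg_right ?_ h7
                nlinarith
            _ = t * ((E + 5) * (1 + Real.log (E + 5))) := by ring
            _ ≤ t * G := mul_le_mul_of_nonneg_left g1 (by linarith)
        have h3 : (V1.card : ℝ) ≤ ((Finset.Icc 3 ⌊E + 4⌋₊).card : ℝ) *
            Real.exp (Cth * (t * G)) := by
          rw [hc]
          push_cast
          refine (Finset.sum_le_sum hfib).trans ?_
          rw [Finset.sum_const, nsmul_eq_mul]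
        refine h3.trans (mul_le_mul_of_nonneg_right ?_ (Real.exp_pos _).le)
        refine le_trans ?_ hEG
        rw [Nat.card_Icc]
        have h4 : ((⌊E + 4⌋₊ + 1 - 3 : ℕ) : ℝ) ≤ (⌊E + 4⌋₊ : ℝ) := by
          exact_mod_cast (by omega : ⌊E + 4⌋₊ + 1 - 3 ≤ ⌊E + 4⌋₊)
        have h5 : (⌊E + 4⌋₊ : ℝ) ≤ E + 4 := Nat.floor_le (by linarith)
        linarith
      have hLpow : (L : ℝ) ^ (Crc * (T.card + 1)) ≤ Real.exp (Crc * (t * G)) := by
        have hL0 : (0 : ℝ) < L := by
          have : (1 : ℝ) ≤ L := by exact_mod_cast hL1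
          linarith
        rw [← Real.exp_log (pow_pos hL0 _), Real.log_pow]
        apply Real.exp_le_exp.mpr
        push_cast
        rw [← ht]
        have h3 : Real.log L ≤ G := by linarith
        calc (Crc : ℝ) * t * Real.log L ≤ Crc * t * G :=
              mul_le_mul_of_nonneg_left h3 (by positivity)
          _ = Crc * (t * G) := by ring
      have h3 : Crc * (l + 1) * (L : ℝ) ^ (Crc * (T.card + 1)) ≤
          Real.exp (t * G) * Real.exp (Crc * (t * G)) := by
        refine mul_le_mul (g2.trans (Real.exp_le_exp.mpr ?_)) hLpow (by positivity)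
          (Real.exp_pos _).le
        exact le_mul_of_one_le_left hG0.le ht1
      have h4 : G * Real.exp (Cth * (t * G)) ≤ Real.exp (t * G) * Real.exp (Cth * (t * G)) :=
        mul_le_mul_of_nonneg_right hGexp (Real.exp_pos _).le
      have hexp2 : 2 ≤ Real.exp (t * G) := by
        have := Real.add_one_le_exp (t * G)
        linarith
      have h5 : Real.exp (t * G) * Real.exp (Crc * (t * G)) ≤
          Real.exp ((1 + Cth + Crc) * (t * G)) := by
        rw [← Real.exp_add]
        apply Real.exp_le_exp.mpr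
        have : 0 ≤ Cth * (t * G) := by positivity
        linarith
      have h6 : Real.exp (t * G) * Real.exp (Cth * (t * G)) ≤
          Real.exp ((1 + Cth + Crc) * (t * G)) := by
        rw [← Real.exp_add]
        apply Real.exp_le_exp.mpr
        have : 0 ≤ Crc * (t * G) := by positivity
        linarith
      have h7 : (V.card : ℝ) ≤ 2 * Real.exp ((1 + Cth + Crc) * (t * G)) := by
        rw [hcard]
        push_cast
        linarith
      refine h7.trans ?_
      calc 2 * Real.exp ((1 + Cth + Crc) * (t * G))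
          ≤ Real.exp (t * G) * Real.exp ((1 + Cth + Crc) * (t * G)) :=
            mul_le_mul_of_nonneg_right hexp2 (Real.exp_pos _).le
        _ = Real.exp ((2 + Cth + Crc) * (t * G)) := by
            rw [← Real.exp_add]
            ring_nf
        _ ≤ Real.exp (C * t * G) := by
            apply Real.exp_le_exp.mpr
            rw [mul_assoc]
            exact mul_le_mul_of_nonneg_right (by linarith) htG
    · -- Case B
      push Not at hT
      have h1 : l ≤ t * G := by
        have h2 : l ^ (1 / 2 : ℝ) * G ≤ t * G := mul_le_mul_of_nonneg_right hT.le hG0.le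
        have h3 : l ≤ l ^ (1 / 2 : ℝ) * G := by
          rw [hG, ← Real.rpow_add hl0]
          calc l = l ^ (1 : ℝ) := (Real.rpow_one _).symm
            _ ≤ l ^ (1 / 2 + (1 - δ1 / 2)) :=
              Real.rpow_le_rpow_of_exponent_le hl1 (by linarith)
        linarith
      have h2 : Cp * P ≤ Real.exp (Cp + l) := by
        rw [Real.exp_add, hl, Real.exp_log hP0]
        refine mul_le_mul_of_nonneg_right ?_ hP0.le
        have := Real.add_one_le_exp Cp
        linarith
      refine hVP.trans (h2.trans (Real.exp_le_exp.mpr ?_))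
      have h3 : Cp ≤ Cp * (t * G) := le_mul_of_one_le_right hCp.le htG1
      calc Cp + l ≤ Cp * (t * G) + t * G := add_le_add h3 h1
        _ = (Cp + 1) * (t * G) := by ring
        _ ≤ C * (t * G) := mul_le_mul_of_nonneg_right (by linarith) htG
        _ = C * t * G := by ring
  · -- Case C
    push Not at hbig
    have h1 : P ≤ Real.exp l0 := by
      rw [← Real.exp_log hP0]
      exact Real.exp_le_exp.mpr hbig.le
    have hG2 : 1 / 2 ≤ G := by
      rcases le_or_gt 1 l with h | h
      · have : 1 ≤ G := Real.one_le_rpow h (by linarith)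
        linarith
      · have h2 : l ^ (1 : ℝ) ≤ G :=
          Real.rpow_le_rpow_of_exponent_ge hl0 h.le (by linarith)
        rw [Real.rpow_one] at h2
        linarith
    have htG2 : 1 / 2 ≤ t * G := by
      have : G ≤ t * G := le_mul_of_one_le_left hG0.le ht1
      linarith
    have h2 : Cp * P ≤ Cp * Real.exp l0 := mul_le_mul_of_nonneg_left h1 hCp.le
    have h3 := Real.add_one_le_exp (Cp * Real.exp l0)
    have h4 : Cp * Real.exp l0 ≤ C * t * G := by
      have h5 : Cp * Real.exp l0 ≤ 2 * Cp * Real.exp l0 * (t * G) := by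
        have h6 : 0 ≤ Cp * Real.exp l0 := by positivity
        nlinarith
      have h6 : 2 * Cp * Real.exp l0 * (t * G) ≤ C * (t * G) :=
        mul_le_mul_of_nonneg_right (by linarith) htG
      linarith
    have h5 := Real.exp_le_exp.mpr h4
    linarith

end Pool.Agent.TMS
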