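import Mathlib
import Pool.Agent.TMS.TheoremI
import Pool.Agent.TMS.IdAsym

/-!
# Block (size 3)

`supp_card`: `{x | supp x = S} ⊆ XX K 3 S`, `thue_mahler` with `e = 3`.
`block`: `P = exp (j + 1) ≥ 2`. `theoremI`: `card V ≤ exp (C (T.card + 1) (j + 1) ^ (1 - δ))`, and
`card V ≤ C' exp (j + 1)` (`plc_card_le`, we may take `C' ≥ 1`). Let `θ = (j + 1) ^ (-(1 - δ)) ∈ (0, 1]`,
`a = C' exp 1`, `b = exp (-j) exp (C (T.card + 1) (j + 1) ^ (1 - δ))`: `card V * exp (-j) ≤ min a b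
≤ a ^ (1 - θ) b ^ θ ≤ a exp (-j θ + C (T.card + 1))` and `j θ = (j + 1) ^ δ - θ ≥ (j + 1) ^ δ - 1`.
-/

namespace Pool.Agent.TMS

open NumberField IsDedekindDomain Pool.Agent.H7.Abc Pool.Agent.AbcE

theorem supp_card (K : Type*) [Field K] [NumberField K] :
    ∃ C : ℝ, 0 < C ∧ ∀ S : Finset (HeightOneSpectrum (𝓞 K)),
      {x : K | x ≠ 0 ∧ x ≠ 1 ∧ supp x = (S : Set (HeightOneSpectrum (𝓞 K)))}.Finite ∧
      (({x : K | x ≠ 0 ∧ x ≠ 1 ∧
        supp x = (S : Set (HeightOneSpectrum (𝓞 K)))}.ncard : ℕ) : ℝ) ≤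
        Real.exp (C * (S.card + 1)) := by
  obtain ⟨C, hC, h⟩ := thue_mahler K
  have hl : 0 < 1 + Real.log 3 := by
    have := Real.log_nonneg (show (1 : ℝ) ≤ 3 by norm_num)
    linarith
  refine ⟨C * (4 * (1 + Real.log 3)), by positivity, fun S => ?_⟩
  obtain ⟨hfin, hcard⟩ := h 3 S le_rfl
  have hsub : {x : K | x ≠ 0 ∧ x ≠ 1 ∧ supp x = (S : Set (HeightOneSpectrum (𝓞 K)))} ⊆
      XX K 3 S := by
    rintro x ⟨h0, h1, hs⟩
    refine ⟨h0, h1, fun v hv => ?_⟩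
    have hv' : v ∉ supp x := by
      rw [hs]
      simpa using hv
    simp only [supp, Set.mem_setOf_eq, not_or, not_not] at hv'
    exact ⟨hv'.2, by rw [hv'.1]; exact dvd_zero _⟩
  refine ⟨hfin.subset hsub, ?_⟩
  have h1 : (({x : K | x ≠ 0 ∧ x ≠ 1 ∧
      supp x = (S : Set (HeightOneSpectrum (𝓞 K)))}.ncard : ℕ) : ℝ) ≤
      (((XX K 3 S).ncard : ℕ) : ℝ) := by
    exact_mod_cast Set.ncard_le_ncard hsub hfin
  refine h1.trans (hcard.trans (Real.exp_le_exp.2 ?_))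
  push_cast
  have h2 : (0 : ℝ) ≤ S.card := Nat.cast_nonneg _
  have h3 : 0 ≤ C * (1 + Real.log 3) * S.card := by positivity
  nlinarith

open Classical in
theorem block (K : Type*) [Field K] [NumberField K] :
    ∃ C δ : ℝ, 0 < C ∧ 0 < δ ∧ δ < 1 / 2 ∧ ∀ (T V : Finset (HeightOneSpectrum (𝓞 K))) (j : ℕ),
      (∀ v ∈ V, v ∉ T ∧ ln v < j + 1 ∧ Cond (K := K) (insert v T)) →
      (V.card : ℝ) * Real.exp (-j) ≤ Real.exp (C * (T.card + 1) - ((j : ℝ) + 1) ^ δ) := by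
  obtain ⟨C, δ, hC, hδ, hδ2, hI⟩ := theoremI K
  obtain ⟨C1, hC1, hP⟩ := plc_card_le K
  set A : ℝ := Real.log (max 1 C1) with hA
  have hA0 : 0 ≤ A := Real.log_nonneg (le_max_left _ _)
  refine ⟨A + 2 + C, δ, by positivity, hδ, hδ2, fun T V j hV => ?_⟩
  rcases Finset.eq_empty_or_nonempty V with rfl | hne
  · simp only [Finset.card_empty, Nat.cast_zero, zero_mul]
    exact (Real.exp_pos _).le
  have hcpos : (0 : ℝ) < V.card := by exact_mod_cast hne.card_pos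
  have hj : (0 : ℝ) ≤ j := Nat.cast_nonneg _
  have hnorm : ∀ v ∈ V, (Ideal.absNorm v.asIdeal : ℝ) ≤ Real.exp ((j : ℝ) + 1) := by
    intro v hv
    have h1 := (hV v hv).2.1
    have h2 : (0 : ℝ) < Ideal.absNorm v.asIdeal := by linarith [one_lt_norm v]
    rw [← Real.log_le_iff_le_exp h2]
    exact h1.le
  have h2P : (2 : ℝ) ≤ Real.exp ((j : ℝ) + 1) := by
    have := Real.add_one_le_exp ((j : ℝ) + 1)
    linarith
  have hb1 := hI T V (Real.exp ((j : ℝ) + 1)) h2P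
    (fun v hv => ⟨(hV v hv).1, hnorm v hv, (hV v hv).2.2⟩)
  rw [Real.log_exp] at hb1
  have hb2 : (V.card : ℝ) ≤ C1 * Real.exp ((j : ℝ) + 1) := by
    refine le_trans ?_ (hP _ (Real.exp_pos _).le)
    have : V ⊆ plc K (Real.exp ((j : ℝ) + 1)) := fun v hv => mem_plc.2 (hnorm v hv)
    exact_mod_cast Finset.card_le_card this
  have hl1 : Real.log V.card ≤ C * (T.card + 1) * ((j : ℝ) + 1) ^ (1 - δ) := by
    have := Real.log_le_log hcpos hb1
    rwa [Real.log_exp] at this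
  have hl2 : Real.log V.card ≤ A + (j + 1) := by
    have h3 : (V.card : ℝ) ≤ max 1 C1 * Real.exp ((j : ℝ) + 1) :=
      hb2.trans (mul_le_mul_of_nonneg_right (le_max_right _ _) (Real.exp_pos _).le)
    have := Real.log_le_log hcpos h3
    rw [Real.log_mul (by positivity) (Real.exp_pos _).ne', Real.log_exp] at this
    exact this
  set θ : ℝ := ((j : ℝ) + 1) ^ (-(1 - δ)) with hθ
  have hj1 : (1 : ℝ) ≤ (j : ℝ) + 1 := by linarith
  have hj0 : (0 : ℝ) < (j : ℝ) + 1 := by linarith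
  have hθ0 : 0 < θ := Real.rpow_pos_of_pos hj0 _
  have hθ1 : θ ≤ 1 := Real.rpow_le_one_of_one_le_of_nonpos hj1 (by linarith)
  have hθa : θ * ((j : ℝ) + 1) ^ (1 - δ) = 1 := by
    rw [hθ, ← Real.rpow_add hj0]
    simp
  have hθb : θ * ((j : ℝ) + 1) = ((j : ℝ) + 1) ^ δ := by
    rw [hθ]
    nth_rewrite 2 [← Real.rpow_one ((j : ℝ) + 1)]
    rw [← Real.rpow_add hj0]
    congr 1
    ring
  have hT : (0 : ℝ) ≤ T.card := Nat.cast_nonneg _
  have key : Real.log V.card - j ≤ (A + 2 + C) * (T.card + 1) - ((j : ℝ) + 1) ^ δ := by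
    have e1 : (1 - θ) * (Real.log V.card - j) ≤ (1 - θ) * (A + 1) :=
      mul_le_mul_of_nonneg_left (by linarith) (by linarith)
    have e2 : θ * (Real.log V.card - j) ≤
        θ * (C * (T.card + 1) * ((j : ℝ) + 1) ^ (1 - δ) - j) :=
      mul_le_mul_of_nonneg_left (by linarith) hθ0.le
    have e3 : θ * (C * (T.card + 1) * ((j : ℝ) + 1) ^ (1 - δ) - j) =
        C * (T.card + 1) - (((j : ℝ) + 1) ^ δ - θ) := by
      rw [← hθb]
      calc θ * (C * (T.card + 1) * ((j : ℝ) + 1) ^ (1 - δ) - j)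
          = C * (T.card + 1) * (θ * ((j : ℝ) + 1) ^ (1 - δ)) - θ * j := by ring
        _ = C * (T.card + 1) - (θ * ((j : ℝ) + 1) - θ) := by rw [hθa]; ring
    have e4 : (1 - θ) * (A + 1) ≤ A + 1 := by nlinarith
    have e5 : (A + 2) * T.card ≥ 0 := by positivity
    nlinarith
  calc (V.card : ℝ) * Real.exp (-j) = Real.exp (Real.log V.card - j) := by
        rw [sub_eq_add_neg, Real.exp_add, Real.exp_log hcpos]
    _ ≤ _ := Real.exp_le_exp.2 key

end Pool.Agent.TMS
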