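import Mathlib
import Pool.Agent.TMS.IdDefs
import Pool.Agent.GLFour.Zupper

/-!
# MertUp (size 3)

Let `s = 1 + 1 / (j + 1)`. For `N v ≤ exp (j + 1)`: `N v ^ (s - 1) ≤ exp 1`, so `1 / N v ≤ exp 1 * N v ^ (-s)`.
`Pool.Agent.GLFour.Zupper_primes`: `∏ (1 + N v ^ (-s)) ≤ zt K s`, so `∑ log (1 + N v ^ (-s)) ≤ log (zt K s)`, and
`x ≤ 2 log (1 + x)` for `0 ≤ x ≤ 1`. `zeta_bounds` (`GLFour/Zlim.lean`): `log (zt K s) ≤ log (1 / (s - 1)) + C
= log (j + 1) + C` for `s ≤ s0`; for the finitely many other `j` enlarge the constant.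
-/

namespace Pool.Agent.TMS

open NumberField IsDedekindDomain Pool.Agent.H7.Abc Pool.Agent.AbcE

/-- The sum is bounded by the logarithm of the zeta function. -/
private theorem MertUp_zeta (K : Type*) [Field K] [NumberField K] (j : ℕ) :
    ∑ v ∈ plc K (Real.exp (j + 1)), (1 : ℝ) / Ideal.absNorm v.asIdeal ≤
      Real.exp 1 * 2 * Real.log (Pool.Agent.GLFour.zt K (1 + 1 / ((j : ℝ) + 1))) := by
  classical
  set s : ℝ := 1 + 1 / ((j : ℝ) + 1) with hs
  have hj : (0 : ℝ) < (j : ℝ) + 1 := by positivity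
  have hs1 : 1 < s := by
    rw [hs]
    have : 0 < 1 / ((j : ℝ) + 1) := by positivity
    linarith
  have hterm : ∀ v ∈ plc K (Real.exp (j + 1)), (1 : ℝ) / Ideal.absNorm v.asIdeal ≤
      Real.exp 1 * 2 * Real.log (1 + (Ideal.absNorm v.asIdeal : ℝ) ^ (-s)) := by
    intro v hv
    rw [mem_plc] at hv
    have hN := two_le_norm v
    have hN0 : (0 : ℝ) < Ideal.absNorm v.asIdeal := by linarith
    set N : ℝ := ((Ideal.absNorm v.asIdeal : ℕ) : ℝ) with hNdef
    have h1 : (1 : ℝ) / N = N ^ (-s) * N ^ (1 / ((j : ℝ) + 1)) := by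
      rw [← Real.rpow_add hN0, one_div N, ← Real.rpow_neg_one]
      congr 1
      rw [hs]
      ring
    have h2 : N ^ (1 / ((j : ℝ) + 1)) ≤ Real.exp 1 := by
      have h3 : N ^ (1 / ((j : ℝ) + 1)) ≤ (Real.exp (j + 1)) ^ (1 / ((j : ℝ) + 1)) :=
        Real.rpow_le_rpow hN0.le hv (by positivity)
      rw [← Real.exp_mul, mul_one_div_cancel hj.ne'] at h3
      exact h3
    have hx0 : 0 < N ^ (-s) := Real.rpow_pos_of_pos hN0 _
    have hx1 : N ^ (-s) ≤ 1 := Real.rpow_le_one_of_one_le_of_nonpos (by linarith) (by linarith)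
    have h4 : N ^ (-s) ≤ 2 * Real.log (1 + N ^ (-s)) := by
      set x : ℝ := N ^ (-s)
      have h5 := Real.le_log_one_add_of_nonneg hx0.le
      have h6 : x / 2 ≤ 2 * x / (x + 2) := by
        rw [div_le_div_iff₀ (by norm_num) (by linarith)]
        nlinarith
      linarith
    rw [h1]
    calc N ^ (-s) * N ^ (1 / ((j : ℝ) + 1)) ≤ N ^ (-s) * Real.exp 1 :=
          mul_le_mul_of_nonneg_left h2 hx0.le
      _ = Real.exp 1 * N ^ (-s) := mul_comm _ _
      _ ≤ Real.exp 1 * (2 * Real.log (1 + N ^ (-s))) :=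
          mul_le_mul_of_nonneg_left h4 (Real.exp_pos 1).le
      _ = _ := by ring
  refine (Finset.sum_le_sum hterm).trans ?_
  rw [← Finset.mul_sum]
  refine mul_le_mul_of_nonneg_left ?_ (by positivity)
  have hinj : Set.InjOn (fun v : HeightOneSpectrum (𝓞 K) => v.asIdeal)
      (plc K (Real.exp (j + 1)) : Set (HeightOneSpectrum (𝓞 K))) := by
    intro v _ w _ h
    exact HeightOneSpectrum.ext h
  have h1 := Pool.Agent.GLFour.Zupper_primes K hs1
    ((plc K (Real.exp (j + 1))).image (fun v : HeightOneSpectrum (𝓞 K) => v.asIdeal))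
    (by
      intro p hp
      obtain ⟨v, -, rfl⟩ := Finset.mem_image.1 hp
      exact v.prime)
  rw [Finset.prod_image hinj] at h1
  rw [← Real.log_prod]
  · refine Real.log_le_log (Finset.prod_pos fun v _ => ?_) h1
    positivity
  · intro v _
    positivity

theorem mert_up (K : Type*) [Field K] [NumberField K] :
    ∃ C : ℝ, 0 < C ∧ ∀ j : ℕ,
      ∑ v ∈ plc K (Real.exp (j + 1)), (1 : ℝ) / Ideal.absNorm v.asIdeal ≤
        C * Real.log (j + 2) := by
  obtain ⟨C₁, s₀, hs1, -, hz⟩ := Pool.Agent.GLFour.zeta_bounds K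
  obtain ⟨J, hJ⟩ := exists_nat_gt (1 / (s₀ - 1))
  have hs0 : 0 < s₀ - 1 := by linarith
  have hl2 : 0 < Real.log 2 := Real.log_pos (by norm_num)
  set A : ℝ := Real.log ((J : ℝ) + 1) + |C₁| with hA
  have hA0 : 0 ≤ A := by
    have : 0 ≤ Real.log ((J : ℝ) + 1) := Real.log_nonneg (by
      have : (0 : ℝ) ≤ J := Nat.cast_nonneg J
      linarith)
    have := abs_nonneg C₁
    linarith
  refine ⟨Real.exp 1 * 2 * (1 + A / Real.log 2), by positivity, fun j => ?_⟩
  have hj0 : (0 : ℝ) ≤ j := Nat.cast_nonneg j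
  have hJ0 : (0 : ℝ) ≤ J := Nat.cast_nonneg J
  set m : ℕ := j + J with hm
  have hmr : (m : ℝ) = j + J := by rw [hm]; push_cast; ring
  have h1 : ∑ v ∈ plc K (Real.exp (j + 1)), (1 : ℝ) / Ideal.absNorm v.asIdeal ≤
      ∑ v ∈ plc K (Real.exp (m + 1)), (1 : ℝ) / Ideal.absNorm v.asIdeal := by
    refine Finset.sum_le_sum_of_subset_of_nonneg ?_ fun v _ _ => by positivity
    intro v hv
    rw [mem_plc] at hv ⊢
    refine hv.trans (Real.exp_le_exp.2 ?_)
    rw [hmr]
    linarith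
  have h2 := MertUp_zeta K m
  have h3 := hz (1 + 1 / ((m : ℝ) + 1)) (by
    have : 0 < 1 / ((m : ℝ) + 1) := by positivity
    linarith) (by
    have h4 : 1 / ((m : ℝ) + 1) ≤ s₀ - 1 := by
      rw [div_le_iff₀ (by positivity)]
      rw [div_lt_iff₀ hs0] at hJ
      nlinarith
    linarith)
  have h4 : Real.log (Pool.Agent.GLFour.zt K (1 + 1 / ((m : ℝ) + 1))) ≤
      Real.log ((m : ℝ) + 1) + |C₁| := by
    have h5 := (abs_le.1 h3.2).2
    have h6 : 1 / ((1 + 1 / ((m : ℝ) + 1)) - 1) = (m : ℝ) + 1 := by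
      rw [add_sub_cancel_left, one_div_one_div]
    rw [h6] at h5
    have := le_abs_self C₁
    linarith
  have h5 : Real.log ((m : ℝ) + 1) ≤ Real.log ((j : ℝ) + 2) + Real.log ((J : ℝ) + 1) := by
    rw [← Real.log_mul (by positivity) (by positivity)]
    refine Real.log_le_log (by positivity) ?_
    rw [hmr]
    nlinarith
  have h6 : Real.log 2 ≤ Real.log ((j : ℝ) + 2) :=
    Real.log_le_log (by norm_num) (by linarith)
  have h7 : A ≤ A / Real.log 2 * Real.log ((j : ℝ) + 2) := by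
    rw [div_mul_eq_mul_div, le_div_iff₀ hl2]
    exact mul_le_mul_of_nonneg_left h6 hA0
  calc ∑ v ∈ plc K (Real.exp (j + 1)), (1 : ℝ) / Ideal.absNorm v.asIdeal
      ≤ Real.exp 1 * 2 * Real.log (Pool.Agent.GLFour.zt K (1 + 1 / ((m : ℝ) + 1))) :=
        h1.trans h2
    _ ≤ Real.exp 1 * 2 * (Real.log ((j : ℝ) + 2) + A / Real.log 2 * Real.log ((j : ℝ) + 2)) := by
        refine mul_le_mul_of_nonneg_left ?_ (by positivity)
        linarith
    _ = _ := by ring

end Pool.Agent.TMS
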