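import Mathlib
import Pool.Agent.TMS.Block
import Pool.Agent.TMS.MertUp
import Pool.Agent.TMS.Mob

/-!
# Series (size 4)

Group the `x ∈ F` by `S = supp x` (a finset, `supp_finite`); `rad x = LN S = ∑_{v ∈ S} ln v` (`rad_eq`); each
`S` has at most `exp (C1 (S.card + 1))` elements `x` (`supp_card`). `S = ∅` contributes at most `exp C1`.
For `S ≠ ∅` let `v0 ∈ S` have maximal `ln`, `T = S \ {v0}`, `j = ⌊ln v0⌋`; `S ↦ (j, T, v0)` is injective
(`S = insert v0 T`), `T ⊆ plc K (exp (j + 1))`. `c = δ / 2` with `δ` from `block`.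
`LN S ≤ (T.card + 1) (j + 1)` and `LN S ≥ LN T + j`, so
`exp ((LN S) ^ c - LN S) ≤ exp (((T.card + 1) (j + 1)) ^ c) exp (-LN T) exp (-j)`, and
`(T.card + 1) ^ c (j + 1) ^ c ≤ (1/2) (j + 1) ^ δ + (1/2) (T.card + 1)`.
Sum over the `v0` for given `j`, `T`: `block`: `card * exp (-j) ≤ exp (C (T.card + 1) - (j + 1) ^ δ)`.
So the total is at most `exp C1 + ∑_j ∑_T exp (-LN T) exp (C2 (T.card + 1)) exp (-(1/2) (j + 1) ^ δ)`, and
`∑_{T ⊆ plc K (exp (j+1))} exp (-LN T) exp (C2 T.card) = ∏_v (1 + exp C2 / N v) ≤ exp (exp C2 ∑ 1 / N v)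
≤ exp (C3 log (j + 2))` (`Finset.prod_one_add`, `mert_up`). Finally
`∑_j exp (C2 + C3 log (j + 2) - (1/2) (j + 1) ^ δ) < ∞`.
-/

namespace Pool.Agent.TMS

open NumberField IsDedekindDomain Pool.Agent.H7.Abc Pool.Agent.AbcE

private theorem Series_young (t y δ : ℝ) (ht : 1 ≤ t) (hy : 0 < y) (hδ1 : δ ≤ 1) :
    (t * y) ^ (δ / 2) ≤ (1 / 2) * y ^ δ + (1 / 2) * t := by
  have ht0 : 0 < t := by linarith
  rw [Real.mul_rpow ht0.le hy.le]
  have h1 : (t ^ (δ / 2)) ^ 2 ≤ t := by
    rw [← Real.rpow_natCast (t ^ (δ / 2)) 2, ← Real.rpow_mul ht0.le]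
    calc t ^ (δ / 2 * ((2 : ℕ) : ℝ)) ≤ t ^ (1 : ℝ) :=
          Real.rpow_le_rpow_of_exponent_le ht (by push_cast; linarith)
      _ = t := Real.rpow_one _
  have h2 : (y ^ (δ / 2)) ^ 2 = y ^ δ := by
    rw [← Real.rpow_natCast (y ^ (δ / 2)) 2, ← Real.rpow_mul hy.le]
    congr 1
    push_cast
    ring
  nlinarith [sq_nonneg (t ^ (δ / 2) - y ^ (δ / 2))]

private theorem Series_summable (A B δ : ℝ) (hB : 0 ≤ B) (hδ : 0 < δ) :
    Summable (fun j : ℕ => Real.exp (A + B * Real.log ((j : ℝ) + 2) -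
      (1 / 2) * ((j : ℝ) + 1) ^ δ)) := by
  set n : ℕ := ⌈(B + 2) / δ⌉₊ with hn
  have hn1 : B + 2 ≤ δ * n := by
    have := Nat.le_ceil ((B + 2) / δ)
    rw [← hn, div_le_iff₀ hδ] at this
    linarith
  set M : ℝ := Real.exp A * (2 : ℝ) ^ B * ((n.factorial : ℝ) / (1 / 2) ^ n) with hM
  have hM0 : 0 ≤ M := by positivity
  have hs : Summable (fun j : ℕ => M * (1 / ((j : ℝ) + 1) ^ 2)) := by
    apply Summable.mul_left
    have h1 : Summable (fun j : ℕ => 1 / ((j : ℝ)) ^ 2) := by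
      simp
    have h2 := (summable_nat_add_iff 1).mpr h1
    simpa using h2
  refine Summable.of_nonneg_of_le (fun j => (Real.exp_pos _).le) (fun j => ?_) hs
  have hj0 : (0 : ℝ) ≤ j := Nat.cast_nonneg _
  have hj1 : (0 : ℝ) < (j : ℝ) + 1 := by linarith
  have hj2 : (0 : ℝ) < (j : ℝ) + 2 := by linarith
  set y : ℝ := (1 / 2) * ((j : ℝ) + 1) ^ δ with hy
  have hy0 : 0 < y := by positivity
  have h1 : y ^ n / n.factorial ≤ Real.exp y := Real.pow_div_factorial_le_exp y hy0.le n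
  have h2 : (1 / 2 : ℝ) ^ n * ((j : ℝ) + 1) ^ (B + 2) ≤ y ^ n := by
    rw [hy, mul_pow]
    refine mul_le_mul_of_nonneg_left ?_ (by positivity)
    rw [← Real.rpow_natCast (((j : ℝ) + 1) ^ δ) n, ← Real.rpow_mul hj1.le]
    exact Real.rpow_le_rpow_of_exponent_le (by linarith) hn1
  have hfac : (0 : ℝ) < n.factorial := by exact_mod_cast Nat.factorial_pos n
  have h3 : (1 / 2 : ℝ) ^ n * ((j : ℝ) + 1) ^ (B + 2) / n.factorial ≤ Real.exp y :=
    (div_le_div_of_nonneg_right h2 hfac.le).trans h1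
  have h4 : Real.exp (-y) ≤ n.factorial / ((1 / 2 : ℝ) ^ n * ((j : ℝ) + 1) ^ (B + 2)) := by
    rw [Real.exp_neg, ← one_div, div_le_div_iff₀ (Real.exp_pos _) (by positivity)]
    rw [div_le_iff₀ hfac] at h3
    linarith
  have h5 : Real.exp (B * Real.log ((j : ℝ) + 2)) = ((j : ℝ) + 2) ^ B := by
    rw [Real.rpow_def_of_pos hj2]
    ring_nf
  have h6 : ((j : ℝ) + 2) ^ B ≤ 2 ^ B * ((j : ℝ) + 1) ^ B := by
    rw [← Real.mul_rpow (by norm_num) hj1.le]
    exact Real.rpow_le_rpow hj2.le (by linarith) hB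
  have h7 : ((j : ℝ) + 1) ^ (B + 2) = ((j : ℝ) + 1) ^ B * ((j : ℝ) + 1) ^ 2 := by
    rw [Real.rpow_add hj1]
    norm_num
  have e : A + B * Real.log ((j : ℝ) + 2) - y = A + B * Real.log ((j : ℝ) + 2) + (-y) := by ring
  rw [e, Real.exp_add, Real.exp_add, h5]
  calc Real.exp A * ((j : ℝ) + 2) ^ B * Real.exp (-y)
      ≤ Real.exp A * (2 ^ B * ((j : ℝ) + 1) ^ B) *
        (n.factorial / ((1 / 2 : ℝ) ^ n * ((j : ℝ) + 1) ^ (B + 2))) := by
        refine mul_le_mul ?_ h4 (Real.exp_pos _).le (by positivity)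
        exact mul_le_mul_of_nonneg_left h6 (Real.exp_pos _).le
    _ = M * (1 / ((j : ℝ) + 1) ^ 2) := by
        rw [h7, hM]
        have h8 : ((j : ℝ) + 1) ^ B ≠ 0 := (Real.rpow_pos_of_pos hj1 _).ne'
        field_simp

open Classical in
private theorem Series_prod (K : Type*) [Field K] [NumberField K] (A : ℝ)
    (U : Finset (HeightOneSpectrum (𝓞 K))) :
    ∑ T ∈ U.powerset, Real.exp (A * T.card - ∑ v ∈ T, ln v) ≤
      Real.exp (Real.exp A * ∑ v ∈ U, (1 : ℝ) / Ideal.absNorm v.asIdeal) := by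
  have h1 : ∀ T ∈ U.powerset, Real.exp (A * T.card - ∑ v ∈ T, ln v) =
      ∏ v ∈ T, (Real.exp A * ((1 : ℝ) / Ideal.absNorm v.asIdeal)) := by
    intro T _
    have h2 : A * (T.card : ℝ) - ∑ v ∈ T, ln v = ∑ v ∈ T, (A - ln v) := by
      rw [Finset.sum_sub_distrib, Finset.sum_const, nsmul_eq_mul]
      ring
    rw [h2, Real.exp_sum]
    refine Finset.prod_congr rfl fun v _ => ?_
    have hN : (0 : ℝ) < Ideal.absNorm v.asIdeal := by
      have := one_lt_norm v
      linarith
    rw [Real.exp_sub]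
    unfold ln
    rw [Real.exp_log hN]
    ring
  rw [Finset.sum_congr rfl h1, ← Finset.prod_one_add, Finset.mul_sum, Real.exp_sum]
  refine Finset.prod_le_prod (fun v _ => by positivity) fun v _ => ?_
  have := Real.add_one_le_exp (Real.exp A * ((1 : ℝ) / Ideal.absNorm v.asIdeal))
  linarith

theorem series (K : Type*) [Field K] [NumberField K] :
    ∃ c W : ℝ, 0 < c ∧ c < 1 ∧ ∀ F : Finset K, (∀ x ∈ F, x ≠ 0 ∧ x ≠ 1) →
      ∑ x ∈ F, Real.exp ((rad x) ^ c - rad x) ≤ W := by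
  classical
  obtain ⟨C1, hC1, hsc⟩ := supp_card K
  obtain ⟨C, δ, hC, hδ, hδ2, hblock⟩ := block K
  obtain ⟨C3, hC3, hmert⟩ := mert_up K
  set A : ℝ := C + 2 * C1 + 1 with hA
  set B : ℝ := Real.exp A * C3 with hB
  have hB0 : 0 ≤ B := by positivity
  have hsum := Series_summable A B δ hB0 hδ
  set g : ℕ → ℝ := fun j => Real.exp (A + B * Real.log ((j : ℝ) + 2) -
      (1 / 2) * ((j : ℝ) + 1) ^ δ) with hg
  refine ⟨δ / 2, Real.exp C1 + ∑' j, g j, by positivity, by linarith, ?_⟩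
  intro F hF
  have hc0 : δ / 2 ≠ 0 := by positivity
  -- supports
  have hsup : ∀ x ∈ F, ∃ S : Finset (HeightOneSpectrum (𝓞 K)),
      supp x = (S : Set (HeightOneSpectrum (𝓞 K))) := by
    intro x hx
    obtain ⟨h0, h1⟩ := hF x hx
    exact ⟨(supp_finite h0 h1).toFinset, (Set.Finite.coe_toFinset _).symm⟩
  choose! S hS using hsup
  set f : ℝ → ℝ := fun y => Real.exp (y ^ (δ / 2) - y) with hf
  set LN : Finset (HeightOneSpectrum (𝓞 K)) → ℝ := fun T => ∑ v ∈ T, ln v with hLN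
  have hln0 : ∀ v : HeightOneSpectrum (𝓞 K), 0 ≤ ln v := fun v =>
    Real.log_nonneg (one_lt_norm v).le
  have hstep1 : ∑ x ∈ F, Real.exp ((rad x) ^ (δ / 2) - rad x) ≤
      ∑ T ∈ F.image S, Real.exp (C1 * (T.card + 1)) * f (LN T) := by
    have h1 : ∀ x ∈ F, Real.exp ((rad x) ^ (δ / 2) - rad x) = f (LN (S x)) := by
      intro x hx
      obtain ⟨h0, h1⟩ := hF x hx
      rw [rad_eq h0 h1 (S x) (hS x hx)]
    rw [Finset.sum_congr rfl h1, ← Finset.sum_fiberwise_of_maps_to
      (fun x hx => Finset.mem_image_of_mem S hx)]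
    refine Finset.sum_le_sum fun T _ => ?_
    have h2 : ∀ x ∈ F.filter (fun x => S x = T), f (LN (S x)) = f (LN T) := by
      intro x hx
      rw [(Finset.mem_filter.mp hx).2]
    rw [Finset.sum_congr rfl h2, Finset.sum_const, nsmul_eq_mul]
    refine mul_le_mul_of_nonneg_right ?_ (Real.exp_pos _).le
    obtain ⟨hfin, hcard⟩ := hsc T
    refine le_trans ?_ hcard
    have hsub : ((F.filter (fun x => S x = T) : Finset K) : Set K) ⊆
        {x : K | x ≠ 0 ∧ x ≠ 1 ∧ supp x = (T : Set (HeightOneSpectrum (𝓞 K)))} := by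
      intro x hx
      obtain ⟨hx1, hx2⟩ := Finset.mem_filter.mp (Finset.mem_coe.mp hx)
      refine ⟨(hF x hx1).1, (hF x hx1).2, ?_⟩
      rw [hS x hx1, hx2]
    rw [← Set.ncard_coe_finset]
    exact_mod_cast Set.ncard_le_ncard hsub hfin
  refine hstep1.trans ?_
  -- split off the empty set
  set SS := (F.image S).filter (fun T => T.Nonempty) with hSS
  have hstep2 : ∑ T ∈ F.image S, Real.exp (C1 * (T.card + 1)) * f (LN T) ≤
      Real.exp C1 + ∑ T ∈ SS, Real.exp (C1 * (T.card + 1)) * f (LN T) := by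
    rw [← Finset.sum_filter_add_sum_filter_not (F.image S) (fun T => T.Nonempty), add_comm]
    refine add_le_add ?_ le_rfl
    have h1 : (F.image S).filter (fun T => ¬ T.Nonempty) ⊆ {∅} := by
      intro T hT
      rw [Finset.mem_singleton]
      exact Finset.not_nonempty_iff_eq_empty.mp (Finset.mem_filter.mp hT).2
    refine (Finset.sum_le_sum_of_subset_of_nonneg h1 fun T _ _ => by positivity).trans ?_
    rw [Finset.sum_singleton]
    simp only [hf, hLN, Finset.card_empty, Finset.sum_empty, Real.zero_rpow hc0]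
    simp
  refine hstep2.trans (add_le_add le_rfl ?_)
  have hg0 : ∀ j, 0 ≤ g j := fun j => (Real.exp_pos _).le
  rcases isEmpty_or_nonempty (HeightOneSpectrum (𝓞 K)) with he | hne
  · have h1 : SS = ∅ := by
      apply Finset.eq_empty_of_forall_notMem
      intro T hT
      obtain ⟨v, -⟩ := (Finset.mem_filter.mp hT).2
      exact he.elim v
    rw [h1, Finset.sum_empty]
    exact tsum_nonneg hg0
  -- the maximal place
  have hmax : ∀ T ∈ SS, ∃ v ∈ T, ∀ w ∈ T, ln w ≤ ln v := fun T hT =>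
    Finset.exists_max_image T ln (Finset.mem_filter.mp hT).2
  choose! v0 hv0 hv0max using hmax
  set jj : Finset (HeightOneSpectrum (𝓞 K)) → ℕ := fun T => ⌊ln (v0 T)⌋₊ with hjj
  have hinner : ∀ j : ℕ, ∀ T : Finset (HeightOneSpectrum (𝓞 K)),
      ∑ U ∈ SS.filter (fun U => jj U = j ∧ U.erase (v0 U) = T),
        Real.exp (C1 * (U.card + 1)) * f (LN U) ≤
      Real.exp (A - (1 / 2) * ((j : ℝ) + 1) ^ δ) * Real.exp (A * T.card - LN T) := by
    intro j T
    set Fb := SS.filter (fun U => jj U = j ∧ U.erase (v0 U) = T) with hFb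
    have hj0 : (0 : ℝ) ≤ j := Nat.cast_nonneg _
    have hT0 : (0 : ℝ) ≤ T.card := Nat.cast_nonneg _
    have hmem : ∀ U ∈ Fb, U ∈ SS ∧ jj U = j ∧ U.erase (v0 U) = T := fun U hU =>
      Finset.mem_filter.mp hU
    have hlnj : ∀ U ∈ Fb, (j : ℝ) ≤ ln (v0 U) ∧ ln (v0 U) < j + 1 := by
      intro U hU
      obtain ⟨-, h2, -⟩ := hmem U hU
      constructor
      · rw [← h2]
        exact Nat.floor_le (hln0 _)
      · rw [← h2]
        exact Nat.lt_floor_add_one _
    have hins : ∀ U ∈ Fb, insert (v0 U) T = U := by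
      intro U hU
      obtain ⟨h1, -, h3⟩ := hmem U hU
      rw [← h3, Finset.insert_erase (hv0 U h1)]
    have hnot : ∀ U ∈ Fb, v0 U ∉ T := by
      intro U hU
      obtain ⟨-, -, h3⟩ := hmem U hU
      rw [← h3]
      exact Finset.notMem_erase _ _
    have hinj : Set.InjOn v0 (Fb : Set _) := by
      intro U hU U' hU' h
      rw [← hins U hU, ← hins U' hU', h]
    have hb := hblock T (Fb.image v0) j (by
      intro v hv
      obtain ⟨U, hU, rfl⟩ := Finset.mem_image.mp hv
      refine ⟨hnot U hU, (hlnj U hU).2, ?_⟩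
      rw [hins U hU]
      obtain ⟨x, hx, hxU⟩ := Finset.mem_image.mp (Finset.mem_filter.mp (hmem U hU).1).1
      exact ⟨x, (hF x hx).1, (hF x hx).2, by rw [hS x hx, hxU]⟩)
    rw [Finset.card_image_of_injOn hinj] at hb
    have hterm : ∀ U ∈ Fb, Real.exp (C1 * (U.card + 1)) * f (LN U) ≤
        Real.exp (-(j : ℝ)) * Real.exp (C1 * (T.card + 2) + (1 / 2) * ((j : ℝ) + 1) ^ δ +
          (1 / 2) * (T.card + 1) - LN T) := by
      intro U hU
      have hcU : (U.card : ℝ) = T.card + 1 := by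
        rw [← hins U hU, Finset.card_insert_of_notMem (hnot U hU)]
        push_cast
        ring
      have hLU : LN U = LN T + ln (v0 U) := by
        simp only [hLN]
        conv_lhs => rw [← hins U hU]
        rw [Finset.sum_insert (hnot U hU)]
        ring
      have hLT0 : 0 ≤ LN T := Finset.sum_nonneg fun v _ => hln0 v
      have hLT : LN T ≤ T.card * ((j : ℝ) + 1) := by
        have h1 : ∀ v ∈ T, ln v ≤ (j : ℝ) + 1 := by
          intro v hv
          have h2 : v ∈ U := by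
            rw [← hins U hU]
            exact Finset.mem_insert_of_mem hv
          exact (hv0max U (hmem U hU).1 v h2).trans (hlnj U hU).2.le
        have := Finset.sum_le_card_nsmul T ln _ h1
        rwa [nsmul_eq_mul] at this
      have hLU2 : LN U ≤ ((T.card : ℝ) + 1) * ((j : ℝ) + 1) := by
        rw [hLU]
        have := (hlnj U hU).2
        linarith
      have hLU0 : 0 ≤ LN U := by
        rw [hLU]
        have := hln0 (v0 U)
        linarith
      have h3 : (LN U) ^ (δ / 2) ≤ (1 / 2) * ((j : ℝ) + 1) ^ δ + (1 / 2) * (T.card + 1) :=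
        (Real.rpow_le_rpow hLU0 hLU2 (by positivity)).trans
          (Series_young _ _ δ (by linarith) (by linarith) (by linarith))
      simp only [hf]
      rw [← Real.exp_add, ← Real.exp_add]
      apply Real.exp_le_exp.mpr
      rw [hcU]
      have h4 := (hlnj U hU).1
      linarith
    have h1 := Finset.sum_le_card_nsmul Fb _ _ hterm
    rw [nsmul_eq_mul] at h1
    refine h1.trans ?_
    rw [← mul_assoc]
    refine (mul_le_mul_of_nonneg_right hb (Real.exp_pos _).le).trans ?_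
    rw [← Real.exp_add, ← Real.exp_add]
    apply Real.exp_le_exp.mpr
    have h2 : 0 ≤ C1 * T.card := by positivity
    have h3 : 0 ≤ C * T.card := by positivity
    rw [hA]
    linarith
  have hj : ∀ j : ℕ, ∑ U ∈ SS.filter (fun U => jj U = j),
      Real.exp (C1 * (U.card + 1)) * f (LN U) ≤ g j := by
    intro j
    have hmaps : ∀ U ∈ SS.filter (fun U => jj U = j),
        U.erase (v0 U) ∈ (plc K (Real.exp (j + 1))).powerset := by
      intro U hU
      obtain ⟨h1, h2⟩ := Finset.mem_filter.mp hU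
      rw [Finset.mem_powerset]
      intro v hv
      rw [mem_plc]
      have h3 : ln v ≤ ln (v0 U) := hv0max U h1 v (Finset.mem_of_mem_erase hv)
      have h4 : ln (v0 U) < j + 1 := by
        rw [← h2]
        exact Nat.lt_floor_add_one _
      have hN : (0 : ℝ) < Ideal.absNorm v.asIdeal := by
        have := one_lt_norm v
        linarith
      rw [← Real.exp_log hN]
      exact Real.exp_le_exp.mpr (h3.trans h4.le)
    rw [← Finset.sum_fiberwise_of_maps_to hmaps]
    have h1 : ∀ T ∈ (plc K (Real.exp (j + 1))).powerset,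
        ∑ U ∈ (SS.filter (fun U => jj U = j)).filter (fun U => U.erase (v0 U) = T),
          Real.exp (C1 * (U.card + 1)) * f (LN U) ≤
        Real.exp (A - (1 / 2) * ((j : ℝ) + 1) ^ δ) * Real.exp (A * T.card - LN T) := by
      intro T _
      rw [Finset.filter_filter]
      exact hinner j T
    refine (Finset.sum_le_sum h1).trans ?_
    rw [← Finset.mul_sum]
    have h2 := Series_prod K A (plc K (Real.exp (j + 1)))
    have h3 : Real.exp (Real.exp A * ∑ v ∈ plc K (Real.exp (j + 1)),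
        (1 : ℝ) / Ideal.absNorm v.asIdeal) ≤ Real.exp (B * Real.log ((j : ℝ) + 2)) := by
      apply Real.exp_le_exp.mpr
      rw [hB, mul_assoc]
      exact mul_le_mul_of_nonneg_left (hmert j) (Real.exp_pos _).le
    refine (mul_le_mul_of_nonneg_left (h2.trans h3) (Real.exp_pos _).le).trans ?_
    rw [← Real.exp_add, hg]
    apply Real.exp_le_exp.mpr
    linarith
  rw [← Finset.sum_fiberwise_of_maps_to (fun U hU => Finset.mem_image_of_mem jj hU)]
  refine (Finset.sum_le_sum fun j _ => hj j).trans ?_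
  exact hsum.sum_le_tsum _ fun j _ => hg0 j

end Pool.Agent.TMS
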