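import Mathlib
import Pool.Agent.TMS.Series

/-!
# CorA (size 2)

`g(t) = t ^ c - t` satisfies `g(t) ≥ g(R) - 1` for `0 ≤ t ≤ R`: on `[1, ∞)` it is decreasing
(`t ^ c - s ^ c ≤ t - s` for `1 ≤ s ≤ t`, e.g. from `t ^ c = s ^ c (t/s) ^ c ≤ s ^ c + s ^ c (t/s - 1)` (Bernoulli,
`c ≤ 1`) `≤ s ^ c + (t - s)`), for `t < 1`: `g(t) ≥ -1`, `g(R) ≤ 0` if `R ≥ 1`, and if `R < 1` also
`g(R) ≤ 1 - ...`: check `g(t) ≥ g(R) - 1` directly: `t ≤ R < 1`: `g(t) ≥ 0` (`t ^ c ≥ t`) `≥ g(R) - 1`.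
So a finite set `F` of `x` with `rad x ≤ R` has `F.card * exp (R ^ c - R - 1) ≤ W` (`rad x ≥ 0`).
A set all of whose finite subsets have at most `N` elements is finite.
-/

namespace Pool.Agent.TMS

open NumberField IsDedekindDomain Pool.Agent.H7.Abc Pool.Agent.AbcE

private theorem corA_aux {c t R : ℝ} (hc0 : 0 < c) (hc1 : c < 1) (ht : 0 ≤ t) (htR : t ≤ R) :
    R ^ c - R - 1 ≤ t ^ c - t := by
  have hs : 0 ≤ R - t := by linarith
  have h1 : R ^ c ≤ t ^ c + (R - t) ^ c := by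
    have h := Real.rpow_add_le_add_rpow ht hs hc0.le hc1.le
    rwa [add_sub_cancel] at h
  have h2 : (R - t) ^ c ≤ 1 + (R - t) := by
    rcases le_total (R - t) 1 with h | h
    · have := Real.rpow_le_one hs h hc0.le
      linarith
    · have := Real.rpow_le_rpow_of_exponent_le h hc1.le
      rw [Real.rpow_one] at this
      linarith
  linarith

theorem corA (K : Type*) [Field K] [NumberField K] :
    ∃ C c : ℝ, 0 < C ∧ 0 < c ∧ c < 1 ∧ ∀ R : ℝ, 0 ≤ R →
      {x : K | x ≠ 0 ∧ x ≠ 1 ∧ rad x ≤ R}.Finite ∧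
      (({x : K | x ≠ 0 ∧ x ≠ 1 ∧ rad x ≤ R}.ncard : ℕ) : ℝ) ≤ C * Real.exp (R - R ^ c) := by
  obtain ⟨c, W, hc0, hc1, hW⟩ := series K
  have hW0 : 0 ≤ W := by
    have := hW ∅ (by simp)
    simpa using this
  refine ⟨(W + 1) * Real.exp 1, c, by positivity, hc0, hc1, fun R hR => ?_⟩
  set A : Set K := {x : K | x ≠ 0 ∧ x ≠ 1 ∧ rad x ≤ R} with hA
  have key : ∀ F : Finset K, (F : Set K) ⊆ A →
      (F.card : ℝ) ≤ (W + 1) * Real.exp 1 * Real.exp (R - R ^ c) := by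
    intro F hF
    have h1 := hW F (fun x hx => ⟨(hF hx).1, (hF hx).2.1⟩)
    have h2 : (F.card : ℝ) * Real.exp (R ^ c - R - 1) ≤
        ∑ x ∈ F, Real.exp ((rad x) ^ c - rad x) := by
      rw [← nsmul_eq_mul]
      refine Finset.card_nsmul_le_sum F _ _ fun x hx => ?_
      have hx' := hF hx
      have h0 : 0 ≤ rad x := by
        unfold rad
        have a1 := cnd_nonneg x
        have a2 := cnd_nonneg x⁻¹
        have a3 := cnd_nonneg (x - 1)
        linarith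
      exact Real.exp_le_exp.2 (corA_aux hc0 hc1 h0 hx'.2.2)
    have h3 : (F.card : ℝ) * Real.exp (R ^ c - R - 1) ≤ W + 1 := by linarith
    have e1 : Real.exp (R ^ c - R - 1) * (Real.exp 1 * Real.exp (R - R ^ c)) = 1 := by
      rw [← Real.exp_add, ← Real.exp_add]
      ring_nf
      exact Real.exp_zero
    calc (F.card : ℝ) = (F.card : ℝ) * Real.exp (R ^ c - R - 1) *
        (Real.exp 1 * Real.exp (R - R ^ c)) := by rw [mul_assoc, e1, mul_one]
      _ ≤ (W + 1) * (Real.exp 1 * Real.exp (R - R ^ c)) := by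
          exact mul_le_mul_of_nonneg_right h3 (by positivity)
      _ = _ := by ring
  have hfin : A.Finite := by
    by_contra hinf
    obtain ⟨F, hF, hc⟩ := Set.Infinite.exists_subset_card_eq hinf
      (⌊(W + 1) * Real.exp 1 * Real.exp (R - R ^ c)⌋₊ + 1)
    have h1 := key F hF
    rw [hc] at h1
    have h2 := Nat.lt_floor_add_one ((W + 1) * Real.exp 1 * Real.exp (R - R ^ c))
    push_cast at h1
    linarith
  refine ⟨hfin, ?_⟩
  have h1 := key hfin.toFinset (by rw [hfin.coe_toFinset])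
  rwa [← Set.ncard_eq_toFinset_card A hfin] at h1

end Pool.Agent.TMS
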