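import Mathlib
import Pool.Agent.TMS.CorA
import Pool.Agent.TMS.IdAsym

/-!
# CorU

On average over the ideals `I` of norm at most `X` the number of `x` with support in `I` and
`rad x > R` is `O(exp(-R ^ c))`.
-/

namespace Pool.Agent.TMS

open NumberField IsDedekindDomain Pool.Agent.H7.Abc Pool.Agent.AbcE

section
variable {K : Type*} [Field K] [NumberField K]

theorem corU_prime (v : HeightOneSpectrum (𝓞 K)) : Prime v.asIdeal :=
  (Ideal.prime_iff_isPrime v.ne_bot).2 v.isPrime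

open Classical in
theorem corU_dvd (S : Finset (HeightOneSpectrum (𝓞 K))) (I : Ideal (𝓞 K)) :
    (∏ v ∈ S, v.asIdeal) ∣ I ↔ ∀ v ∈ S, v.asIdeal ∣ I := by
  constructor
  · intro h v hv
    exact (Finset.dvd_prod_of_mem _ hv).trans h
  · intro h
    have h1 : ∏ v ∈ S, v.asIdeal = ∏ J ∈ S.image HeightOneSpectrum.asIdeal, J := by
      rw [Finset.prod_image]
      intro a _ b _ hab
      exact HeightOneSpectrum.ext hab
    rw [h1]
    refine Finset.prod_primes_dvd I ?_ ?_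
    · intro J hJ
      obtain ⟨v, -, rfl⟩ := Finset.mem_image.1 hJ
      exact corU_prime v
    · intro J hJ
      obtain ⟨v, hv, rfl⟩ := Finset.mem_image.1 hJ
      exact h v hv

theorem corU_norm (S : Finset (HeightOneSpectrum (𝓞 K))) :
    ((Ideal.absNorm (∏ v ∈ S, v.asIdeal) : ℕ) : ℝ) = Real.exp (∑ v ∈ S, ln v) := by
  rw [map_prod, Nat.cast_prod, Real.exp_sum]
  refine Finset.prod_congr rfl fun v _ => ?_
  unfold ln
  rw [Real.exp_log (by linarith [two_le_norm v])]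

theorem corU_ne (S : Finset (HeightOneSpectrum (𝓞 K))) : (∏ v ∈ S, v.asIdeal) ≠ ⊥ := by
  rw [← Ideal.zero_eq_bot]
  exact Finset.prod_ne_zero_iff.2 fun v _ => by rw [Ideal.zero_eq_bot]; exact v.ne_bot

theorem corU_fin {α : Type*} (S : Set α) (N : ℝ) (h : ∀ F : Finset α, (F : Set α) ⊆ S →
    (F.card : ℝ) ≤ N) : S.Finite ∧ (S.ncard : ℝ) ≤ N := by
  have hfin : S.Finite := by
    by_contra hinf
    obtain ⟨F, hF, hcard⟩ := (Set.not_finite.1 hinf).exists_subset_card_eq (⌊N⌋₊ + 1)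
    have h1 := h F hF
    rw [hcard] at h1
    have := Nat.lt_floor_add_one N
    push_cast at h1
    linarith
  refine ⟨hfin, ?_⟩
  rw [Set.ncard_eq_toFinset_card _ hfin]
  exact h _ (by simp)

end

/-- The pairs `(I, x)`, `I` a nonzero ideal of norm at most `X`, `x ≠ 0, 1` with support in `I`
and `rad x > R`. -/
def prs (K : Type*) [Field K] [NumberField K] (R X : ℝ) : Set (Ideal (𝓞 K) × K) :=
  {p | p.1 ≠ ⊥ ∧ (Ideal.absNorm p.1 : ℝ) ≤ X ∧ p.2 ≠ 0 ∧ p.2 ≠ 1 ∧
    (∀ v ∈ supp p.2, v.asIdeal ∣ p.1) ∧ R < rad p.2}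

open Classical in
theorem corU (K : Type*) [Field K] [NumberField K] :
    ∃ C c : ℝ, 0 < C ∧ 0 < c ∧ c < 1 ∧ ∀ R X : ℝ, 0 ≤ R → 1 ≤ X →
      (prs K R X).Finite ∧ (((prs K R X).ncard : ℕ) : ℝ) ≤ C * X * Real.exp (-R ^ c) := by
  obtain ⟨c, W, hc, hc1, HS⟩ := series K
  obtain ⟨C1, hC1, HI⟩ := idl_le K
  have hW0 : 0 ≤ W := by simpa using HS ∅ (by simp)
  refine ⟨C1 * (W + 1), c, by positivity, hc, hc1, fun R X hR hX => ?_⟩
  refine corU_fin _ _ fun F hF => ?_
  set G : Finset K := F.image Prod.snd with hG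
  have hGm : ∀ x ∈ G, x ≠ 0 ∧ x ≠ 1 ∧ R < rad x := by
    intro x hx
    obtain ⟨p, hp, rfl⟩ := Finset.mem_image.1 hx
    have := hF (Finset.mem_coe.2 hp)
    exact ⟨this.2.2.1, this.2.2.2.1, this.2.2.2.2.2⟩
  have hcardF : F.card ≤ ∑ x ∈ G, ((F.filter fun p => p.2 = x)).card := by
    rw [Finset.card_eq_sum_card_image Prod.snd F]
  have hx : ∀ x ∈ G, (((F.filter fun p => p.2 = x).card : ℕ) : ℝ) ≤
      C1 * X * Real.exp (-R ^ c) * Real.exp ((rad x) ^ c - rad x) := by
    intro x hxG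
    obtain ⟨hx0, hx1, hxR⟩ := hGm x hxG
    have hsf := supp_finite hx0 hx1
    set S := hsf.toFinset with hS
    have hSx : supp x = (S : Set (HeightOneSpectrum (𝓞 K))) := by rw [hS]; simp
    have hrad := rad_eq hx0 hx1 S hSx
    set J := ∏ v ∈ S, v.asIdeal with hJ
    have h1 : (F.filter fun p => p.2 = x).card ≤ ((idl K X).filter (fun I => J ∣ I)).card := by
      refine Finset.card_le_card_of_injOn Prod.fst ?_ ?_
      · intro p hp
        obtain ⟨hpF, hp2⟩ := Finset.mem_filter.1 hp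
        have hpm := hF (Finset.mem_coe.2 hpF)
        refine Finset.mem_coe.2 (Finset.mem_filter.2 ⟨mem_idl.2 ⟨hpm.1, hpm.2.1⟩, ?_⟩)
        rw [hJ, corU_dvd]
        intro v hv
        refine hpm.2.2.2.2.1 v ?_
        rw [hp2, hSx]
        exact Finset.mem_coe.2 hv
      · intro p hp q hq hpq
        have h2 := (Finset.mem_filter.1 hp).2
        have h3 := (Finset.mem_filter.1 hq).2
        exact Prod.ext hpq (h2.trans h3.symm)
    have h2 : (((idl K X).filter (fun I => J ∣ I)).card : ℝ) ≤ C1 * (X / Ideal.absNorm J) := by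
      rw [idl_dvd K J (corU_ne S) X]
      exact HI _ (div_nonneg (by linarith) (Nat.cast_nonneg _))
    have h3 : C1 * (X / Ideal.absNorm J) = C1 * X * Real.exp (-rad x) := by
      rw [hJ, corU_norm, ← hrad, Real.exp_neg]
      ring
    have h4 : C1 * X * Real.exp (-rad x) ≤
        C1 * X * Real.exp (-R ^ c) * Real.exp ((rad x) ^ c - rad x) := by
      rw [mul_assoc (C1 * X), ← Real.exp_add]
      refine mul_le_mul_of_nonneg_left (Real.exp_le_exp.2 ?_) (by positivity)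
      have : R ^ c ≤ rad x ^ c := Real.rpow_le_rpow hR hxR.le hc.le
      linarith
    calc (((F.filter fun p => p.2 = x).card : ℕ) : ℝ)
        ≤ (((idl K X).filter (fun I => J ∣ I)).card : ℝ) := by exact_mod_cast h1
      _ ≤ _ := h2
      _ = _ := h3
      _ ≤ _ := h4
  calc (F.card : ℝ) ≤ ∑ x ∈ G, (((F.filter fun p => p.2 = x).card : ℕ) : ℝ) := by
        exact_mod_cast hcardF
    _ ≤ ∑ x ∈ G, C1 * X * Real.exp (-R ^ c) * Real.exp ((rad x) ^ c - rad x) :=
        Finset.sum_le_sum hx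
    _ = C1 * X * Real.exp (-R ^ c) * ∑ x ∈ G, Real.exp ((rad x) ^ c - rad x) := by
        rw [Finset.mul_sum]
    _ ≤ C1 * X * Real.exp (-R ^ c) * (W + 1) := by
        refine mul_le_mul_of_nonneg_left ?_ (by positivity)
        have := HS G (fun x hx => ⟨(hGm x hx).1, (hGm x hx).2.1⟩)
        linarith
    _ = _ := by ring

end Pool.Agent.TMS
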