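import Mathlib
import Pool.Agent.TMS.Block
import Pool.Agent.TMS.IdAsym

/-!
# NewP

The number of `x` whose support contains exactly `k` places outside `T`, all of norm at most `P`.
-/

namespace Pool.Agent.TMS

open NumberField IsDedekindDomain Pool.Agent.H7.Abc Pool.Agent.AbcE

theorem newP_fin {α : Type*} (S : Set α) (F : Finset α) (N : ℝ) (h : S ⊆ (F : Set α))
    (hF : (F.card : ℝ) ≤ N) : S.Finite ∧ (S.ncard : ℝ) ≤ N := by
  have hfin : S.Finite := F.finite_toSet.subset h
  refine ⟨hfin, le_trans ?_ hF⟩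
  have := Set.ncard_le_ncard h F.finite_toSet
  rw [Set.ncard_coe_finset] at this
  exact_mod_cast this

open Classical in
theorem newP (K : Type*) [Field K] [NumberField K] :
    ∃ C δ : ℝ, 0 < C ∧ 0 < δ ∧ δ < 1 / 2 ∧ ∀ (T : Finset (HeightOneSpectrum (𝓞 K))) (k : ℕ)
      (P : ℝ), 1 ≤ k → 2 ≤ P →
      {x : K | x ≠ 0 ∧ x ≠ 1 ∧ ∃ V : Finset (HeightOneSpectrum (𝓞 K)), V.card = k ∧
        (∀ v ∈ V, (Ideal.absNorm v.asIdeal : ℝ) ≤ P) ∧
        supp x \ (T : Set (HeightOneSpectrum (𝓞 K))) = (V : Set (HeightOneSpectrum (𝓞 K)))}.Finite ∧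
      ({x : K | x ≠ 0 ∧ x ≠ 1 ∧ ∃ V : Finset (HeightOneSpectrum (𝓞 K)), V.card = k ∧
        (∀ v ∈ V, (Ideal.absNorm v.asIdeal : ℝ) ≤ P) ∧
        supp x \ (T : Set (HeightOneSpectrum (𝓞 K))) =
          (V : Set (HeightOneSpectrum (𝓞 K)))}.ncard : ℝ) ≤
        P ^ (k - 1) * Real.exp (C * (T.card + k) * (Real.log P) ^ (1 - δ)) := by
  obtain ⟨C0, δ, hC0, hδ, hδ2, H⟩ := theoremI K
  obtain ⟨C1, hC1, H1⟩ := plc_card_le K
  obtain ⟨C2, hC2, H2⟩ := supp_card K
  set D : ℝ := max C1 1 with hD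
  have hD1 : 1 ≤ D := le_max_right _ _
  have hlD : 0 ≤ Real.log D := Real.log_nonneg hD1
  have hl2 : 0 < Real.log 2 := Real.log_pos (by norm_num)
  have hl21 : Real.log 2 ≤ 1 := by
    have := Real.log_two_lt_d9
    linarith
  refine ⟨C0 + (Real.log D + 1 + 2 * C2) / Real.log 2, δ, by positivity, hδ, hδ2, ?_⟩
  intro T k P hk hP
  have hlP : Real.log 2 ≤ Real.log P := Real.log_le_log (by norm_num) hP
  set q : ℝ := (Real.log P) ^ (1 - δ) with hq
  have hq2 : Real.log 2 ≤ q := by
    have h1 : (Real.log 2) ^ (1 - δ) ≤ q := Real.rpow_le_rpow hl2.le hlP (by linarith)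
    have h2 : (Real.log 2) ^ (1 : ℝ) ≤ (Real.log 2) ^ (1 - δ) :=
      Real.rpow_le_rpow_of_exponent_ge hl2 hl21 (by linarith)
    rw [Real.rpow_one] at h2
    linarith
  have hq0 : 0 < q := by linarith
  set X : Finset (HeightOneSpectrum (𝓞 K)) → Finset K := fun S => (H2 S).1.toFinset with hX
  have hXcard : ∀ S, ((X S).card : ℝ) ≤ Real.exp (C2 * (S.card + 1)) := by
    intro S
    have := (H2 S).2
    rwa [Set.ncard_eq_toFinset_card _ (H2 S).1] at this
  set A := (Finset.powersetCard (k - 1) (plc K P)) ×ˢ T.powerset with hA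
  set Vs : Finset (HeightOneSpectrum (𝓞 K)) → Finset (HeightOneSpectrum (𝓞 K)) :=
    fun S => (plc K P).filter (fun v => v ∉ S ∧ Cond (K := K) (insert v S)) with hVs
  set F : Finset K := A.biUnion fun a => (Vs (a.1 ∪ a.2)).biUnion
    fun v => X (insert v (a.1 ∪ a.2)) with hF
  refine newP_fin _ F _ ?_ ?_
  · rintro x ⟨hx, hx1, V, hVk, hVP, hV⟩
    have hne : V.Nonempty := Finset.card_pos.1 (by omega)
    obtain ⟨v0, hv0⟩ := hne
    have hv0' : v0 ∈ supp x ∧ v0 ∉ T := by
      have : v0 ∈ supp x \ (T : Set (HeightOneSpectrum (𝓞 K))) := by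
        rw [hV]; exact Finset.mem_coe.2 hv0
      exact ⟨this.1, fun h => this.2 (Finset.mem_coe.2 h)⟩
    have hS : supp x = ((insert v0 (V.erase v0 ∪ T.filter (fun v => v ∈ supp x)) :
        Finset (HeightOneSpectrum (𝓞 K))) : Set (HeightOneSpectrum (𝓞 K))) := by
      ext v
      rw [Finset.mem_coe, Finset.mem_insert, Finset.mem_union, Finset.mem_erase,
        Finset.mem_filter]
      constructor
      · intro hv
        by_cases hvT : v ∈ T
        · exact Or.inr (Or.inr ⟨hvT, hv⟩)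
        · have h1 : v ∈ (V : Set (HeightOneSpectrum (𝓞 K))) := by
            rw [← hV]; exact ⟨hv, fun h => hvT (Finset.mem_coe.1 h)⟩
          by_cases hvv : v = v0
          · exact Or.inl hvv
          · exact Or.inr (Or.inl ⟨hvv, Finset.mem_coe.1 h1⟩)
      · rintro (rfl | ⟨-, h⟩ | ⟨-, h⟩)
        · exact hv0'.1
        · have h1 : v ∈ supp x \ (T : Set (HeightOneSpectrum (𝓞 K))) := by
            rw [hV]; exact Finset.mem_coe.2 h
          exact h1.1
        · exact h
    rw [hF, Finset.mem_coe, Finset.mem_biUnion]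
    refine ⟨(V.erase v0, T.filter (fun v => v ∈ supp x)), ?_, ?_⟩
    · rw [hA, Finset.mem_product, Finset.mem_powersetCard, Finset.mem_powerset]
      refine ⟨⟨fun v hv => mem_plc.2 (hVP v (Finset.mem_of_mem_erase hv)), ?_⟩,
        Finset.filter_subset _ _⟩
      show (V.erase v0).card = k - 1
      rw [Finset.card_erase_of_mem hv0, hVk]
    · rw [Finset.mem_biUnion]
      refine ⟨v0, ?_, ?_⟩
      · rw [hVs, Finset.mem_filter]
        refine ⟨mem_plc.2 (hVP v0 hv0), ?_, ⟨x, hx, hx1, hS⟩⟩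
        show v0 ∉ V.erase v0 ∪ T.filter (fun v => v ∈ supp x)
        rw [Finset.mem_union, Finset.mem_erase, Finset.mem_filter]
        rintro (⟨h, -⟩ | ⟨h, -⟩)
        · exact h rfl
        · exact hv0'.2 h
      · show x ∈ X _
        rw [hX, Set.Finite.mem_toFinset]
        exact ⟨hx, hx1, hS⟩
  · have hPpos : 0 < P := by linarith
    have hk1 : ((k - 1 : ℕ) : ℝ) = (k : ℝ) - 1 := by
      rw [Nat.cast_sub hk, Nat.cast_one]
    have hAcard : (A.card : ℝ) ≤ (D * P) ^ (k - 1) * 2 ^ T.card := by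
      rw [hA, Finset.card_product, Finset.card_powersetCard, Finset.card_powerset, Nat.cast_mul]
      have h1 : (((plc K P).card.choose (k - 1) : ℕ) : ℝ) ≤ ((plc K P).card : ℝ) ^ (k - 1) := by
        exact_mod_cast Nat.choose_le_pow _ _
      have h2 : ((plc K P).card : ℝ) ≤ D * P :=
        le_trans (H1 P hPpos.le) (mul_le_mul_of_nonneg_right (le_max_left _ _) hPpos.le)
      refine mul_le_mul (le_trans h1 (pow_le_pow_left₀ (Nat.cast_nonneg _) h2 _))
        (by push_cast; exact le_rfl) (Nat.cast_nonneg _) (by positivity)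
    have hterm : ∀ a ∈ A, (((Vs (a.1 ∪ a.2)).biUnion
        fun v => X (insert v (a.1 ∪ a.2))).card : ℝ) ≤
        Real.exp (C0 * (T.card + k) * q) * Real.exp (2 * C2 * (T.card + k)) := by
      rintro ⟨W, T0⟩ ha
      rw [hA, Finset.mem_product, Finset.mem_powersetCard, Finset.mem_powerset] at ha
      obtain ⟨⟨hW1, hW2⟩, hT0⟩ := ha
      simp only at hW1 hW2 hT0 ⊢
      have hcard : ((W ∪ T0).card : ℝ) + 1 ≤ T.card + k := by
        have h1 : (W ∪ T0).card ≤ W.card + T0.card := Finset.card_union_le _ _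
        have h2 : T0.card ≤ T.card := Finset.card_le_card hT0
        have h3 : (W ∪ T0).card + 1 ≤ T.card + k := by omega
        exact_mod_cast h3
      have h1 : ((Vs (W ∪ T0)).card : ℝ) ≤ Real.exp (C0 * (T.card + k) * q) := by
        refine le_trans (H (W ∪ T0) (Vs (W ∪ T0)) P hP fun v hv => ?_) ?_
        · rw [hVs, Finset.mem_filter] at hv
          exact ⟨hv.2.1, mem_plc.1 hv.1, hv.2.2⟩
        · refine Real.exp_le_exp.2 (mul_le_mul_of_nonneg_right ?_ hq0.le)
          exact mul_le_mul_of_nonneg_left hcard hC0.le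
      have h2 : ∀ v ∈ Vs (W ∪ T0), ((X (insert v (W ∪ T0))).card : ℝ) ≤
          Real.exp (2 * C2 * (T.card + k)) := by
        intro v _
        refine le_trans (hXcard _) (Real.exp_le_exp.2 ?_)
        have h3 : ((insert v (W ∪ T0)).card : ℝ) ≤ ((W ∪ T0).card : ℝ) + 1 := by
          exact_mod_cast Finset.card_insert_le _ _
        have h4 : (1 : ℝ) ≤ T.card + k := by
          have : (1 : ℝ) ≤ k := by exact_mod_cast hk
          have : (0 : ℝ) ≤ T.card := Nat.cast_nonneg _
          linarith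
        nlinarith
      calc (((Vs (W ∪ T0)).biUnion fun v => X (insert v (W ∪ T0))).card : ℝ)
          ≤ ∑ v ∈ Vs (W ∪ T0), ((X (insert v (W ∪ T0))).card : ℝ) := by
            exact_mod_cast Finset.card_biUnion_le
        _ ≤ ∑ v ∈ Vs (W ∪ T0), Real.exp (2 * C2 * (T.card + k)) := Finset.sum_le_sum h2
        _ = ((Vs (W ∪ T0)).card : ℝ) * Real.exp (2 * C2 * (T.card + k)) := by
            rw [Finset.sum_const, nsmul_eq_mul]
        _ ≤ _ := mul_le_mul_of_nonneg_right h1 (Real.exp_pos _).le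
    have hFcard : (F.card : ℝ) ≤ (A.card : ℝ) *
        (Real.exp (C0 * (T.card + k) * q) * Real.exp (2 * C2 * (T.card + k))) := by
      calc (F.card : ℝ) ≤ ∑ a ∈ A, (((Vs (a.1 ∪ a.2)).biUnion
            fun v => X (insert v (a.1 ∪ a.2))).card : ℝ) := by
            rw [hF]; exact_mod_cast Finset.card_biUnion_le
        _ ≤ ∑ a ∈ A, (Real.exp (C0 * (T.card + k) * q) * Real.exp (2 * C2 * (T.card + k))) :=
            Finset.sum_le_sum hterm
        _ = _ := by rw [Finset.sum_const, nsmul_eq_mul]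
    refine le_trans hFcard (le_trans (mul_le_mul_of_nonneg_right hAcard (by positivity)) ?_)
    have hT0 : (0 : ℝ) ≤ T.card := Nat.cast_nonneg _
    have hkR : (1 : ℝ) ≤ k := by exact_mod_cast hk
    have e1 : D ^ (k - 1) = Real.exp (((k : ℝ) - 1) * Real.log D) := by
      rw [← hk1, ← Real.log_pow, Real.exp_log (by positivity)]
    have e2 : (2 : ℝ) ^ T.card = Real.exp (T.card * Real.log 2) := by
      rw [← Real.log_pow, Real.exp_log (by positivity)]
    rw [mul_pow, e1, e2]
    have e3 : Real.exp (((k : ℝ) - 1) * Real.log D) * P ^ (k - 1) * Real.exp (T.card * Real.log 2) *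
        (Real.exp (C0 * (T.card + k) * q) * Real.exp (2 * C2 * (T.card + k))) =
        P ^ (k - 1) * Real.exp (((k : ℝ) - 1) * Real.log D + T.card * Real.log 2 +
          C0 * (T.card + k) * q + 2 * C2 * (T.card + k)) := by
      rw [Real.exp_add, Real.exp_add, Real.exp_add]
      ring
    rw [e3]
    refine mul_le_mul_of_nonneg_left (Real.exp_le_exp.2 ?_) (by positivity)
    have hM : ((T.card : ℝ) + k) * (Real.log D + 1 + 2 * C2) ≤
        ((T.card : ℝ) + k) * ((Real.log D + 1 + 2 * C2) / Real.log 2 * q) := by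
      refine mul_le_mul_of_nonneg_left ?_ (by positivity)
      rw [div_mul_eq_mul_div, le_div_iff₀ hl2]
      exact mul_le_mul_of_nonneg_left hq2 (by positivity)
    nlinarith [mul_nonneg hT0 hlD, mul_nonneg hT0 hl2.le]

end Pool.Agent.TMS
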