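import Mathlib
import Pool.Agent.TMS.NewP

namespace Pool.Agent.Results.MP_f5a5f7_nt.NewPlaces

open NumberField IsDedekindDomain Pool.Agent.H7.Abc Pool.Agent.AbcE Pool.Agent.TMS

variable (K : Type) [Field K] [NumberField K]

/-- The finite places at which `x` or `x - 1` is not a unit. -/
def support (x : K) : Set (HeightOneSpectrum (𝓞 K)) :=
  {v | NumberField.FinitePlace.mk v x ≠ 1 ∨ NumberField.FinitePlace.mk v (x - 1) ≠ 1}

/-- The `x ≠ 0, 1` whose support contains exactly `k` places outside `T`, all of these of norm at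
most `P`. -/
def newSolutions (T : Finset (HeightOneSpectrum (𝓞 K))) (k : ℕ) (P : ℝ) : Set K :=
  {x | x ≠ 0 ∧ x ≠ 1 ∧ ∃ V : Finset (HeightOneSpectrum (𝓞 K)), V.card = k ∧
    (∀ v ∈ V, (Ideal.absNorm v.asIdeal : ℝ) ≤ P) ∧
    support K x \ (T : Set (HeightOneSpectrum (𝓞 K))) = (V : Set (HeightOneSpectrum (𝓞 K)))}

variable {K}

theorem support_eq {x : K} (hx : x ≠ 0) (hx1 : x ≠ 1) : support K x = supp x := by
  ext v
  show (_ ≠ _ ∨ _ ≠ _) ↔ (_ ≠ _ ∨ _ ≠ _)
  rw [ne_eq, ne_eq, ne_eq, ne_eq, ord_eq_zero_iff v hx, ord_eq_zero_iff v (sub_ne_zero.2 hx1)]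

/-- Let `K` be a number field. There are `C` and `δ > 0` such that for every finite set `T` of
finite places, every `k ≥ 1` and every `P ≥ 2` the number of `x ≠ 0, 1` in `K` whose support
contains exactly `k` places outside `T`, all of norm at most `P`, is at most
`P ^ (k - 1) * exp(C (|T| + k) (log P) ^ (1 - δ))`. -/
theorem result (K : Type) [Field K] [NumberField K] :
    ∃ C δ : ℝ, 0 < δ ∧ ∀ (T : Finset (HeightOneSpectrum (𝓞 K))) (k : ℕ) (P : ℝ),
      1 ≤ k → 2 ≤ P → (newSolutions K T k P).Finite ∧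
      ((newSolutions K T k P).ncard : ℝ) ≤
        P ^ (k - 1) * Real.exp (C * (T.card + k) * (Real.log P) ^ (1 - δ)) := by
  obtain ⟨C, δ, hC, hδ, hδ2, H⟩ := newP K
  refine ⟨C, δ, hδ, fun T k P hk hP => ?_⟩
  have hset : newSolutions K T k P = {x : K | x ≠ 0 ∧ x ≠ 1 ∧
      ∃ V : Finset (HeightOneSpectrum (𝓞 K)), V.card = k ∧
        (∀ v ∈ V, (Ideal.absNorm v.asIdeal : ℝ) ≤ P) ∧
        supp x \ (T : Set (HeightOneSpectrum (𝓞 K))) =
          (V : Set (HeightOneSpectrum (𝓞 K)))} := by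
    ext x
    constructor
    · rintro ⟨hx, hx1, V, h1, h2, h3⟩
      exact ⟨hx, hx1, V, h1, h2, by rw [← support_eq hx hx1]; exact h3⟩
    · rintro ⟨hx, hx1, V, h1, h2, h3⟩
      exact ⟨hx, hx1, V, h1, h2, by rw [support_eq hx hx1]; exact h3⟩
  rw [hset]
  exact H T k P hk hP

end Pool.Agent.Results.MP_f5a5f7_nt.NewPlaces
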